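import Pool.Agent.H43.PG.Defs

/-!
# One dyadic range `(M,M']`, all `P`, `P2`, given `LC2` (H43/PG)

`LC2` is `LC` with `P >= l^A2`, `M^2 l^A2 <= X P` in place of `P >= M^ε`, `M^(2+ε) <= X P`. The interval `(P,P2]` is split
at the points `min (2^j P) P2`.
-/

namespace Pool.Agent.H43.PG

open Finset

/-- the mean square for the dyadic ranges `(M,M']`, `X <= 8 M^3`, `P <= P2 <= 2P` -/
def LC2 : Prop := ∀ A ε : ℝ, 0 < A → 0 < ε → ∃ K1 : ℕ, ∀ k0 : ℕ, K1 ≤ k0 →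
    ∃ A2 : ℝ, 0 < A2 ∧ ∃ X0 : ℕ, ∀ X : ℕ, X0 ≤ X →
    ∀ Q M M' P P2 : ℕ, 2 ^ 64 * (Real.log X) ^ (24 * k0) ≤ Q → (Q : ℝ) ≤ (Real.log X) ^ (25 * k0) →
    X ≤ 8 * M ^ 3 → 2 * M ≤ M' → M' ≤ 2 * M + 1 → P ≤ P2 → P2 ≤ 2 * P → (Real.log X) ^ A2 ≤ P →
    (M : ℝ) ^ 2 * (Real.log X) ^ A2 ≤ X * P → (P2 : ℝ) ^ 5 * (M : ℝ) ^ ε ≤ M →
    (P2 : ℝ) ^ 5 * (M : ℝ) ^ (3 + ε) ≤ (X : ℝ) ^ 2 →
    ∑ k ∈ Icc 1 X, (∑ m ∈ Ioc M M', ae P P2 Q (m ^ 3 + k)) ^ 2 ≤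
      X * (M : ℝ) ^ 2 * (Real.log X) ^ (-A)

theorem ae_add (a b c Q n : ℕ) (h1 : a ≤ b) (h2 : b ≤ c) : ae a c Q n = ae a b Q n + ae b c Q n := by
  have hu : Ioc a c = Ioc a b ∪ Ioc b c := (Finset.Ioc_union_Ioc_eq_Ioc h1 h2).symm
  have hd : Disjoint (Ioc a b) (Ioc b c) := by
    rw [Finset.disjoint_left]
    intro x hx hx'
    rw [Finset.mem_Ioc] at hx hx'
    omega
  have e1 : TQ.ue a c n = TQ.ue a b n + TQ.ue b c n := by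
    unfold TQ.ue
    rw [hu, Finset.filter_union, Finset.card_union_of_disjoint]
    · push_cast
      ring
    · exact Finset.disjoint_filter_filter hd
  have e2 : TQ.lam a c n = TQ.lam a b n + TQ.lam b c n := by
    unfold TQ.lam
    rw [hu, Finset.filter_union, Finset.sum_union]
    exact Finset.disjoint_filter_filter hd
  unfold ae
  rw [e1, e2]
  ring

theorem ae_self (a Q n : ℕ) : ae a a Q n = 0 := by
  unfold ae TQ.ue TQ.lam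
  simp

private theorem ae_tel (D : ℕ → ℕ) (hD : ∀ j, D j ≤ D (j + 1)) (Q n J : ℕ) :
    ae (D 0) (D J) Q n = ∑ j ∈ range J, ae (D j) (D (j + 1)) Q n := by
  induction J with
  | zero => simp [ae_self]
  | succ J ih =>
    rw [Finset.sum_range_succ, ← ih]
    exact ae_add _ _ _ _ _ (monotone_nat_of_le_succ hD (Nat.zero_le J)) (hD J)

theorem dy2 (hLC : LC2) (A ε : ℝ) (hA : 0 < A) (hε : 0 < ε) : ∃ K1 : ℕ, ∀ k0 : ℕ, K1 ≤ k0 →
    ∃ A2 : ℝ, 0 < A2 ∧ ∃ X0 : ℕ, ∀ X : ℕ, X0 ≤ X → ∀ Q M M' P P2 : ℕ,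
    2 ^ 64 * (Real.log X) ^ (24 * k0) ≤ Q → (Q : ℝ) ≤ (Real.log X) ^ (25 * k0) →
    X ≤ 8 * M ^ 3 → 2 * M ≤ M' → M' ≤ 2 * M + 1 → (Real.log X) ^ A2 ≤ P → P ≤ P2 →
    (M : ℝ) ^ 2 * (Real.log X) ^ A2 ≤ X * P → (P2 : ℝ) ^ 5 * (M : ℝ) ^ ε ≤ M →
    (P2 : ℝ) ^ 5 * (M : ℝ) ^ (3 + ε) ≤ (X : ℝ) ^ 2 →
    ∑ k ∈ Icc 1 X, (∑ m ∈ Ioc M M', ae P P2 Q (m ^ 3 + k)) ^ 2 ≤
      X * (M : ℝ) ^ 2 * (Real.log X) ^ (-A) := by
  obtain ⟨K1, hK1⟩ := hLC (A + 4) ε (by linarith) hε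
  refine ⟨K1, fun k0 hk0 => ?_⟩
  obtain ⟨A2, hA2, X1, hX1⟩ := hK1 k0 hk0
  refine ⟨A2, hA2, ?_⟩
  have hlim : Filter.Tendsto (fun X : ℕ => Real.log X) Filter.atTop Filter.atTop :=
    Real.tendsto_log_atTop.comp tendsto_natCast_atTop_atTop
  obtain ⟨X2, hX2⟩ := Filter.eventually_atTop.1 (hlim.eventually_ge_atTop 10)
  refine ⟨max (max X1 X2) 3, fun X hX Q M M' P P2 hQ1 hQ2 hXM hM1 hM2 hP hPP hMX hPM hPX => ?_⟩
  have hXX1 : X1 ≤ X := le_trans (le_trans (le_max_left _ _) (le_max_left _ _)) hX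
  have hXX2 : X2 ≤ X := le_trans (le_trans (le_max_right _ _) (le_max_left _ _)) hX
  have hX3 : 3 ≤ X := le_trans (le_max_right _ _) hX
  have hL : 10 ≤ Real.log X := hX2 X hXX2
  set l := Real.log X with hl
  have hXr : (3 : ℝ) ≤ X := by exact_mod_cast hX3
  have hX0 : (0 : ℝ) < X := by linarith
  have hl0 : (0 : ℝ) < l := by linarith
  have hM0 : 0 < M := by
    rcases Nat.eq_zero_or_pos M with h | h
    · exfalso
      rw [h] at hXM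
      omega
    · exact h
  have hMr : (1 : ℝ) ≤ M := by exact_mod_cast hM0
  -- P2 <= X
  have hP2X : (P2 : ℝ) ≤ X := by
    have h1 : (P2 : ℝ) ^ 5 ≤ (X : ℝ) ^ 2 := by
      have h2 : (1 : ℝ) ≤ (M : ℝ) ^ (3 + ε) := Real.one_le_rpow hMr (by linarith)
      have h3 : (P2 : ℝ) ^ 5 * 1 ≤ (P2 : ℝ) ^ 5 * (M : ℝ) ^ (3 + ε) :=
        mul_le_mul_of_nonneg_left h2 (by positivity)
      linarith
    by_contra hcon
    push Not at hcon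
    have h4 : (X : ℝ) ^ 5 < (P2 : ℝ) ^ 5 := pow_lt_pow_left₀ hcon hX0.le (by norm_num)
    have h5 : (X : ℝ) ^ 2 ≤ (X : ℝ) ^ 5 := pow_le_pow_right₀ (by linarith) (by norm_num)
    linarith
  set D : ℕ → ℕ := fun j => min (2 ^ j * P) P2 with hDdef
  have hDmono : ∀ j, D j ≤ D (j + 1) := by
    intro j
    have : 2 ^ j * P ≤ 2 ^ (j + 1) * P := Nat.mul_le_mul_right _ (Nat.pow_le_pow_right (by norm_num) (by omega))
    exact min_le_min_right _ this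
  have hD2 : ∀ j, D (j + 1) ≤ 2 * D j := by
    intro j
    have h1 : 2 ^ (j + 1) * P = 2 * (2 ^ j * P) := by rw [pow_succ]; ring
    simp only [hDdef, h1]
    omega
  have hD0 : D 0 = P := by simp [hDdef, hPP]
  have hDP : ∀ j, P ≤ D j := by
    intro j
    have := monotone_nat_of_le_succ hDmono (Nat.zero_le j)
    rwa [hD0] at this
  have hDP2 : ∀ j, D j ≤ P2 := fun j => min_le_right _ _
  set J := Nat.log 2 P2 + 1 with hJ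
  have hP1 : 1 ≤ P := by
    have h1 : (0 : ℝ) < P := lt_of_lt_of_le (Real.rpow_pos_of_pos hl0 A2) hP
    exact_mod_cast h1
  have hP21 : 1 ≤ P2 := le_trans hP1 hPP
  have hDJ : D J = P2 := by
    have h1 : P2 < 2 ^ J := Nat.lt_pow_succ_log_self (by norm_num) P2
    have h2 : 2 ^ J * 1 ≤ 2 ^ J * P := Nat.mul_le_mul_left _ hP1
    simp only [hDdef]
    omega
  have hJl : (J : ℝ) ≤ 2 * l := by
    have h1 : 2 ^ (Nat.log 2 P2) ≤ P2 := Nat.pow_log_le_self 2 (by omega)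
    have h2 : Real.log ((2 : ℝ) ^ (Nat.log 2 P2)) ≤ Real.log X := by
      apply Real.log_le_log (by positivity)
      refine le_trans ?_ hP2X
      exact_mod_cast h1
    rw [Real.log_pow] at h2
    have h3 := Real.log_two_gt_d9
    have h4 : (0 : ℝ) ≤ (Nat.log 2 P2 : ℕ) := Nat.cast_nonneg _
    rw [hJ]
    push_cast
    nlinarith
  have hpiece : ∀ j ∈ range J, ∑ k ∈ Icc 1 X, (∑ m ∈ Ioc M M', ae (D j) (D (j + 1)) Q (m ^ 3 + k)) ^ 2 ≤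
      X * (M : ℝ) ^ 2 * l ^ (-(A + 4)) := by
    intro j _
    have c1 : (P : ℝ) ≤ (D j : ℝ) := by exact_mod_cast hDP j
    have c2 : ((D (j + 1) : ℕ) : ℝ) ≤ (P2 : ℝ) := by exact_mod_cast hDP2 (j + 1)
    have c3 : ((D (j + 1) : ℕ) : ℝ) ^ 5 ≤ (P2 : ℝ) ^ 5 := pow_le_pow_left₀ (Nat.cast_nonneg _) c2 5
    refine hX1 X hXX1 Q M M' (D j) (D (j + 1)) hQ1 hQ2 hXM hM1 hM2 (hDmono j) (hD2 j) (le_trans hP c1) ?_ ?_ ?_
    · exact le_trans hMX (mul_le_mul_of_nonneg_left c1 hX0.le)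
    · exact le_trans (mul_le_mul_of_nonneg_right c3 (by positivity)) hPM
    · exact le_trans (mul_le_mul_of_nonneg_right c3 (by positivity)) hPX
  have hsum : ∀ k, ∑ m ∈ Ioc M M', ae P P2 Q (m ^ 3 + k) =
      ∑ j ∈ range J, ∑ m ∈ Ioc M M', ae (D j) (D (j + 1)) Q (m ^ 3 + k) := by
    intro k
    rw [Finset.sum_comm]
    refine Finset.sum_congr rfl fun m _ => ?_
    rw [← ae_tel D hDmono, hD0, hDJ]
  have hcs : ∀ k, (∑ m ∈ Ioc M M', ae P P2 Q (m ^ 3 + k)) ^ 2 ≤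
      J * ∑ j ∈ range J, (∑ m ∈ Ioc M M', ae (D j) (D (j + 1)) Q (m ^ 3 + k)) ^ 2 := by
    intro k
    rw [hsum k]
    have := sq_sum_le_card_mul_sum_sq (s := range J)
      (f := fun j => ∑ m ∈ Ioc M M', ae (D j) (D (j + 1)) Q (m ^ 3 + k))
    rwa [Finset.card_range] at this
  calc ∑ k ∈ Icc 1 X, (∑ m ∈ Ioc M M', ae P P2 Q (m ^ 3 + k)) ^ 2
      ≤ ∑ k ∈ Icc 1 X, (J : ℝ) * ∑ j ∈ range J, (∑ m ∈ Ioc M M', ae (D j) (D (j + 1)) Q (m ^ 3 + k)) ^ 2 :=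
        Finset.sum_le_sum fun k _ => hcs k
    _ = (J : ℝ) * ∑ j ∈ range J, ∑ k ∈ Icc 1 X, (∑ m ∈ Ioc M M', ae (D j) (D (j + 1)) Q (m ^ 3 + k)) ^ 2 := by
        rw [← Finset.mul_sum, Finset.sum_comm]
    _ ≤ (J : ℝ) * ∑ _j ∈ range J, X * (M : ℝ) ^ 2 * l ^ (-(A + 4)) :=
        mul_le_mul_of_nonneg_left (Finset.sum_le_sum hpiece) (Nat.cast_nonneg _)
    _ = (J : ℝ) ^ 2 * (X * (M : ℝ) ^ 2 * l ^ (-(A + 4))) := by
        rw [Finset.sum_const, Finset.card_range, nsmul_eq_mul]; ring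
    _ ≤ (l ^ 4) * (X * (M : ℝ) ^ 2 * l ^ (-(A + 4))) := by
        refine mul_le_mul_of_nonneg_right ?_ (by positivity)
        have h1 : (J : ℝ) ^ 2 ≤ (2 * l) ^ 2 := pow_le_pow_left₀ (Nat.cast_nonneg _) hJl 2
        have h2 : (4 : ℝ) ≤ l ^ 2 := by nlinarith
        have h3 : 4 * l ^ 2 ≤ l ^ 2 * l ^ 2 := mul_le_mul_of_nonneg_right h2 (by positivity)
        calc (J : ℝ) ^ 2 ≤ (2 * l) ^ 2 := h1
          _ = 4 * l ^ 2 := by ring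
          _ ≤ l ^ 2 * l ^ 2 := h3
          _ = l ^ 4 := by ring
    _ = X * (M : ℝ) ^ 2 * l ^ (-A) := by
        have h1 : l ^ (-(A + 4)) = l ^ (-A) * l ^ (-(4 : ℝ)) := by
          rw [← Real.rpow_add hl0]
          congr 1
          ring
        have h2 : l ^ (-(4 : ℝ)) = (l ^ 4)⁻¹ := by
          rw [Real.rpow_neg hl0.le]
          congr 1
          exact_mod_cast Real.rpow_natCast l 4
        rw [h1, h2]
        field_simp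

end Pool.Agent.H43.PG
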