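import Pool.Agent.H43.PG.St
import Pool.Agent.H43.TQ.Lam
import Pool.Agent.H43.TP.Ram
import Pool.Agent.H43.PG.Dy2

/-!
# Al2: All `M`

PROOF. As `HY/All.lean`. `ℓ = log X`, `dy2` with `(A+4, ε/2)`, `sm1` with `(A+4, B')` (`k0` at least both bounds). `A5 = 25k0 + A + 6`, `C0` large (at least the `C0` of `sm1` plus `A5 + 1`, and `(C0 ε)/4 >= A5 + 2`).
If `M^3 <= X`: `sm1`. Otherwise `M_0 = M`, `M_{i+1} = M_i/2` (natural division), stop at the first `J` with `8 M_{J+1}^3 < X` or `M_{J} < M ℓ^(-A5)` (`J <= 2ℓ`). `Icc 1 M` is the disjoint union of `Icc 1 M_J` and the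
`Ioc M_{i+1} M_i`, `i < J`, with `X <= 8 M_{i+1}^3`, `2M_{i+1} <= M_i <= 2M_{i+1}+1`, `M_{i+1} >= M ℓ^(-A5)/4`: `dy2` applies with `ε/2`: `M_{i+1}^(2+ε/2) <= M^(2+ε) <= X P`;
`P2^5 M_{i+1}^(ε/2) <= P2^5 M^(ε/2) <= M^(1-ε/2) <= M_{i+1}` (`M^(ε/2) >= 4ℓ^A5` as `M >= ℓ^C0`); `P2^5 M_{i+1}^(3+ε/2) <= X^2`. The rest `Icc 1 M_J`: (i) if `M_J < M ℓ^(-A5)`: trivially
`|ae P P2 Q n| <= 2 + ℓQ <= ℓ^(25k0+2)` (`n > Z >= 3P2`), so `<= X M_J^2 ℓ^(50k0+4) <= X M^2 ℓ^(-A-4)`; (ii) otherwise `8 M_{J+1}^3 < X`: `M_J <= 2M_{J+1}+1`, with `M* = min M_J ⌊X^(1/3)⌋` the part `Icc 1 M*` by `sm1`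
(`M* >= M_J - 2`, `P2^5 <= M*` and `M* >= ℓ^(C0')` as above) and at most two more values of `m`, trivially `<= X ℓ^(50k0+4)` each (`<= X M^2 ℓ^(-A-4)`).
Triangle inequality in `L^2` (`all_tri` in `HY/All.lean`): norms `√X M_i ℓ^(-A/2-2)`, `Σ M_i <= 2M`.
-/

namespace Pool.Agent.H43.PG

open Finset

private theorem al2_lq (Q n : ℕ) : |TP.lq Q n| ≤ Q := by
  unfold TP.lq
  refine (abs_sum_le_sum_abs _ _).trans ?_
  have h : ∀ r ∈ Icc 1 Q, |((ArithmeticFunction.moebius r : ℤ) : ℝ) / (r.totient : ℝ) *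
      (TP.crd r n : ℝ)| ≤ 1 := by
    intro r hr
    rw [mem_Icc] at hr
    have htot : (0 : ℝ) < r.totient := by exact_mod_cast Nat.totient_pos.2 hr.1
    have hmu : |((ArithmeticFunction.moebius r : ℤ) : ℝ)| ≤ 1 := by
      exact_mod_cast ArithmeticFunction.abs_moebius_le_one
    rw [abs_mul, abs_div, abs_of_pos htot]
    calc |((ArithmeticFunction.moebius r : ℤ) : ℝ)| / r.totient * |(TP.crd r n : ℝ)|
        ≤ 1 / r.totient * r.totient :=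
          mul_le_mul (div_le_div_of_nonneg_right hmu htot.le) (TP.ram_abs r n hr.1)
            (abs_nonneg _) (by positivity)
      _ = 1 := by field_simp
  refine (Finset.sum_le_sum h).trans ?_
  rw [Finset.sum_const, nsmul_eq_mul, Nat.card_Icc]
  simp

private theorem al2_ae (P P2 Q n : ℕ) (hn : 3 * P2 ≤ n) (L q : ℝ) (hL : Real.log P2 ≤ L)
    (hL4 : 4 ≤ L) (hq : 1 ≤ q) (hQ : (Q : ℝ) ≤ q) : |ae P P2 Q n| ≤ L ^ 2 * q := by
  have h1 := TQ.ue_le P P2 n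
  have h1' : 0 ≤ TQ.ue P P2 n := by
    unfold TQ.ue
    positivity
  have h2 := TQ.lam_le P P2 n hn
  have h2' := TQ.lam_nonneg P P2 n hn
  have h3 := TQ.kap_le P P2
  have h4 : |TQ.lam P P2 n * TP.lq Q n| ≤ (1 + L) * q := by
    rw [abs_mul, abs_of_nonneg h2']
    exact mul_le_mul (by linarith) ((al2_lq Q n).trans hQ) (abs_nonneg _) (by linarith)
  unfold ae
  calc |TQ.ue P P2 n - TQ.lam P P2 n * TP.lq Q n|
      ≤ |TQ.ue P P2 n| + |TQ.lam P P2 n * TP.lq Q n| := abs_sub _ _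
    _ ≤ 2 + (1 + L) * q := by
      rw [abs_of_nonneg h1']
      linarith
    _ ≤ (3 + L) * q := by nlinarith
    _ ≤ L ^ 2 * q := by
      refine mul_le_mul_of_nonneg_right ?_ (by linarith)
      nlinarith

private theorem al2_tri (s : Finset ℕ) (f g : ℕ → ℝ) (a b : ℝ) (ha : 0 ≤ a) (hb : 0 ≤ b)
    (hf : ∑ k ∈ s, f k ^ 2 ≤ a ^ 2) (hg : ∑ k ∈ s, g k ^ 2 ≤ b ^ 2) :
    ∑ k ∈ s, (f k + g k) ^ 2 ≤ (a + b) ^ 2 := by
  have h1 := Finset.sum_mul_sq_le_sq_mul_sq s f g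
  have h2 : (∑ k ∈ s, f k * g k) ^ 2 ≤ (a * b) ^ 2 := by
    rw [mul_pow]
    exact h1.trans (mul_le_mul hf hg (sum_nonneg fun _ _ => sq_nonneg _) (sq_nonneg _))
  have h3 : ∑ k ∈ s, f k * g k ≤ a * b := (abs_le_of_sq_le_sq' h2 (mul_nonneg ha hb)).2
  have h4 : ∑ k ∈ s, (f k + g k) ^ 2 =
      ∑ k ∈ s, f k ^ 2 + 2 * ∑ k ∈ s, f k * g k + ∑ k ∈ s, g k ^ 2 := by
    rw [mul_sum, ← sum_add_distrib, ← sum_add_distrib]
    exact sum_congr rfl fun k _ => by ring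
  rw [h4]
  nlinarith

private theorem al2_triv (F : ℕ → ℕ → ℝ) (s : Finset ℕ) (E : ℝ) (hE : 0 ≤ E)
    (h1 : ∀ m : ℕ, ∑ k ∈ s, (F m k) ^ 2 ≤ E ^ 2) (N : ℕ) :
    ∑ k ∈ s, (∑ m ∈ Icc 1 N, F m k) ^ 2 ≤ (N * E) ^ 2 := by
  induction N with
  | zero => simp
  | succ N ih =>
    have h4 : ∀ k, ∑ m ∈ Icc 1 (N + 1), F m k = ∑ m ∈ Icc 1 N, F m k + F (N + 1) k := by
      intro k
      rw [sum_Icc_succ_top (by omega)]
    simp only [h4]
    refine (al2_tri s _ _ _ _ (by positivity) hE ih (h1 (N + 1))).trans (le_of_eq ?_)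
    push_cast
    ring

private theorem al2_ind (F : ℕ → ℕ → ℝ) (s : Finset ℕ) (X : ℕ) (c E T hi : ℝ) (hc : 0 ≤ c)
    (hE : 0 ≤ E) (hT : 0 ≤ T)
    (hsm : ∀ N : ℕ, T ≤ N + 1 → (N : ℝ) ≤ hi → N ^ 3 ≤ X →
      ∑ k ∈ s, (∑ m ∈ Icc 1 N, F m k) ^ 2 ≤ (c * N) ^ 2)
    (hlg : ∀ N N' : ℕ, X ≤ 8 * N ^ 3 → (N : ℝ) ≤ hi → T ≤ 2 * N + 1 → 2 * N ≤ N' →
      N' ≤ 2 * N + 1 → ∑ k ∈ s, (∑ m ∈ Ioc N N', F m k) ^ 2 ≤ (c * N) ^ 2)
    (h1 : ∀ m : ℕ, ∑ k ∈ s, (F m k) ^ 2 ≤ E ^ 2) :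
    ∀ N : ℕ, (N : ℝ) ≤ hi →
      ∑ k ∈ s, (∑ m ∈ Icc 1 N, F m k) ^ 2 ≤ (c * N + E * (1 + T)) ^ 2 := by
  intro N
  induction N using Nat.strong_induction_on with
  | _ N ih =>
    intro hN
    have hET : 0 ≤ E * T := mul_nonneg hE hT
    have hcN : 0 ≤ c * N := by positivity
    by_cases hNT : (N : ℝ) < T
    · refine (al2_triv F s E hE h1 N).trans ?_
      refine pow_le_pow_left₀ (by positivity) ?_ 2
      have h2 := mul_le_mul_of_nonneg_right hNT.le hE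
      nlinarith
    · push Not at hNT
      by_cases hNX : N ^ 3 ≤ X
      · refine (hsm N (by linarith) hN hNX).trans ?_
        exact pow_le_pow_left₀ hcN (by nlinarith) 2
      · push Not at hNX
        have hN0 : 1 ≤ N := by
          rcases Nat.eq_zero_or_pos N with h | h
          · subst h
            simp at hNX
          · exact h
        by_cases h8 : X ≤ 8 * (N / 2) ^ 3
        · have hlt : N / 2 < N := by omega
          have hle : ((N / 2 : ℕ) : ℝ) ≤ N := by exact_mod_cast hlt.le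
          have h2 := ih (N / 2) hlt (hle.trans hN)
          have h2T : T ≤ 2 * ((N / 2 : ℕ) : ℝ) + 1 := by
            refine hNT.trans ?_
            have h3 : N ≤ 2 * (N / 2) + 1 := by omega
            exact_mod_cast h3
          have h3 := hlg (N / 2) N h8 (hle.trans hN) h2T (by omega) (by omega)
          have h4 : ∀ k, ∑ m ∈ Icc 1 N, F m k =
              ∑ m ∈ Icc 1 (N / 2), F m k + ∑ m ∈ Ioc (N / 2) N, F m k := by
            intro k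
            rw [← sum_union]
            · refine sum_congr ?_ fun _ _ => rfl
              ext x
              simp only [mem_union, mem_Icc, mem_Ioc]
              omega
            · rw [disjoint_left]
              intro x hx hx'
              rw [mem_Icc] at hx
              rw [mem_Ioc] at hx'
              omega
          simp only [h4]
          have hcM : 0 ≤ c * ((N / 2 : ℕ) : ℝ) := by positivity
          have hE1 : 0 ≤ E * (1 + T) := by positivity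
          refine (al2_tri s _ _ _ _ (add_nonneg hcM hE1) hcM h2 h3).trans ?_
          have h5 : 2 * ((N / 2 : ℕ) : ℝ) ≤ N := by
            have : 2 * (N / 2) ≤ N := by omega
            exact_mod_cast this
          refine pow_le_pow_left₀ (by linarith) ?_ 2
          have h6 := mul_le_mul_of_nonneg_left h5 hc
          linarith
        · push Not at h8
          obtain ⟨N0, rfl⟩ : ∃ N0, N = N0 + 1 := ⟨N - 1, by omega⟩
          have hN03 : N0 ^ 3 ≤ X := by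
            have h2 : N0 ≤ 2 * ((N0 + 1) / 2) := by omega
            have h3 := Nat.pow_le_pow_left h2 3
            have h4 : (2 * ((N0 + 1) / 2)) ^ 3 = 8 * ((N0 + 1) / 2) ^ 3 := by ring
            omega
          push_cast at hNT hN
          have h2 := hsm N0 hNT (by linarith) hN03
          have h3 := h1 (N0 + 1)
          have h4 : ∀ k, ∑ m ∈ Icc 1 (N0 + 1), F m k = ∑ m ∈ Icc 1 N0, F m k + F (N0 + 1) k := by
            intro k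
            rw [sum_Icc_succ_top (by omega)]
          simp only [h4]
          have hcM : 0 ≤ c * (N0 : ℝ) := by positivity
          refine (al2_tri s _ _ _ _ hcM hE h2 h3).trans ?_
          refine pow_le_pow_left₀ (by linarith) ?_ 2
          push_cast
          nlinarith

private theorem al2_ev (B' : ℝ) :
    ∃ X0 : ℕ, ∀ X : ℕ, X0 ≤ X → (64 : ℝ) ≤ X ∧ (4 : ℝ) ≤ Real.log X ∧
      (Real.log X) ^ B' ≤ (X : ℝ) ^ ((1 : ℝ) / 2) := by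
  have h2 : ∀ᶠ x : ℝ in Filter.atTop, (Real.log x) ^ B' ≤ x ^ ((1 : ℝ) / 2) := by
    have h := (isLittleO_log_rpow_rpow_atTop B'
      (by norm_num : (0 : ℝ) < 1 / 2)).bound (by norm_num : (0 : ℝ) < 1)
    filter_upwards [h, Filter.eventually_ge_atTop (Real.exp 1)] with x hx hx1
    have hx0 : 0 < x := lt_of_lt_of_le (Real.exp_pos 1) hx1
    have hl : 0 ≤ Real.log x := Real.log_nonneg (le_trans (Real.one_le_exp (by norm_num)) hx1)
    rw [Real.norm_eq_abs, Real.norm_eq_abs, abs_of_nonneg (Real.rpow_nonneg hl _),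
      abs_of_nonneg (Real.rpow_nonneg hx0.le _), one_mul] at hx
    exact hx
  have h3 : ∀ᶠ x : ℝ in Filter.atTop, (4 : ℝ) ≤ Real.log x :=
    Real.tendsto_log_atTop.eventually_ge_atTop 4
  have h4 := (tendsto_natCast_atTop_atTop (R := ℝ)).eventually
    ((h2.and h3).and (Filter.eventually_ge_atTop (64 : ℝ)))
  obtain ⟨X0, hX0⟩ := Filter.eventually_atTop.1 h4
  refine ⟨X0, fun X hX => ?_⟩
  obtain ⟨⟨hb, hc⟩, hd⟩ := hX0 X hX
  exact ⟨hd, hc, hb⟩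

/-- the bounds for the numbers -/
private theorem al2_P2 (X M P2 : ℕ) (ε : ℝ) (hε : 0 < ε) (h64 : (64 : ℝ) ≤ X) (hM1 : (1 : ℝ) ≤ M)
    (h21 : (1 : ℝ) ≤ P2) (hc2 : (P2 : ℝ) ^ 5 * (M : ℝ) ^ ε ≤ M)
    (hc3 : (P2 : ℝ) ^ 5 * (M : ℝ) ^ (3 + ε) ≤ (X : ℝ) ^ 2) :
    (9 : ℝ) * (P2 : ℝ) ^ 2 ≤ X ∧ (P2 : ℝ) ≤ X := by
  have hX0 : (0 : ℝ) < X := by linarith
  have hM0 : (0 : ℝ) < M := by linarith
  have h1 : (P2 : ℝ) ^ 5 ≤ M := by
    refine le_trans ?_ hc2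
    have h2 : (1 : ℝ) ≤ (M : ℝ) ^ ε := Real.one_le_rpow hM1 hε.le
    have h3 : (0 : ℝ) ≤ (P2 : ℝ) ^ 5 := by positivity
    nlinarith
  have h2 : (P2 : ℝ) ^ 5 * (M : ℝ) ^ 3 ≤ (X : ℝ) ^ 2 := by
    refine le_trans (mul_le_mul_of_nonneg_left ?_ (by positivity)) hc3
    rw [← Real.rpow_natCast]
    exact Real.rpow_le_rpow_of_exponent_le hM1 (by push_cast; linarith)
  have h3 : ((P2 : ℝ) ^ 10) ^ 2 ≤ (X : ℝ) ^ 2 := by
    refine le_trans ?_ h2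
    have h4 : ((P2 : ℝ) ^ 5) ^ 3 ≤ (M : ℝ) ^ 3 := pow_le_pow_left₀ (by positivity) h1 3
    calc ((P2 : ℝ) ^ 10) ^ 2 = (P2 : ℝ) ^ 5 * ((P2 : ℝ) ^ 5) ^ 3 := by ring
      _ ≤ _ := mul_le_mul_of_nonneg_left h4 (by positivity)
  have h4 : (P2 : ℝ) ^ 10 ≤ X := (pow_le_pow_iff_left₀ (by positivity) hX0.le (by norm_num)).1 h3
  have h5 : (P2 : ℝ) ≤ (P2 : ℝ) ^ 10 := le_self_pow₀ h21 (by norm_num)
  refine ⟨?_, h5.trans h4⟩
  have h6 : 1 ≤ P2 := by exact_mod_cast h21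
  rcases Nat.lt_or_ge P2 2 with h7 | h7
  · have h8 : P2 = 1 := by omega
    rw [h8, Nat.cast_one, one_pow, mul_one]
    linarith
  · have h8 : (2 : ℝ) ≤ P2 := by exact_mod_cast h7
    have h9 : (2 : ℝ) ^ 8 ≤ (P2 : ℝ) ^ 8 := pow_le_pow_left₀ (by norm_num) h8 8
    have h10 : (P2 : ℝ) ^ 10 = (P2 : ℝ) ^ 2 * (P2 : ℝ) ^ 8 := by ring
    rw [h10] at h4
    have h11 : (0 : ℝ) ≤ (P2 : ℝ) ^ 2 := by positivity
    nlinarith

theorem al2 (hsm : SmS) (hLC : LC2) (A ε B' : ℝ) (hA : 0 < A) (hε : 0 < ε) (hB' : 0 < B') : ∃ K1 : ℕ, ∀ k0 : ℕ,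
    K1 ≤ k0 → ∃ A2 C0 : ℝ, 0 < A2 ∧ 0 < C0 ∧ ∃ X0 : ℕ, ∀ X : ℕ, X0 ≤ X → ∀ Q M Z P P2 : ℕ,
    2 ^ 64 * (Real.log X) ^ (24 * k0) ≤ Q → (Q : ℝ) ≤ (Real.log X) ^ (25 * k0) →
    (Real.log X) ^ C0 ≤ M → (Real.log X) ^ A2 ≤ P → P ≤ P2 →
    (M : ℝ) ^ 2 * (Real.log X) ^ A2 ≤ X * P → (P2 : ℝ) ^ 5 * (M : ℝ) ^ ε ≤ M →
    (P2 : ℝ) ^ 5 * (M : ℝ) ^ (3 + ε) ≤ (X : ℝ) ^ 2 → (X : ℝ) * (Real.log X) ^ (-B') ≤ Z →
    ∑ k ∈ Ioc Z X, (∑ m ∈ Icc 1 M, ae P P2 Q (m ^ 3 + k)) ^ 2 ≤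
      X * (M : ℝ) ^ 2 * (Real.log X) ^ (-A) := by
  obtain ⟨Kd, hKd⟩ := dy2 hLC (A + 4) (ε / 2) (by linarith) (by linarith)
  refine ⟨max Kd ⌈(A + 4) / 2 + 3⌉₊, fun k0 hk0 => ?_⟩
  obtain ⟨A2d, hA2d, Xd, hXd⟩ := hKd k0 ((le_max_left _ _).trans hk0)
  have hk0' : (A + 4) / 2 + 3 ≤ (k0 : ℝ) :=
    (Nat.le_ceil _).trans (by exact_mod_cast (le_max_right _ _).trans hk0)
  obtain ⟨A2s, C0s, hA2s, hC0s, Xs, hXs⟩ := hsm (A + 4) B' k0 (by linarith) hB' hk0'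
  obtain ⟨A5, hA5⟩ : ∃ A5 : ℝ, A5 = ((25 * k0 : ℕ) : ℝ) + A / 2 + 5 := ⟨_, rfl⟩
  have hA50 : 0 < A5 := by
    rw [hA5]
    positivity
  obtain ⟨Xe, hXe⟩ := al2_ev B'
  refine ⟨max A2d A2s, max (A5 + C0s + 1) ((A5 + 2) * 2 / ε), lt_max_of_lt_left hA2d,
    lt_max_of_lt_left (by linarith), max Xd (max Xs Xe), ?_⟩
  intro X hX Q M Z P P2 hQ1 hQ2 hM hP hPP hc1 hc2 hc3 hZ
  have hXa : Xd ≤ X := (le_max_left _ _).trans hX
  have hXb : Xs ≤ X := ((le_max_left _ _).trans (le_max_right _ _)).trans hX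
  have hXc : Xe ≤ X := ((le_max_right _ _).trans (le_max_right _ _)).trans hX
  obtain ⟨h64, hL4, hev⟩ := hXe X hXc
  set L : ℝ := Real.log X with hL
  have hX0 : (0 : ℝ) < X := by linarith
  have hL0 : 0 < L := by linarith
  have hL1 : 1 ≤ L := by linarith
  have hMa : L ^ (A5 + C0s + 1) ≤ M :=
    (Real.rpow_le_rpow_of_exponent_le hL1 (le_max_left _ _)).trans hM
  have hMb : L ^ ((A5 + 2) * 2 / ε) ≤ M :=
    (Real.rpow_le_rpow_of_exponent_le hL1 (le_max_right _ _)).trans hM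
  have hPd : L ^ A2d ≤ P := (Real.rpow_le_rpow_of_exponent_le hL1 (le_max_left _ _)).trans hP
  have hPs : L ^ A2s ≤ P := (Real.rpow_le_rpow_of_exponent_le hL1 (le_max_right _ _)).trans hP
  have hP1 : (1 : ℝ) ≤ P := (Real.one_le_rpow hL1 hA2d.le).trans hPd
  have hP21 : (1 : ℝ) ≤ P2 := hP1.trans (by exact_mod_cast hPP)
  have hM1 : (1 : ℝ) ≤ M := (Real.one_le_rpow hL1 (by linarith)).trans hMa
  have hM0 : (0 : ℝ) < M := by linarith
  obtain ⟨h9P, hPX⟩ := al2_P2 X M P2 ε hε h64 hM1 hP21 hc2 hc3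
  have hlogP : Real.log P2 ≤ L := Real.log_le_log (by linarith) hPX
  -- powers
  have hLA : 0 < L ^ A5 := Real.rpow_pos_of_pos hL0 _
  have hMe : 16 * L ^ A5 ≤ (M : ℝ) ^ (ε / 2) := by
    have h1 : L ^ (A5 + 2) = (L ^ ((A5 + 2) * 2 / ε)) ^ (ε / 2) := by
      rw [← Real.rpow_mul hL0.le]
      congr 1
      field_simp
    have h2 : L ^ (A5 + 2) ≤ (M : ℝ) ^ (ε / 2) := by
      rw [h1]
      exact Real.rpow_le_rpow (by positivity) hMb (by positivity)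
    refine le_trans ?_ h2
    rw [Real.rpow_add hL0]
    have h3 : L ^ (2 : ℝ) = L ^ 2 := by norm_cast
    have h16 : (16 : ℝ) ≤ L ^ 2 := by nlinarith
    rw [h3]
    calc 16 * L ^ A5 = L ^ A5 * 16 := by ring
      _ ≤ L ^ A5 * L ^ 2 := mul_le_mul_of_nonneg_left h16 hLA.le
  have hMee : (M : ℝ) ^ (ε / 2) ≤ (M : ℝ) ^ ε :=
    Real.rpow_le_rpow_of_exponent_le hM1 (by linarith)
  have hMsq : (M : ℝ) ^ (ε / 2) * (M : ℝ) ^ (ε / 2) = (M : ℝ) ^ ε := by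
    rw [← Real.rpow_add hM0]
    congr 1
    ring
  obtain ⟨T, hT⟩ : ∃ T : ℝ, T = M * L ^ (-A5) := ⟨_, rfl⟩
  have hTL : T * L ^ A5 = M := by
    rw [hT, mul_assoc, ← Real.rpow_add hL0]
    simp
  have hT0 : 0 ≤ T := by
    rw [hT]
    positivity
  have hTP : 2 * (P2 : ℝ) ^ 5 ≤ T := by
    have h1 : (2 * (P2 : ℝ) ^ 5) * L ^ A5 ≤ T * L ^ A5 := by
      rw [hTL]
      refine le_trans ?_ hc2
      have h2 : (0 : ℝ) ≤ (P2 : ℝ) ^ 5 := by positivity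
      have h3 : 2 * L ^ A5 ≤ (M : ℝ) ^ ε := by linarith
      calc (2 * (P2 : ℝ) ^ 5) * L ^ A5 = (P2 : ℝ) ^ 5 * (2 * L ^ A5) := by ring
        _ ≤ _ := mul_le_mul_of_nonneg_left h3 h2
    exact le_of_mul_le_mul_right h1 hLA
  have hTP2 : 16 * ((P2 : ℝ) ^ 5 * (M : ℝ) ^ (ε / 2)) ≤ T := by
    have h1 : (16 * ((P2 : ℝ) ^ 5 * (M : ℝ) ^ (ε / 2))) * L ^ A5 ≤ T * L ^ A5 := by
      rw [hTL]
      refine le_trans ?_ hc2
      rw [← hMsq]
      have h2 : (0 : ℝ) ≤ (P2 : ℝ) ^ 5 * (M : ℝ) ^ (ε / 2) := by positivity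
      calc (16 * ((P2 : ℝ) ^ 5 * (M : ℝ) ^ (ε / 2))) * L ^ A5
          = ((P2 : ℝ) ^ 5 * (M : ℝ) ^ (ε / 2)) * (16 * L ^ A5) := by ring
        _ ≤ ((P2 : ℝ) ^ 5 * (M : ℝ) ^ (ε / 2)) * (M : ℝ) ^ (ε / 2) :=
          mul_le_mul_of_nonneg_left hMe h2
        _ = _ := by ring
    exact le_of_mul_le_mul_right h1 hLA
  have hT2 : 2 * L ^ C0s ≤ T := by
    have h1 : (2 * L ^ C0s) * L ^ A5 ≤ T * L ^ A5 := by
      rw [hTL]
      refine le_trans ?_ hMa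
      rw [Real.rpow_add hL0, Real.rpow_add hL0, Real.rpow_one]
      have h2 : 0 < L ^ A5 * L ^ C0s := by positivity
      nlinarith
    exact le_of_mul_le_mul_right h1 hLA
  have hC1 : (1 : ℝ) ≤ L ^ C0s := Real.one_le_rpow hL1 hC0s.le
  have hP25 : (1 : ℝ) ≤ (P2 : ℝ) ^ 5 := one_le_pow₀ hP21
  -- constants
  obtain ⟨q, hq⟩ : ∃ q : ℝ, q = L ^ (25 * k0) := ⟨_, rfl⟩
  have hq1 : 1 ≤ q := by
    rw [hq]
    exact one_le_pow₀ hL1
  obtain ⟨u, hu⟩ : ∃ u : ℝ, u = L ^ (A / 2) := ⟨_, rfl⟩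
  have hu0 : 0 < u := by
    rw [hu]
    positivity
  have hLA5 : L ^ A5 = q * u * L ^ 5 := by
    have h3 : L ^ (5 : ℝ) = L ^ 5 := by norm_cast
    rw [hA5, Real.rpow_add hL0, Real.rpow_add hL0, Real.rpow_natCast, h3, hq, hu]
  obtain ⟨c, hc⟩ : ∃ c : ℝ, c = √X / (u * L ^ 2) := ⟨_, rfl⟩
  have hc0 : 0 ≤ c := by
    rw [hc]
    positivity
  have hc2' : c ^ 2 = X * L ^ (-(A + 4)) := by
    have h1 : L ^ (-(A + 4)) = (u ^ 2 * L ^ 4)⁻¹ := by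
      have h3 : L ^ (4 : ℝ) = L ^ 4 := by norm_cast
      have h4 : u ^ 2 = L ^ A := by
        rw [hu, ← Real.rpow_natCast, ← Real.rpow_mul hL0.le]
        congr 1
        push_cast
        ring
      rw [Real.rpow_neg hL0.le, Real.rpow_add hL0, h3, h4]
    rw [hc, div_pow, Real.sq_sqrt hX0.le, h1, div_eq_mul_inv]
    congr 2
    ring
  obtain ⟨E, hE⟩ : ∃ E : ℝ, E = √X * (L ^ 2 * q) := ⟨_, rfl⟩
  have hE0 : 0 ≤ E := by
    rw [hE]
    positivity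
  have hE2 : E ^ 2 = X * (L ^ 2 * q) ^ 2 := by
    rw [hE, mul_pow, Real.sq_sqrt hX0.le]
  have hsX : (0 : ℝ) < √X := Real.sqrt_pos.2 hX0
  have hcM1 : c * M = √X * M / (u * L ^ 2) := by
    rw [hc]
    ring
  have hEM : E * (1 + T) ≤ c * M := by
    have hTe : T = M / (q * u * L ^ 5) := by
      rw [eq_div_iff (by positivity), ← hLA5, hTL]
    have h1 : E ≤ c * M / 2 := by
      rw [hcM1, hE, div_div, le_div_iff₀ (by positivity)]
      have h2 : q * u * L ^ 5 ≤ M := by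
        rw [← hLA5]
        exact (Real.rpow_le_rpow_of_exponent_le hL1 (by linarith)).trans hMa
      have h3 : 2 * (q * u * L ^ 4) ≤ q * u * L ^ 5 := by
        have h4 : 0 < q * u * L ^ 4 := by positivity
        nlinarith
      calc √X * (L ^ 2 * q) * (u * L ^ 2 * 2) = √X * (2 * (q * u * L ^ 4)) := by ring
        _ ≤ √X * M := mul_le_mul_of_nonneg_left (h3.trans h2) hsX.le
    have h2 : E * T ≤ c * M / 2 := by
      rw [hTe, hE, hcM1]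
      have h3 : √X * (L ^ 2 * q) * (M / (q * u * L ^ 5)) = √X * M / (u * L ^ 3) := by
        have hq0 : q ≠ 0 := by positivity
        field_simp
      rw [h3, div_div, div_le_div_iff_of_pos_left (by positivity) (by positivity) (by positivity)]
      have h4 : 0 < u * L ^ 2 := by positivity
      nlinarith
    linarith
  have hsub : Ioc Z X ⊆ Icc 1 X := by
    intro k hk
    rw [mem_Ioc] at hk
    rw [mem_Icc]
    omega
  have hZP : 3 * P2 ≤ Z := by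
    have h4 : (X : ℝ) ^ ((1 : ℝ) / 2) * (X : ℝ) ^ ((1 : ℝ) / 2) = X := by
      rw [← Real.rpow_add hX0]
      norm_num
    have h5 : (X : ℝ) ^ ((1 : ℝ) / 2) ≤ (X : ℝ) * L ^ (-B') := by
      rw [Real.rpow_neg hL0.le, ← div_eq_mul_inv, le_div_iff₀ (Real.rpow_pos_of_pos hL0 _)]
      calc (X : ℝ) ^ ((1 : ℝ) / 2) * L ^ B' ≤ (X : ℝ) ^ ((1 : ℝ) / 2) * (X : ℝ) ^ ((1 : ℝ) / 2) :=
            mul_le_mul_of_nonneg_left hev (by positivity)
        _ = X := h4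
    have h6 : (3 : ℝ) * P2 ≤ (X : ℝ) ^ ((1 : ℝ) / 2) := by
      rw [← Real.sqrt_eq_rpow]
      apply Real.le_sqrt_of_sq_le
      have h7 : ((3 : ℝ) * P2) ^ 2 = 9 * (P2 : ℝ) ^ 2 := by ring
      rw [h7]
      exact h9P
    have h7 : (3 : ℝ) * P2 ≤ Z := h6.trans (h5.trans hZ)
    exact_mod_cast h7
  have key := al2_ind (fun m k => ae P P2 Q (m ^ 3 + k)) (Ioc Z X) X c E T M hc0 hE0 hT0
    ?_ ?_ ?_ M le_rfl
  · refine key.trans ?_
    have h1 : (c * M + E * (1 + T)) ^ 2 ≤ (2 * (c * M)) ^ 2 := by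
      refine pow_le_pow_left₀ (by positivity) ?_ 2
      linarith
    refine h1.trans ?_
    have h2 : (2 * (c * (M : ℝ))) ^ 2 = 4 * (X * L ^ (-(A + 4)) * (M : ℝ) ^ 2) := by
      rw [mul_pow, mul_pow, hc2']
      ring
    rw [h2]
    have h3 : L ^ (-(A + 4)) = L ^ (-A) * (L ^ 4)⁻¹ := by
      rw [← Real.rpow_natCast, ← Real.rpow_neg hL0.le, ← Real.rpow_add hL0]
      congr 1
      push_cast
      ring
    rw [h3]
    have h4 : 4 * (L ^ 4)⁻¹ ≤ 1 := by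
      rw [← div_eq_mul_inv, div_le_one (by positivity)]
      have h6 : (4 : ℝ) ^ 4 ≤ L ^ 4 := pow_le_pow_left₀ (by norm_num) hL4 4
      linarith
    have h5 : 0 ≤ X * (M : ℝ) ^ 2 * L ^ (-A) := by positivity
    calc 4 * (X * (L ^ (-A) * (L ^ 4)⁻¹) * (M : ℝ) ^ 2)
        = X * (M : ℝ) ^ 2 * L ^ (-A) * (4 * (L ^ 4)⁻¹) := by ring
      _ ≤ X * (M : ℝ) ^ 2 * L ^ (-A) * 1 := mul_le_mul_of_nonneg_left h4 h5
      _ = _ := by ring
  · intro N hN1 _ hN3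
    have h1 : L ^ C0s ≤ N := by linarith
    have h2 : P2 ^ 5 ≤ N := by
      have h3 : (P2 : ℝ) ^ 5 ≤ N := by linarith
      exact_mod_cast h3
    refine (hXs X hXb Q N Z P P2 hQ1 hQ2 h1 hN3 hPs hPP h2 hZ).trans (le_of_eq ?_)
    rw [mul_pow, hc2']
    ring
  · intro N N' hN1 hN2 hN3 hN4 hN5
    have hNT : T / 4 ≤ N := by linarith
    have hN0 : (0 : ℝ) ≤ N := Nat.cast_nonneg N
    have h1 : (N : ℝ) ^ 2 * L ^ A2d ≤ X * P := by
      refine le_trans (mul_le_mul (pow_le_pow_left₀ hN0 hN2 2)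
        (Real.rpow_le_rpow_of_exponent_le hL1 (le_max_left A2d A2s)) (by positivity) (by positivity)) hc1
    have h2 : (P2 : ℝ) ^ 5 * (N : ℝ) ^ (ε / 2) ≤ N := by
      have h3 : (P2 : ℝ) ^ 5 * (N : ℝ) ^ (ε / 2) ≤ (P2 : ℝ) ^ 5 * (M : ℝ) ^ (ε / 2) :=
        mul_le_mul_of_nonneg_left (Real.rpow_le_rpow hN0 hN2 (by linarith)) (by positivity)
      linarith
    have h3 : (P2 : ℝ) ^ 5 * (N : ℝ) ^ (3 + ε / 2) ≤ (X : ℝ) ^ 2 := by
      refine le_trans (mul_le_mul_of_nonneg_left ?_ (by positivity)) hc3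
      exact (Real.rpow_le_rpow hN0 hN2 (by linarith)).trans
        (Real.rpow_le_rpow_of_exponent_le hM1 (by linarith))
    refine (sum_le_sum_of_subset_of_nonneg hsub fun _ _ _ => sq_nonneg _).trans ?_
    refine (hXd X hXa Q N N' P P2 hQ1 hQ2 hN1 hN4 hN5 hPd hPP h1 h2 h3).trans (le_of_eq ?_)
    rw [mul_pow, hc2']
    ring
  · intro m
    have h1 : ∀ k ∈ Ioc Z X, (ae P P2 Q (m ^ 3 + k)) ^ 2 ≤ (L ^ 2 * q) ^ 2 := by
      intro k hk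
      rw [mem_Ioc] at hk
      rw [← sq_abs]
      refine pow_le_pow_left₀ (abs_nonneg _) ?_ 2
      refine al2_ae P P2 Q _ (by omega) L q hlogP hL4 hq1 ?_
      rw [hq]
      exact hQ2
    refine (sum_le_sum h1).trans ?_
    rw [sum_const, nsmul_eq_mul, Nat.card_Ioc, hE2]
    refine mul_le_mul_of_nonneg_right ?_ (sq_nonneg _)
    exact_mod_cast Nat.sub_le X Z

end Pool.Agent.H43.PG
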