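import Pool.Agent.H43.SI.Defs
import Pool.Agent.H43.PG.Dy2

/-!
# The statements of the chain (H43/PG), as propositions

Each module of the chain takes the statement of the module before it as a hypothesis, so that they build in parallel.
-/

namespace Pool.Agent.H43.PG

open Finset MeasureTheory

/-- the sum of `gg P P2 n` over `n ≡ a mod q`, `n <= Nm`, `y < log n <= y + δ` -/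
noncomputable def Sg (P P2 q : ℕ) (a : ZMod q) (Nm : ℕ) (δ y : ℝ) : ℝ :=
  ∑ n ∈ (Icc 1 Nm).filter (fun n : ℕ => (n : ZMod q) = a ∧ y < Real.log n ∧ Real.log n ≤ y + δ),
    TP.gg P P2 n

def FmS : Prop := ∀ (B A : ℝ), 0 < B → 0 < A → 
    ∃ A0 A2 X0 : ℝ, 0 < A0 ∧ 0 < A2 ∧
    10 ≤ X0 ∧ ∀ X : ℝ, X0 ≤ X →
    ∀ (q : ℕ) [NeZero q], (q : ℝ) ≤ (Real.log X) ^ B → ∀ (χ : DirichletCharacter ℂ q) (D D' : ℕ),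
    (Real.log X) ^ A2 ≤ D → (D : ℝ) ≤ X ^ ((1 : ℝ) / 12) → D' ≤ 2 * D → ∀ e : Fin 6 → ℕ,
    X ≤ 2 * D * 2 ^ (∑ i, e i) → D * (2 : ℝ) ^ (∑ i, e i) ≤ 2 ^ 9 * X →
    (∀ i : Fin 6, (i : ℕ) < 3 → (2 : ℝ) ^ (e i) ≤ 8 * X ^ ((1 : ℝ) / 3)) →
    ∫ t in {t : ℝ | (Real.log X) ^ A0 ≤ |t| ∧ |t| ≤ X / (D * (Real.log X) ^ 2)},
      ‖TP.pp χ D D' t * SI.bp χ e t‖ ^ 2 ≤ (Real.log X) ^ (-A)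

def FrS : Prop := ∀ (B A : ℝ), 0 < B → 0 < A → 
    ∃ A2 C1 A1 X0 : ℝ, 0 < A2 ∧ 0 < C1 ∧ A ≤ A1 ∧ 10 ≤ X0 ∧ ∀ X : ℝ, X0 ≤ X →
    ∀ (q : ℕ) [NeZero q], (q : ℝ) ≤ (Real.log X) ^ B → ∀ (χ : DirichletCharacter ℂ q) (δ : ℝ)
    (D D' : ℕ), (Real.log X) ^ A2 ≤ D → (D : ℝ) ≤ X ^ ((1 : ℝ) / 12) → D' ≤ 2 * D →
    X⁻¹ * D * (Real.log X) ^ C1 ≤ δ → δ ≤ (Real.log X) ^ (-A1) → ∀ e : Fin 6 → ℕ,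
    X ≤ 2 * D * 2 ^ (∑ i, e i) → D * (2 : ℝ) ^ (∑ i, e i) ≤ 2 ^ 9 * X →
    (∀ i : Fin 6, (i : ℕ) < 3 → (2 : ℝ) ^ (e i) ≤ 8 * X ^ ((1 : ℝ) / 3)) →
    ∫ t : ℝ, ‖TP.pp χ D D' t * SI.bp χ e t‖ ^ 2 * SI.mul δ ((Real.log X) ^ (-A1)) t ≤
      (Real.log X) ^ (-A)

def SiS : Prop := ∀ (B A : ℝ), 0 < B → 0 < A → 
    ∃ A2 C1 A1 X0 : ℝ, 0 < A2 ∧ 0 < C1 ∧ A ≤ A1 ∧ 10 ≤ X0 ∧ ∀ X : ℝ, X0 ≤ X →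
    ∀ (q : ℕ) [NeZero q], (q : ℝ) ≤ (Real.log X) ^ B → ∀ (χ : DirichletCharacter ℂ q) (δ : ℝ)
    (D D' : ℕ), (Real.log X) ^ A2 ≤ D → (D : ℝ) ≤ X ^ ((1 : ℝ) / 12) → D' ≤ 2 * D →
    X⁻¹ * D * (Real.log X) ^ C1 ≤ δ → δ ≤ (Real.log X) ^ (-A1) → ∀ Nm : ℕ, 6 * X ≤ Nm →
    ∫ y in (Real.log X)..(Real.log (2 * X)),
      ‖SI.Sd (fun n => ((TP.gg D D' n : ℝ) : ℂ) * χ n) Nm δ y / δ -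
        SI.Sd (fun n => ((TP.gg D D' n : ℝ) : ℂ) * χ n) Nm ((Real.log X) ^ (-A1)) y /
          ((Real.log X) ^ (-A1) : ℝ)‖ ^ 2 ≤ X ^ 2 * (Real.log X) ^ (-A)

def SxS : Prop := ∀ (B A : ℝ), 0 < B → 0 < A → 
    ∃ A2 C1 A1 X0 : ℝ, 0 < A2 ∧ 0 < C1 ∧ 0 < A1 ∧ 10 ≤ X0 ∧ ∀ X : ℝ, X0 ≤ X →
    ∀ (q : ℕ) [NeZero q], (q : ℝ) ≤ (Real.log X) ^ B → ∀ (χ : DirichletCharacter ℂ q) (δ : ℝ)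
    (D D' : ℕ), (Real.log X) ^ A2 ≤ D → (D : ℝ) ≤ X ^ ((1 : ℝ) / 12) → D' ≤ 2 * D →
    X⁻¹ * D * (Real.log X) ^ C1 ≤ δ → δ ≤ (Real.log X) ^ (-A1) → ∀ Nm : ℕ, 6 * X ≤ Nm →
    ∫ y in (Real.log X)..(Real.log (2 * X)),
      ‖SI.Sd (fun n => ((TP.gg D D' n : ℝ) : ℂ) * χ n) Nm δ y -
        (open Classical in if χ = 1 then ((TP.kap D D' * δ * Real.exp y : ℝ) : ℂ) else 0)‖ ^ 2 ≤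
      δ ^ 2 * X ^ 2 * (Real.log X) ^ (-A)

def ApS : Prop := ∀ (B A : ℝ), 0 < B → 0 < A → 
    ∃ A2 C1 A1 X0 : ℝ, 0 < A2 ∧ 0 < C1 ∧ 0 < A1 ∧ 10 ≤ X0 ∧ ∀ X : ℝ, X0 ≤ X →
    ∀ (q : ℕ) [NeZero q], (q : ℝ) ≤ (Real.log X) ^ B → ∀ a : ZMod q, IsUnit a → ∀ (δ : ℝ)
    (D D' : ℕ), (Real.log X) ^ A2 ≤ D → (D : ℝ) ≤ X ^ ((1 : ℝ) / 12) → D' ≤ 2 * D →
    X⁻¹ * D * (Real.log X) ^ C1 ≤ δ → δ ≤ (Real.log X) ^ (-A1) → ∀ Nm : ℕ, 6 * X ≤ Nm →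
    ∫ y in (Real.log X)..(Real.log (2 * X)),
      (Sg D D' q a Nm δ y - TP.kap D D' * δ * Real.exp y / q.totient) ^ 2 ≤
      δ ^ 2 * X ^ 2 * (Real.log X) ^ (-A)

def PcS : Prop := ∀ (B A : ℝ), 0 < B → 0 < A → 
    ∃ A2 C1 A1 X0 : ℝ, 0 < A2 ∧ 0 < C1 ∧ 0 < A1 ∧ 10 ≤ X0 ∧ ∀ X : ℝ, X0 ≤ X →
    ∀ (q : ℕ) [NeZero q], (q : ℝ) ≤ (Real.log X) ^ B → ∀ a : ZMod q, IsUnit a → ∀ (δ : ℝ)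
    (P P2 : ℕ), (Real.log X) ^ A2 ≤ P → P ≤ P2 → (P2 : ℝ) ≤ X ^ ((1 : ℝ) / 12) →
    X⁻¹ * P2 * (Real.log X) ^ C1 ≤ δ → δ ≤ (Real.log X) ^ (-A1) → ∀ Nm : ℕ, 6 * X ≤ Nm →
    ∫ y in (Real.log X)..(Real.log (2 * X)),
      (Sg P P2 q a Nm δ y - TP.kap P P2 * δ * Real.exp y / q.totient) ^ 2 ≤
      δ ^ 2 * X ^ 2 * (Real.log X) ^ (-A)

def AdS : Prop := ∀ (B A : ℝ), 0 < B → 0 < A → 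
    ∃ A2 C1 A1 X0 : ℝ, 0 < A2 ∧ 0 < C1 ∧ 0 < A1 ∧ 10 ≤ X0 ∧ ∀ X : ℝ, X0 ≤ X →
    ∀ (q : ℕ) [NeZero q], (q : ℝ) ≤ (Real.log X) ^ B → ∀ a : ZMod q, IsUnit a → ∀ P P2 H : ℕ,
    (Real.log X) ^ A2 ≤ P → P ≤ P2 → (P2 : ℝ) ≤ X ^ ((1 : ℝ) / 13) →
    P2 * (Real.log X) ^ C1 ≤ H → (H : ℝ) ≤ X * (Real.log X) ^ (-A1) →
    ∑ n ∈ Ioc ⌊X⌋₊ ⌊2 * X⌋₊,
      (∑ m ∈ (Ioc n (n + H)).filter (fun m : ℕ => (m : ZMod q) = a), TP.gg P P2 m -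
        TP.kap P P2 * H / q.totient) ^ 2 ≤ X * (H : ℝ) ^ 2 * (Real.log X) ^ (-A)

def ThS : Prop := ∀ (B A : ℝ), 0 < B → 0 < A → 
    ∃ A2 C1 A1 X0 : ℝ, 0 < A2 ∧ 0 < C1 ∧ 0 < A1 ∧ 10 ≤ X0 ∧ ∀ X : ℝ, X0 ≤ X →
    ∀ q c : ℕ, 1 ≤ q → (q : ℝ) ≤ (Real.log X) ^ B → c < q → ∀ P P2 H : ℕ,
    (Real.log X) ^ A2 ≤ P → P ≤ P2 → (P2 : ℝ) ≤ X ^ ((1 : ℝ) / 13) →
    P2 * (Real.log X) ^ C1 ≤ H → (H : ℝ) ≤ X * (Real.log X) ^ (-A1) →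
    ∑ n ∈ Ioc ⌊X⌋₊ ⌊2 * X⌋₊,
      (∑ m ∈ (Ioc n (n + H)).filter (fun m => m % q = c), TP.ge P P2 m -
        (if Nat.Coprime c q then TP.kap P P2 * H / q.totient else 0)) ^ 2 ≤
      X * (H : ℝ) ^ 2 * (Real.log X) ^ (-A)

def TuS : Prop := ∀ (B A : ℝ), 0 < B → 0 < A → 
    ∃ A2 C1 A1 X0 : ℝ, 0 < A2 ∧ 0 < C1 ∧ 0 < A1 ∧ 10 ≤ X0 ∧ ∀ X : ℝ, X0 ≤ X →
    ∀ q c : ℕ, 1 ≤ q → (q : ℝ) ≤ (Real.log X) ^ B → c < q → ∀ P P2 H : ℕ,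
    (Real.log X) ^ A2 ≤ P → P ≤ P2 → (P2 : ℝ) ≤ X ^ ((1 : ℝ) / 13) →
    P2 * (Real.log X) ^ C1 ≤ H → (H : ℝ) ≤ X * (Real.log X) ^ (-A1) →
    ∑ n ∈ Ioc ⌊X⌋₊ ⌊2 * X⌋₊,
      (∑ m ∈ (Ioc n (n + H)).filter (fun m => m % q = c), TQ.ue P P2 m -
        (if Nat.Coprime c q then TQ.lam P P2 n * H / q.totient else 0)) ^ 2 ≤
      X * (H : ℝ) ^ 2 * (Real.log X) ^ (-A)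

def BlS : Prop := ∀ (B A B' : ℝ), 0 < B → 0 < A → 0 < B' → 
    ∃ A2 C1 A1 : ℝ, 0 < A2 ∧ 0 < C1 ∧ 0 < A1 ∧ ∃ X0 : ℕ, 10 ≤ X0 ∧ ∀ X : ℕ, X0 ≤ X →
    ∀ Z : ℕ, (X : ℝ) * (Real.log X) ^ (-B') ≤ Z →
    ∀ q c : ℕ, 1 ≤ q → (q : ℝ) ≤ (Real.log X) ^ B → c < q → ∀ P P2 H : ℕ,
    (Real.log X) ^ A2 ≤ P → P ≤ P2 → (P2 : ℝ) ≤ (X : ℝ) ^ ((1 : ℝ) / 14) →
    P2 * (Real.log X) ^ C1 ≤ H → (H : ℝ) ≤ X * (Real.log X) ^ (-A1) →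
    ∑ n ∈ Ioc Z (2 * X),
      (∑ m ∈ (Ioc n (n + H)).filter (fun m => m % q = c), TQ.ue P P2 m -
        (if Nat.Coprime c q then TQ.lam P P2 n * H / q.totient else 0)) ^ 2 ≤
      X * (H : ℝ) ^ 2 * (Real.log X) ^ (-A)

def FaS : Prop := ∀ (B A B' : ℝ), 0 < B → 0 < A → 0 < B' → 
    ∃ A2 C1 A1 : ℝ, 0 < A2 ∧ 0 < C1 ∧ 0 < A1 ∧ ∃ X0 : ℕ, 10 ≤ X0 ∧ ∀ X : ℕ, X0 ≤ X →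
    ∀ Z : ℕ, (X : ℝ) * (Real.log X) ^ (-B') ≤ Z →
    ∀ Q q c : ℕ, (Q : ℝ) ≤ (Real.log X) ^ B → 1 ≤ q → q ≤ Q → c < q → ∀ P P2 h : ℕ,
    (Real.log X) ^ A2 ≤ P → P ≤ P2 → (P2 : ℝ) ≤ (X : ℝ) ^ ((1 : ℝ) / 14) →
    P2 * (Real.log X) ^ C1 ≤ h → (h : ℝ) ≤ X * (Real.log X) ^ (-A1) →
    ∑ x ∈ Icc 1 (2 * X + h),
      ‖∑ n ∈ (Ioc (x - h) x).filter (fun n => n ≤ 2 * X ∧ n % q = c), TQ.aw P P2 Q X Z n‖ ^ 2 ≤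
      X * (h : ℝ) ^ 2 * (Real.log X) ^ (-A)

def SmS : Prop := ∀ (A B' : ℝ) (k0 : ℕ), 0 < A → 0 < B' → A / 2 + 3 ≤ k0 → 
    ∃ A2 C0 : ℝ, 0 < A2 ∧ 0 < C0 ∧ ∃ X0 : ℕ, ∀ X : ℕ, X0 ≤ X → ∀ Q M Z P P2 : ℕ,
    2 ^ 64 * (Real.log X) ^ (24 * k0) ≤ Q → (Q : ℝ) ≤ (Real.log X) ^ (25 * k0) →
    (Real.log X) ^ C0 ≤ M → M ^ 3 ≤ X → (Real.log X) ^ A2 ≤ P → P ≤ P2 → P2 ^ 5 ≤ M →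
    (X : ℝ) * (Real.log X) ^ (-B') ≤ Z →
    ∑ k ∈ Ioc Z X, (∑ m ∈ Icc 1 M, ae P P2 Q (m ^ 3 + k)) ^ 2 ≤
      X * (M : ℝ) ^ 2 * (Real.log X) ^ (-A)

def AlS : Prop := ∀ (A ε B' : ℝ), 0 < A → 0 < ε → 0 < B' → 
    ∃ K1 : ℕ, ∀ k0 : ℕ,
    K1 ≤ k0 → ∃ A2 C0 : ℝ, 0 < A2 ∧ 0 < C0 ∧ ∃ X0 : ℕ, ∀ X : ℕ, X0 ≤ X → ∀ Q M Z P P2 : ℕ,
    2 ^ 64 * (Real.log X) ^ (24 * k0) ≤ Q → (Q : ℝ) ≤ (Real.log X) ^ (25 * k0) →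
    (Real.log X) ^ C0 ≤ M → (Real.log X) ^ A2 ≤ P → P ≤ P2 →
    (M : ℝ) ^ 2 * (Real.log X) ^ A2 ≤ X * P → (P2 : ℝ) ^ 5 * (M : ℝ) ^ ε ≤ M →
    (P2 : ℝ) ^ 5 * (M : ℝ) ^ (3 + ε) ≤ (X : ℝ) ^ 2 → (X : ℝ) * (Real.log X) ^ (-B') ≤ Z →
    ∑ k ∈ Ioc Z X, (∑ m ∈ Icc 1 M, ae P P2 Q (m ^ 3 + k)) ^ 2 ≤
      X * (M : ℝ) ^ 2 * (Real.log X) ^ (-A)

def MsS : Prop := ∀ (A ε B' : ℝ), 0 < A → 0 < ε → 0 < B' → 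
    ∃ A2 C0 : ℝ, 0 < A2 ∧ 0 < C0 ∧ ∀ C : ℝ, C0 ≤ C → ∃ X0 : ℕ, ∀ X : ℕ, X0 ≤ X → ∀ M Z P P2 : ℕ,
    (Real.log X) ^ C ≤ M → (Real.log X) ^ A2 ≤ P → P ≤ P2 →
    (M : ℝ) ^ 2 * (Real.log X) ^ A2 ≤ X * P → (P2 : ℝ) ^ 5 * (M : ℝ) ^ ε ≤ M →
    (P2 : ℝ) ^ 5 * (M : ℝ) ^ (3 + ε) ≤ (X : ℝ) ^ 2 → (X : ℝ) * (Real.log X) ^ (-B') ≤ Z →
    ∑ k ∈ Ioc Z X, (∑ m ∈ Icc 1 M, TQ.ue P P2 (m ^ 3 + k) -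
        HL.S ⌊(Real.log X) ^ C⌋₊ k * ∑ m ∈ Icc 1 M, TQ.lam P P2 (m ^ 3 + k)) ^ 2 ≤
      X * (M : ℝ) ^ 2 * (Real.log X) ^ (-A)

end Pool.Agent.H43.PG
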