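import Pool.Agent.H43.SI.Ap
import Pool.Agent.H43.PG.St

/-!
# [H43 PG AP1] Residue classes

PROOF. Copy `TP/Ap.lean` (224 lines; `Sg` is defined there and imported here) with `sx1` in place of `sixw`; `A3` disappears, the conditions on `D`, `δ` are passed on unchanged.
-/

namespace Pool.Agent.H43.PG

open Finset MeasureTheory Pool.Agent.H43.TP

/-- the difference for one character -/
private noncomputable def apD {q : ℕ} (P P2 Nm : ℕ) (δ y : ℝ) (χ : DirichletCharacter ℂ q) : ℂ :=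
  SI.Sd (fun n => ((gg P P2 n : ℝ) : ℂ) * χ n) Nm δ y -
    (open Classical in if χ = 1 then ((kap P P2 * δ * Real.exp y : ℝ) : ℂ) else 0)

private theorem apD_meas {q : ℕ} (P P2 Nm : ℕ) (δ : ℝ) (χ : DirichletCharacter ℂ q) :
    Measurable (fun y => apD P P2 Nm δ y χ) := by
  unfold apD
  refine (SI.Sd_measurable _ Nm δ).sub ?_
  split_ifs
  · exact Complex.measurable_ofReal.comp (Real.measurable_exp.const_mul (kap P P2 * δ))
  · exact measurable_const

private theorem apD_int {q : ℕ} (P P2 Nm : ℕ) (δ a b : ℝ) (χ : DirichletCharacter ℂ q) :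
    IntervalIntegrable (fun y => ‖apD P P2 Nm δ y χ‖ ^ 2) volume a b := by
  have hc : Continuous (fun y : ℝ => (∑ n ∈ Icc 1 Nm,
      ‖((gg P P2 n : ℝ) : ℂ) * χ n‖ + |kap P P2 * δ| * Real.exp y) ^ 2) := by
    fun_prop
  refine (hc.intervalIntegrable a b).mono_fun'
    ((apD_meas P P2 Nm δ χ).norm.pow_const 2).aestronglyMeasurable
    (Filter.Eventually.of_forall fun y => ?_)
  simp only [Real.norm_eq_abs, abs_pow, abs_norm]
  refine pow_le_pow_left₀ (norm_nonneg _) ?_ 2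
  unfold apD
  refine (norm_sub_le _ _).trans (add_le_add (SI.Sd_bound _ _ _ _) ?_)
  split_ifs
  · rw [Complex.norm_real, Real.norm_eq_abs, abs_mul, abs_of_pos (Real.exp_pos y)]
  · rw [norm_zero]
    positivity

private theorem ap_eq (q : ℕ) [NeZero q] (a : ZMod q) (ha : IsUnit a) (P P2 Nm : ℕ) (δ y : ℝ) :
    (((Sg P P2 q a Nm δ y - kap P P2 * δ * Real.exp y / q.totient : ℝ)) : ℂ) =
      (q.totient : ℂ)⁻¹ * ∑ χ : DirichletCharacter ℂ q, χ a⁻¹ * apD P P2 Nm δ y χ := by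
  have hq : (q.totient : ℂ) ≠ 0 := by
    exact_mod_cast (Nat.totient_pos.2 (Nat.pos_of_ne_zero (NeZero.ne q))).ne'
  have h1 : ∑ χ : DirichletCharacter ℂ q, χ a⁻¹ *
      SI.Sd (fun n => ((gg P P2 n : ℝ) : ℂ) * χ n) Nm δ y =
      (q.totient : ℂ) * (Sg P P2 q a Nm δ y : ℝ) := by
    have e1 : ∀ χ : DirichletCharacter ℂ q, χ a⁻¹ *
        SI.Sd (fun n => ((gg P P2 n : ℝ) : ℂ) * χ n) Nm δ y =
        ∑ n ∈ (Icc 1 Nm).filter (fun n : ℕ => y < Real.log n ∧ Real.log n ≤ y + δ),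
          ((gg P P2 n : ℝ) : ℂ) * (χ a⁻¹ * χ (n : ZMod q)) := by
      intro χ
      unfold SI.Sd
      rw [Finset.mul_sum]
      refine Finset.sum_congr rfl fun n _ => ?_
      ring
    rw [Finset.sum_congr rfl fun χ _ => e1 χ, Finset.sum_comm]
    have e2 : ∀ n ∈ (Icc 1 Nm).filter (fun n : ℕ => y < Real.log n ∧ Real.log n ≤ y + δ),
        ∑ χ : DirichletCharacter ℂ q,
          ((gg P P2 n : ℝ) : ℂ) * (χ a⁻¹ * χ (n : ZMod q)) =
        (q.totient : ℂ) *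
          (if (n : ZMod q) = a then ((gg P P2 n : ℝ) : ℂ) else 0) := by
      intro n _
      rw [← Finset.mul_sum, DirichletCharacter.sum_char_inv_mul_char_eq ℂ ha]
      by_cases h : (n : ZMod q) = a
      · rw [if_pos h, if_pos h.symm]
        ring
      · rw [if_neg h, if_neg (fun h' => h h'.symm)]
        ring
    rw [Finset.sum_congr rfl e2, ← Finset.mul_sum]
    congr 1
    unfold Sg
    rw [Complex.ofReal_sum, Finset.sum_ite, Finset.sum_const_zero, add_zero]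
    refine Finset.sum_congr ?_ fun _ _ => rfl
    ext n
    simp only [mem_filter]
    tauto
  have h2 : ∑ χ : DirichletCharacter ℂ q, χ a⁻¹ *
      (open Classical in if χ = 1 then ((kap P P2 * δ * Real.exp y : ℝ) : ℂ) else 0) =
      ((kap P P2 * δ * Real.exp y : ℝ) : ℂ) := by
    classical
    rw [Finset.sum_eq_single (1 : DirichletCharacter ℂ q)]
    · rw [if_pos rfl]
      have hu : IsUnit a⁻¹ := by
        obtain ⟨u, rfl⟩ := ha
        rw [ZMod.inv_coe_unit]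
        exact Units.isUnit _
      rw [MulChar.one_apply hu, one_mul]
    · intro χ _ hχ
      rw [if_neg hχ, mul_zero]
    · intro h
      exact absurd (Finset.mem_univ _) h
  have h3 : ∑ χ : DirichletCharacter ℂ q, χ a⁻¹ * apD P P2 Nm δ y χ =
      (q.totient : ℂ) * (Sg P P2 q a Nm δ y : ℝ) - ((kap P P2 * δ * Real.exp y : ℝ) : ℂ) := by
    rw [← h1, ← h2, ← Finset.sum_sub_distrib]
    refine Finset.sum_congr rfl fun χ _ => ?_
    unfold apD
    ring_nf
  rw [h3, mul_sub, inv_mul_cancel_left₀ hq]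
  push_cast
  field_simp

private theorem ap_card (q : ℕ) [NeZero q] :
    ((univ : Finset (DirichletCharacter ℂ q)).card : ℝ) = q.totient := by
  have h := DirichletCharacter.card_eq_totient_of_hasEnoughRootsOfUnity ℂ q
  rw [Nat.card_eq_fintype_card] at h
  rw [Finset.card_univ]
  exact_mod_cast h

private theorem ap_pt (q : ℕ) [NeZero q] (a : ZMod q) (ha : IsUnit a) (P P2 Nm : ℕ) (δ y : ℝ) :
    (Sg P P2 q a Nm δ y - kap P P2 * δ * Real.exp y / q.totient) ^ 2 ≤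
      (q.totient : ℝ)⁻¹ * ∑ χ : DirichletCharacter ℂ q, ‖apD P P2 Nm δ y χ‖ ^ 2 := by
  have hq : (0 : ℝ) < q.totient := by
    exact_mod_cast (Nat.totient_pos.2 (Nat.pos_of_ne_zero (NeZero.ne q)))
  have h1 : (Sg P P2 q a Nm δ y - kap P P2 * δ * Real.exp y / q.totient) ^ 2 =
      ‖(q.totient : ℂ)⁻¹ * ∑ χ : DirichletCharacter ℂ q, χ a⁻¹ * apD P P2 Nm δ y χ‖ ^ 2 := by
    rw [← ap_eq q a ha, Complex.norm_real, Real.norm_eq_abs, sq_abs]
  rw [h1, norm_mul, norm_inv, Complex.norm_natCast]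
  have h2 : ‖∑ χ : DirichletCharacter ℂ q, χ a⁻¹ * apD P P2 Nm δ y χ‖ ≤
      ∑ χ : DirichletCharacter ℂ q, ‖apD P P2 Nm δ y χ‖ := by
    refine (norm_sum_le _ _).trans (Finset.sum_le_sum fun χ _ => ?_)
    rw [norm_mul]
    exact mul_le_of_le_one_left (norm_nonneg _) (DirichletCharacter.norm_le_one χ _)
  have h3 : (∑ χ : DirichletCharacter ℂ q, ‖apD P P2 Nm δ y χ‖) ^ 2 ≤
      q.totient * ∑ χ : DirichletCharacter ℂ q, ‖apD P P2 Nm δ y χ‖ ^ 2 := by
    have := sq_sum_le_card_mul_sum_sq (s := (univ : Finset (DirichletCharacter ℂ q)))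
      (f := fun χ => ‖apD P P2 Nm δ y χ‖)
    rwa [ap_card] at this
  calc ((q.totient : ℝ)⁻¹ * ‖∑ χ : DirichletCharacter ℂ q, χ a⁻¹ * apD P P2 Nm δ y χ‖) ^ 2
      = (q.totient : ℝ)⁻¹ ^ 2 * ‖∑ χ : DirichletCharacter ℂ q, χ a⁻¹ * apD P P2 Nm δ y χ‖ ^ 2 := by
        ring
    _ ≤ (q.totient : ℝ)⁻¹ ^ 2 * (q.totient *
        ∑ χ : DirichletCharacter ℂ q, ‖apD P P2 Nm δ y χ‖ ^ 2) := by
        refine mul_le_mul_of_nonneg_left ?_ (by positivity)
        exact (pow_le_pow_left₀ (norm_nonneg _) h2 2).trans h3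
    _ = (q.totient : ℝ)⁻¹ * ∑ χ : DirichletCharacter ℂ q, ‖apD P P2 Nm δ y χ‖ ^ 2 := by
        field_simp

theorem ap1 (hsx : SxS) (B A : ℝ) (hB : 0 < B) (hA : 0 < A) :
    ∃ A2 C1 A1 X0 : ℝ, 0 < A2 ∧ 0 < C1 ∧ 0 < A1 ∧ 10 ≤ X0 ∧ ∀ X : ℝ, X0 ≤ X →
    ∀ (q : ℕ) [NeZero q], (q : ℝ) ≤ (Real.log X) ^ B → ∀ a : ZMod q, IsUnit a → ∀ (δ : ℝ)
    (D D' : ℕ), (Real.log X) ^ A2 ≤ D → (D : ℝ) ≤ X ^ ((1 : ℝ) / 12) → D' ≤ 2 * D →
    X⁻¹ * D * (Real.log X) ^ C1 ≤ δ → δ ≤ (Real.log X) ^ (-A1) → ∀ Nm : ℕ, 6 * X ≤ Nm →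
    ∫ y in (Real.log X)..(Real.log (2 * X)),
      (Sg D D' q a Nm δ y - kap D D' * δ * Real.exp y / q.totient) ^ 2 ≤
      δ ^ 2 * X ^ 2 * (Real.log X) ^ (-A) := by
  obtain ⟨A2, C1, A1, X0, hA2, hC1, hA1, hX0, h⟩ := hsx B A hB hA
  refine ⟨A2, C1, A1, X0, hA2, hC1, hA1, hX0,
    fun X hX q _ hqB a ha δ P P2 hD1 hD2 hD3 hδ1 hδ2 Nm hNm => ?_⟩
  have hXpos : 0 < X := by linarith
  have hle : Real.log X ≤ Real.log (2 * X) := Real.log_le_log hXpos (by linarith)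
  have hq : (0 : ℝ) < q.totient := by
    exact_mod_cast (Nat.totient_pos.2 (Nat.pos_of_ne_zero (NeZero.ne q)))
  have hi : IntervalIntegrable (fun y => (q.totient : ℝ)⁻¹ *
      ∑ χ : DirichletCharacter ℂ q, ‖apD P P2 Nm δ y χ‖ ^ 2) volume (Real.log X)
      (Real.log (2 * X)) := by
    refine IntervalIntegrable.const_mul ?_ _
    have := IntervalIntegrable.sum (univ : Finset (DirichletCharacter ℂ q))
      (fun χ _ => apD_int P P2 Nm δ (Real.log X) (Real.log (2 * X)) χ)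
    refine this.congr fun y _ => ?_
    simp
  have hi2 : IntervalIntegrable (fun y => (Sg P P2 q a Nm δ y - kap P P2 * δ * Real.exp y / q.totient) ^ 2)
      volume (Real.log X) (Real.log (2 * X)) := by
    have hmeas : Measurable (fun y => (Sg P P2 q a Nm δ y - kap P P2 * δ * Real.exp y / q.totient) ^ 2) := by
      have e : (fun y => (Sg P P2 q a Nm δ y - kap P P2 * δ * Real.exp y / q.totient) ^ 2) =
          fun y => ‖(q.totient : ℂ)⁻¹ *
            ∑ χ : DirichletCharacter ℂ q, χ a⁻¹ * apD P P2 Nm δ y χ‖ ^ 2 := by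
        funext y
        rw [← ap_eq q a ha, Complex.norm_real, Real.norm_eq_abs, sq_abs]
      rw [e]
      refine (Measurable.const_mul ?_ _).norm.pow_const 2
      exact Finset.measurable_sum _ fun χ _ => (apD_meas P P2 Nm δ χ).const_mul _
    refine hi.mono_fun' hmeas.aestronglyMeasurable (Filter.Eventually.of_forall fun y => ?_)
    have h12 := ap_pt q a ha P P2 Nm δ y
    simp only [Real.norm_eq_abs, abs_pow, sq_abs]
    exact h12
  refine (intervalIntegral.integral_mono_on hle hi2 hi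
    (fun y _ => ap_pt q a ha P P2 Nm δ y)).trans ?_
  have h5 : ∫ y in (Real.log X)..(Real.log (2 * X)),
      ∑ χ : DirichletCharacter ℂ q, ‖apD P P2 Nm δ y χ‖ ^ 2 =
      ∑ χ : DirichletCharacter ℂ q, ∫ y in (Real.log X)..(Real.log (2 * X)),
        ‖apD P P2 Nm δ y χ‖ ^ 2 :=
    intervalIntegral.integral_finsetSum
      (s := (univ : Finset (DirichletCharacter ℂ q))) (f := fun χ y => ‖apD P P2 Nm δ y χ‖ ^ 2)
      (fun χ _ => apD_int P P2 Nm δ (Real.log X) (Real.log (2 * X)) χ)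
  rw [intervalIntegral.integral_const_mul, h5]
  have h4 : ∑ χ : DirichletCharacter ℂ q, ∫ y in (Real.log X)..(Real.log (2 * X)),
      ‖apD P P2 Nm δ y χ‖ ^ 2 ≤ q.totient * (δ ^ 2 * X ^ 2 * (Real.log X) ^ (-A)) := by
    have h6 : ∀ χ : DirichletCharacter ℂ q, ∫ y in (Real.log X)..(Real.log (2 * X)),
        ‖apD P P2 Nm δ y χ‖ ^ 2 ≤ δ ^ 2 * X ^ 2 * (Real.log X) ^ (-A) := by
      intro χ
      have h7 := h X hX q hqB χ δ P P2 hD1 hD2 hD3 hδ1 hδ2 Nm hNm
      by_cases hχ : χ = 1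
      · simp only [if_pos hχ] at h7
        simp only [apD, if_pos hχ]
        exact h7
      · simp only [if_neg hχ] at h7
        simp only [apD, if_neg hχ]
        exact h7
    calc ∑ χ : DirichletCharacter ℂ q, ∫ y in (Real.log X)..(Real.log (2 * X)),
          ‖apD P P2 Nm δ y χ‖ ^ 2 ≤ ∑ _χ : DirichletCharacter ℂ q, δ ^ 2 * X ^ 2 * (Real.log X) ^ (-A) :=
          Finset.sum_le_sum fun χ _ => h6 χ
      _ = q.totient * (δ ^ 2 * X ^ 2 * (Real.log X) ^ (-A)) := by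
          rw [Finset.sum_const, nsmul_eq_mul, ap_card]
  calc (q.totient : ℝ)⁻¹ * ∑ χ : DirichletCharacter ℂ q,
        ∫ y in (Real.log X)..(Real.log (2 * X)), ‖apD P P2 Nm δ y χ‖ ^ 2
      ≤ (q.totient : ℝ)⁻¹ * (q.totient * (δ ^ 2 * X ^ 2 * (Real.log X) ^ (-A))) :=
        mul_le_mul_of_nonneg_left h4 (by positivity)
    _ = δ ^ 2 * X ^ 2 * (Real.log X) ^ (-A) := by rw [inv_mul_cancel_left₀ hq.ne']

end Pool.Agent.H43.PG
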