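import Pool.Agent.H43.PG.St
import Pool.Agent.H43.TQ.Lam

/-!
# [H43 PG BL1] From dyadic intervals to `(Z, 2X]`, `Z >= X (log X)^(-B')`

PROOF. Copy `TQ/Bl2.lean` with `tu1` in place of `thu` (`A3` disappears). `ℓ = log X`. `Ioc Z (2X)` is covered by the `Ioc ⌊Y_j⌋ ⌊2Y_j⌋`, `Y_j = 2^(-j) X`, all `Y_j >= X ℓ^(-B')/2`. `tu1` with
`(B+1, A+1)` at each `Y_j`: `P2 <= X^(1/14) <= (X ℓ^(-B')/2)^(1/13) <= Y_j^(1/13)` for `X` large; `H >= P2 ℓ^C1 >= P2 (log Y_j)^C1`.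
-/

namespace Pool.Agent.H43.PG

open Finset Pool.Agent.H43.TQ

/-- dyadic covering -/
private theorem bl1_cover (F : ℕ → ℝ) (hF : ∀ n, 0 ≤ F n) (Y : ℝ) (hY : 0 ≤ Y) (J : ℕ) :
    ∑ n ∈ Ioc ⌊Y / 2 ^ J⌋₊ ⌊2 * Y⌋₊, F n ≤
      ∑ j ∈ range (J + 1), ∑ n ∈ Ioc ⌊Y / 2 ^ j⌋₊ ⌊2 * (Y / 2 ^ j)⌋₊, F n := by
  induction J with
  | zero => simp
  | succ J ih =>
    rw [Finset.sum_range_succ]
    have e1 : 2 * (Y / 2 ^ (J + 1)) = Y / 2 ^ J := by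
      rw [pow_succ]
      field_simp
    rw [e1]
    have hsub : Ioc ⌊Y / 2 ^ (J + 1)⌋₊ ⌊2 * Y⌋₊ ⊆
        Ioc ⌊Y / 2 ^ J⌋₊ ⌊2 * Y⌋₊ ∪ Ioc ⌊Y / 2 ^ (J + 1)⌋₊ ⌊Y / 2 ^ J⌋₊ := by
      intro n hn
      rw [mem_Ioc] at hn
      rw [mem_union, mem_Ioc, mem_Ioc]
      omega
    calc ∑ n ∈ Ioc ⌊Y / 2 ^ (J + 1)⌋₊ ⌊2 * Y⌋₊, F n
        ≤ ∑ n ∈ Ioc ⌊Y / 2 ^ J⌋₊ ⌊2 * Y⌋₊ ∪ Ioc ⌊Y / 2 ^ (J + 1)⌋₊ ⌊Y / 2 ^ J⌋₊, F n :=
          sum_le_sum_of_subset_of_nonneg hsub fun n _ _ => hF n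
      _ ≤ ∑ n ∈ Ioc ⌊Y / 2 ^ J⌋₊ ⌊2 * Y⌋₊, F n +
          ∑ n ∈ Ioc ⌊Y / 2 ^ (J + 1)⌋₊ ⌊Y / 2 ^ J⌋₊, F n := by
          rw [← Finset.sum_union_inter]
          have : 0 ≤ ∑ n ∈ Ioc ⌊Y / 2 ^ J⌋₊ ⌊2 * Y⌋₊ ∩ Ioc ⌊Y / 2 ^ (J + 1)⌋₊ ⌊Y / 2 ^ J⌋₊, F n :=
            sum_nonneg fun n _ => hF n
          linarith
      _ ≤ _ := add_le_add ih le_rfl

private theorem bl1_geom (J : ℕ) : ∑ j ∈ range (J + 1), (1 : ℝ) / 2 ^ j ≤ 2 := by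
  have h : ∀ J : ℕ, ∑ j ∈ range (J + 1), (1 : ℝ) / 2 ^ j = 2 - 1 / 2 ^ J := by
    intro J
    induction J with
    | zero => norm_num
    | succ J ih =>
      rw [Finset.sum_range_succ, ih, pow_succ]
      field_simp
      ring
  rw [h J]
  have : (0 : ℝ) ≤ 1 / 2 ^ J := by positivity
  linarith

private theorem bl1_pow (ℓ Λ a : ℝ) (ha : 0 ≤ a) (h2 : (2 : ℝ) ^ (a + 1) ≤ ℓ) (hℓ : 0 < ℓ)
    (hΛ : ℓ / 2 ≤ Λ) : ℓ ^ a ≤ Λ ^ (a + 1) := by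
  have h1 : (ℓ / 2) ^ (a + 1) ≤ Λ ^ (a + 1) :=
    Real.rpow_le_rpow (by positivity) hΛ (by linarith)
  refine le_trans ?_ h1
  rw [Real.div_rpow hℓ.le (by norm_num), Real.rpow_add hℓ, Real.rpow_one, le_div_iff₀ (by positivity)]
  exact mul_le_mul_of_nonneg_left h2 (by positivity)

theorem bl1 (htu : TuS) (B A B' : ℝ) (hB : 0 < B) (hA : 0 < A) (hB' : 0 < B') :
    ∃ A2 C1 A1 : ℝ, 0 < A2 ∧ 0 < C1 ∧ 0 < A1 ∧ ∃ X0 : ℕ, 10 ≤ X0 ∧ ∀ X : ℕ, X0 ≤ X →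
    ∀ Z : ℕ, (X : ℝ) * (Real.log X) ^ (-B') ≤ Z →
    ∀ q c : ℕ, 1 ≤ q → (q : ℝ) ≤ (Real.log X) ^ B → c < q → ∀ P P2 H : ℕ,
    (Real.log X) ^ A2 ≤ P → P ≤ P2 → (P2 : ℝ) ≤ (X : ℝ) ^ ((1 : ℝ) / 14) →
    P2 * (Real.log X) ^ C1 ≤ H → (H : ℝ) ≤ X * (Real.log X) ^ (-A1) →
    ∑ n ∈ Ioc Z (2 * X),
      (∑ m ∈ (Ioc n (n + H)).filter (fun m => m % q = c), ue P P2 m -
        (if Nat.Coprime c q then lam P P2 n * H / q.totient else 0)) ^ 2 ≤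
      X * (H : ℝ) ^ 2 * (Real.log X) ^ (-A) := by
  obtain ⟨A2, C1, A1, X1, hA2, hC1, hA1, hX1, hth⟩ := htu (B + 1) (A + 1) (by linarith) (by linarith)
  refine ⟨A2, C1, A1 + B' + 1, hA2, hC1, by linarith, ?_⟩
  have ev1 : ∀ᶠ x : ℝ in Filter.atTop, 2 * (Real.log x) ^ B' ≤ x ^ (1 / 14 : ℝ) := by
    have h := (isLittleO_log_rpow_rpow_atTop B' (show (0 : ℝ) < 1 / 14 by norm_num)).bound
      (show (0 : ℝ) < 1 / 2 by norm_num)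
    filter_upwards [h, Filter.eventually_ge_atTop 1] with x hx hx1
    have h1 : 0 ≤ (Real.log x) ^ B' := Real.rpow_nonneg (Real.log_nonneg hx1) _
    have h2 : 0 ≤ x ^ (1 / 14 : ℝ) := Real.rpow_nonneg (by linarith) _
    rw [Real.norm_of_nonneg h1, Real.norm_of_nonneg h2] at hx
    linarith
  have ev2 : ∀ᶠ x : ℝ in Filter.atTop, X1 ≤ x ^ (1 / 2 : ℝ) :=
    (tendsto_rpow_atTop (show (0 : ℝ) < 1 / 2 by norm_num)).eventually_ge_atTop X1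
  have ev3 : ∀ᶠ x : ℝ in Filter.atTop,
      max 2 (max (2 ^ (B + 1)) (2 ^ (A + 2))) ≤ Real.log x :=
    Real.tendsto_log_atTop.eventually_ge_atTop _
  obtain ⟨x1, hx1⟩ := Filter.eventually_atTop.1 (ev1.and (ev2.and ev3))
  refine ⟨max 10 ⌈x1⌉₊, le_max_left _ _, ?_⟩
  intro X hX Z hZ q c hq1 hqB hcq P P2 H hP hPP hP2 hH1 hH2
  have hX10 : 10 ≤ X := (le_max_left _ _).trans hX
  have hXx1 : x1 ≤ (X : ℝ) := (Nat.le_ceil _).trans (by exact_mod_cast (le_max_right _ _).trans hX)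
  obtain ⟨hv1, hv2, hv3⟩ := hx1 X hXx1
  have hx : (10 : ℝ) ≤ X := by exact_mod_cast hX10
  have hx0 : (0 : ℝ) < X := by linarith
  set x : ℝ := (X : ℝ) with hxdef
  set ℓ := Real.log x with hℓ
  have hℓ2 : 2 ≤ ℓ := (le_max_left _ _).trans hv3
  have hℓB : (2 : ℝ) ^ (B + 1) ≤ ℓ := ((le_max_left _ _).trans (le_max_right _ _)).trans hv3
  have hℓA : (2 : ℝ) ^ (A + 2) ≤ ℓ :=
    ((le_max_right _ _).trans (le_max_right _ _)).trans hv3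
  have hℓ0 : 0 < ℓ := by linarith
  have hℓ1 : 1 ≤ ℓ := by linarith
  -- the number of dyadic intervals
  have hZ0 : 0 < (Z : ℝ) := lt_of_lt_of_le (by positivity) hZ
  have hex : ∃ J : ℕ, x / 2 ^ J ≤ Z := by
    obtain ⟨J, hJ⟩ := pow_unbounded_of_one_lt (x / Z) (show (1 : ℝ) < 2 by norm_num)
    refine ⟨J, ?_⟩
    rw [div_le_iff₀ (by positivity)]
    rw [div_lt_iff₀ hZ0] at hJ
    linarith
  classical
  obtain ⟨J, hJ, hJmin⟩ : ∃ J : ℕ, x / 2 ^ J ≤ Z ∧ ∀ j, j < J → ¬ x / 2 ^ j ≤ Z :=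
    ⟨Nat.find hex, Nat.find_spec hex, fun j hj => Nat.find_min hex hj⟩
  have hlow0 : x ^ (13 / 14 : ℝ) ≤ x * ℓ ^ (-B') / 2 := by
    have h1 : x = x ^ (13 / 14 : ℝ) * x ^ (1 / 14 : ℝ) := by
      rw [← Real.rpow_add hx0]
      norm_num
    have h2 : ℓ ^ B' * ℓ ^ (-B') = 1 := by
      rw [← Real.rpow_add hℓ0]
      simp
    have h3 : 0 < ℓ ^ (-B') := by positivity
    have h4 : 0 < x ^ (13 / 14 : ℝ) := by positivity
    calc x ^ (13 / 14 : ℝ) = x ^ (13 / 14 : ℝ) * (2 * ℓ ^ B') * ℓ ^ (-B') / 2 := by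
          linear_combination (-(x ^ (13 / 14 : ℝ))) * h2
      _ ≤ x ^ (13 / 14 : ℝ) * x ^ (1 / 14 : ℝ) * ℓ ^ (-B') / 2 := by
          gcongr
      _ = x * ℓ ^ (-B') / 2 := by rw [← h1]
  have hlow : ∀ j, j ≤ J → x * ℓ ^ (-B') / 2 ≤ x / 2 ^ j := by
    intro j hj
    rcases Nat.eq_zero_or_pos J with hJ0 | hJ0
    · have hj0 : j = 0 := by omega
      rw [hj0, pow_zero, div_one]
      have h1 : ℓ ^ (-B') ≤ 1 := Real.rpow_le_one_of_one_le_of_nonpos hℓ1 (by linarith)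
      have h2 : x * ℓ ^ (-B') ≤ x * 1 := mul_le_mul_of_nonneg_left h1 hx0.le
      have h3 : 0 ≤ x * ℓ ^ (-B') := by positivity
      linarith
    · have h1 := hJmin (J - 1) (by omega)
      push Not at h1
      have h2 : x / 2 ^ (J - 1) = 2 * (x / 2 ^ J) := by
        have h3 : (2 : ℝ) ^ J = 2 ^ (J - 1) * 2 := by
          rw [← pow_succ]
          congr 1
          omega
        rw [h3]
        field_simp
      have h4 : x / 2 ^ J ≤ x / 2 ^ j := by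
        apply div_le_div_of_nonneg_left hx0.le (by positivity)
        exact pow_le_pow_right₀ (by norm_num) hj
      linarith
  -- one interval
  have hone : ∀ j, j ≤ J →
      ∑ n ∈ Ioc ⌊x / 2 ^ j⌋₊ ⌊2 * (x / 2 ^ j)⌋₊,
        (∑ m ∈ (Ioc n (n + H)).filter (fun m => m % q = c), ue P P2 m -
          (if Nat.Coprime c q then lam P P2 n * H / q.totient else 0)) ^ 2 ≤
        (1 / 2 ^ j) * (x * (H : ℝ) ^ 2 * ℓ ^ (-A) / 2) := by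
    intro j hj
    have hY3 : x ^ (13 / 14 : ℝ) ≤ x / 2 ^ j := hlow0.trans (hlow j hj)
    have hY1 : x ^ (1 / 2 : ℝ) ≤ x / 2 ^ j :=
      (Real.rpow_le_rpow_of_exponent_le (by linarith) (by norm_num)).trans hY3
    have hY2 : x / 2 ^ j ≤ x := div_le_self hx0.le (one_le_pow₀ (by norm_num))
    have hY0 : 0 < x / 2 ^ j := by positivity
    have hL2 : Real.log (x / 2 ^ j) ≤ ℓ := Real.log_le_log hY0 hY2
    have hL1 : ℓ / 2 ≤ Real.log (x / 2 ^ j) := by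
      have h1 : Real.log (x ^ (1 / 2 : ℝ)) = ℓ / 2 := by
        rw [Real.log_rpow hx0]
        ring
      rw [← h1]
      exact Real.log_le_log (by positivity) hY1
    have hL0 : 0 < Real.log (x / 2 ^ j) := by linarith
    have hbd := hth (x / 2 ^ j) (hv2.trans hY1) q c hq1
      (hqB.trans (bl1_pow ℓ _ B hB.le hℓB hℓ0 hL1)) hcq P P2 H
      ((Real.rpow_le_rpow hL0.le hL2 hA2.le).trans hP) hPP
      (hP2.trans (by
        have h1 : (x ^ (13 / 14 : ℝ)) ^ ((1 : ℝ) / 13) = x ^ ((1 : ℝ) / 14) := by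
          rw [← Real.rpow_mul hx0.le]
          norm_num
        rw [← h1]
        exact Real.rpow_le_rpow (by positivity) hY3 (by norm_num)))
      ((mul_le_mul_of_nonneg_left (Real.rpow_le_rpow hL0.le hL2 hC1.le) (Nat.cast_nonneg P2)).trans hH1) (by
        refine hH2.trans ?_
        have h1 : ℓ ^ (-A1) ≤ Real.log (x / 2 ^ j) ^ (-A1) :=
          Real.rpow_le_rpow_of_nonpos hL0 hL2 (by linarith)
        have h2 : x * ℓ ^ (-B') / 2 * ℓ ^ (-A1) ≤ x / 2 ^ j * Real.log (x / 2 ^ j) ^ (-A1) :=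
          mul_le_mul (hlow j hj) h1 (by positivity) hY0.le
        refine le_trans ?_ h2
        have h3 : ℓ ^ (-(A1 + B' + 1)) = ℓ ^ (-A1) * ℓ ^ (-B') * ℓ ^ (-1 : ℝ) := by
          rw [← Real.rpow_add hℓ0, ← Real.rpow_add hℓ0]
          congr 1
          ring
        have h4 : ℓ ^ (-1 : ℝ) ≤ 1 / 2 := by
          rw [Real.rpow_neg_one, one_div]
          exact inv_anti₀ (by norm_num) hℓ2
        have h5 : 0 ≤ x * (ℓ ^ (-A1) * ℓ ^ (-B')) := by positivity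
        calc x * ℓ ^ (-(A1 + B' + 1)) = x * (ℓ ^ (-A1) * ℓ ^ (-B')) * ℓ ^ (-1 : ℝ) := by
              rw [h3]
              ring
          _ ≤ x * (ℓ ^ (-A1) * ℓ ^ (-B')) * (1 / 2) := mul_le_mul_of_nonneg_left h4 h5
          _ = x * ℓ ^ (-B') / 2 * ℓ ^ (-A1) := by ring)
    refine hbd.trans ?_
    have h6 : Real.log (x / 2 ^ j) ^ (-(A + 1)) ≤ ℓ ^ (-A) / 2 := by
      have h1 : Real.log (x / 2 ^ j) ^ (-(A + 1)) ≤ (ℓ / 2) ^ (-(A + 1)) :=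
        Real.rpow_le_rpow_of_nonpos (by linarith) hL1 (by linarith)
      refine h1.trans ?_
      have h2 : (ℓ / 2) ^ (-(A + 1)) = ℓ ^ (-A) * (ℓ ^ (-1 : ℝ) * 2 ^ (A + 1)) := by
        rw [Real.div_rpow hℓ0.le (by norm_num), Real.rpow_neg (by norm_num : (0:ℝ) ≤ 2), div_inv_eq_mul]
        have : ℓ ^ (-(A + 1)) = ℓ ^ (-A) * ℓ ^ (-1 : ℝ) := by
          rw [← Real.rpow_add hℓ0]
          congr 1
          ring
        rw [this]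
        ring
      rw [h2]
      have h3 : ℓ ^ (-1 : ℝ) * 2 ^ (A + 1) ≤ 1 / 2 := by
        rw [Real.rpow_neg_one, inv_mul_le_iff₀ hℓ0]
        have h4 : (2 : ℝ) ^ (A + 2) = 2 ^ (A + 1) * 2 := by
          rw [show A + 2 = (A + 1) + 1 by ring, Real.rpow_add (by norm_num) (A + 1) 1, Real.rpow_one]
        linarith
      calc ℓ ^ (-A) * (ℓ ^ (-1 : ℝ) * 2 ^ (A + 1)) ≤ ℓ ^ (-A) * (1 / 2) :=
            mul_le_mul_of_nonneg_left h3 (by positivity)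
        _ = _ := by ring
    calc x / 2 ^ j * (H : ℝ) ^ 2 * Real.log (x / 2 ^ j) ^ (-(A + 1))
        ≤ x / 2 ^ j * (H : ℝ) ^ 2 * (ℓ ^ (-A) / 2) :=
          mul_le_mul_of_nonneg_left h6 (by positivity)
      _ = _ := by ring
  -- cover
  have hcov := bl1_cover (fun n => (∑ m ∈ (Ioc n (n + H)).filter (fun m => m % q = c), ue P P2 m -
    (if Nat.Coprime c q then lam P P2 n * H / q.totient else 0)) ^ 2) (fun n => sq_nonneg _)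
    x hx0.le J
  have hsub : Ioc Z (2 * X) ⊆ Ioc ⌊x / 2 ^ J⌋₊ ⌊2 * x⌋₊ := by
    apply Ioc_subset_Ioc
    · exact Nat.floor_le_of_le hJ
    · apply Nat.le_floor
      push_cast
      exact le_rfl
  calc _ ≤ ∑ n ∈ Ioc ⌊x / 2 ^ J⌋₊ ⌊2 * x⌋₊,
        (∑ m ∈ (Ioc n (n + H)).filter (fun m => m % q = c), ue P P2 m -
          (if Nat.Coprime c q then lam P P2 n * H / q.totient else 0)) ^ 2 :=
        sum_le_sum_of_subset_of_nonneg hsub fun n _ _ => sq_nonneg _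
    _ ≤ _ := hcov
    _ ≤ ∑ j ∈ range (J + 1), (1 / 2 ^ j) * (x * (H : ℝ) ^ 2 * ℓ ^ (-A) / 2) :=
        sum_le_sum fun j hj => hone j (by rw [mem_range] at hj; omega)
    _ = (∑ j ∈ range (J + 1), (1 : ℝ) / 2 ^ j) * (x * (H : ℝ) ^ 2 * ℓ ^ (-A) / 2) := by
        rw [Finset.sum_mul]
    _ ≤ 2 * (x * (H : ℝ) ^ 2 * ℓ ^ (-A) / 2) :=
        mul_le_mul_of_nonneg_right (bl1_geom J) (by positivity)
    _ = x * (H : ℝ) ^ 2 * ℓ ^ (-A) := by ring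

end Pool.Agent.H43.PG
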