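import Pool.Agent.H43.TP.Mw
import Pool.Agent.H43.PG.St
import Pool.Agent.H43.TQ.Lam

/-!
# [H43 PG FA1] The windows of `ue - lam lq`

PROOF. Copy `TQ/Fa2.lean` with `bl1` in place of `bl2` (`A3` disappears). `P2 <= ℓ^A3` is used there only for `kap <= 1 + log P2 <= ℓ` and `Z >= 3 P2`: both hold for `P2 <= X^(1/14)`.
-/

namespace Pool.Agent.H43.PG

open Finset Pool.Agent.H43.TQ

private theorem fa2_lq (Q n : ℕ) : |TP.lq Q n| ≤ Q := by
  unfold TP.lq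
  refine (abs_sum_le_sum_abs _ _).trans ?_
  have h : ∀ r ∈ Icc 1 Q, |((ArithmeticFunction.moebius r : ℤ) : ℝ) / (r.totient : ℝ) *
      (TP.crd r n : ℝ)| ≤ 1 := by
    intro r hr
    rw [mem_Icc] at hr
    have htot : (0 : ℝ) < r.totient := by exact_mod_cast Nat.totient_pos.2 hr.1
    have hmu : |((ArithmeticFunction.moebius r : ℤ) : ℝ)| ≤ 1 := by
      exact_mod_cast ArithmeticFunction.abs_moebius_le_one
    rw [abs_mul, abs_div, abs_of_pos htot]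
    calc |((ArithmeticFunction.moebius r : ℤ) : ℝ)| / r.totient * |(TP.crd r n : ℝ)|
        ≤ 1 / r.totient * r.totient :=
          mul_le_mul (div_le_div_of_nonneg_right hmu htot.le) (TP.ram_abs r n hr.1)
            (abs_nonneg _) (by positivity)
      _ = 1 := by field_simp
  refine (Finset.sum_le_sum h).trans ?_
  rw [Finset.sum_const, nsmul_eq_mul, Nat.card_Icc]
  simp

private theorem fa2_kap (P P2 : ℕ) : 0 ≤ TP.kap P P2 := by
  unfold TP.kap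
  exact Finset.sum_nonneg fun p _ => by positivity

private theorem fa2_card (a b h : ℕ) (hb : b ≤ a + h) (s : Finset ℕ)
    (hs : s ⊆ Ioc a b) : (s.card : ℝ) ≤ h := by
  have h1 := Finset.card_le_card hs
  rw [Nat.card_Ioc] at h1
  have h2 : s.card ≤ h := by omega
  exact_mod_cast h2

private theorem fa2_b (P P2 Q X Z q c h x' : ℕ) (hZ : 3 * P2 ≤ Z) (hq : 1 ≤ q) (hqQ : q ≤ Q)
    (hc : c < q) (hx1 : Z < x') (hx2 : x' + h ≤ 2 * X) (κ δ : ℝ) (hκ : TP.kap P P2 ≤ κ)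
    (hδ : κ * ((h : ℝ) / x') ≤ δ) :
    ‖∑ n ∈ (Ioc x' (x' + h)).filter (fun n => n ≤ 2 * X ∧ n % q = c), aw P P2 Q X Z n‖ ≤
      |∑ m ∈ (Ioc x' (x' + h)).filter (fun m => m % q = c), ue P P2 m -
        (if Nat.Coprime c q then lam P P2 x' * h / q.totient else 0)| +
        κ * (2 * (Q : ℝ) ^ 2) + h * (δ * Q) := by
  have hx'pos : (0 : ℝ) < x' := by
    have : 0 < x' := by omega
    exact_mod_cast this
  have hκ0 : 0 ≤ κ := (fa2_kap P P2).trans hκ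
  obtain ⟨W, hW⟩ : ∃ W : Finset ℕ, W = (Ioc x' (x' + h)).filter (fun m => m % q = c) := ⟨_, rfl⟩
  have hWe : (Ioc x' (x' + h)).filter (fun n => n ≤ 2 * X ∧ n % q = c) = W := by
    rw [hW]
    refine Finset.filter_congr fun n hn => ?_
    rw [mem_Ioc] at hn
    exact ⟨fun h1 => h1.2, fun h1 => ⟨by omega, h1⟩⟩
  rw [hWe, ← hW]
  have hWm : ∀ n ∈ W, x' < n ∧ n ≤ x' + h := by
    intro n hn
    rw [hW, mem_filter, mem_Ioc] at hn
    exact hn.1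
  have e1 : ∑ n ∈ W, aw P P2 Q X Z n =
      ((∑ n ∈ W, (ue P P2 n - lam P P2 n * TP.lq Q n) : ℝ) : ℂ) := by
    rw [Complex.ofReal_sum]
    refine Finset.sum_congr rfl fun n hn => ?_
    have h1 := hWm n hn
    unfold aw
    rw [if_pos ⟨by omega, by omega⟩]
  rw [e1, Complex.norm_real, Real.norm_eq_abs]
  have hmw := TP.mw Q q c x' h hq hqQ hc
  rw [← hW] at hmw
  have e2 : ∑ n ∈ W, (ue P P2 n - lam P P2 n * TP.lq Q n) =
      (∑ m ∈ W, ue P P2 m - (if Nat.Coprime c q then lam P P2 x' * h / q.totient else 0)) -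
      lam P P2 x' * (∑ n ∈ W, TP.lq Q n - (if Nat.Coprime c q then (h : ℝ) / q.totient else 0)) +
      ∑ n ∈ W, (lam P P2 x' - lam P P2 n) * TP.lq Q n := by
    have e3 : ∀ n ∈ W, ue P P2 n - lam P P2 n * TP.lq Q n =
        ue P P2 n - lam P P2 x' * TP.lq Q n + (lam P P2 x' - lam P P2 n) * TP.lq Q n := by
      intro n _
      ring
    rw [Finset.sum_congr rfl e3, Finset.sum_add_distrib, Finset.sum_sub_distrib,
      ← Finset.mul_sum]
    split_ifs <;> ring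
  rw [e2]
  have hl0 := lam_nonneg P P2 x' (by omega)
  have hl1 := (lam_le P P2 x' (by omega)).trans hκ
  have b1 : |lam P P2 x' * (∑ n ∈ W, TP.lq Q n -
      (if Nat.Coprime c q then (h : ℝ) / q.totient else 0))| ≤ κ * (2 * (Q : ℝ) ^ 2) := by
    rw [abs_mul, abs_of_nonneg hl0]
    exact mul_le_mul hl1 hmw (abs_nonneg _) hκ0
  have b2 : |∑ n ∈ W, (lam P P2 x' - lam P P2 n) * TP.lq Q n| ≤ h * (δ * Q) := by
    have hδ0 : 0 ≤ δ := le_trans (by positivity) hδ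
    refine (abs_sum_le_sum_abs _ _).trans ?_
    have h1 : ∀ n ∈ W, |(lam P P2 x' - lam P P2 n) * TP.lq Q n| ≤ δ * Q := by
      intro n hn
      have h2 := hWm n hn
      rw [abs_mul]
      have h3 := lam_anti P P2 x' n (by omega) h2.1.le
      have h4 := lam_lip P P2 x' n (by omega) h2.1.le
      rw [abs_of_nonneg (by linarith : 0 ≤ lam P P2 x' - lam P P2 n)]
      have h5 : ((n : ℝ) - x') / x' ≤ (h : ℝ) / x' := by
        have h6 : (n : ℝ) ≤ x' + h := by exact_mod_cast h2.2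
        gcongr
        linarith
      have h6 : lam P P2 x' - lam P P2 n ≤ δ := by
        refine h4.trans (le_trans ?_ hδ)
        have h7 : 0 ≤ ((n : ℝ) - x') / x' := by
          have h8 : (x' : ℝ) ≤ n := by exact_mod_cast h2.1.le
          exact div_nonneg (by linarith) hx'pos.le
        exact mul_le_mul hκ h5 h7 hκ0
      exact mul_le_mul h6 (fa2_lq Q n) (abs_nonneg _) hδ0
    refine (Finset.sum_le_sum h1).trans ?_
    rw [Finset.sum_const, nsmul_eq_mul]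
    have h2 : (W.card : ℝ) ≤ h := fa2_card x' (x' + h) h le_rfl W (by
      rw [hW]
      exact Finset.filter_subset _ _)
    have h3 : 0 ≤ δ * (Q : ℝ) := mul_nonneg hδ0 (Nat.cast_nonneg Q)
    exact mul_le_mul_of_nonneg_right h2 h3
  obtain ⟨a, ha⟩ : ∃ a : ℝ, a = ∑ m ∈ W, ue P P2 m -
    (if Nat.Coprime c q then lam P P2 x' * h / q.totient else 0) := ⟨_, rfl⟩
  obtain ⟨b, hb⟩ : ∃ b : ℝ, b = lam P P2 x' * (∑ n ∈ W, TP.lq Q n -
      (if Nat.Coprime c q then (h : ℝ) / q.totient else 0)) := ⟨_, rfl⟩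
  obtain ⟨d, hd⟩ : ∃ d : ℝ, d = ∑ n ∈ W, (lam P P2 x' - lam P P2 n) * TP.lq Q n := ⟨_, rfl⟩
  rw [← hb] at b1
  rw [← hd] at b2
  rw [← ha, ← hb, ← hd]
  have h1 : |a - b + d| ≤ |a - b| + |d| := abs_add_le _ _
  have h2 : |a - b| ≤ |a| + |b| := abs_sub _ _
  linarith

private theorem fa2_c (P P2 Q X Z q c h x : ℕ) (hZ : 3 * P2 ≤ Z) (κ : ℝ)
    (hκ : TP.kap P P2 ≤ κ) :
    ‖∑ n ∈ (Ioc (x - h) x).filter (fun n => n ≤ 2 * X ∧ n % q = c), aw P P2 Q X Z n‖ ≤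
      h * (2 + κ * Q) := by
  have hκ0 : 0 ≤ κ := (fa2_kap P P2).trans hκ
  have h0 : 0 ≤ 2 + κ * (Q : ℝ) := by positivity
  refine (norm_sum_le _ _).trans ?_
  have h1 : ∀ n ∈ (Ioc (x - h) x).filter (fun n => n ≤ 2 * X ∧ n % q = c),
      ‖aw P P2 Q X Z n‖ ≤ 2 + κ * Q := by
    intro n _
    unfold aw
    split_ifs with h2
    · rw [Complex.norm_real, Real.norm_eq_abs]
      have hl0 := lam_nonneg P P2 n (by omega)
      have hl1 := (lam_le P P2 n (by omega)).trans hκ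
      have h3 : |ue P P2 n - lam P P2 n * TP.lq Q n| ≤
          |ue P P2 n| + |lam P P2 n * TP.lq Q n| := abs_sub _ _
      have h4 : |ue P P2 n| ≤ 2 := by
        rw [abs_of_nonneg (by unfold ue; positivity)]
        exact ue_le P P2 n
      have h5 : |lam P P2 n * TP.lq Q n| ≤ κ * Q := by
        rw [abs_mul, abs_of_nonneg hl0]
        exact mul_le_mul hl1 (fa2_lq Q n) (abs_nonneg _) hκ0
      linarith
    · rw [norm_zero]
      exact h0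
  refine (Finset.sum_le_sum h1).trans ?_
  rw [Finset.sum_const, nsmul_eq_mul]
  exact mul_le_mul_of_nonneg_right (fa2_card (x - h) x h (by omega) _
    (Finset.filter_subset _ _)) h0

private theorem fa2_zero (P P2 Q X Z q c h x : ℕ) (hx : x ≤ Z) :
    ∑ n ∈ (Ioc (x - h) x).filter (fun n => n ≤ 2 * X ∧ n % q = c), aw P P2 Q X Z n = 0 := by
  refine Finset.sum_eq_zero fun n hn => ?_
  rw [mem_filter, mem_Ioc] at hn
  unfold aw
  rw [if_neg]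
  intro h1
  omega

/-- the sum over the windows -/
private theorem fa2_sum (T : ℕ → ℝ) (U : ℕ → ℝ) (X Z h : ℕ) (K K3 : ℝ) (hK : 0 ≤ K)
    (hK3 : 0 ≤ K3)
    (h0 : ∀ x, x ≤ Z → T x = 0)
    (h1 : ∀ x', Z < x' → x' + h ≤ 2 * X → T (x' + h) ≤ 3 * U x' ^ 2 + K)
    (h2 : ∀ x, T x ≤ K3) :
    ∑ x ∈ Icc 1 (2 * X + h), T x ≤
      3 * ∑ x' ∈ Ioc Z (2 * X), U x' ^ 2 + 2 * X * K + 2 * h * K3 := by
  have hpt : ∀ x ∈ Icc 1 (2 * X + h), T x ≤
      (if Z + h < x ∧ x ≤ 2 * X then 3 * U (x - h) ^ 2 else 0) +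
      (if x ≤ 2 * X then K else 0) +
      (if x ∈ Ioc Z (Z + h) ∪ Ioc (2 * X) (2 * X + h) then K3 else 0) := by
    intro x hx
    rw [mem_Icc] at hx
    have k1 : 0 ≤ (if x ≤ 2 * X then K else 0) := by
      split_ifs
      · exact hK
      · exact le_rfl
    have k2 : 0 ≤ (if x ∈ Ioc Z (Z + h) ∪ Ioc (2 * X) (2 * X + h) then K3 else 0) := by
      split_ifs
      · exact hK3
      · exact le_rfl
    have k3 : 0 ≤ (if Z + h < x ∧ x ≤ 2 * X then 3 * U (x - h) ^ 2 else 0) := by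
      split_ifs
      · positivity
      · exact le_rfl
    by_cases c1 : x ≤ Z
    · rw [h0 x c1]
      linarith
    · by_cases c2 : x ∈ Ioc Z (Z + h) ∪ Ioc (2 * X) (2 * X + h)
      · rw [if_pos c2]
        have := h2 x
        linarith
      · rw [Finset.mem_union, mem_Ioc, mem_Ioc] at c2
        have c3 : Z + h < x ∧ x ≤ 2 * X := by omega
        rw [if_pos c3, if_pos c3.2]
        have h3 := h1 (x - h) (by omega) (by omega)
        rw [Nat.sub_add_cancel (by omega)] at h3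
        linarith
  refine (Finset.sum_le_sum hpt).trans ?_
  rw [Finset.sum_add_distrib, Finset.sum_add_distrib]
  have s1 : ∑ x ∈ Icc 1 (2 * X + h), (if Z + h < x ∧ x ≤ 2 * X then 3 * U (x - h) ^ 2 else 0) ≤
      3 * ∑ x' ∈ Ioc Z (2 * X), U x' ^ 2 := by
    rw [← Finset.sum_filter, Finset.mul_sum]
    have e1 : ∑ x ∈ (Icc 1 (2 * X + h)).filter (fun x => Z + h < x ∧ x ≤ 2 * X),
        3 * U (x - h) ^ 2 =
        ∑ y ∈ ((Icc 1 (2 * X + h)).filter (fun x => Z + h < x ∧ x ≤ 2 * X)).image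
          (fun x => x - h), 3 * U y ^ 2 := by
      rw [Finset.sum_image]
      intro a ha b hb hab
      rw [Finset.mem_coe, mem_filter] at ha hb
      dsimp only at hab
      omega
    rw [e1]
    refine Finset.sum_le_sum_of_subset_of_nonneg ?_ fun y _ _ => by positivity
    intro y hy
    rw [Finset.mem_image] at hy
    obtain ⟨x, hx, rfl⟩ := hy
    rw [mem_filter] at hx
    rw [mem_Ioc]
    omega
  have s2 : ∑ x ∈ Icc 1 (2 * X + h), (if x ≤ 2 * X then K else 0) ≤ 2 * X * K := by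
    rw [← Finset.sum_filter, Finset.sum_const, nsmul_eq_mul]
    have h3 : (((Icc 1 (2 * X + h)).filter (fun x => x ≤ 2 * X)).card : ℝ) ≤ 2 * X := by
      have h4 : ((Icc 1 (2 * X + h)).filter (fun x => x ≤ 2 * X)).card ≤ 2 * X := by
        have h5 : (Icc 1 (2 * X + h)).filter (fun x => x ≤ 2 * X) ⊆ Icc 1 (2 * X) := by
          intro x hx
          rw [mem_filter, mem_Icc] at hx
          rw [mem_Icc]
          omega
        have h6 := Finset.card_le_card h5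
        rw [Nat.card_Icc] at h6
        omega
      exact_mod_cast h4
    exact mul_le_mul_of_nonneg_right h3 hK
  have s3 : ∑ x ∈ Icc 1 (2 * X + h),
      (if x ∈ Ioc Z (Z + h) ∪ Ioc (2 * X) (2 * X + h) then K3 else 0) ≤ 2 * h * K3 := by
    rw [← Finset.sum_filter, Finset.sum_const, nsmul_eq_mul]
    have h3 : (((Icc 1 (2 * X + h)).filter
        (fun x => x ∈ Ioc Z (Z + h) ∪ Ioc (2 * X) (2 * X + h))).card : ℝ) ≤ 2 * h := by
      have h4 : ((Icc 1 (2 * X + h)).filter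
          (fun x => x ∈ Ioc Z (Z + h) ∪ Ioc (2 * X) (2 * X + h))).card ≤ 2 * h := by
        have h5 : (Icc 1 (2 * X + h)).filter
            (fun x => x ∈ Ioc Z (Z + h) ∪ Ioc (2 * X) (2 * X + h)) ⊆
            Ioc Z (Z + h) ∪ Ioc (2 * X) (2 * X + h) := by
          intro x hx
          rw [mem_filter] at hx
          exact hx.2
        have h6 := (Finset.card_le_card h5).trans (Finset.card_union_le _ _)
        rw [Nat.card_Ioc, Nat.card_Ioc] at h6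
        omega
      exact_mod_cast h4
    exact mul_le_mul_of_nonneg_right h3 hK3
  linarith

theorem fa1 (hbl : BlS) (B A B' : ℝ) (hB : 0 < B) (hA : 0 < A) (hB' : 0 < B') :
    ∃ A2 C1 A1 : ℝ, 0 < A2 ∧ 0 < C1 ∧ 0 < A1 ∧ ∃ X0 : ℕ, 10 ≤ X0 ∧ ∀ X : ℕ, X0 ≤ X →
    ∀ Z : ℕ, (X : ℝ) * (Real.log X) ^ (-B') ≤ Z →
    ∀ Q q c : ℕ, (Q : ℝ) ≤ (Real.log X) ^ B → 1 ≤ q → q ≤ Q → c < q → ∀ P P2 h : ℕ,
    (Real.log X) ^ A2 ≤ P → P ≤ P2 → (P2 : ℝ) ≤ (X : ℝ) ^ ((1 : ℝ) / 14) →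
    P2 * (Real.log X) ^ C1 ≤ h → (h : ℝ) ≤ X * (Real.log X) ^ (-A1) →
    ∑ x ∈ Icc 1 (2 * X + h),
      ‖∑ n ∈ (Ioc (x - h) x).filter (fun n => n ≤ 2 * X ∧ n % q = c), aw P P2 Q X Z n‖ ^ 2 ≤
      X * (h : ℝ) ^ 2 * (Real.log X) ^ (-A) := by
  obtain ⟨A2, C1', A1', hA2, hC1', hA1', X0', hX0', hbl'⟩ :=
    hbl B (A + 3) B' hB (by linarith) hB'
  have ev1 : ∀ᶠ X : ℝ in Filter.atTop, 100 ≤ Real.log X :=
    Real.tendsto_log_atTop.eventually_ge_atTop _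
  have ev3 : ∀ᶠ X : ℝ in Filter.atTop, 3 * (Real.log X) ^ B' ≤ X ^ ((13 : ℝ) / 14) := by
    have h := (isLittleO_log_rpow_rpow_atTop B' (s := 13 / 14) (by norm_num)).bound
      (c := 1 / 3) (by norm_num)
    filter_upwards [h, Filter.eventually_ge_atTop (1 : ℝ)] with X hX hX1
    rw [Real.norm_eq_abs, Real.norm_eq_abs,
      abs_of_nonneg (Real.rpow_nonneg (by linarith) _ : 0 ≤ X ^ ((13 : ℝ) / 14))] at hX
    have h1 := le_trans (le_abs_self _) hX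
    linarith
  obtain ⟨X1, hX1⟩ := Filter.eventually_atTop.1 (ev1.and (ev3.and (Filter.eventually_ge_atTop (1 : ℝ))))
  obtain ⟨C1, hC1⟩ : ∃ C1, C1 = max C1' (A / 2 + 2 * B + 4) := ⟨_, rfl⟩
  obtain ⟨A1, hA1⟩ : ∃ A1, A1 = max A1' (max (B + B' + A / 2 + 4) (A + 2 * B + 7)) := ⟨_, rfl⟩
  have hC1a : C1' ≤ C1 := by rw [hC1]; exact le_max_left _ _
  have hC1b : A / 2 + 2 * B + 4 ≤ C1 := by rw [hC1]; exact le_max_right _ _
  have hA1a : A1' ≤ A1 := by rw [hA1]; exact le_max_left _ _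
  have hA1b : B + B' + A / 2 + 4 ≤ A1 := by
    rw [hA1]; exact (le_max_left _ _).trans (le_max_right _ _)
  have hA1c : A + 2 * B + 7 ≤ A1 := by
    rw [hA1]; exact (le_max_right _ _).trans (le_max_right _ _)
  refine ⟨A2, C1, A1, hA2, by linarith, by linarith, max X0' ⌈X1⌉₊, hX0'.trans (le_max_left _ _), ?_⟩
  intro X hX Z hZ Q q c hQ hq hqQ hc P P2 h hP hPP hP2 hh1' hh2
  have hXX1 : X1 ≤ (X : ℝ) := by
    refine (Nat.le_ceil X1).trans ?_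
    exact_mod_cast (le_max_right _ _).trans hX
  obtain ⟨c1, c3, c4⟩ := hX1 (X : ℝ) hXX1
  obtain ⟨ℓ, hℓ⟩ : ∃ ℓ, ℓ = Real.log X := ⟨_, rfl⟩
  have hblX := hbl' X ((le_max_left _ _).trans hX) Z hZ q c hq
    (le_trans (by exact_mod_cast hqQ) hQ) hc P P2 h hP hPP hP2
  rw [← hℓ] at hZ hQ hP hh1' hh2 c1 c3 hblX ⊢
  have hℓpos : 0 < ℓ := by linarith
  have hℓone : 1 ≤ ℓ := by linarith
  have hXpos : (0 : ℝ) < X := by linarith
  have hP2one : (1 : ℝ) ≤ P2 := by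
    have h1 : (P : ℝ) ≤ P2 := by exact_mod_cast hPP
    exact ((Real.one_le_rpow hℓone hA2.le).trans hP).trans h1
  have hh1 : ℓ ^ C1 ≤ h := by
    refine le_trans ?_ hh1'
    have h1 : 0 ≤ ℓ ^ C1 := Real.rpow_nonneg hℓpos.le _
    nlinarith
  have hblY := hblX ((mul_le_mul_of_nonneg_left
    (Real.rpow_le_rpow_of_exponent_le hℓone hC1a) (by linarith)).trans hh1')
    (hh2.trans (mul_le_mul_of_nonneg_left
      (Real.rpow_le_rpow_of_exponent_le hℓone (by linarith)) hXpos.le))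
  -- a constant multiple
  have hmul : ∀ k a b : ℝ, k ≤ 100 → b + 1 ≤ a → k * ℓ ^ b ≤ ℓ ^ a := by
    intro k a b hk hab
    have h1 : ℓ ^ (b + 1) = ℓ ^ b * ℓ := by rw [Real.rpow_add hℓpos, Real.rpow_one]
    have h2 : ℓ ^ (b + 1) ≤ ℓ ^ a := Real.rpow_le_rpow_of_exponent_le hℓone hab
    have h3 : 0 < ℓ ^ b := Real.rpow_pos_of_pos hℓpos _
    have h4 : ℓ ^ b * k ≤ ℓ ^ b * ℓ := mul_le_mul_of_nonneg_left (by linarith) h3.le
    linarith
  have hZP : 3 * P2 ≤ Z := by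
    have h1 : (3 : ℝ) * P2 ≤ Z := by
      refine le_trans ?_ hZ
      have h2 : ℓ ^ B' * ℓ ^ (-B') = 1 := by
        rw [← Real.rpow_add hℓpos, add_neg_cancel, Real.rpow_zero]
      have h3 : (X : ℝ) ^ ((1 : ℝ) / 14) * (X : ℝ) ^ ((13 : ℝ) / 14) = X := by
        rw [← Real.rpow_add hXpos]
        norm_num
      have h4 : 0 < (X : ℝ) ^ ((1 : ℝ) / 14) := Real.rpow_pos_of_pos hXpos _
      have h5 : 0 ≤ ℓ ^ (-B') := Real.rpow_nonneg hℓpos.le _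
      calc (3 : ℝ) * P2 ≤ 3 * (X : ℝ) ^ ((1 : ℝ) / 14) * (ℓ ^ B' * ℓ ^ (-B')) := by
            rw [h2]; linarith
        _ = (X : ℝ) ^ ((1 : ℝ) / 14) * (3 * ℓ ^ B') * ℓ ^ (-B') := by ring
        _ ≤ (X : ℝ) ^ ((1 : ℝ) / 14) * (X : ℝ) ^ ((13 : ℝ) / 14) * ℓ ^ (-B') := by gcongr
        _ = X * ℓ ^ (-B') := by rw [h3]
    exact_mod_cast h1
  have hkap : TP.kap P P2 ≤ ℓ := by
    refine (kap_le P P2).trans ?_
    have h1 : Real.log P2 ≤ 1 / 14 * ℓ := by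
      have h2 := Real.log_le_log (by linarith) hP2
      rwa [Real.log_rpow hXpos, ← hℓ] at h2
    linarith
  have hh0 : (0 : ℝ) ≤ h := Nat.cast_nonneg h
  have hQ0 : (0 : ℝ) ≤ Q := Nat.cast_nonneg Q
  -- constants
  obtain ⟨δ, hδ⟩ : ∃ δ, δ = ℓ ^ (1 + B' - A1) := ⟨_, rfl⟩
  have hδ0 : 0 ≤ δ := by rw [hδ]; exact Real.rpow_nonneg hℓpos.le _
  have hδx : ∀ x' : ℕ, Z < x' → ℓ * ((h : ℝ) / x') ≤ δ := by
    intro x' hx'
    have h1 : (X : ℝ) * ℓ ^ (-B') ≤ x' := hZ.trans (by exact_mod_cast hx'.le)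
    have h2 : 0 < (X : ℝ) * ℓ ^ (-B') := mul_pos hXpos (Real.rpow_pos_of_pos hℓpos _)
    have h3 : (h : ℝ) / x' ≤ (X * ℓ ^ (-A1)) / (X * ℓ ^ (-B')) := by gcongr
    have h4 : (X * ℓ ^ (-A1)) / ((X : ℝ) * ℓ ^ (-B')) = ℓ ^ (B' - A1) := by
      rw [mul_div_mul_left _ _ hXpos.ne', ← Real.rpow_sub hℓpos]
      congr 1
      ring
    rw [h4] at h3
    calc ℓ * ((h : ℝ) / x') ≤ ℓ * ℓ ^ (B' - A1) := mul_le_mul_of_nonneg_left h3 hℓpos.le
      _ = δ := by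
          rw [hδ]
          nth_rewrite 1 [← Real.rpow_one ℓ]
          rw [← Real.rpow_add hℓpos]
          congr 1
          ring
  obtain ⟨K1, hK1⟩ : ∃ K1, K1 = ℓ * (2 * (Q : ℝ) ^ 2) := ⟨_, rfl⟩
  obtain ⟨K2, hK2⟩ : ∃ K2, K2 = (h : ℝ) * (δ * Q) := ⟨_, rfl⟩
  obtain ⟨K3, hK3⟩ : ∃ K3, K3 = (h : ℝ) * (2 + ℓ * Q) := ⟨_, rfl⟩
  have hK10 : 0 ≤ K1 := by rw [hK1]; positivity
  have hK20 : 0 ≤ K2 := by rw [hK2]; positivity
  have hK30 : 0 ≤ K3 := by rw [hK3]; positivity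
  have hmain := fa2_sum
    (fun x => ‖∑ n ∈ (Ioc (x - h) x).filter (fun n => n ≤ 2 * X ∧ n % q = c),
      aw P P2 Q X Z n‖ ^ 2)
    (fun x' => ∑ m ∈ (Ioc x' (x' + h)).filter (fun m => m % q = c), ue P P2 m -
      (if Nat.Coprime c q then lam P P2 x' * h / q.totient else 0)) X Z h
    (3 * (K1 ^ 2 + K2 ^ 2)) (K3 ^ 2) (by positivity) (by positivity)
    (fun x hx => by
      rw [fa2_zero P P2 Q X Z q c h x hx, norm_zero, zero_pow (by norm_num)])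
    (fun x' h1 h2 => by
      rw [Nat.add_sub_cancel]
      have h3 := fa2_b P P2 Q X Z q c h x' hZP hq hqQ hc h1 h2 ℓ δ hkap (hδx x' h1)
      rw [← hK1, ← hK2] at h3
      obtain ⟨a, ha⟩ : ∃ a : ℝ, a = ∑ m ∈ (Ioc x' (x' + h)).filter (fun m => m % q = c),
        ue P P2 m - (if Nat.Coprime c q then lam P P2 x' * h / q.totient else 0) := ⟨_, rfl⟩
      rw [← ha] at h3 ⊢
      have h4 := pow_le_pow_left₀ (norm_nonneg _) h3 2
      refine h4.trans ?_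
      have h5 : |a| ^ 2 = a ^ 2 := sq_abs a
      nlinarith [sq_nonneg (|a| - K1), sq_nonneg (|a| - K2), sq_nonneg (K1 - K2)])
    (fun x => by
      have h3 := fa2_c P P2 Q X Z q c h x hZP ℓ hkap
      rw [← hK3] at h3
      exact pow_le_pow_left₀ (norm_nonneg _) h3 2)
  refine hmain.trans ?_
  -- the final estimate
  obtain ⟨M, hM⟩ : ∃ M, M = (X : ℝ) * (h : ℝ) ^ 2 * ℓ ^ (-A - 2) := ⟨_, rfl⟩
  have hM0 : 0 ≤ M := by
    rw [hM]
    have := Real.rpow_nonneg hℓpos.le (-A - 2)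
    positivity
  have t1 : 3 * ∑ x' ∈ Ioc Z (2 * X),
      (∑ m ∈ (Ioc x' (x' + h)).filter (fun m => m % q = c), ue P P2 m -
        (if Nat.Coprime c q then lam P P2 x' * h / q.totient else 0)) ^ 2 ≤ M := by
    have h1 := hmul 3 (-A - 2) (-(A + 3)) (by norm_num) (by linarith)
    have h2 : 0 ≤ (X : ℝ) * (h : ℝ) ^ 2 := by positivity
    calc 3 * ∑ x' ∈ Ioc Z (2 * X),
        (∑ m ∈ (Ioc x' (x' + h)).filter (fun m => m % q = c), ue P P2 m -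
          (if Nat.Coprime c q then lam P P2 x' * h / q.totient else 0)) ^ 2
        ≤ 3 * (X * (h : ℝ) ^ 2 * ℓ ^ (-(A + 3))) := by linarith
      _ = X * (h : ℝ) ^ 2 * (3 * ℓ ^ (-(A + 3))) := by ring
      _ ≤ M := by
          rw [hM]
          exact mul_le_mul_of_nonneg_left h1 h2
  have hQ2 : (Q : ℝ) ^ 2 ≤ ℓ ^ (2 * B) := by
    calc (Q : ℝ) ^ 2 ≤ (ℓ ^ B) ^ 2 := pow_le_pow_left₀ hQ0 hQ 2
      _ = ℓ ^ (2 * B) := by
          rw [← Real.rpow_natCast, ← Real.rpow_mul hℓpos.le]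
          congr 1
          push_cast
          ring
  have t2 : 6 * X * K1 ^ 2 ≤ M := by
    have h1 : K1 ≤ 2 * ℓ ^ (1 + 2 * B) := by
      rw [hK1, Real.rpow_add hℓpos, Real.rpow_one]
      have := mul_le_mul_of_nonneg_left hQ2 hℓpos.le
      linarith
    have h2 : K1 ^ 2 ≤ 4 * ℓ ^ (2 + 4 * B) := by
      calc K1 ^ 2 ≤ (2 * ℓ ^ (1 + 2 * B)) ^ 2 := pow_le_pow_left₀ hK10 h1 2
        _ = 4 * (ℓ ^ (1 + 2 * B)) ^ 2 := by ring
        _ = 4 * ℓ ^ (2 + 4 * B) := by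
            rw [← Real.rpow_natCast, ← Real.rpow_mul hℓpos.le]
            congr 2
            push_cast
            ring
    have h3 : ℓ ^ (A + 4 * B + 8) ≤ (h : ℝ) ^ 2 := by
      have h4 : ℓ ^ (A / 2 + 2 * B + 4) ≤ h :=
        (Real.rpow_le_rpow_of_exponent_le hℓone hC1b).trans hh1
      calc ℓ ^ (A + 4 * B + 8) = (ℓ ^ (A / 2 + 2 * B + 4)) ^ 2 := by
            rw [← Real.rpow_natCast, ← Real.rpow_mul hℓpos.le]
            congr 1
            push_cast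
            ring
        _ ≤ (h : ℝ) ^ 2 := pow_le_pow_left₀ (Real.rpow_nonneg hℓpos.le _) h4 2
    have h5 : 24 * ℓ ^ (2 + 4 * B) ≤ (h : ℝ) ^ 2 * ℓ ^ (-A - 2) := by
      calc 24 * ℓ ^ (2 + 4 * B) ≤ ℓ ^ (4 * B + 6) :=
            hmul 24 _ _ (by norm_num) (by linarith)
        _ = ℓ ^ (A + 4 * B + 8) * ℓ ^ (-A - 2) := by
            rw [← Real.rpow_add hℓpos]
            congr 1
            ring
        _ ≤ (h : ℝ) ^ 2 * ℓ ^ (-A - 2) :=
            mul_le_mul_of_nonneg_right h3 (Real.rpow_nonneg hℓpos.le _)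
    calc 6 * X * K1 ^ 2 ≤ 6 * X * (4 * ℓ ^ (2 + 4 * B)) := by gcongr
      _ = X * (24 * ℓ ^ (2 + 4 * B)) := by ring
      _ ≤ X * ((h : ℝ) ^ 2 * ℓ ^ (-A - 2)) := mul_le_mul_of_nonneg_left h5 hXpos.le
      _ = M := by rw [hM]; ring
  have t3 : 6 * X * K2 ^ 2 ≤ M := by
    have h1 : K2 ≤ h * ℓ ^ (1 + B' - A1 + B) := by
      rw [hK2, hδ, Real.rpow_add hℓpos (1 + B' - A1) B]
      have h2 : 0 ≤ ℓ ^ (1 + B' - A1) := Real.rpow_nonneg hℓpos.le _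
      gcongr
    have h2 : K2 ^ 2 ≤ (h : ℝ) ^ 2 * ℓ ^ (2 * (1 + B' - A1 + B)) := by
      calc K2 ^ 2 ≤ (h * ℓ ^ (1 + B' - A1 + B)) ^ 2 := pow_le_pow_left₀ hK20 h1 2
        _ = (h : ℝ) ^ 2 * (ℓ ^ (1 + B' - A1 + B)) ^ 2 := by ring
        _ = (h : ℝ) ^ 2 * ℓ ^ (2 * (1 + B' - A1 + B)) := by
            rw [← Real.rpow_natCast (ℓ ^ (1 + B' - A1 + B)) 2, ← Real.rpow_mul hℓpos.le]
            congr 2
            push_cast
            ring
    have h3 := hmul 6 (-A - 2) (2 * (1 + B' - A1 + B)) (by norm_num) (by linarith)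
    calc 6 * X * K2 ^ 2 ≤ 6 * X * ((h : ℝ) ^ 2 * ℓ ^ (2 * (1 + B' - A1 + B))) := by gcongr
      _ = X * (h : ℝ) ^ 2 * (6 * ℓ ^ (2 * (1 + B' - A1 + B))) := by ring
      _ ≤ X * (h : ℝ) ^ 2 * ℓ ^ (-A - 2) := mul_le_mul_of_nonneg_left h3 (by positivity)
      _ = M := hM.symm
  have t4 : 2 * h * K3 ^ 2 ≤ M := by
    have h1 : 2 + ℓ * (Q : ℝ) ≤ ℓ ^ (B + 2) := by
      have h2 : ℓ * (Q : ℝ) ≤ ℓ ^ (B + 1) := by
        rw [Real.rpow_add hℓpos, Real.rpow_one, mul_comm]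
        exact mul_le_mul_of_nonneg_right hQ hℓpos.le
      have h3 : 1 ≤ ℓ ^ (B + 1) := Real.one_le_rpow hℓone (by linarith)
      have h4 := hmul 3 (B + 2) (B + 1) (by norm_num) (by linarith)
      linarith
    have h2 : K3 ^ 2 ≤ (h : ℝ) ^ 2 * ℓ ^ (2 * (B + 2)) := by
      calc K3 ^ 2 ≤ (h * ℓ ^ (B + 2)) ^ 2 :=
            pow_le_pow_left₀ hK30 (by rw [hK3]; exact mul_le_mul_of_nonneg_left h1 hh0) 2
        _ = (h : ℝ) ^ 2 * (ℓ ^ (B + 2)) ^ 2 := by ring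
        _ = (h : ℝ) ^ 2 * ℓ ^ (2 * (B + 2)) := by
            rw [← Real.rpow_natCast (ℓ ^ (B + 2)) 2, ← Real.rpow_mul hℓpos.le]
            congr 2
            push_cast
            ring
    have h3 : 2 * (ℓ ^ (-A1) * ℓ ^ (2 * (B + 2))) ≤ ℓ ^ (-A - 2) := by
      rw [← Real.rpow_add hℓpos]
      exact hmul 2 _ _ (by norm_num) (by linarith)
    calc 2 * h * K3 ^ 2 ≤ 2 * h * ((h : ℝ) ^ 2 * ℓ ^ (2 * (B + 2))) := by gcongr
      _ = h * (2 * (h : ℝ) ^ 2 * ℓ ^ (2 * (B + 2))) := by ring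
      _ ≤ (X * ℓ ^ (-A1)) * (2 * (h : ℝ) ^ 2 * ℓ ^ (2 * (B + 2))) := by
          have := Real.rpow_nonneg hℓpos.le (2 * (B + 2))
          gcongr
      _ = X * (h : ℝ) ^ 2 * (2 * (ℓ ^ (-A1) * ℓ ^ (2 * (B + 2)))) := by ring
      _ ≤ X * (h : ℝ) ^ 2 * ℓ ^ (-A - 2) := mul_le_mul_of_nonneg_left h3 (by positivity)
      _ = M := hM.symm
  have t5 : 4 * M ≤ X * (h : ℝ) ^ 2 * ℓ ^ (-A) := by
    have h1 := hmul 4 (-A) (-A - 2) (by norm_num) (by linarith)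
    calc 4 * M = X * (h : ℝ) ^ 2 * (4 * ℓ ^ (-A - 2)) := by rw [hM]; ring
      _ ≤ X * (h : ℝ) ^ 2 * ℓ ^ (-A) := mul_le_mul_of_nonneg_left h1 (by positivity)
  have e1 : 2 * (X : ℝ) * (3 * (K1 ^ 2 + K2 ^ 2)) = 6 * X * K1 ^ 2 + 6 * X * K2 ^ 2 := by ring
  rw [e1]
  linarith

end Pool.Agent.H43.PG
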