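import Pool.Agent.H43.PG.St
import Pool.Agent.H43.SI.Mvp
import Pool.Agent.H43.SI.Freq

/-!
# [H43 PG FR1] All frequencies

PROOF. Copy `TP/Fr.lean` (288 lines). CHANGES: `A3` disappears, `T1 = X/(D ℓ^2)`, `δ >= X^(-1) D ℓ^C1`, `C1 = A + Bm + 4`: `δ T1 >= ℓ^(C1-2) = ℓ^(A+Bm+2)`,
`T1/2^S <= 2D T1/X = 2ℓ^(-2) <= 1`. Everything else is unchanged (`fm1` in place of `frm`; `A1 = 2A0 + A + 20`).
-/

namespace Pool.Agent.H43.PG

open Finset Pool.Agent.H43.TP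

private theorem fr1_pp_le {q : ℕ} (χ : DirichletCharacter ℂ q) {D D' : ℕ} (hD : 1 ≤ D)
    (hD' : D' ≤ 2 * D) (t : ℝ) : ‖pp χ D D' t‖ ≤ 1 := by
  have hD0 : (0 : ℝ) < D := by exact_mod_cast hD
  have h1 : ∀ p ∈ (Ioc D D').filter Nat.Prime,
      ‖χ p * (p : ℂ) ^ (-(1 + (t : ℂ) * Complex.I))‖ ≤ 1 / (D : ℝ) := by
    intro p hp
    rw [mem_filter, mem_Ioc] at hp
    have hp0 : 0 < p := by omega
    have h2 : (-(1 + (t : ℂ) * Complex.I)).re = -1 := by simp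
    rw [norm_mul, Complex.norm_natCast_cpow_of_pos hp0, h2, Real.rpow_neg_one, ← one_div]
    have h3 : ‖χ p‖ ≤ 1 := DirichletCharacter.norm_le_one _ _
    have h4 : 1 / (p : ℝ) ≤ 1 / (D : ℝ) := by
      apply one_div_le_one_div_of_le hD0
      exact_mod_cast hp.1.1.le
    have h5 : 0 ≤ 1 / (p : ℝ) := by positivity
    calc ‖χ p‖ * (1 / (p : ℝ)) ≤ 1 * (1 / (D : ℝ)) := mul_le_mul h3 h4 h5 zero_le_one
      _ = 1 / (D : ℝ) := one_mul _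
  unfold pp
  refine ((norm_sum_le _ _).trans (Finset.sum_le_card_nsmul _ _ _ h1)).trans ?_
  rw [nsmul_eq_mul]
  have h6 : ((Ioc D D').filter Nat.Prime).card ≤ D := by
    refine (card_filter_le _ _).trans ?_
    rw [Nat.card_Ioc]
    omega
  have h7 : (((Ioc D D').filter Nat.Prime).card : ℝ) ≤ D := by exact_mod_cast h6
  rw [mul_one_div, div_le_one hD0]
  exact h7

private theorem fr1_pp_cont {q : ℕ} (χ : DirichletCharacter ℂ q) (D D' : ℕ) :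
    Continuous (pp χ D D') := by
  unfold pp
  apply continuous_finsetSum
  intro n hn
  rw [mem_filter] at hn
  apply Continuous.mul continuous_const
  apply Continuous.const_cpow (by fun_prop)
  left
  exact_mod_cast hn.2.ne_zero

theorem fr1 (hfm : FmS) (B A : ℝ) (hB : 0 < B) (hA : 0 < A) :
    ∃ A2 C1 A1 X0 : ℝ, 0 < A2 ∧ 0 < C1 ∧ A ≤ A1 ∧ 10 ≤ X0 ∧ ∀ X : ℝ, X0 ≤ X →
    ∀ (q : ℕ) [NeZero q], (q : ℝ) ≤ (Real.log X) ^ B → ∀ (χ : DirichletCharacter ℂ q) (δ : ℝ)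
    (D D' : ℕ), (Real.log X) ^ A2 ≤ D → (D : ℝ) ≤ X ^ ((1 : ℝ) / 12) → D' ≤ 2 * D →
    X⁻¹ * D * (Real.log X) ^ C1 ≤ δ → δ ≤ (Real.log X) ^ (-A1) → ∀ e : Fin 6 → ℕ,
    X ≤ 2 * D * 2 ^ (∑ i, e i) → D * (2 : ℝ) ^ (∑ i, e i) ≤ 2 ^ 9 * X →
    (∀ i : Fin 6, (i : ℕ) < 3 → (2 : ℝ) ^ (e i) ≤ 8 * X ^ ((1 : ℝ) / 3)) →
    ∫ t : ℝ, ‖pp χ D D' t * SI.bp χ e t‖ ^ 2 * SI.mul δ ((Real.log X) ^ (-A1)) t ≤
      (Real.log X) ^ (-A) := by
  obtain ⟨C, hC, Bm, hmvp⟩ := SI.mvp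
  obtain ⟨A0, A2, X01, hA0pos, hA2pos, hX01, hfr⟩ := hfm B (A + 1) hB (by linarith)
  set A1 := 2 * A0 + A + 20 with hA1
  set C1 : ℝ := A + Bm + 4 with hC1
  have hBm0 : (0 : ℝ) ≤ Bm := Nat.cast_nonneg _
  -- conditions on X
  have ev1 : ∀ᶠ X : ℝ in Filter.atTop, max (8 * 4 * 3 ^ 12) (24 * C * 3 ^ Bm) ≤ Real.log X :=
    Real.tendsto_log_atTop.eventually_ge_atTop _
  have ev2 : ∀ᶠ X : ℝ in Filter.atTop, (Real.log X) ^ (2 : ℝ) ≤ X ^ ((11 : ℝ) / 12) := by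
    have h := (isLittleO_log_rpow_rpow_atTop (2 : ℝ) (s := (11 : ℝ) / 12) (by norm_num)).bound
      (c := 1) one_pos
    filter_upwards [h, Filter.eventually_ge_atTop (1 : ℝ)] with X hX hX1
    rw [Real.norm_eq_abs, Real.norm_eq_abs,
      abs_of_nonneg (Real.rpow_nonneg (by linarith : 0 ≤ X) _), one_mul] at hX
    exact le_trans (le_abs_self _) hX
  obtain ⟨X1, hX1⟩ := Filter.eventually_atTop.1 (ev1.and ev2)
  refine ⟨A2, C1, A1, max X1 X01, hA2pos, by rw [hC1]; linarith, by rw [hA1]; linarith,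
    le_trans hX01 (le_max_right _ _), ?_⟩
  intro X hX q _ hq χ δ D D' hD1 hD2 hD' hδ1 hδ2 e he1 he2 he3
  obtain ⟨c1, c2⟩ := hX1 X (le_trans (le_max_left _ _) hX)
  have hXX01 : X01 ≤ X := le_trans (le_max_right _ _) hX
  have hX10 : 10 ≤ X := le_trans hX01 hXX01
  have hXpos : 0 < X := by linarith
  have hMid := hfr X hXX01 q hq χ D D' hD1 hD2 hD' e he1 he2 he3
  set ℓ := Real.log X with hℓ
  have hℓbig : 8 * 4 * 3 ^ 12 ≤ ℓ := le_trans (le_max_left _ _) c1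
  have hℓC : 24 * C * 3 ^ Bm ≤ ℓ := le_trans (le_max_right _ _) c1
  have hℓ100 : 100 ≤ ℓ := by
    refine le_trans ?_ hℓbig
    norm_num
  have hℓpos : 0 < ℓ := by linarith
  have hℓone : 1 ≤ ℓ := by linarith
  -- D
  have hDone : 1 ≤ D := by
    have h1 : (0 : ℝ) < D := lt_of_lt_of_le (Real.rpow_pos_of_pos hℓpos _) hD1
    exact_mod_cast h1
  have hDoneR : (1 : ℝ) ≤ D := by exact_mod_cast hDone
  have hl2a : (0.6931471803 : ℝ) < Real.log 2 := Real.log_two_gt_d9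
  have hl2b : Real.log 2 < 0.6931471808 := Real.log_two_lt_d9
  set S := ∑ i, e i with hS
  have h2S : (0 : ℝ) < 2 ^ S := by positivity
  -- the size of S
  have hSlog : (S : ℝ) * Real.log 2 ≤ 9 * Real.log 2 + ℓ := by
    have h0 : (2 : ℝ) ^ S ≤ 2 ^ 9 * X := by
      refine le_trans ?_ he2
      nlinarith
    have h1 := Real.log_le_log (by positivity) h0
    rw [Real.log_pow, Real.log_mul (by norm_num) hXpos.ne', Real.log_pow] at h1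
    push_cast at h1
    linarith
  have hS3 : 1 + (S : ℝ) ≤ 3 * ℓ := by
    have h1 : (S : ℝ) * 0.6931471803 ≤ (S : ℝ) * Real.log 2 :=
      mul_le_mul_of_nonneg_left hl2a.le (Nat.cast_nonneg _)
    linarith
  have hS0 : (0 : ℝ) ≤ S := Nat.cast_nonneg _
  -- δ
  have hD0R : (0 : ℝ) < D := by linarith
  have hδpos : 0 < δ := lt_of_lt_of_le
    (mul_pos (mul_pos (inv_pos.2 hXpos) hD0R) (Real.rpow_pos_of_pos hℓpos _)) hδ1
  set δ1 := ℓ ^ (-A1) with hδ1def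
  have hδ1pos : 0 < δ1 := Real.rpow_pos_of_pos hℓpos _
  set T1 := X / (D * ℓ ^ 2) with hT1
  have hT1one : 1 ≤ T1 := by
    rw [hT1, one_le_div (by positivity)]
    have c3 : ℓ ^ 2 ≤ X ^ ((11 : ℝ) / 12) := by
      rw [← Real.rpow_two]
      exact c2
    calc (D : ℝ) * ℓ ^ 2 ≤ X ^ ((1 : ℝ) / 12) * X ^ ((11 : ℝ) / 12) := by gcongr
      _ = X := by
          rw [← Real.rpow_add hXpos]
          norm_num
  have hT1pos : 0 < T1 := by linarith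
  set T2 := ℓ ^ A0 with hT2
  have hT2one : 1 ≤ T2 := Real.one_le_rpow hℓone hA0pos.le
  have hT1S : T1 ≤ 2 ^ S := by
    rw [hT1, div_le_iff₀ (by positivity)]
    have h2 : (2 : ℝ) ≤ ℓ ^ 2 := by nlinarith
    calc X ≤ 2 * D * 2 ^ S := he1
      _ = 2 ^ S * (D * 2) := by ring
      _ ≤ 2 ^ S * (D * ℓ ^ 2) := by gcongr
  -- the trivial bound
  have hbp : ∀ t, ‖SI.bp χ e t‖ ≤ (3 * ℓ) ^ 6 := by
    intro t
    unfold SI.bp
    rw [norm_prod]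
    calc ∏ i, ‖SI.pol (SI.cf χ i) (e i) t‖ ≤ ∏ _i : Fin 6, (3 * ℓ) := by
          apply Finset.prod_le_prod (fun i _ => norm_nonneg _)
          intro i _
          refine le_trans (SI.pw_triv χ i (e i) t) (le_trans ?_ hS3)
          have : e i ≤ S := Finset.single_le_sum (fun j _ => Nat.zero_le _) (Finset.mem_univ i)
          have : (e i : ℝ) ≤ S := by exact_mod_cast this
          linarith
      _ = (3 * ℓ) ^ 6 := by simp
  have hbsq0 : ∀ t, ‖SI.bp χ e t‖ ^ 2 ≤ (3 * ℓ) ^ 12 := by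
    intro t
    calc ‖SI.bp χ e t‖ ^ 2 ≤ ((3 * ℓ) ^ 6) ^ 2 := pow_le_pow_left₀ (norm_nonneg _) (hbp t) 2
      _ = (3 * ℓ) ^ 12 := by ring
  have hpb : ∀ t, ‖pp χ D D' t * SI.bp χ e t‖ ^ 2 ≤ ‖SI.bp χ e t‖ ^ 2 := by
    intro t
    apply pow_le_pow_left₀ (norm_nonneg _)
    rw [norm_mul]
    have := fr1_pp_le χ hDone hD' t
    nlinarith [norm_nonneg (SI.bp χ e t)]
  have hbsq : ∀ t, ‖pp χ D D' t * SI.bp χ e t‖ ^ 2 ≤ (3 * ℓ) ^ 12 := fun t =>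
    (hpb t).trans (hbsq0 t)
  have hbpc : Continuous (fun t => SI.bp χ e t) := by
    unfold SI.bp
    exact continuous_finsetProd _ (fun i _ => SI.pol_cont _ _)
  have hbc0 : Continuous (fun t => ‖SI.bp χ e t‖ ^ 2) := hbpc.norm.pow 2
  have hbcont : Continuous (fun t => ‖pp χ D D' t * SI.bp χ e t‖ ^ 2) :=
    ((fr1_pp_cont χ D D').mul hbpc).norm.pow 2
  -- the high part
  have hHigh : ∀ k : ℕ, ∫ t in (-(2 ^ (k + 1) * T1))..(2 ^ (k + 1) * T1),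
      ‖pp χ D D' t * SI.bp χ e t‖ ^ 2 ≤ (3 * (C * (3 * ℓ) ^ Bm)) * 2 ^ k := by
    intro k
    have hT : 1 ≤ 2 ^ (k + 1) * T1 := by
      have : (1 : ℝ) ≤ 2 ^ (k + 1) := one_le_pow₀ (by norm_num)
      calc (1 : ℝ) = 1 * 1 := by ring
        _ ≤ 2 ^ (k + 1) * T1 := by gcongr
    have h0 : ∫ t in (-(2 ^ (k + 1) * T1))..(2 ^ (k + 1) * T1),
        ‖pp χ D D' t * SI.bp χ e t‖ ^ 2 ≤
        ∫ t in (-(2 ^ (k + 1) * T1))..(2 ^ (k + 1) * T1), ‖SI.bp χ e t‖ ^ 2 :=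
      intervalIntegral.integral_mono_on (by linarith) (hbcont.intervalIntegrable _ _)
        (hbc0.intervalIntegrable _ _) (fun t _ => hpb t)
    have h1 := hmvp q χ e Finset.univ (2 ^ (k + 1) * T1) hT
    have h2 : 2 ^ (k + 1) * T1 / 2 ^ S ≤ 2 ^ (k + 1) := by
      rw [div_le_iff₀ (by positivity)]
      gcongr
    have h3 : (1 : ℝ) ≤ 2 ^ k := one_le_pow₀ (by norm_num)
    have h4 : 2 ^ (k + 1) * T1 / 2 ^ S + 1 ≤ 3 * 2 ^ k := by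
      calc 2 ^ (k + 1) * T1 / 2 ^ S + 1 ≤ 2 ^ (k + 1) + 1 := by linarith
        _ = 2 * 2 ^ k + 1 := by rw [pow_succ]; ring
        _ ≤ 3 * 2 ^ k := by linarith
    have h5 : (1 + (S : ℝ)) ^ Bm ≤ (3 * ℓ) ^ Bm := pow_le_pow_left₀ (by linarith) hS3 Bm
    refine le_trans h0 (le_trans h1 ?_)
    calc C * (1 + (S : ℝ)) ^ Bm * (2 ^ (k + 1) * T1 / 2 ^ S + 1)
        ≤ C * (3 * ℓ) ^ Bm * (3 * 2 ^ k) := by gcongr
      _ = (3 * (C * (3 * ℓ) ^ Bm)) * 2 ^ k := by ring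
  -- the low part
  have hLow : ∀ t, |t| ≤ T2 → ‖pp χ D D' t * SI.bp χ e t‖ ^ 2 * SI.mul δ δ1 t ≤
      (3 * ℓ) ^ 12 * (δ1 * (2 * T2)) ^ 2 := by
    intro t ht
    have h1 : SI.mul δ δ1 t ≤ (δ1 * (2 * T2)) ^ 2 := by
      refine le_trans (SI.mul_le_low δ δ1 t) ?_
      have h2 : 0 ≤ δ1 * (1 + |t|) := by positivity
      apply pow_le_pow_left₀ h2
      gcongr
      linarith
    exact mul_le_mul (hbsq t) h1 (SI.mul_nonneg' t) (by positivity)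
  have hall := SI.freq_abs (fun t => ‖pp χ D D' t * SI.bp χ e t‖ ^ 2) hbcont
    (fun t => sq_nonneg _) _ hbsq δ δ1 T1 T2
    (ℓ ^ (-(A + 1))) (3 * (C * (3 * ℓ) ^ Bm)) ((3 * ℓ) ^ 12 * (δ1 * (2 * T2)) ^ 2) hδpos hT1one
    (by linarith) hMid (by positivity) hHigh hLow
  refine le_trans hall ?_
  -- final estimates
  have hAA : ℓ ^ (-(A + 1)) ≤ ℓ ^ (-A) / 4 := by
    have e1 : ℓ ^ (-(A + 1)) = ℓ ^ (-A) / ℓ := by
      rw [show -(A + 1) = -A - 1 by ring, Real.rpow_sub hℓpos, Real.rpow_one]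
    rw [e1]
    have : 0 ≤ ℓ ^ (-A) := Real.rpow_nonneg hℓpos.le _
    apply div_le_div_of_nonneg_left this (by norm_num) (by linarith)
  have hLL : 2 * T2 * ((3 * ℓ) ^ 12 * (δ1 * (2 * T2)) ^ 2) ≤ ℓ ^ (-A) / 4 := by
    have e1 : 2 * T2 * ((3 * ℓ) ^ 12 * (δ1 * (2 * T2)) ^ 2) =
        (8 * 3 ^ 12) * (ℓ ^ (12 : ℕ) * T2 ^ (3 : ℕ) * δ1 ^ (2 : ℕ)) := by ring
    have e2 : ℓ ^ (12 : ℕ) * T2 ^ (3 : ℕ) * δ1 ^ (2 : ℕ) = ℓ ^ (12 + A0 * 3 + (-A1) * 2) := by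
      rw [hT2, hδ1def, ← Real.rpow_natCast ℓ 12, ← Real.rpow_natCast (ℓ ^ A0) 3,
        ← Real.rpow_natCast (ℓ ^ (-A1)) 2, ← Real.rpow_mul hℓpos.le, ← Real.rpow_mul hℓpos.le,
        ← Real.rpow_add hℓpos, ← Real.rpow_add hℓpos]
      norm_num
    have e3 : ℓ ^ (12 + A0 * 3 + (-A1) * 2) ≤ ℓ ^ (-A - 1) := by
      apply Real.rpow_le_rpow_of_exponent_le hℓone
      rw [hA1]
      linarith
    rw [e1, e2]
    calc (8 * 3 ^ 12) * ℓ ^ (12 + A0 * 3 + (-A1) * 2) ≤ (8 * 3 ^ 12) * ℓ ^ (-A - 1) := by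
          gcongr
      _ = (8 * 3 ^ 12) * (ℓ ^ (-A) / ℓ) := by rw [Real.rpow_sub hℓpos, Real.rpow_one]
      _ = ((8 * 4 * 3 ^ 12) / ℓ) * (ℓ ^ (-A) / 4) := by field_simp
      _ ≤ 1 * (ℓ ^ (-A) / 4) := by
          have h1 : 0 ≤ ℓ ^ (-A) := Real.rpow_nonneg hℓpos.le _
          apply mul_le_mul_of_nonneg_right _ (by positivity)
          rw [div_le_one hℓpos]
          exact hℓbig
      _ = ℓ ^ (-A) / 4 := one_mul _
  have hHH : 2 * (3 * (C * (3 * ℓ) ^ Bm)) / (δ * T1) ^ 2 ≤ ℓ ^ (-A) / 4 := by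
    have e1 : ℓ ^ (A + Bm + 2) ≤ δ * T1 := by
      calc ℓ ^ (A + Bm + 2) = (X⁻¹ * D * ℓ ^ C1) * (X / (D * ℓ ^ 2)) := by
            have h1 : (X⁻¹ * D * ℓ ^ C1) * (X / (D * ℓ ^ 2)) = ℓ ^ C1 / ℓ ^ 2 := by
              field_simp
            rw [h1, ← Real.rpow_two, ← Real.rpow_sub hℓpos]
            congr 1
            rw [hC1]
            ring
        _ ≤ δ * T1 := mul_le_mul_of_nonneg_right hδ1 hT1pos.le
    have e0 : 1 ≤ δ * T1 :=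
      le_trans (Real.one_le_rpow hℓone (by positivity)) e1
    have e2 : ℓ ^ (A + Bm + 2) ≤ (δ * T1) ^ 2 := by
      refine le_trans e1 ?_
      nlinarith
    have hℓA : 0 < ℓ ^ A := Real.rpow_pos_of_pos hℓpos _
    have e3 : 24 * C * 3 ^ Bm * (ℓ ^ A * ℓ ^ Bm) ≤ (δ * T1) ^ 2 := by
      refine le_trans ?_ e2
      rw [Real.rpow_add hℓpos, Real.rpow_add hℓpos, Real.rpow_natCast, Real.rpow_two, mul_comm]
      have h1 : 24 * C * 3 ^ Bm ≤ ℓ ^ 2 := by nlinarith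
      gcongr
    have e4 : ℓ ^ (-A) / 4 = 1 / (4 * ℓ ^ A) := by
      rw [Real.rpow_neg hℓpos.le]; field_simp
    rw [e4, div_le_div_iff₀ (by positivity) (by positivity), one_mul]
    refine le_trans (le_of_eq ?_) e3
    rw [mul_pow]; ring
  have hpos : 0 ≤ ℓ ^ (-A) := Real.rpow_nonneg hℓpos.le _
  linarith

end Pool.Agent.H43.PG
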