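import Pool.Agent.H43.PG.St
import Pool.Agent.H43.SI.Ap

/-!
# [H43 PG PC1] All dyadic pieces of `(P,P2]`

PROOF. Copy `TP/Pc.lean` (236 lines) with `ap1` in place of `apw` (`A3` disappears). `D_0 = P`, `D_{j+1} = min (2 D_j) P2`; the number of pieces is `J <= log2(P2) + 1 <= ℓ` since
`P2 <= X^(1/12)`. `ap1` with `(B, A+2)` for each piece (`ℓ^A2 <= P <= D_j <= P2 <= X^(1/12)`, `X^(-1) D_j ℓ^C1 <= X^(-1) P2 ℓ^C1 <= δ`): total `<= J^2 δ^2 X^2 ℓ^(-A-2) <= δ^2 X^2 ℓ^(-A)`.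
-/

namespace Pool.Agent.H43.PG

open Finset Pool.Agent.H43.TP

/-- the end points of the dyadic pieces -/
private def dyj (P P2 j : ℕ) : ℕ := min (2 ^ j * P) P2

private theorem dyj_mono (P P2 j : ℕ) : dyj P P2 j ≤ dyj P P2 (j + 1) := by
  unfold dyj
  have : 2 ^ j * P ≤ 2 ^ (j + 1) * P :=
    Nat.mul_le_mul_right _ (Nat.pow_le_pow_right (by norm_num) (by omega))
  exact min_le_min_right _ this

private theorem dyj_two (P P2 j : ℕ) : dyj P P2 (j + 1) ≤ 2 * dyj P P2 j := by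
  unfold dyj
  rcases le_total (2 ^ j * P) P2 with h | h
  · rw [min_eq_left h]
    refine (min_le_left _ _).trans ?_
    rw [pow_succ, mul_comm (2 ^ j) 2, mul_assoc]
  · rw [min_eq_right h]
    exact (min_le_right _ _).trans (by omega)

private theorem dyj_ge {P P2 : ℕ} (h : P ≤ P2) (j : ℕ) : P ≤ dyj P P2 j := by
  unfold dyj
  exact le_min (Nat.le_mul_of_pos_left _ (by positivity)) h

private theorem dyj_le (P P2 j : ℕ) : dyj P P2 j ≤ P2 := min_le_right _ _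

private theorem dy_split (f : ℕ → ℝ) (p : ℕ → Prop) [DecidablePred p] {a b c : ℕ}
    (hab : a ≤ b) (hbc : b ≤ c) :
    ∑ n ∈ (Ioc a b).filter p, f n + ∑ n ∈ (Ioc b c).filter p, f n =
      ∑ n ∈ (Ioc a c).filter p, f n := by
  rw [← Finset.sum_union, ← Finset.filter_union, Finset.Ioc_union_Ioc_eq_Ioc hab hbc]
  refine Finset.disjoint_filter_filter ?_
  rw [Finset.disjoint_left]
  intro x hx hx'
  rw [mem_Ioc] at hx hx'
  omega

private theorem dy_tel (f : ℕ → ℝ) (p : ℕ → Prop) [DecidablePred p] {P P2 : ℕ} (hP : P ≤ P2)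
    (k : ℕ) : ∑ j ∈ range k, ∑ n ∈ (Ioc (dyj P P2 j) (dyj P P2 (j + 1))).filter p, f n =
      ∑ n ∈ (Ioc P (dyj P P2 k)).filter p, f n := by
  induction k with
  | zero => simp [dyj, hP]
  | succ k ih => rw [sum_range_succ, ih, dy_split f p (dyj_ge hP k) (dyj_mono P P2 k)]

private theorem Sg_eq (D D' q : ℕ) (a : ZMod q) (Nm : ℕ) (δ y : ℝ) :
    ((Sg D D' q a Nm δ y : ℝ) : ℂ) =
      SI.Sd (fun n => if (n : ZMod q) = a then ((gg D D' n : ℝ) : ℂ) else 0) Nm δ y := by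
  unfold Sg SI.Sd
  rw [Complex.ofReal_sum, Finset.sum_ite, Finset.sum_const_zero, add_zero]
  refine Finset.sum_congr ?_ fun _ _ => rfl
  ext n
  simp only [mem_filter]
  tauto

private theorem Sg_meas (D D' q : ℕ) (a : ZMod q) (Nm : ℕ) (δ : ℝ) :
    Measurable (fun y => Sg D D' q a Nm δ y) := by
  have h : (fun y => Sg D D' q a Nm δ y) = fun y =>
      (SI.Sd (fun n => if (n : ZMod q) = a then ((gg D D' n : ℝ) : ℂ) else 0) Nm δ y).re := by
    funext y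
    rw [← Sg_eq, Complex.ofReal_re]
  rw [h]
  exact Complex.measurable_re.comp (SI.Sd_measurable _ _ _)

private theorem Sg_bd (D D' q : ℕ) (a : ZMod q) (Nm : ℕ) (δ : ℝ) :
    ∃ C : ℝ, 0 ≤ C ∧ ∀ y, |Sg D D' q a Nm δ y| ≤ C := by
  refine ⟨∑ n ∈ Icc 1 Nm, ‖(if (n : ZMod q) = a then ((gg D D' n : ℝ) : ℂ) else 0)‖,
    Finset.sum_nonneg fun _ _ => norm_nonneg _, fun y => ?_⟩
  have h := SI.Sd_bound (fun n => if (n : ZMod q) = a then ((gg D D' n : ℝ) : ℂ) else 0) Nm δ y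
  rw [← Sg_eq, Complex.norm_real, Real.norm_eq_abs] at h
  exact h

/-- the difference for one piece -/
private noncomputable def pcT (q : ℕ) (a : ZMod q) (Nm : ℕ) (δ : ℝ) (D D' : ℕ) (y : ℝ) : ℝ :=
  Sg D D' q a Nm δ y - kap D D' * δ * Real.exp y / q.totient

private theorem pcT_meas (q : ℕ) (a : ZMod q) (Nm : ℕ) (δ : ℝ) (D D' : ℕ) :
    Measurable (fun y => pcT q a Nm δ D D' y) := by
  unfold pcT
  refine (Sg_meas D D' q a Nm δ).sub ?_
  exact (Real.measurable_exp.const_mul _).div_const _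

private theorem pcT_int (q : ℕ) (a : ZMod q) (Nm : ℕ) (δ : ℝ) (D D' : ℕ) (u v : ℝ) :
    IntervalIntegrable (fun y => pcT q a Nm δ D D' y ^ 2) MeasureTheory.volume u v := by
  obtain ⟨C, hC0, hC⟩ := Sg_bd D D' q a Nm δ
  have hc : Continuous (fun y : ℝ =>
      (C + |kap D D' * δ| * Real.exp y / q.totient) ^ 2) := by
    fun_prop
  refine (hc.intervalIntegrable u v).mono_fun'
    ((pcT_meas q a Nm δ D D').pow_const 2).aestronglyMeasurable
    (Filter.Eventually.of_forall fun y => ?_)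
  simp only [Real.norm_eq_abs, abs_pow]
  refine pow_le_pow_left₀ (abs_nonneg _) ?_ 2
  unfold pcT
  refine (abs_sub _ _).trans (add_le_add (hC y) ?_)
  rw [abs_div, abs_mul, abs_of_pos (Real.exp_pos y), Nat.abs_cast]

theorem pc1 (hap : ApS) (B A : ℝ) (hB : 0 < B) (hA : 0 < A) :
    ∃ A2 C1 A1 X0 : ℝ, 0 < A2 ∧ 0 < C1 ∧ 0 < A1 ∧ 10 ≤ X0 ∧ ∀ X : ℝ, X0 ≤ X →
    ∀ (q : ℕ) [NeZero q], (q : ℝ) ≤ (Real.log X) ^ B → ∀ a : ZMod q, IsUnit a → ∀ (δ : ℝ)
    (P P2 : ℕ), (Real.log X) ^ A2 ≤ P → P ≤ P2 → (P2 : ℝ) ≤ X ^ ((1 : ℝ) / 12) →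
    X⁻¹ * P2 * (Real.log X) ^ C1 ≤ δ → δ ≤ (Real.log X) ^ (-A1) → ∀ Nm : ℕ, 6 * X ≤ Nm →
    ∫ y in (Real.log X)..(Real.log (2 * X)),
      (Sg P P2 q a Nm δ y - kap P P2 * δ * Real.exp y / q.totient) ^ 2 ≤
      δ ^ 2 * X ^ 2 * (Real.log X) ^ (-A) := by
  obtain ⟨A2, C1, A1, X0, hA2, hC1, hA1, hX0, h⟩ := hap B (A + 2) hB (by linarith)
  -- conditions on X
  have ev : ∀ᶠ X : ℝ in Filter.atTop, 2 ≤ Real.log X :=
    Real.tendsto_log_atTop.eventually_ge_atTop 2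
  obtain ⟨X1, hX1⟩ := Filter.eventually_atTop.1 ev
  refine ⟨A2, C1, A1, max X0 X1, hA2, hC1, hA1, le_trans hX0 (le_max_left _ _), ?_⟩
  intro X hX q _ hq a ha δ P P2 hP hPP2 hP2 hδ1 hδ2 Nm hNm
  have hXX0 : X0 ≤ X := (le_max_left _ _).trans hX
  have hℓ2 := hX1 X ((le_max_right _ _).trans hX)
  have hXpos : 0 < X := by linarith
  set ℓ := Real.log X with hℓdef
  have hℓpos : 0 < ℓ := by linarith
  have hle : ℓ ≤ Real.log (2 * X) := Real.log_le_log hXpos (by linarith)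
  -- the number of pieces
  have hP1 : (1 : ℝ) ≤ P := (Real.one_le_rpow (by linarith) hA2.le).trans hP
  have hP1' : 1 ≤ P := by exact_mod_cast hP1
  have hP21 : 1 ≤ P2 := hP1'.trans hPP2
  set J := Nat.log 2 P2 + 1 with hJ
  have hDJ : dyj P P2 J = P2 := by
    unfold dyj
    refine min_eq_right ?_
    have h1 : P2 < 2 ^ J := Nat.lt_pow_succ_log_self (by norm_num) P2
    calc P2 ≤ 2 ^ J * 1 := by omega
      _ ≤ 2 ^ J * P := Nat.mul_le_mul_left _ hP1'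
  have hJℓ : (J : ℝ) ≤ ℓ := by
    have h1 : (2 : ℝ) ^ (Nat.log 2 P2) ≤ P2 := by
      exact_mod_cast Nat.pow_log_le_self 2 (by omega)
    have h2 : (Nat.log 2 P2 : ℝ) * Real.log 2 ≤ 1 / 12 * ℓ := by
      rw [← Real.log_pow, hℓdef, ← Real.log_rpow hXpos]
      exact Real.log_le_log (by positivity) (h1.trans hP2)
    have h3 := Real.log_two_gt_d9
    have h4 : (0 : ℝ) ≤ Nat.log 2 P2 := Nat.cast_nonneg _
    have h5 : (Nat.log 2 P2 : ℝ) ≤ 1 / 6 * ℓ := by nlinarith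
    rw [hJ]
    push_cast
    linarith
  -- the pieces
  have hpt : ∀ y, Sg P P2 q a Nm δ y - kap P P2 * δ * Real.exp y / q.totient =
      ∑ j ∈ range J, pcT q a Nm δ (dyj P P2 j) (dyj P P2 (j + 1)) y := by
    intro y
    unfold pcT
    rw [Finset.sum_sub_distrib]
    have e1 : ∑ j ∈ range J, Sg (dyj P P2 j) (dyj P P2 (j + 1)) q a Nm δ y =
        Sg P P2 q a Nm δ y := by
      unfold Sg
      rw [Finset.sum_comm]
      refine Finset.sum_congr rfl fun n _ => ?_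
      unfold gg
      rw [dy_tel _ _ hPP2, hDJ]
    have e2 : ∑ j ∈ range J, kap (dyj P P2 j) (dyj P P2 (j + 1)) = kap P P2 := by
      unfold kap
      rw [dy_tel _ _ hPP2, hDJ]
    rw [e1, ← Finset.sum_div, ← Finset.sum_mul, ← Finset.sum_mul, e2]
  have hsq : ∀ y, (Sg P P2 q a Nm δ y - kap P P2 * δ * Real.exp y / q.totient) ^ 2 ≤
      J * ∑ j ∈ range J, pcT q a Nm δ (dyj P P2 j) (dyj P P2 (j + 1)) y ^ 2 := by
    intro y
    rw [hpt y]
    have := sq_sum_le_card_mul_sum_sq (s := range J)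
      (f := fun j => pcT q a Nm δ (dyj P P2 j) (dyj P P2 (j + 1)) y)
    rwa [Finset.card_range] at this
  have hi : IntervalIntegrable (fun y => (J : ℝ) *
      ∑ j ∈ range J, pcT q a Nm δ (dyj P P2 j) (dyj P P2 (j + 1)) y ^ 2)
      MeasureTheory.volume ℓ (Real.log (2 * X)) := by
    refine IntervalIntegrable.const_mul ?_ _
    have := IntervalIntegrable.sum (range J)
      (fun j _ => pcT_int q a Nm δ (dyj P P2 j) (dyj P P2 (j + 1)) ℓ (Real.log (2 * X)))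
    refine this.congr fun y _ => ?_
    simp
  have hi2 : IntervalIntegrable
      (fun y => (Sg P P2 q a Nm δ y - kap P P2 * δ * Real.exp y / q.totient) ^ 2)
      MeasureTheory.volume ℓ (Real.log (2 * X)) := pcT_int q a Nm δ P P2 ℓ (Real.log (2 * X))
  refine (intervalIntegral.integral_mono_on hle hi2 hi (fun y _ => hsq y)).trans ?_
  have h5 : ∫ y in ℓ..(Real.log (2 * X)),
      ∑ j ∈ range J, pcT q a Nm δ (dyj P P2 j) (dyj P P2 (j + 1)) y ^ 2 =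
      ∑ j ∈ range J, ∫ y in ℓ..(Real.log (2 * X)),
        pcT q a Nm δ (dyj P P2 j) (dyj P P2 (j + 1)) y ^ 2 :=
    intervalIntegral.integral_finsetSum
      (s := range J) (f := fun j y => pcT q a Nm δ (dyj P P2 j) (dyj P P2 (j + 1)) y ^ 2)
      (fun j _ => pcT_int q a Nm δ (dyj P P2 j) (dyj P P2 (j + 1)) ℓ (Real.log (2 * X)))
  rw [intervalIntegral.integral_const_mul, h5]
  have h6 : ∀ j, ∫ y in ℓ..(Real.log (2 * X)),
      pcT q a Nm δ (dyj P P2 j) (dyj P P2 (j + 1)) y ^ 2 ≤ δ ^ 2 * X ^ 2 * ℓ ^ (-(A + 2)) := by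
    intro j
    refine h X hXX0 q hq a ha δ (dyj P P2 j) (dyj P P2 (j + 1)) ?_ ?_
      (dyj_two P P2 j) ?_ hδ2 Nm hNm
    · refine hP.trans ?_
      exact_mod_cast dyj_ge hPP2 j
    · refine le_trans ?_ hP2
      exact_mod_cast dyj_le P P2 j
    · refine le_trans ?_ hδ1
      have h8 : ((dyj P P2 j : ℕ) : ℝ) ≤ P2 := by exact_mod_cast dyj_le P P2 j
      gcongr
  have h7 : ∑ j ∈ range J, ∫ y in ℓ..(Real.log (2 * X)),
      pcT q a Nm δ (dyj P P2 j) (dyj P P2 (j + 1)) y ^ 2 ≤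
      J * (δ ^ 2 * X ^ 2 * ℓ ^ (-(A + 2))) := by
    refine (Finset.sum_le_sum fun j _ => h6 j).trans ?_
    rw [Finset.sum_const, nsmul_eq_mul, Finset.card_range]
  calc (J : ℝ) * ∑ j ∈ range J, ∫ y in ℓ..(Real.log (2 * X)),
        pcT q a Nm δ (dyj P P2 j) (dyj P P2 (j + 1)) y ^ 2
      ≤ J * (J * (δ ^ 2 * X ^ 2 * ℓ ^ (-(A + 2)))) := by gcongr
    _ ≤ ℓ * (ℓ * (δ ^ 2 * X ^ 2 * ℓ ^ (-(A + 2)))) := by gcongr
    _ = δ ^ 2 * X ^ 2 * (ℓ ^ (2 : ℝ) * ℓ ^ (-(A + 2))) := by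
        rw [Real.rpow_two]; ring
    _ = δ ^ 2 * X ^ 2 * ℓ ^ (-A) := by
        rw [← Real.rpow_add hℓpos]
        congr 2
        ring

end Pool.Agent.H43.PG
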