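import Pool.Agent.H43.TQ.Defs

/-!
# Values `m^3+k = p1 p2`, `P1 < p1 <= P2`, for general `P1, P2` (H43/PG, part of P182): definitions and plan

`l = log X`. Windows of numbers `p1 p2` with `p1 ∈ (P,P2]`, `l^A2 <= P <= P2 <= X^(1/14)`, windows of length `h >= P2 l^C1`:
the chain `Bst, Sa1, Sp1, Fm1, Fr1, Si1, Sx1, Ap1, Pc1, Ad1, Th1, Pi1, Tu1, Bl1, Fa1` is the chain
`TP/{Bset,Sa,Sp,Frm,Fr,Si,Six,Ap,Pc,Add,Th}, TQ/{Pie,Thu,Bl2,Fa2}` with the bound `P2 <= l^A3` replaced by a power of `X` and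
the condition `h >= l^C1` (`δ >= l^C1/X`) replaced by `h >= P2 l^C1` (`δ >= P2 l^C1/X`).
* `Sm1`: mean square for `M^3 <= X`; `Fz1`, `Lv1`, `Lg1`: for `(M,M']`, `X <= 8M^3`, `P2 l^C1 M^6 <= X^3`.
* `LC` (here): the statement for the large `M` (dispersion method, `M` up to `X^(7/13-ε)`), proved elsewhere.
* `Al1`: all `M`; `Ms1`: main term; `Kp1`: Mertens sum of a dyadic interval; `Fi1`: the theorem, given `LC`.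
-/

namespace Pool.Agent.H43.PG

open Finset

/-- `ue - lam lq`: the number of the `p ∈ (P,P2]` with `n/p` prime, minus its model -/
noncomputable def ae (P P2 Q n : ℕ) : ℝ := TQ.ue P P2 n - TQ.lam P P2 n * TP.lq Q n

/-- the mean square for the dyadic ranges `(M,M']` with large `M` -/
def LC : Prop := ∀ A ε : ℝ, 0 < A → 0 < ε → ∃ K1 : ℕ, ∀ k0 : ℕ, K1 ≤ k0 → ∃ X0 : ℕ, ∀ X : ℕ, X0 ≤ X →
    ∀ Q M M' P P2 : ℕ, 2 ^ 64 * (Real.log X) ^ (24 * k0) ≤ Q → (Q : ℝ) ≤ (Real.log X) ^ (25 * k0) →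
    X ≤ 8 * M ^ 3 → 2 * M ≤ M' → M' ≤ 2 * M + 1 → P ≤ P2 → P2 ≤ 2 * P → (M : ℝ) ^ ε ≤ P →
    (M : ℝ) ^ (2 + ε) ≤ X * P → (P2 : ℝ) ^ 5 * (M : ℝ) ^ ε ≤ M →
    (P2 : ℝ) ^ 5 * (M : ℝ) ^ (3 + ε) ≤ (X : ℝ) ^ 2 →
    ∑ k ∈ Icc 1 X, (∑ m ∈ Ioc M M', ae P P2 Q (m ^ 3 + k)) ^ 2 ≤
      X * (M : ℝ) ^ 2 * (Real.log X) ^ (-A)

/-- `n = p1 p2`, both prime, `P1 < p1 <= P2` -/
def E2 (P1 P2 n : ℕ) : Prop := ∃ p1 p2 : ℕ, p1.Prime ∧ p2.Prime ∧ P1 < p1 ∧ p1 ≤ P2 ∧ n = p1 * p2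

open Classical in
/-- number of `1 <= m <= M` with `m^3+k = p1 p2` -/
noncomputable def cE (P1 P2 M k : ℕ) : ℕ := ((Icc 1 M).filter (fun m => E2 P1 P2 (m ^ 3 + k))).card

end Pool.Agent.H43.PG
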