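import Pool.Agent.H43.TP.Tra
import Pool.Agent.H43.TP.L2m
import Pool.Agent.H43.PG.Defs
import Pool.Agent.H43.PG.St
import Pool.Agent.H43.TQ.Lam

/-!
# [H43 PG SM1] The mean square of the sums of `ae`, `M^3 <= X`

PROOF. Part (1) of `TQ/Ms2.lean` (its private lemmas `ms2_aw`, `ms2_win` can be copied; see also `HY/Sm.lean`). `ℓ = log X`, `κ = ℓ^(-k0)`; `fa1` with `(25k0, 100k0 + A + 4, B')` gives `A2, C1, A1`;
`C0 = C1 + A1 + 60 k0 + A + 30`; `h = ⌊M^3/(6 Q ℓ^A1)⌋₊`: `6hQ <= M^3`, `h <= M^3 ℓ^(-A1) <= X ℓ^(-A1)`, and `h >= P2 ℓ^C1` since `P2 <= M^(1/5)`,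
`M^(14/5) >= M >= ℓ^C0 >= 12 ℓ^(25k0+A1+C1)`. `P2^15 <= M^3 <= X`, so `P2 <= X^(1/15) <= X^(1/14)`, `3 P2 <= Z`, `kap P P2 <= 1 + log P2 <= ℓ` (`TQ.kap_le`).
`TP.tra` with `a = aw P P2 Q X Z`, `V = X h^2 ℓ^(-100k0-A-4)`: `Σ_{k<=X} ‖Σ_m aw(m^3+k)‖^2 <= κ^2 M^2 Σ_{n<=2X} ‖aw n‖^2 + 4M^2 Q^4 V/h^2`, the last
`<= 4 M^2 X ℓ^(-A-4)`; `Σ_{n<=2X} ‖aw n‖^2 <= 16X + 2ℓ^2 (4X(1+log Q)^2 + 4Q^4) <= X ℓ^4` (`ms2_aw`), so the first is `<= X M^2 ℓ^(4-2k0) <= X M^2 ℓ^(-A-2)`.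
For `k ∈ (Z,X]`, `m <= M`: `Z < m^3+k <= 2X`, so `aw = ae` there.
-/

namespace Pool.Agent.H43.PG

open Finset

private theorem sm1_ev (C a b : ℝ) (hb : 0 < b) :
    ∀ᶠ X : ℕ in Filter.atTop, C * (Real.log X) ^ a ≤ (X : ℝ) ^ b := by
  have h := (isLittleO_log_rpow_rpow_atTop a hb).bound
    (show (0 : ℝ) < 1 / (|C| + 1) by positivity)
  have h2 := tendsto_natCast_atTop_atTop.eventually h
  have h3 := (Filter.eventually_ge_atTop 1 : ∀ᶠ X : ℕ in Filter.atTop, 1 ≤ X)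
  filter_upwards [h2, h3] with X h4 h5
  have hX : (1 : ℝ) ≤ X := by exact_mod_cast h5
  have hl : 0 ≤ Real.log X := Real.log_nonneg hX
  rw [Real.norm_eq_abs, Real.norm_eq_abs, abs_of_nonneg (Real.rpow_nonneg hl a),
    abs_of_nonneg (Real.rpow_nonneg (by linarith) b)] at h4
  have hC : 0 < |C| + 1 := by positivity
  rw [one_div, inv_mul_eq_div, le_div_iff₀ hC] at h4
  have h6 : C ≤ |C| + 1 := by linarith [le_abs_self C]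
  have h7 := mul_le_mul_of_nonneg_right h6 (Real.rpow_nonneg hl a)
  linarith

private theorem sm1_log (c : ℝ) : ∀ᶠ X : ℕ in Filter.atTop, c ≤ Real.log X :=
  (Real.tendsto_log_atTop.comp tendsto_natCast_atTop_atTop).eventually_ge_atTop c

private theorem sm1_loglog (c : ℝ) : ∀ᶠ X : ℕ in Filter.atTop,
    8 * (1 + c * Real.log (Real.log X)) ^ 2 + 4 ≤ Real.log X / 2 := by
  have h1 : ∀ᶠ t : ℝ in Filter.atTop, 8 * (1 + c * Real.log t) ^ 2 + 4 ≤ t / 2 := by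
    have h := (isLittleO_log_rpow_atTop (show (0 : ℝ) < 1 / 2 by norm_num)).bound
      (show (0 : ℝ) < 1 / (8 * (|c| + 1)) by positivity)
    filter_upwards [h, Filter.eventually_ge_atTop 1000] with t h2 h3
    have ht : 0 < t := by linarith
    rw [← Real.sqrt_eq_rpow, Real.norm_eq_abs, Real.norm_eq_abs,
      abs_of_nonneg (Real.sqrt_nonneg t)] at h2
    have hs : Real.sqrt t * Real.sqrt t = t := Real.mul_self_sqrt ht.le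
    have hs0 := Real.sqrt_nonneg t
    have hs31 : 31 ≤ Real.sqrt t := by
      apply Real.le_sqrt_of_sq_le
      norm_num
      linarith
    have hc1 : 0 < 8 * (|c| + 1) := by positivity
    rw [one_div, inv_mul_eq_div, le_div_iff₀ hc1] at h2
    have h4 : |c * Real.log t| ≤ Real.sqrt t / 8 := by
      rw [abs_mul]
      have : |Real.log t| * (8 * |c|) ≤ |Real.log t| * (8 * (|c| + 1)) := by
        apply mul_le_mul_of_nonneg_left _ (abs_nonneg _)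
        linarith
      nlinarith
    have h5 := abs_le.1 h4
    have h6 : (1 + c * Real.log t) ^ 2 ≤ (1 + Real.sqrt t / 8) ^ 2 := by
      apply sq_le_sq'
      · linarith [h5.1]
      · linarith [h5.2]
    nlinarith
  exact (Real.tendsto_log_atTop.comp tendsto_natCast_atTop_atTop).eventually h1

private theorem sm1_aw (P P2 Q X Z : ℕ) (L : ℝ) (hQ : 1 ≤ Q) (hZ : 3 * P2 ≤ Z)
    (hL : TP.kap P P2 ≤ L) :
    ∑ n ∈ Icc 1 (2 * X), ‖TQ.aw P P2 Q X Z n‖ ^ 2 ≤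
      16 * X + 2 * L ^ 2 * (4 * X * (1 + Real.log Q) ^ 2 + 4 * (Q : ℝ) ^ 4) := by
  have hk : 0 ≤ TP.kap P P2 := sum_nonneg fun _ _ => by positivity
  have h1 : ∀ n ∈ Icc 1 (2 * X), ‖TQ.aw P P2 Q X Z n‖ ^ 2 ≤ 8 + 2 * L ^ 2 * (TP.lq Q n) ^ 2 := by
    intro n _
    unfold TQ.aw
    split_ifs with h
    · rw [Complex.norm_real, Real.norm_eq_abs, sq_abs]
      have hn : 3 * P2 ≤ n := hZ.trans h.1.le
      have h2 := TQ.lam_nonneg P P2 n hn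
      have h3 := (TQ.lam_le P P2 n hn).trans hL
      have h4 := TQ.ue_le P P2 n
      have h5 : 0 ≤ TQ.ue P P2 n := by unfold TQ.ue; exact Nat.cast_nonneg _
      have h6 : (TQ.ue P P2 n) ^ 2 ≤ 4 := by nlinarith
      have h7 : (TQ.lam P P2 n * TP.lq Q n) ^ 2 ≤ L ^ 2 * (TP.lq Q n) ^ 2 := by
        rw [mul_pow]
        exact mul_le_mul_of_nonneg_right (pow_le_pow_left₀ h2 h3 2) (sq_nonneg _)
      nlinarith [sq_nonneg (TQ.ue P P2 n + TQ.lam P P2 n * TP.lq Q n)]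
    · rw [norm_zero, zero_pow two_ne_zero]
      positivity
  refine (sum_le_sum h1).trans ?_
  rw [sum_add_distrib, ← mul_sum, sum_const, Nat.card_Icc, nsmul_eq_mul, Nat.add_sub_cancel]
  have h2 := TP.l2m Q (2 * X) hQ
  push_cast at h2 ⊢
  have h3 := mul_le_mul_of_nonneg_left h2 (by positivity : (0 : ℝ) ≤ 2 * L ^ 2)
  nlinarith [h3]

private theorem sm1_win (P P2 Q X Z M k : ℕ) (hM : M ^ 3 ≤ X) (hk : k ∈ Ioc Z X) :
    ‖∑ m ∈ Icc 1 M, TQ.aw P P2 Q X Z (m ^ 3 + k)‖ ^ 2 =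
      (∑ m ∈ Icc 1 M, ae P P2 Q (m ^ 3 + k)) ^ 2 := by
  rw [mem_Ioc] at hk
  have h1 : ∑ m ∈ Icc 1 M, TQ.aw P P2 Q X Z (m ^ 3 + k) =
      ((∑ m ∈ Icc 1 M, ae P P2 Q (m ^ 3 + k) : ℝ) : ℂ) := by
    rw [Complex.ofReal_sum]
    refine sum_congr rfl fun m hm => ?_
    rw [mem_Icc] at hm
    have h2 : m ^ 3 ≤ M ^ 3 := Nat.pow_le_pow_left hm.2 3
    unfold TQ.aw ae
    rw [if_pos ⟨by omega, by omega⟩]
  rw [h1, Complex.norm_real, Real.norm_eq_abs, sq_abs]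

private theorem sm1_P2X (X M P2 : ℕ) (hP2n : 1 ≤ P2) (hM2 : M ^ 3 ≤ X) (hP25 : P2 ^ 5 ≤ M) :
    (P2 : ℝ) ≤ (X : ℝ) ^ ((1 : ℝ) / 14) := by
  have h1 : P2 ^ 14 ≤ X := by
    calc P2 ^ 14 ≤ P2 ^ 15 := Nat.pow_le_pow_right hP2n (by norm_num)
      _ = (P2 ^ 5) ^ 3 := by rw [← pow_mul]
      _ ≤ M ^ 3 := Nat.pow_le_pow_left hP25 3
      _ ≤ X := hM2
  have h2 : (P2 : ℝ) ^ 14 ≤ X := by exact_mod_cast h1
  have h3 : (P2 : ℝ) = ((P2 : ℝ) ^ 14) ^ ((1 : ℝ) / 14) := by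
    rw [← Real.rpow_natCast, ← Real.rpow_mul (by positivity)]
    norm_num
  rw [h3]
  exact Real.rpow_le_rpow (by positivity) h2 (by norm_num)

/-- the window length -/
private theorem sm1_h (X M Q P2 k0 : ℕ) (l A1 C1 C0 : ℝ) (hl : 12 ≤ l) (hX : (0 : ℝ) < X)
    (hQ1 : (1 : ℝ) ≤ Q) (hQ2 : (Q : ℝ) ≤ l ^ (25 * k0)) (hA1 : 0 < A1) (hC1 : 0 < C1)
    (hC0 : C1 + A1 + 25 * k0 + 1 ≤ C0) (hM1 : l ^ C0 ≤ M) (hM2 : M ^ 3 ≤ X)
    (hP2n : 1 ≤ P2) (hP2M : P2 ≤ M) :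
    ∃ h : ℕ, 1 ≤ h ∧ 6 * h * Q ≤ M ^ 3 ∧ (P2 : ℝ) * l ^ C1 ≤ h ∧ (h : ℝ) ≤ X * l ^ (-A1) := by
  have hl0 : 0 < l := by linarith
  have hl1 : 1 ≤ l := by linarith
  have hP2R : (1 : ℝ) ≤ P2 := by exact_mod_cast hP2n
  have hP2M' : (P2 : ℝ) ≤ M := by exact_mod_cast hP2M
  have hM0 : (0 : ℝ) ≤ M := Nat.cast_nonneg M
  have hM1R : (1 : ℝ) ≤ M := hP2R.trans hP2M'
  have hlA1 : 1 ≤ l ^ A1 := Real.one_le_rpow hl1 hA1.le
  have hlC1 : 1 ≤ l ^ C1 := Real.one_le_rpow hl1 hC1.le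
  obtain ⟨w, hw⟩ : ∃ w : ℝ, w = (M : ℝ) ^ 3 / (6 * Q * l ^ A1) := ⟨_, rfl⟩
  have hw0 : 0 ≤ w := by rw [hw]; positivity
  obtain ⟨h, hh⟩ : ∃ h : ℕ, h = ⌊w⌋₊ := ⟨_, rfl⟩
  have hhw : (h : ℝ) ≤ w := by rw [hh]; exact Nat.floor_le hw0
  have hM2R : (M : ℝ) ^ 3 ≤ X := by exact_mod_cast hM2
  have hhlow : (P2 : ℝ) * l ^ C1 ≤ h := by
    have h1 : w - 1 < h := by
      have := Nat.lt_floor_add_one w
      rw [← hh] at this
      linarith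
    have h2 : (P2 : ℝ) * l ^ C1 + 1 ≤ w := by
      rw [hw, le_div_iff₀ (by positivity)]
      have h3 : 1 ≤ (P2 : ℝ) * l ^ C1 := one_le_mul_of_one_le_of_one_le hP2R hlC1
      have h4 : 6 * (Q : ℝ) * l ^ A1 ≤ 6 * (l ^ (((25 * k0 : ℕ) : ℝ) + A1)) := by
        rw [Real.rpow_add hl0, Real.rpow_natCast]
        have := mul_le_mul_of_nonneg_right hQ2 (by positivity : 0 ≤ l ^ A1)
        linarith
      have h5 : l ^ C1 * (12 * (l ^ (((25 * k0 : ℕ) : ℝ) + A1))) ≤ M := by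
        refine le_trans ?_ hM1
        calc l ^ C1 * (12 * (l ^ (((25 * k0 : ℕ) : ℝ) + A1)))
            ≤ l ^ C1 * (l * (l ^ (((25 * k0 : ℕ) : ℝ) + A1))) := by gcongr
          _ = l ^ (C1 + (1 + (((25 * k0 : ℕ) : ℝ) + A1))) := by
              rw [Real.rpow_add hl0 C1, Real.rpow_add hl0 1, Real.rpow_one]
          _ ≤ _ := by
              apply Real.rpow_le_rpow_of_exponent_le hl1
              push_cast
              linarith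
      calc ((P2 : ℝ) * l ^ C1 + 1) * (6 * Q * l ^ A1)
          ≤ (2 * ((P2 : ℝ) * l ^ C1)) * (6 * (l ^ (((25 * k0 : ℕ) : ℝ) + A1))) := by
            apply mul_le_mul (by linarith) h4 (by positivity) (by positivity)
        _ = (P2 : ℝ) * (l ^ C1 * (12 * (l ^ (((25 * k0 : ℕ) : ℝ) + A1)))) := by ring
        _ ≤ (M : ℝ) * M := by gcongr
        _ = (M : ℝ) ^ 2 := by ring
        _ ≤ (M : ℝ) ^ 3 := pow_le_pow_right₀ hM1R (by norm_num)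
    linarith
  have hh1 : 1 ≤ h := by
    have h1 : (1 : ℝ) ≤ h := (one_le_mul_of_one_le_of_one_le hP2R hlC1).trans hhlow
    exact_mod_cast h1
  refine ⟨h, hh1, ?_, hhlow, ?_⟩
  · have h1 : (6 : ℝ) * h * Q ≤ (M : ℝ) ^ 3 := by
      calc (6 : ℝ) * h * Q ≤ 6 * w * Q := by gcongr
        _ = (M : ℝ) ^ 3 / l ^ A1 := by
            rw [hw]; field_simp
        _ ≤ (M : ℝ) ^ 3 := div_le_self (by positivity) hlA1
    exact_mod_cast h1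
  · rw [Real.rpow_neg hl0.le, ← div_eq_mul_inv]
    refine hhw.trans ?_
    rw [hw]
    calc (M : ℝ) ^ 3 / (6 * Q * l ^ A1) ≤ X / (6 * Q * l ^ A1) := by gcongr
      _ ≤ X / (l ^ A1) := by
          apply div_le_div_of_nonneg_left hX.le (by positivity)
          nlinarith

/-- the square sum -/
private theorem sm1_sq (X l lq q : ℝ) (hX : 0 ≤ X) (hl : 12 ≤ l)
    (h1 : 8 * (1 + lq) ^ 2 + 4 ≤ l / 2) (h2 : 16 * q ≤ X) :
    16 * X + 2 * l ^ 2 * (4 * X * (1 + lq) ^ 2 + 4 * q) ≤ X * l ^ 3 := by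
  have h5 : X * (8 * (1 + lq) ^ 2 + 4) ≤ X * (l / 2) := mul_le_mul_of_nonneg_left h1 hX
  have h7 : 8 * X * (1 + lq) ^ 2 + 8 * q ≤ X * (l / 2) := by linarith
  have h8 := mul_le_mul_of_nonneg_left h7 (by positivity : (0 : ℝ) ≤ l ^ 2)
  have h9 : 16 * X ≤ X * l ^ 2 := by
    have : (16 : ℝ) ≤ l ^ 2 := by nlinarith
    nlinarith
  have h10 : X * l ^ 2 ≤ X * l ^ 3 / 2 := by
    have : (l ^ 2 : ℝ) * 2 ≤ l ^ 2 * l := by
      apply mul_le_mul_of_nonneg_left (by linarith) (by positivity)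
    have h11 := mul_le_mul_of_nonneg_left this hX
    have h12 : X * (l ^ 2 * l) = X * l ^ 3 := by ring
    linarith
  calc 16 * X + 2 * l ^ 2 * (4 * X * (1 + lq) ^ 2 + 4 * q)
      = 16 * X + l ^ 2 * (8 * X * (1 + lq) ^ 2 + 8 * q) := by ring
    _ ≤ X * l ^ 3 / 2 + l ^ 2 * (X * (l / 2)) := add_le_add (h9.trans h10) h8
    _ = X * l ^ 3 := by ring

private theorem sm1_t1 (l A : ℝ) (k0 : ℕ) (hl1 : 1 ≤ l) (hk0 : A / 2 + 3 ≤ k0) :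
    ((l ^ k0)⁻¹) ^ 2 * l ^ 3 ≤ l ^ (-A) / l := by
  have hl0 : 0 < l := by linarith
  rw [le_div_iff₀ hl0]
  have h2 : ((l ^ k0)⁻¹) ^ 2 * l ^ 3 * l = l ^ (-(2 * k0 : ℝ) + 4) := by
    rw [Real.rpow_add hl0, Real.rpow_neg hl0.le]
    have h3 : l ^ ((2 : ℝ) * k0) = (l ^ k0) ^ 2 := by
      rw [← pow_mul, ← Real.rpow_natCast]; push_cast; ring_nf
    have h4 : l ^ (4 : ℝ) = l ^ 4 := by
      rw [← Real.rpow_natCast]; norm_num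
    rw [h3, h4, inv_pow]
    ring
  rw [h2]
  exact Real.rpow_le_rpow_of_exponent_le hl1 (by linarith)

private theorem sm1_t2 (l A q : ℝ) (k0 : ℕ) (hl1 : 1 ≤ l) (hq : q ≤ l ^ (100 * k0)) :
    q * l ^ (-(100 * k0 + A + 4 : ℝ)) ≤ l ^ (-A) / l := by
  have hl0 : 0 < l := by linarith
  have h3 : q ≤ l ^ ((100 : ℝ) * k0) := by
    refine hq.trans (le_of_eq ?_)
    rw [← Real.rpow_natCast]; push_cast; rfl
  rw [le_div_iff₀ hl0]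
  calc q * l ^ (-(100 * k0 + A + 4 : ℝ)) * l
      ≤ l ^ ((100 : ℝ) * k0) * l ^ (-(100 * k0 + A + 4 : ℝ)) * l := by gcongr
    _ = l ^ (-A - 3) := by
        nth_rewrite 3 [← Real.rpow_one l]
        rw [← Real.rpow_add hl0, ← Real.rpow_add hl0]
        congr 1; ring
    _ ≤ l ^ (-A) := Real.rpow_le_rpow_of_exponent_le hl1 (by linarith)

private theorem sm1_tot (X M l κ S q V h A W T : ℝ) (hX : 0 ≤ X) (hh : 0 < h) (hl : 12 ≤ l)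
    (hS : S ≤ X * l ^ 3) (h1 : κ ^ 2 * l ^ 3 ≤ T / l) (hV : V = X * h ^ 2 * W)
    (h2 : q * W ≤ T / l) (hT : 0 ≤ T) (hA : A ≤ κ ^ 2 * M ^ 2 * S + 4 * M ^ 2 * q * V / h ^ 2) :
    A ≤ X * M ^ 2 * T := by
  have hl0 : 0 < l := by linarith
  have a1 : κ ^ 2 * M ^ 2 * S ≤ X * M ^ 2 * (T / l) := by
    calc κ ^ 2 * M ^ 2 * S ≤ κ ^ 2 * M ^ 2 * (X * l ^ 3) :=
          mul_le_mul_of_nonneg_left hS (by positivity)
      _ = X * M ^ 2 * (κ ^ 2 * l ^ 3) := by ring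
      _ ≤ _ := mul_le_mul_of_nonneg_left h1 (by positivity)
  have a2 : 4 * M ^ 2 * q * V / h ^ 2 = X * M ^ 2 * (4 * (q * W)) := by
    rw [hV]; field_simp
  have a3 : X * M ^ 2 * (4 * (q * W)) ≤ X * M ^ 2 * (4 * (T / l)) :=
    mul_le_mul_of_nonneg_left (by linarith) (by positivity)
  have a4 : 5 * (T / l) ≤ T := by
    rw [← mul_div_assoc, div_le_iff₀ hl0]
    nlinarith
  have a5 := mul_le_mul_of_nonneg_left a4 (by positivity : 0 ≤ X * M ^ 2)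
  rw [a2] at hA
  linarith

theorem sm1 (hfa0 : FaS) (A B' : ℝ) (k0 : ℕ) (hA : 0 < A) (hB' : 0 < B') (hk0 : A / 2 + 3 ≤ k0) :
    ∃ A2 C0 : ℝ, 0 < A2 ∧ 0 < C0 ∧ ∃ X0 : ℕ, ∀ X : ℕ, X0 ≤ X → ∀ Q M Z P P2 : ℕ,
    2 ^ 64 * (Real.log X) ^ (24 * k0) ≤ Q → (Q : ℝ) ≤ (Real.log X) ^ (25 * k0) →
    (Real.log X) ^ C0 ≤ M → M ^ 3 ≤ X → (Real.log X) ^ A2 ≤ P → P ≤ P2 → P2 ^ 5 ≤ M →
    (X : ℝ) * (Real.log X) ^ (-B') ≤ Z →
    ∑ k ∈ Ioc Z X, (∑ m ∈ Icc 1 M, ae P P2 Q (m ^ 3 + k)) ^ 2 ≤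
      X * (M : ℝ) ^ 2 * (Real.log X) ^ (-A) := by
  have hk0' : (0 : ℝ) < k0 := by linarith
  obtain ⟨A2, C1, A1, hA2, hC1, hA1, X1, hX1, hfa⟩ := hfa0 (25 * k0) (100 * k0 + A + 4) B'
    (by positivity) (by positivity) hB'
  refine ⟨A2, C1 + A1 + 60 * k0 + A + 30, hA2, by positivity, ?_⟩
  have hev : ∀ᶠ X : ℕ in Filter.atTop, X1 ≤ X ∧ 2 ^ 24 ≤ Real.log X ∧
      3 * (Real.log X) ^ B' ≤ (X : ℝ) ^ ((13 : ℝ) / 14) ∧
      8 * (1 + (25 * k0 : ℕ) * Real.log (Real.log X)) ^ 2 + 4 ≤ Real.log X / 2 ∧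
      16 * (Real.log X) ^ ((100 * k0 : ℕ) : ℝ) ≤ (X : ℝ) ^ (1 : ℝ) := by
    filter_upwards [Filter.eventually_ge_atTop X1, sm1_log (2 ^ 24),
      sm1_ev 3 B' (13 / 14) (by norm_num), sm1_loglog ((25 * k0 : ℕ) : ℝ),
      sm1_ev 16 ((100 * k0 : ℕ) : ℝ) 1 one_pos] with X h1 h2 h3 h4 h5
    exact ⟨h1, h2, h3, h4, h5⟩
  obtain ⟨X0, hX0⟩ := Filter.eventually_atTop.1 hev
  refine ⟨X0, fun X hX Q M Z P P2 hQ1 hQ2 hM1 hM2 hP hPP2 hP25 hZ => ?_⟩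
  obtain ⟨e0, e1, e4, e5, e6⟩ := hX0 X hX
  have hfa' := hfa X e0 Z hZ
  rw [Real.rpow_natCast, Real.rpow_one] at e6
  obtain ⟨l, hl⟩ : ∃ l, l = Real.log X := ⟨_, rfl⟩
  rw [← hl] at e1 e4 e5 e6 hQ1 hQ2 hM1 hP hZ hfa' ⊢
  have hl12 : 12 ≤ l := le_trans (by norm_num) e1
  have hl0 : 0 < l := by linarith
  have hl1 : 1 ≤ l := by linarith
  have hXR : (10 : ℝ) ≤ X := by exact_mod_cast hX1.trans e0
  have hXp : (0 : ℝ) < X := by linarith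
  have hlk : 1 ≤ l ^ k0 := one_le_pow₀ hl1
  have hκ24 : 2 ^ 64 / ((l ^ k0)⁻¹) ^ 24 ≤ (Q : ℝ) := by
    refine le_trans (le_of_eq ?_) hQ1
    rw [inv_pow, div_inv_eq_mul, ← pow_mul, mul_comm k0 24]
  have hQ1' : (1 : ℝ) ≤ Q := by
    refine le_trans ?_ hQ1
    exact one_le_mul_of_one_le_of_one_le (by norm_num) (one_le_pow₀ hl1)
  have hQn : 1 ≤ Q := by exact_mod_cast hQ1'
  have hQp : (0 : ℝ) < Q := by linarith
  have hκM : 2 ^ 24 ≤ ((l ^ k0)⁻¹) ^ 9 * (M : ℝ) := by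
    rw [inv_pow, ← pow_mul, inv_mul_eq_div, le_div_iff₀ (by positivity), mul_comm k0 9]
    refine le_trans ?_ hM1
    calc (2 : ℝ) ^ 24 * l ^ (9 * k0) ≤ l * l ^ (9 * k0) := by gcongr
      _ = l ^ (1 + (9 : ℝ) * k0) := by
          rw [Real.rpow_add hl0, Real.rpow_one, ← Real.rpow_natCast]; push_cast; rfl
      _ ≤ _ := Real.rpow_le_rpow_of_exponent_le hl1 (by linarith)
  -- `P2`
  have hP1 : (1 : ℝ) ≤ P := (Real.one_le_rpow hl1 hA2.le).trans hP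
  have hP1n : 1 ≤ P := by exact_mod_cast hP1
  have hP2n : 1 ≤ P2 := hP1n.trans hPP2
  have hP2R : (1 : ℝ) ≤ P2 := by exact_mod_cast hP2n
  have hP2M : P2 ≤ M := (Nat.le_self_pow (by norm_num) P2).trans hP25
  have hP2X := sm1_P2X X M P2 hP2n hM2 hP25
  -- `h`
  obtain ⟨h, hh1, h6, hhlow, hhup⟩ := sm1_h X M Q P2 k0 l A1 C1 _ hl12 hXp hQ1' hQ2 hA1 hC1
    (by linarith : C1 + A1 + 25 * k0 + 1 ≤ C1 + A1 + 60 * (k0 : ℝ) + A + 30) hM1 hM2 hP2n hP2M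
  have hhp : (0 : ℝ) < h := by exact_mod_cast hh1
  have hQ2' : (Q : ℝ) ≤ l ^ ((25 : ℝ) * k0) := by
    refine hQ2.trans (le_of_eq ?_)
    rw [← Real.rpow_natCast]; push_cast; rfl
  have htra := TP.tra (TQ.aw P P2 Q X Z) M X Q h ((l ^ k0)⁻¹)
    (X * (h : ℝ) ^ 2 * l ^ (-(100 * k0 + A + 4 : ℝ))) hM2 (by positivity)
    (inv_le_one_of_one_le₀ hlk) hκM hκ24 hh1 h6
    (fun q c hq hqQ hc => hfa' Q q c hQ2' hq hqQ hc P P2 h hP hPP2 hP2X hhlow hhup)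
  -- the square sum
  have hZ3 : 3 * P2 ≤ Z := by
    have h1 : (3 : ℝ) * P2 ≤ X * l ^ (-B') := by
      rw [Real.rpow_neg hl0.le, ← div_eq_mul_inv, le_div_iff₀ (by positivity)]
      calc (3 : ℝ) * P2 * l ^ B' ≤ 3 * (X : ℝ) ^ ((1 : ℝ) / 14) * l ^ B' := by gcongr
        _ = (X : ℝ) ^ ((1 : ℝ) / 14) * (3 * l ^ B') := by ring
        _ ≤ (X : ℝ) ^ ((1 : ℝ) / 14) * (X : ℝ) ^ ((13 : ℝ) / 14) := by gcongr
        _ = X := by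
            rw [← Real.rpow_add hXp]
            norm_num
    exact_mod_cast h1.trans hZ
  have hkap : TP.kap P P2 ≤ l := by
    refine (TQ.kap_le P P2).trans ?_
    have h1 : Real.log P2 ≤ Real.log ((X : ℝ) ^ ((1 : ℝ) / 14)) :=
      Real.log_le_log (by linarith) hP2X
    rw [Real.log_rpow hXp, ← hl] at h1
    linarith
  have hlogQ : Real.log Q ≤ (25 * k0 : ℕ) * Real.log l := by
    rw [← Real.log_pow]
    exact Real.log_le_log hQp hQ2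
  have hlogQ0 : 0 ≤ Real.log Q := Real.log_nonneg hQ1'
  have h1 : (1 + Real.log Q) ^ 2 ≤ (1 + (25 * k0 : ℕ) * Real.log l) ^ 2 :=
    pow_le_pow_left₀ (by linarith) (by linarith) 2
  have h2 : (Q : ℝ) ^ 4 ≤ l ^ (100 * k0) := by
    calc (Q : ℝ) ^ 4 ≤ (l ^ (25 * k0)) ^ 4 := pow_le_pow_left₀ hQp.le hQ2 4
      _ = l ^ (100 * k0) := by rw [← pow_mul]; congr 1; ring
  have hsq := (sm1_aw P P2 Q X Z l hQn hZ3 hkap).trans
    (sm1_sq X l (Real.log Q) ((Q : ℝ) ^ 4) hXp.le hl12 (by linarith) (by linarith))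
  have hsub : Ioc Z X ⊆ Icc 1 X := by
    intro k hk
    rw [mem_Ioc] at hk
    rw [mem_Icc]
    omega
  have hfin := sm1_tot X M l ((l ^ k0)⁻¹) _ ((Q : ℝ) ^ 4) _ h _
    (l ^ (-(100 * k0 + A + 4 : ℝ))) (l ^ (-A)) hXp.le hhp hl12 hsq
    (sm1_t1 l A k0 hl1 hk0) rfl (sm1_t2 l A ((Q : ℝ) ^ 4) k0 hl1 h2) (by positivity) htra
  refine le_trans (le_of_eq ?_) ((sum_le_sum_of_subset_of_nonneg hsub
    fun _ _ _ => by positivity).trans hfin)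
  exact sum_congr rfl fun k hk => (sm1_win P P2 Q X Z M k hM2 hk).symm

end Pool.Agent.H43.PG
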