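import Pool.Agent.H43.TQ.Pie

/-!
# [H43 PG PI1] Narrow pieces of `(P,P2]`, `P2 <= e^L`

PROOF. Copy `TQ/Pie.lean` (184 lines). `D_0 = P`, `D_{j+1} = min P2 ⌊D_j (1 + L^(-K))⌋₊`; monotone and, as long as it is `< P2`, `D_j >= exp(j L^(-K)/4)`. With
`J = ⌈4 L^(K+1)⌉₊ <= L^(K+2)` (`L` large) `exp(J L^(-K)/4) >= e^L >= P2`, so `D_J = P2`.
-/

namespace Pool.Agent.H43.PG

open Finset

private theorem pi_large (K : ℝ) (hK : 0 < K) (L : ℝ) (hL : 8 ≤ L) :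
    ∃ J : ℕ, (J : ℝ) ≤ L ^ (K + 2) ∧ Real.exp L ≤ Real.exp (J * (L ^ (-K) / 4)) := by
  have hL0 : 0 < L := by linarith
  have h1 : L ^ (K + 2) = L ^ (K + 1) * L := by
    rw [show K + 2 = (K + 1) + 1 by ring, Real.rpow_add hL0 (K + 1) 1, Real.rpow_one]
  have h2 : 1 ≤ L ^ (K + 1) := Real.one_le_rpow (by linarith) (by linarith)
  have h3 : L ^ (K + 1) * L ^ (-K) = L := by
    rw [← Real.rpow_add hL0]
    norm_num
  refine ⟨⌈4 * L ^ (K + 1)⌉₊, ?_, ?_⟩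
  · have h5 : (⌈4 * L ^ (K + 1)⌉₊ : ℝ) ≤ 4 * L ^ (K + 1) + 1 :=
      (Nat.ceil_lt_add_one (by positivity)).le
    rw [h1]
    nlinarith
  · have h5 : 4 * L ^ (K + 1) ≤ (⌈4 * L ^ (K + 1)⌉₊ : ℝ) := Nat.le_ceil _
    apply Real.exp_le_exp.2
    have h7 : 0 ≤ L ^ (-K) / 4 := by positivity
    calc L = (4 * L ^ (K + 1)) * (L ^ (-K) / 4) := by
          linear_combination -h3
      _ ≤ _ := mul_le_mul_of_nonneg_right h5 h7

theorem pi1 (K : ℝ) (hK : 0 < K) : ∃ L0 : ℝ, 2 ≤ L0 ∧ ∀ L : ℝ, L0 ≤ L →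
    ∀ P P2 : ℕ, L ^ (K + 1) ≤ P → P ≤ P2 → (P2 : ℝ) ≤ Real.exp L →
    ∃ (J : ℕ) (D : ℕ → ℕ), Monotone D ∧ D 0 = P ∧ D J = P2 ∧ (J : ℝ) ≤ L ^ (K + 2) ∧
      ∀ j, (D (j + 1) : ℝ) ≤ D j * (1 + L ^ (-K)) := by
  refine ⟨8, by norm_num, fun L hL8 P P2 hP hPP hP2 => ?_⟩
  have hL2 : 2 ≤ L := by linarith
  obtain ⟨J, hJ1, hJ2⟩ := pi_large K hK L hL8
  have hL0' : 0 < L := by linarith
  have hK0 : 0 < L ^ (-K) := Real.rpow_pos_of_pos hL0' _
  have hK1 : L ^ (-K) ≤ 1 := Real.rpow_le_one_of_one_le_of_nonpos (by linarith) (by linarith)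
  have hKK : L ^ (K + 1) * L ^ (-K) = L := by
    rw [← Real.rpow_add hL0']
    norm_num
  set D : ℕ → ℕ := TQ.pie_D P P2 (L ^ (-K)) with hD
  have hstep : ∀ j, P ≤ D j ∧ D j ≤ P2 ∧ D j ≤ D (j + 1) ∧
      (D (j + 1) = P2 ∨ (D j : ℝ) * (1 + L ^ (-K) / 2) ≤ D (j + 1)) := by
    intro j
    have hgen : ∀ d : ℕ, P ≤ d → d ≤ P2 → (d ≤ min P2 ⌊(d : ℝ) * (1 + L ^ (-K))⌋₊ ∧
        (min P2 ⌊(d : ℝ) * (1 + L ^ (-K))⌋₊ = P2 ∨
          (d : ℝ) * (1 + L ^ (-K) / 2) ≤ ((min P2 ⌊(d : ℝ) * (1 + L ^ (-K))⌋₊ : ℕ) : ℝ))) := by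
      intro d hd1 hd2
      have hdR : L ^ (K + 1) ≤ (d : ℝ) := hP.trans (by exact_mod_cast hd1)
      have h1 : 2 ≤ (d : ℝ) * L ^ (-K) := by
        calc (2 : ℝ) ≤ L := hL2
          _ = L ^ (K + 1) * L ^ (-K) := hKK.symm
          _ ≤ (d : ℝ) * L ^ (-K) := mul_le_mul_of_nonneg_right hdR hK0.le
      have h2 : (d : ℝ) * (1 + L ^ (-K)) - 1 < (⌊(d : ℝ) * (1 + L ^ (-K))⌋₊ : ℝ) := by
        have := Nat.lt_floor_add_one ((d : ℝ) * (1 + L ^ (-K)))
        linarith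
      have h3 : (d : ℝ) * (1 + L ^ (-K) / 2) ≤ (⌊(d : ℝ) * (1 + L ^ (-K))⌋₊ : ℝ) := by
        nlinarith
      have h4 : d ≤ ⌊(d : ℝ) * (1 + L ^ (-K))⌋₊ := by
        apply Nat.le_floor
        nlinarith [Nat.cast_nonneg (α := ℝ) d]
      refine ⟨le_min hd2 h4, ?_⟩
      rcases le_total P2 ⌊(d : ℝ) * (1 + L ^ (-K))⌋₊ with h5 | h5
      · left
        exact min_eq_left h5
      · right
        rw [min_eq_right h5]
        exact h3
    induction j with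
    | zero =>
      have h := hgen P le_rfl hPP
      exact ⟨le_rfl, hPP, h.1, h.2⟩
    | succ j ih =>
      have h1 : P ≤ D (j + 1) := ih.1.trans ih.2.2.1
      have h2 : D (j + 1) ≤ P2 := min_le_left _ _
      have h := hgen (D (j + 1)) h1 h2
      exact ⟨h1, h2, h.1, h.2⟩
  have hmono : Monotone D := monotone_nat_of_le_succ fun j => (hstep j).2.2.1
  have hgrow : ∀ j, D j = P2 ∨ (P : ℝ) * (1 + L ^ (-K) / 2) ^ j ≤ D j := by
    intro j
    induction j with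
    | zero =>
      right
      rw [pow_zero, mul_one]
      exact le_rfl
    | succ j ih =>
      rcases ih with h | h
      · left
        exact le_antisymm (hstep (j + 1)).2.1 (h ▸ (hstep j).2.2.1)
      · rcases (hstep j).2.2.2 with h2 | h2
        · exact Or.inl h2
        · right
          calc (P : ℝ) * (1 + L ^ (-K) / 2) ^ (j + 1)
              = (P : ℝ) * (1 + L ^ (-K) / 2) ^ j * (1 + L ^ (-K) / 2) := by ring
            _ ≤ (D j : ℝ) * (1 + L ^ (-K) / 2) := mul_le_mul_of_nonneg_right h (by linarith)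
            _ ≤ D (j + 1) := h2
  refine ⟨J, D, hmono, rfl, ?_, hJ1, ?_⟩
  · rcases hgrow J with h | h
    · exact h
    · apply le_antisymm (hstep J).2.1
      have hP1 : (1 : ℝ) ≤ P := by
        refine le_trans ?_ hP
        exact Real.one_le_rpow (by linarith) (by linarith)
      have h5 : Real.exp L ≤ (1 + L ^ (-K) / 2) ^ J := by
        have h6 : Real.exp (L ^ (-K) / 4) ≤ 1 + L ^ (-K) / 2 := by
          have h7 : |L ^ (-K) / 4| ≤ 1 := by
            rw [abs_of_pos (by positivity)]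
            linarith
          have h8 := Real.exp_bound_div_one_sub_of_interval (x := L ^ (-K) / 4) (by positivity)
            (by linarith)
          refine h8.trans ?_
          rw [div_le_iff₀ (by linarith)]
          nlinarith
        calc Real.exp L ≤ Real.exp (J * (L ^ (-K) / 4)) := hJ2
          _ = Real.exp (L ^ (-K) / 4) ^ J := by rw [← Real.exp_nat_mul]
          _ ≤ (1 + L ^ (-K) / 2) ^ J := pow_le_pow_left₀ (Real.exp_pos _).le h6 J
      have h9 : (P2 : ℝ) ≤ D J := by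
        calc (P2 : ℝ) ≤ Real.exp L := hP2
          _ ≤ (1 + L ^ (-K) / 2) ^ J := h5
          _ ≤ (P : ℝ) * (1 + L ^ (-K) / 2) ^ J := by
              have h10 : 0 ≤ (1 + L ^ (-K) / 2) ^ J := by positivity
              nlinarith
          _ ≤ D J := h
      exact_mod_cast h9
  · intro j
    have h1 : (D (j + 1) : ℝ) ≤ (⌊(D j : ℝ) * (1 + L ^ (-K))⌋₊ : ℝ) := by
      exact_mod_cast min_le_right _ _
    refine h1.trans (Nat.floor_le ?_)
    positivity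

end Pool.Agent.H43.PG
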