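import Pool.Agent.H43.TQ.Lam
import Pool.Agent.H43.PG.St
import Pool.Agent.H43.PG.Pi1

/-!
# [H43 PG TU1] Windows of `ue`

PROOF. Copy `TQ/Thu.lean` with `th1` in place of `TP.thw` and `pi1` in place of `pie` (`A3` disappears). `ℓ = log X`, `K = A + 4`, `A' = 2K + A + 6`. `th1` with `(B, A')` gives `A2'`, `C1`, `A1'`;
`A2 = max A2' (K+1)`, `A1 = max A1' K`. Pieces `D_j`, `j < J <= ℓ^(K+2)` from `pi1` (`L = ℓ`, `P2 <= X = e^ℓ`). For `x ∈ (X,2X]`, `m ∈ (x,x+H]`, `p ∈ (D_j,D_{j+1}]`: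
`L_j = log(x/D_j) >= log(X/P2) >= (12/13) ℓ >= ℓ/2`, and `|log(m/p) - L_j| <= H/x + (D_{j+1}-D_j)/D_j <= 2ℓ^(-K)`. Each piece satisfies the conditions of `th1`
(`H >= P2 ℓ^C1 >= D_{j+1} ℓ^C1`). The rest as in `TQ/Thu.lean`: `<= 2J Σ_j Σ_x E_j^2 + 2 (X+1) 25 ℓ^(2-2K) H^2 <= 2 ℓ^(2K+4) X H^2 ℓ^(-A') + 100 X H^2 ℓ^(2-2K) <= X H^2 ℓ^(-A)`.
(`TQ.pie_sum` for sums over the pieces.)
-/

namespace Pool.Agent.H43.PG

open Finset Pool.Agent.H43.TQ

private theorem tu1_asym (L0 X1 : ℝ) : ∃ X0 : ℝ, 10 ≤ X0 ∧ ∀ X : ℝ, X0 ≤ X →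
    X1 ≤ X ∧ L0 ≤ Real.log X ∧ 2 ≤ Real.log X := by
  have h3 := Real.tendsto_log_atTop.eventually (Filter.eventually_ge_atTop L0)
  have h4 := Real.tendsto_log_atTop.eventually (Filter.eventually_ge_atTop (2 : ℝ))
  obtain ⟨X0, hX0⟩ := Filter.eventually_atTop.1
    ((h3.and h4).and (Filter.eventually_ge_atTop X1))
  refine ⟨max X0 10, le_max_right _ _, fun X hX => ?_⟩
  have h5 := hX0 X ((le_max_left _ _).trans hX)
  exact ⟨h5.2, h5.1.1, h5.1.2⟩

private theorem thu_split (Q : ℕ → Prop) [DecidablePred Q] (f : ℕ → ℝ) (D : ℕ → ℕ)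
    (hD : Monotone D) (J : ℕ) :
    ∑ p ∈ (Ioc (D 0) (D J)).filter Q, f p =
      ∑ j ∈ range J, ∑ p ∈ (Ioc (D j) (D (j + 1))).filter Q, f p := by
  simp only [Finset.sum_filter]
  exact pie_sum (fun p => if Q p then f p else 0) D hD J

private theorem thu_ue_split (D : ℕ → ℕ) (hD : Monotone D) (J m : ℕ) :
    ue (D 0) (D J) m = ∑ j ∈ range J, ue (D j) (D (j + 1)) m := by
  have h := thu_split (fun p => p.Prime ∧ p ∣ m ∧ (m / p).Prime) (fun _ => 1) D hD J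
  simp only [Finset.sum_const, nsmul_eq_mul, mul_one] at h
  exact h

private theorem thu_kap_split (D : ℕ → ℕ) (hD : Monotone D) (J : ℕ) :
    TP.kap (D 0) (D J) = ∑ j ∈ range J, TP.kap (D j) (D (j + 1)) :=
  thu_split Nat.Prime (fun p => 1 / (p : ℝ)) D hD J

private theorem thu_lam_split (D : ℕ → ℕ) (hD : Monotone D) (J n : ℕ) :
    lam (D 0) (D J) n = ∑ j ∈ range J, lam (D j) (D (j + 1)) n :=
  thu_split Nat.Prime (fun p => 1 / ((p : ℝ) * Real.log ((n : ℝ) / p))) D hD J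

private theorem thu_log_sub {x y δ : ℝ} (hx : 0 < x) (hxy : x ≤ y) (h : y - x ≤ δ * x) :
    0 ≤ Real.log y - Real.log x ∧ Real.log y - Real.log x ≤ δ := by
  have hy : 0 < y := by linarith
  refine ⟨sub_nonneg.2 (Real.log_le_log hx hxy), ?_⟩
  rw [← Real.log_div hy.ne' hx.ne']
  refine (Real.log_le_sub_one_of_pos (by positivity)).trans ?_
  rw [div_sub_one hx.ne', div_le_iff₀ hx]
  exact h

private theorem thu_ge (D D' n m : ℕ) (δ : ℝ) (hD : 0 < D) (hn : 0 < n) (hnm : n ≤ m)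
    (h1 : (m : ℝ) - n ≤ δ * n) (h2 : (D' : ℝ) - D ≤ δ * D) :
    |TP.ge D D' m - Real.log ((n : ℝ) / D) * ue D D' m| ≤ δ * ue D D' m := by
  have hD0 : (0 : ℝ) < D := by exact_mod_cast hD
  have hn0 : (0 : ℝ) < n := by exact_mod_cast hn
  have hm0 : 0 < m := by omega
  have e1 : TP.ge D D' m - Real.log ((n : ℝ) / D) * ue D D' m =
      ∑ p ∈ (Ioc D D').filter (fun p => p.Prime ∧ p ∣ m ∧ (m / p).Prime),
        (Real.log ((m / p : ℕ) : ℝ) - Real.log ((n : ℝ) / D)) := by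
    rw [Finset.sum_sub_distrib, Finset.sum_const, nsmul_eq_mul, mul_comm]
    rfl
  have e2 : δ * ue D D' m =
      ∑ p ∈ (Ioc D D').filter (fun p => p.Prime ∧ p ∣ m ∧ (m / p).Prime), δ := by
    rw [Finset.sum_const, nsmul_eq_mul, mul_comm]
    rfl
  rw [e1, e2]
  refine (Finset.abs_sum_le_sum_abs _ _).trans (Finset.sum_le_sum fun p hp => ?_)
  rw [Finset.mem_filter, Finset.mem_Ioc] at hp
  have hp0 : (0 : ℝ) < p := by exact_mod_cast hp.2.1.pos
  have hpD : (D : ℝ) ≤ p := by exact_mod_cast hp.1.1.le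
  have hpD' : (p : ℝ) ≤ D' := by exact_mod_cast hp.1.2
  have hm0' : (0 : ℝ) < m := by exact_mod_cast hm0
  rw [Nat.cast_div hp.2.2.1 hp0.ne', Real.log_div hm0'.ne' hp0.ne', Real.log_div hn0.ne' hD0.ne']
  have a1 := thu_log_sub hn0 (by exact_mod_cast hnm : (n : ℝ) ≤ m) h1
  have a2 := thu_log_sub hD0 hpD (by linarith : (p : ℝ) - D ≤ δ * D)
  rw [abs_le]
  constructor <;> linarith [a1.1, a1.2, a2.1, a2.2]

private theorem thu_lam (D D' n : ℕ) (δ : ℝ) (hD : 0 < D) (hn : 0 < n)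
    (h2 : (D' : ℝ) - D ≤ δ * D) (h3 : D ≤ D') (h1 : 1 ≤ Real.log ((n : ℝ) / D')) :
    |TP.kap D D' / Real.log ((n : ℝ) / D) - lam D D' n| ≤ δ * TP.kap D D' := by
  have hD0 : (0 : ℝ) < D := by exact_mod_cast hD
  have hD0' : (0 : ℝ) < D' := by exact_mod_cast (by omega : 0 < D')
  have hn0 : (0 : ℝ) < n := by exact_mod_cast hn
  rw [Real.log_div hn0.ne' hD0'.ne'] at h1
  rw [Real.log_div hn0.ne' hD0.ne']
  have hDD' : Real.log D ≤ Real.log D' := Real.log_le_log hD0 (by exact_mod_cast h3)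
  have e1 : TP.kap D D' / (Real.log n - Real.log D) - lam D D' n =
      ∑ p ∈ (Ioc D D').filter Nat.Prime,
        (1 / (p : ℝ) / (Real.log n - Real.log D) - 1 / ((p : ℝ) * Real.log ((n : ℝ) / p))) := by
    rw [Finset.sum_sub_distrib, ← Finset.sum_div]
    rfl
  have e2 : δ * TP.kap D D' = ∑ p ∈ (Ioc D D').filter Nat.Prime, δ * (1 / (p : ℝ)) := by
    rw [← Finset.mul_sum]
    rfl
  rw [e1, e2]
  refine (Finset.abs_sum_le_sum_abs _ _).trans (Finset.sum_le_sum fun p hp => ?_)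
  rw [Finset.mem_filter, Finset.mem_Ioc] at hp
  have hp0 : (0 : ℝ) < p := by exact_mod_cast hp.2.pos
  have hpD : (D : ℝ) ≤ p := by exact_mod_cast hp.1.1.le
  have hpD' : (p : ℝ) ≤ D' := by exact_mod_cast hp.1.2
  have a2 := thu_log_sub hD0 hpD (by linarith : (p : ℝ) - D ≤ δ * D)
  have hpl : Real.log p ≤ Real.log D' := Real.log_le_log hp0 hpD'
  rw [Real.log_div hn0.ne' hp0.ne']
  obtain ⟨L, hL⟩ : ∃ L : ℝ, L = Real.log n - Real.log D := ⟨_, rfl⟩
  obtain ⟨M, hM⟩ : ∃ M : ℝ, M = Real.log n - Real.log p := ⟨_, rfl⟩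
  have hL1 : 1 ≤ L := by rw [hL]; linarith
  have hM1 : 1 ≤ M := by rw [hM]; linarith
  have hLM : 0 ≤ L - M ∧ L - M ≤ δ := by
    rw [hL, hM]
    constructor <;> linarith [a2.1, a2.2]
  rw [← hL, ← hM]
  have e3 : 1 / (p : ℝ) / L - 1 / (p * M) = -((L - M) / (L * M) * (1 / (p : ℝ))) := by
    have : L ≠ 0 := by linarith
    have : M ≠ 0 := by linarith
    field_simp
    ring
  rw [e3, abs_neg, abs_of_nonneg (mul_nonneg (div_nonneg hLM.1 (by positivity)) (by positivity))]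
  refine mul_le_mul_of_nonneg_right ?_ (by positivity)
  refine (div_le_self hLM.1 ?_).trans hLM.2
  nlinarith

private theorem thu_piece {U S G L δ : ℝ} (hL : 1 ≤ L) (hU : |S - L * U| ≤ δ * U) :
    |U - G / L| ≤ |S - G| + δ * U := by
  have hL0 : 0 < L := by linarith
  have e : U - G / L = (-(S - L * U) + (S - G)) / L := by
    field_simp
    ring
  rw [e, abs_div, abs_of_pos hL0]
  refine (div_le_self (abs_nonneg _) hL).trans ?_
  refine (abs_add_le _ _).trans ?_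
  rw [abs_neg]
  linarith

private theorem thu_num {A K l J : ℝ} (hA : 0 < A) (hK : K = A + 4) (hl : 2 ≤ l)
    (hJ0 : 0 ≤ J) (hJ : J ≤ l ^ (K + 2)) :
    2 * J * (J * l ^ (-(2 * K + A + 6))) + 16 * (l ^ (-K) * l) ^ 2 ≤ l ^ (-A) := by
  have hl0 : 0 < l := by linarith
  have h1 : J * J ≤ l ^ (2 * K + 4) := by
    have : l ^ (2 * K + 4) = l ^ (K + 2) * l ^ (K + 2) := by
      rw [← Real.rpow_add hl0]
      congr 1
      ring
    rw [this]
    exact mul_le_mul hJ hJ hJ0 (by positivity)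
  have h2 : J * J * l ^ (-(2 * K + A + 6)) ≤ l ^ (-A) * (1 / 4) := by
    calc J * J * l ^ (-(2 * K + A + 6)) ≤ l ^ (2 * K + 4) * l ^ (-(2 * K + A + 6)) :=
          mul_le_mul_of_nonneg_right h1 (by positivity)
      _ = l ^ (-A) * l ^ (-2 : ℝ) := by
          rw [← Real.rpow_add hl0, ← Real.rpow_add hl0]
          congr 1
          ring
      _ ≤ l ^ (-A) * (1 / 4) := by
          refine mul_le_mul_of_nonneg_left ?_ (by positivity)
          rw [Real.rpow_neg hl0.le, Real.rpow_two, one_div]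
          refine inv_anti₀ (by norm_num) ?_
          nlinarith
  have h3 : (l ^ (-K) * l) ^ 2 ≤ l ^ (-A) * (1 / 64) := by
    have e : (l ^ (-K) * l) ^ 2 = l ^ (-A) * (l ^ (-A) * l ^ (-6 : ℝ)) := by
      have e1 : l ^ (-K) * l = l ^ (1 - K) := by
        rw [Real.rpow_sub hl0, Real.rpow_one, Real.rpow_neg hl0.le]
        field_simp
      rw [e1, sq, ← Real.rpow_add hl0, ← Real.rpow_add hl0, ← Real.rpow_add hl0, hK]
      congr 1
      ring
    rw [e]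
    refine mul_le_mul_of_nonneg_left ?_ (by positivity)
    have h4 : l ^ (-A) ≤ 1 := Real.rpow_le_one_of_one_le_of_nonpos (by linarith) (by linarith)
    have h5 : l ^ (-6 : ℝ) ≤ 1 / 64 := by
      rw [Real.rpow_neg hl0.le, one_div]
      refine inv_anti₀ (by norm_num) ?_
      have : l ^ (6 : ℝ) = l ^ 6 := by
        rw [← Real.rpow_natCast]
        norm_num
      rw [this]
      calc (64 : ℝ) = 2 ^ 6 := by norm_num
        _ ≤ l ^ 6 := pow_le_pow_left₀ (by norm_num) hl 6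
    calc l ^ (-A) * l ^ (-6 : ℝ) ≤ 1 * (1 / 64) := by
          apply mul_le_mul h4 h5 (by positivity) (by norm_num)
      _ = 1 / 64 := by norm_num
  have h6 : 0 < l ^ (-A) := by positivity
  calc 2 * J * (J * l ^ (-(2 * K + A + 6))) + 16 * (l ^ (-K) * l) ^ 2 =
      2 * (J * J * l ^ (-(2 * K + A + 6))) + 16 * (l ^ (-K) * l) ^ 2 := by ring
    _ ≤ 2 * (l ^ (-A) * (1 / 4)) + 16 * (l ^ (-A) * (1 / 64)) := by
        gcongr
    _ ≤ l ^ (-A) := by nlinarith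

private theorem thu_sq {J : ℕ} (e : ℕ → ℝ) {x y : ℝ}
    (h : |x| ≤ ∑ j ∈ range J, |e j| + y) :
    x ^ 2 ≤ 2 * J * ∑ j ∈ range J, e j ^ 2 + 2 * y ^ 2 := by
  have h1 : x ^ 2 ≤ (∑ j ∈ range J, |e j| + y) ^ 2 := by
    rw [← sq_abs x]
    exact pow_le_pow_left₀ (abs_nonneg x) h 2
  have h2 : (∑ j ∈ range J, |e j|) ^ 2 ≤ J * ∑ j ∈ range J, e j ^ 2 := by
    have h3 := sq_sum_le_card_mul_sum_sq (s := range J) (f := fun j => |e j|)
    simp only [sq_abs, Finset.card_range] at h3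
    exact h3
  nlinarith [sq_nonneg (∑ j ∈ range J, |e j| - y)]

theorem tu1 (hth0 : ThS) (B A : ℝ) (hB : 0 < B) (hA : 0 < A) :
    ∃ A2 C1 A1 X0 : ℝ, 0 < A2 ∧ 0 < C1 ∧ 0 < A1 ∧ 10 ≤ X0 ∧ ∀ X : ℝ, X0 ≤ X →
    ∀ q c : ℕ, 1 ≤ q → (q : ℝ) ≤ (Real.log X) ^ B → c < q → ∀ P P2 H : ℕ,
    (Real.log X) ^ A2 ≤ P → P ≤ P2 → (P2 : ℝ) ≤ X ^ ((1 : ℝ) / 13) →
    P2 * (Real.log X) ^ C1 ≤ H → (H : ℝ) ≤ X * (Real.log X) ^ (-A1) →
    ∑ n ∈ Ioc ⌊X⌋₊ ⌊2 * X⌋₊,
      (∑ m ∈ (Ioc n (n + H)).filter (fun m => m % q = c), ue P P2 m -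
        (if Nat.Coprime c q then lam P P2 n * H / q.totient else 0)) ^ 2 ≤
      X * (H : ℝ) ^ 2 * (Real.log X) ^ (-A) := by
  obtain ⟨K, hK⟩ : ∃ K : ℝ, K = A + 4 := ⟨_, rfl⟩
  obtain ⟨A2', C1, A1', X1, hA2', hC1, hA1', hX1, hth⟩ := hth0 B (2 * K + A + 6) hB (by linarith)
  obtain ⟨L0, hL0, hpie⟩ := pi1 K (by linarith)
  obtain ⟨X0, hX0, hasym⟩ := tu1_asym L0 X1
  refine ⟨max A2' (K + 1), C1, max A1' K, X0, lt_of_lt_of_le hA2' (le_max_left _ _), hC1,
    lt_of_lt_of_le hA1' (le_max_left _ _), hX0, ?_⟩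
  intro X hX q c hq hqB hcq P P2 H hP hPP2 hP2 hHC hHA
  obtain ⟨hXX1, hlL0, hl2⟩ := hasym X hX
  obtain ⟨l, hl⟩ : ∃ l : ℝ, l = Real.log X := ⟨_, rfl⟩
  rw [← hl] at hqB hP hHC hHA hlL0 hl2 ⊢
  have hl0 : 0 < l := by linarith
  have hl1 : 1 ≤ l := by linarith
  have hX10 : 10 ≤ X := hX0.trans hX
  have hXpos : 0 < X := by linarith
  have hPK : l ^ (K + 1) ≤ P := (Real.rpow_le_rpow_of_exponent_le hl1 (le_max_right _ _)).trans hP
  have hPA : l ^ A2' ≤ P := (Real.rpow_le_rpow_of_exponent_le hl1 (le_max_left _ _)).trans hP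
  have hP1 : (1 : ℝ) ≤ P := (Real.one_le_rpow hl1 (by linarith)).trans hPK
  have hlP2 : Real.log P2 ≤ l / 13 := by
    have h1 : (0 : ℝ) < P2 := by
      have : (P : ℝ) ≤ P2 := by exact_mod_cast hPP2
      linarith
    have h2 := Real.log_le_log h1 hP2
    rw [Real.log_rpow hXpos, ← hl] at h2
    linarith
  have hP2X : (P2 : ℝ) ≤ Real.exp l := by
    rw [hl, Real.exp_log hXpos]
    refine hP2.trans ?_
    calc X ^ ((1 : ℝ) / 13) ≤ X ^ (1 : ℝ) :=
          Real.rpow_le_rpow_of_exponent_le (by linarith) (by norm_num)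
      _ = X := Real.rpow_one X
  obtain ⟨J, D, hDm, hD0, hDJ, hJ, hDs⟩ := hpie l hlL0 P P2 hPK hPP2 hP2X
  obtain ⟨δ, hδ⟩ : ∃ δ : ℝ, δ = l ^ (-K) := ⟨_, rfl⟩
  have hδ0 : 0 < δ := by rw [hδ]; positivity
  have hHδ : (H : ℝ) ≤ δ * X := by
    refine hHA.trans ?_
    rw [mul_comm, hδ]
    refine mul_le_mul_of_nonneg_right ?_ hXpos.le
    exact Real.rpow_le_rpow_of_exponent_le hl1 (neg_le_neg (le_max_right _ _))
  have hHA' : (H : ℝ) ≤ X * l ^ (-A1') := by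
    refine hHA.trans (mul_le_mul_of_nonneg_left ?_ hXpos.le)
    exact Real.rpow_le_rpow_of_exponent_le hl1 (neg_le_neg (le_max_left _ _))
  have hDP : ∀ j, P ≤ D j := fun j => by
    rw [← hD0]
    exact hDm (Nat.zero_le j)
  have hDpos : ∀ j, 0 < D j := fun j => by
    have h1 : 0 < P := by
      have : (0 : ℝ) < P := by linarith
      exact_mod_cast this
    exact lt_of_lt_of_le h1 (hDP j)
  have hDP2 : ∀ j, j ≤ J → D j ≤ P2 := fun j hj => by
    rw [← hDJ]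
    exact hDm hj
  have hDs' : ∀ j, (D (j + 1) : ℝ) - D j ≤ δ * D j := by
    intro j
    have := hDs j
    rw [← hδ] at this
    linarith
  -- logarithms
  have hlog : ∀ n : ℕ, X ≤ n → ∀ j, j ≤ J → 1 ≤ Real.log ((n : ℝ) / D j) := by
    intro n hn j hj
    have h1 : (0 : ℝ) < D j := by exact_mod_cast hDpos j
    have hn0 : (0 : ℝ) < n := by linarith
    rw [Real.log_div hn0.ne' h1.ne']
    have h2 : l ≤ Real.log n := by
      rw [hl]
      exact Real.log_le_log hXpos hn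
    have h3 : Real.log (D j) ≤ l / 13 := by
      refine (Real.log_le_log h1 ?_).trans hlP2
      exact_mod_cast hDP2 j hj
    linarith
  have hkap : TP.kap P P2 ≤ 1 + l / 2 := by
    refine (kap_le P P2).trans ?_
    linarith
  obtain ⟨w, hw⟩ : ∃ w : ℝ, w = if Nat.Coprime c q then (H : ℝ) / q.totient else 0 := ⟨_, rfl⟩
  have hw0 : 0 ≤ w := by
    rw [hw]
    split_ifs
    · positivity
    · exact le_rfl
  have hwH : w ≤ H := by
    rw [hw]
    split_ifs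
    · refine div_le_self (Nat.cast_nonneg _) ?_
      exact_mod_cast Nat.totient_pos.2 (by omega : 0 < q)
    · exact Nat.cast_nonneg _
  have hwm : ∀ t : ℝ, (if Nat.Coprime c q then t * H / q.totient else 0) = t * w := by
    intro t
    rw [hw]
    split_ifs
    · rw [mul_div_assoc]
    · rw [mul_zero]
  obtain ⟨e, he⟩ : ∃ e : ℕ → ℕ → ℝ, e = fun n j =>
      ∑ m ∈ (Ioc n (n + H)).filter (fun m => m % q = c), TP.ge (D j) (D (j + 1)) m -
        (if Nat.Coprime c q then TP.kap (D j) (D (j + 1)) * H / q.totient else 0) := ⟨_, rfl⟩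
  have hE : ∀ j ∈ range J, ∑ n ∈ Ioc ⌊X⌋₊ ⌊2 * X⌋₊, e n j ^ 2 ≤
      X * (H : ℝ) ^ 2 * l ^ (-(2 * K + A + 6)) := by
    intro j hj
    rw [Finset.mem_range] at hj
    have h1 := hth X hXX1 q c hq (by rw [← hl]; exact hqB) hcq (D j) (D (j + 1)) H
      (by
        rw [← hl]
        exact hPA.trans (by exact_mod_cast hDP j))
      (hDm (Nat.le_succ j))
      (le_trans (by exact_mod_cast hDP2 (j + 1) hj) hP2)
      (by
        rw [← hl]
        refine le_trans (mul_le_mul_of_nonneg_right ?_ (by positivity)) hHC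
        exact_mod_cast hDP2 (j + 1) hj) (by rw [← hl]; exact hHA')
    rw [← hl] at h1
    rw [he]
    exact h1
  -- the estimate for every n
  have hpt : ∀ n ∈ Ioc ⌊X⌋₊ ⌊2 * X⌋₊,
      |∑ m ∈ (Ioc n (n + H)).filter (fun m => m % q = c), ue P P2 m - lam P P2 n * w| ≤
        ∑ j ∈ range J, |e n j| + 2 * (δ * l) * H := by
    intro n hn
    rw [Finset.mem_Ioc] at hn
    have hnX : X ≤ n := (Nat.lt_of_floor_lt hn.1).le
    have hn0' : (0 : ℝ) < n := by linarith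
    have hn0 : 0 < n := by exact_mod_cast hn0'
    obtain ⟨W, hW⟩ : ∃ W : Finset ℕ, W = (Ioc n (n + H)).filter (fun m => m % q = c) := ⟨_, rfl⟩
    have hWm : ∀ m ∈ W, n ≤ m ∧ (m : ℝ) - n ≤ δ * n := by
      intro m hm
      rw [hW, Finset.mem_filter, Finset.mem_Ioc] at hm
      refine ⟨hm.1.1.le, ?_⟩
      have h1 : (m : ℝ) ≤ n + H := by exact_mod_cast hm.1.2
      have h2 : δ * X ≤ δ * n := mul_le_mul_of_nonneg_left hnX hδ0.le
      linarith
    have hWc : (W.card : ℝ) ≤ H := by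
      have h1 : W.card ≤ H := by
        rw [hW]
        refine (Finset.card_filter_le _ _).trans ?_
        rw [Nat.card_Ioc]
        omega
      exact_mod_cast h1
    have hue0 : ∀ D D' m, 0 ≤ ue D D' m := fun D D' m => Nat.cast_nonneg _
    -- pieces
    have hpc : ∀ j ∈ range J, |∑ m ∈ W, ue (D j) (D (j + 1)) m -
        TP.kap (D j) (D (j + 1)) * w / Real.log ((n : ℝ) / D j)| ≤
        |e n j| + δ * ∑ m ∈ W, ue (D j) (D (j + 1)) m := by
      intro j hj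
      rw [Finset.mem_range] at hj
      have h1 : |∑ m ∈ W, TP.ge (D j) (D (j + 1)) m - Real.log ((n : ℝ) / D j) *
          ∑ m ∈ W, ue (D j) (D (j + 1)) m| ≤ δ * ∑ m ∈ W, ue (D j) (D (j + 1)) m := by
        rw [Finset.mul_sum, ← Finset.sum_sub_distrib, Finset.mul_sum]
        refine (Finset.abs_sum_le_sum_abs _ _).trans (Finset.sum_le_sum fun m hm => ?_)
        exact thu_ge (D j) (D (j + 1)) n m δ (hDpos j) hn0 (hWm m hm).1 (hWm m hm).2 (hDs' j)
      have h2 := thu_piece (G := TP.kap (D j) (D (j + 1)) * w) (hlog n hnX j hj.le) h1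
      have h3 : e n j = ∑ m ∈ W, TP.ge (D j) (D (j + 1)) m - TP.kap (D j) (D (j + 1)) * w := by
        rw [he, hW]
        dsimp only
        rw [hwm]
      rw [h3]
      exact h2
    have hsumU : ∑ m ∈ W, ue P P2 m = ∑ j ∈ range J, ∑ m ∈ W, ue (D j) (D (j + 1)) m := by
      rw [Finset.sum_comm]
      refine Finset.sum_congr rfl fun m _ => ?_
      rw [← thu_ue_split D hDm J m, hD0, hDJ]
    have hU2 : ∑ m ∈ W, ue P P2 m ≤ 2 * H := by
      calc ∑ m ∈ W, ue P P2 m ≤ ∑ m ∈ W, (2 : ℝ) := Finset.sum_le_sum fun m _ => ue_le P P2 m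
        _ = W.card * 2 := by rw [Finset.sum_const, nsmul_eq_mul]
        _ ≤ 2 * H := by linarith
    have hlamd : |∑ j ∈ range J, TP.kap (D j) (D (j + 1)) / Real.log ((n : ℝ) / D j) -
        lam P P2 n| ≤ δ * TP.kap P P2 := by
      have e1 : lam P P2 n = ∑ j ∈ range J, lam (D j) (D (j + 1)) n := by
        rw [← thu_lam_split D hDm J n, hD0, hDJ]
      have e2 : TP.kap P P2 = ∑ j ∈ range J, TP.kap (D j) (D (j + 1)) := by
        rw [← thu_kap_split D hDm J, hD0, hDJ]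
      rw [e1, e2, ← Finset.sum_sub_distrib, Finset.mul_sum]
      refine (Finset.abs_sum_le_sum_abs _ _).trans (Finset.sum_le_sum fun j hj => ?_)
      rw [Finset.mem_range] at hj
      exact thu_lam (D j) (D (j + 1)) n δ (hDpos j) hn0 (hDs' j) (hDm (Nat.le_succ j))
        (hlog n hnX (j + 1) hj)
    have e1 : ∑ m ∈ W, ue P P2 m - lam P P2 n * w =
        ∑ j ∈ range J, (∑ m ∈ W, ue (D j) (D (j + 1)) m -
          TP.kap (D j) (D (j + 1)) * w / Real.log ((n : ℝ) / D j)) +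
        (∑ j ∈ range J, TP.kap (D j) (D (j + 1)) / Real.log ((n : ℝ) / D j) - lam P P2 n) * w := by
      rw [Finset.sum_sub_distrib, ← hsumU, sub_mul, Finset.sum_mul]
      have : ∑ j ∈ range J, TP.kap (D j) (D (j + 1)) * w / Real.log ((n : ℝ) / D j) =
          ∑ j ∈ range J, TP.kap (D j) (D (j + 1)) / Real.log ((n : ℝ) / D j) * w :=
        Finset.sum_congr rfl fun j _ => by ring
      rw [this]
      ring
    rw [← hW, e1]
    refine (abs_add_le _ _).trans ?_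
    have h5 : |∑ j ∈ range J, (∑ m ∈ W, ue (D j) (D (j + 1)) m -
        TP.kap (D j) (D (j + 1)) * w / Real.log ((n : ℝ) / D j))| ≤
        ∑ j ∈ range J, |e n j| + δ * (2 * H) := by
      refine (Finset.abs_sum_le_sum_abs _ _).trans ?_
      refine (Finset.sum_le_sum hpc).trans ?_
      rw [Finset.sum_add_distrib, ← Finset.mul_sum, ← hsumU]
      linarith [mul_le_mul_of_nonneg_left hU2 hδ0.le]
    have h6 : |(∑ j ∈ range J, TP.kap (D j) (D (j + 1)) / Real.log ((n : ℝ) / D j) -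
        lam P P2 n) * w| ≤ δ * (1 + l / 2) * H := by
      rw [abs_mul, abs_of_nonneg hw0]
      refine mul_le_mul (hlamd.trans (mul_le_mul_of_nonneg_left hkap hδ0.le)) hwH hw0 (by positivity)
    have h7 : δ * (2 * H) + δ * (1 + l / 2) * H ≤ 2 * (δ * l) * H := by
      have h8 : 0 ≤ δ * H := by positivity
      nlinarith
    linarith
  -- sum over n
  have hcard : (((Ioc ⌊X⌋₊ ⌊2 * X⌋₊).card : ℕ) : ℝ) ≤ 2 * X := by
    rw [Nat.card_Ioc]
    have h1 : ⌊X⌋₊ ≤ ⌊2 * X⌋₊ := Nat.floor_mono (by linarith)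
    rw [Nat.cast_sub h1]
    have h2 := Nat.floor_le (by linarith : 0 ≤ 2 * X)
    have h3 : (0 : ℝ) ≤ (⌊X⌋₊ : ℝ) := Nat.cast_nonneg _
    linarith
  calc ∑ n ∈ Ioc ⌊X⌋₊ ⌊2 * X⌋₊,
      (∑ m ∈ (Ioc n (n + H)).filter (fun m => m % q = c), ue P P2 m -
        (if Nat.Coprime c q then lam P P2 n * H / q.totient else 0)) ^ 2
      ≤ ∑ n ∈ Ioc ⌊X⌋₊ ⌊2 * X⌋₊,
        (2 * J * ∑ j ∈ range J, e n j ^ 2 + 2 * (2 * (δ * l) * H) ^ 2) := by
        refine Finset.sum_le_sum fun n hn => ?_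
        rw [hwm]
        exact thu_sq (e n) (hpt n hn)
    _ = 2 * J * ∑ j ∈ range J, ∑ n ∈ Ioc ⌊X⌋₊ ⌊2 * X⌋₊, e n j ^ 2 +
        ((Ioc ⌊X⌋₊ ⌊2 * X⌋₊).card : ℝ) * (2 * (2 * (δ * l) * H) ^ 2) := by
        rw [Finset.sum_add_distrib, ← Finset.mul_sum, Finset.sum_comm, Finset.sum_const,
          nsmul_eq_mul]
    _ ≤ 2 * J * (J * (X * (H : ℝ) ^ 2 * l ^ (-(2 * K + A + 6)))) +
        2 * X * (2 * (2 * (δ * l) * H) ^ 2) := by
        refine add_le_add ?_ (mul_le_mul_of_nonneg_right hcard (by positivity))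
        refine mul_le_mul_of_nonneg_left ?_ (by positivity)
        refine (Finset.sum_le_sum hE).trans ?_
        rw [Finset.sum_const, nsmul_eq_mul, Finset.card_range]
    _ = X * (H : ℝ) ^ 2 * (2 * J * (J * l ^ (-(2 * K + A + 6))) + 16 * (l ^ (-K) * l) ^ 2) := by
        rw [hδ]
        ring
    _ ≤ X * (H : ℝ) ^ 2 * l ^ (-A) :=
        mul_le_mul_of_nonneg_left (thu_num hA hK hl2 (Nat.cast_nonneg J) hJ) (by positivity)

end Pool.Agent.H43.PG
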