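import Pool.Agent.H43.TP.Mert
import Pool.Agent.H5.PNT.PNT

/-!
# [H43 PG KP1] Mertens sum of a dyadic interval

PROOF. There are at least `c P/log P` primes in `(P,2P]` for `P >= 2` (Chebyshev or the prime number theorem; find the best source: Mathlib `Chebyshev`, `Nat.Prime` Bertrand files, or `Pool/Agent` with grep,
e.g. `theta`/`psi` bounds used in `TP/Mert.lean`; for small `P` Bertrand gives at least one), each contributes `1/p >= 1/(2P)`. `P2 >= 2P`: the sum over `(P,P2]` is at least the sum over `(P,2P]`.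
-/

namespace Pool.Agent.H43.PG

open Finset

theorem kp_theta_diff (P : ℕ) : Chebyshev.theta ((2 * P : ℕ) : ℝ) - Chebyshev.theta (P : ℝ) =
    ∑ p ∈ (Ioc P (2 * P)).filter Nat.Prime, Real.log p := by
  have h1 : ∀ n : ℕ, Chebyshev.theta (n : ℝ) = ∑ p ∈ (Ioc 0 n).filter Nat.Prime, Real.log p := by
    intro n
    unfold Chebyshev.theta
    rw [Nat.floor_natCast]
  have h2 : (Ioc 0 (2 * P)).filter Nat.Prime =
      (Ioc 0 P).filter Nat.Prime ∪ (Ioc P (2 * P)).filter Nat.Prime := by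
    rw [← filter_union]
    congr 1
    ext x
    rw [mem_union, mem_Ioc, mem_Ioc, mem_Ioc]
    omega
  have h3 : Disjoint ((Ioc 0 P).filter Nat.Prime) ((Ioc P (2 * P)).filter Nat.Prime) := by
    rw [disjoint_left]
    intro x hx hx'
    rw [mem_filter, mem_Ioc] at hx hx'
    omega
  rw [h1, h1, h2, sum_union h3]
  ring

theorem kp1 : ∃ c : ℝ, 0 < c ∧ ∀ P P2 : ℕ, 2 ≤ P → 2 * P ≤ P2 → c / Real.log P ≤ TP.kap P P2 := by
  obtain ⟨N, hN⟩ : ∃ N : ℕ, ∀ P : ℕ, N ≤ P →
      (P : ℝ) / 2 ≤ Chebyshev.theta ((2 * P : ℕ) : ℝ) - Chebyshev.theta (P : ℝ) := by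
    have h1 := Pool.Agent.H5.PNT.theta_tendsto
    have h2 := (Metric.tendsto_atTop.1 h1) (1 / 6) (by norm_num)
    obtain ⟨x0, hx0⟩ := h2
    refine ⟨⌈max x0 1⌉₊, fun P hP => ?_⟩
    have hP1 : max x0 1 ≤ (P : ℝ) := (Nat.le_ceil _).trans (by exact_mod_cast hP)
    have hPx : x0 ≤ (P : ℝ) := (le_max_left _ _).trans hP1
    have hP1' : (1 : ℝ) ≤ P := (le_max_right _ _).trans hP1
    have h3 := hx0 P hPx
    have h4 := hx0 ((2 * P : ℕ) : ℝ) (by push_cast; linarith)
    rw [Real.dist_eq, abs_lt] at h3 h4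
    have h5 : Chebyshev.theta (P : ℝ) ≤ 7 / 6 * P := by
      have h6 : Chebyshev.theta (P : ℝ) / P < 7 / 6 := by linarith [h3.2]
      rw [div_lt_iff₀ (by linarith)] at h6
      exact h6.le
    have h7 : 5 / 6 * (2 * (P : ℝ)) ≤ Chebyshev.theta ((2 * P : ℕ) : ℝ) := by
      have h8 : 5 / 6 < Chebyshev.theta ((2 * P : ℕ) : ℝ) / ((2 * P : ℕ) : ℝ) := by linarith [h4.1]
      rw [lt_div_iff₀ (by push_cast; linarith)] at h8
      push_cast at h8 ⊢
      linarith
    linarith
  have hl2 : 0 < Real.log 2 := Real.log_pos (by norm_num)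
  refine ⟨min (1 / 8) (Real.log 2 / (2 * (N + 1))), by positivity, fun P P2 hP hP2 => ?_⟩
  have hPR : (2 : ℝ) ≤ P := by exact_mod_cast hP
  have hlP : Real.log 2 ≤ Real.log P := Real.log_le_log (by norm_num) hPR
  have hlP0 : 0 < Real.log P := by linarith
  have hsub : (Ioc P (2 * P)).filter Nat.Prime ⊆ (Ioc P P2).filter Nat.Prime :=
    filter_subset_filter _ (Ioc_subset_Ioc_right hP2)
  have hle : ∑ p ∈ (Ioc P (2 * P)).filter Nat.Prime, 1 / (p : ℝ) ≤ TP.kap P P2 := by
    unfold TP.kap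
    exact sum_le_sum_of_subset_of_nonneg hsub (fun p _ _ => by positivity)
  refine le_trans ?_ hle
  by_cases hPN : N ≤ P
  · have h1 := hN P hPN
    rw [kp_theta_diff] at h1
    have h2 : ∑ p ∈ (Ioc P (2 * P)).filter Nat.Prime, Real.log p ≤
        ∑ p ∈ (Ioc P (2 * P)).filter Nat.Prime, (1 / (p : ℝ)) * (4 * P * Real.log P) := by
      refine sum_le_sum fun p hp => ?_
      rw [mem_filter, mem_Ioc] at hp
      have hp0 : (0 : ℝ) < p := by exact_mod_cast hp.2.pos
      have hp2 : (p : ℝ) ≤ 2 * P := by exact_mod_cast hp.1.2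
      have h3 : Real.log p ≤ 2 * Real.log P := by
        have h4 : Real.log p ≤ Real.log (2 * P) := Real.log_le_log hp0 hp2
        rw [Real.log_mul (by norm_num) (by linarith)] at h4
        linarith
      rw [one_div, inv_mul_eq_div, le_div_iff₀ hp0]
      calc Real.log p * p ≤ (2 * Real.log P) * (2 * P) :=
            mul_le_mul h3 hp2 hp0.le (by linarith)
        _ = 4 * P * Real.log P := by ring
    rw [← sum_mul] at h2
    have h3 : (1 : ℝ) / 8 / Real.log P ≤ ∑ p ∈ (Ioc P (2 * P)).filter Nat.Prime, 1 / (p : ℝ) := by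
      rw [div_le_iff₀ hlP0]
      have h4 := h1.trans h2
      have hP0 : (0 : ℝ) < P := by linarith
      have h5 : (P : ℝ) * (1 / 2) ≤ P * ((∑ p ∈ (Ioc P (2 * P)).filter Nat.Prime, 1 / (p : ℝ)) *
          (4 * Real.log P)) := by
        calc (P : ℝ) * (1 / 2) = P / 2 := by ring
          _ ≤ _ := h4
          _ = _ := by ring
      have h6 := le_of_mul_le_mul_left h5 hP0
      linarith
    refine le_trans ?_ h3
    exact div_le_div_of_nonneg_right (min_le_left _ _) hlP0.le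
  · rw [not_le] at hPN
    obtain ⟨p, hp, hp1, hp2⟩ := Nat.exists_prime_lt_and_le_two_mul P (by omega)
    have hmem : p ∈ (Ioc P (2 * P)).filter Nat.Prime := by
      rw [mem_filter, mem_Ioc]
      exact ⟨⟨hp1, hp2⟩, hp⟩
    have h1 : 1 / (p : ℝ) ≤ ∑ p ∈ (Ioc P (2 * P)).filter Nat.Prime, 1 / (p : ℝ) :=
      single_le_sum (f := fun p : ℕ => 1 / (p : ℝ)) (fun q _ => by positivity) hmem
    refine le_trans ?_ h1
    have hp0 : (0 : ℝ) < p := by exact_mod_cast hp.pos
    have hpN : (p : ℝ) ≤ 2 * (N + 1) := by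
      have h2 : (p : ℝ) ≤ 2 * P := by exact_mod_cast hp2
      have h3 : (P : ℝ) ≤ N := by exact_mod_cast hPN.le
      linarith
    have h2 : min (1 / 8) (Real.log 2 / (2 * (N + 1))) / Real.log P ≤
        Real.log 2 / (2 * (N + 1)) / Real.log 2 := by
      refine div_le_div₀ (by positivity) (min_le_right _ _) hl2 hlP
    refine h2.trans ?_
    rw [div_div, mul_comm (2 * ((N : ℝ) + 1)) (Real.log 2), ← div_div, div_self hl2.ne']
    exact one_div_le_one_div_of_le hp0 hpN

end Pool.Agent.H43.PG
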