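import Pool.Agent.H43.TP.Mom

/-!
# [H43 PG BST] The set where the polynomial of the primes is large has small measure, `D <= X`

PROOF. Copy `TP/Bset.lean` (179 lines); the only change is the hypothesis `D <= X` in place of `D <= X^(ε/8)`, and `α = ε/16`.
`ℓ = log X`, `α = ε/16`, `A2 = 8/ε`, `L = ⌈log X / log D⌉₊`, so `X <= D^L <= X D <= X^2`. By Chebyshev and `mom` (`T = X`):
`vol * D^(-2αL) <= C (X + (2D)^L) L!/D^L <= 2C 2^L L!`. So `vol <= 2C (2L)^L D^(2αL) <= 2C (2L)^L (X D)^(2α)`, and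
`(XD)^(2α) <= X^(4α) = X^(ε/4)`. `log D >= A2 log ℓ`, so `L <= ℓ/(A2 log ℓ) + 1 <= ℓ/2` for `X` large, `(2L)^L <= ℓ^L = exp(L log ℓ)
<= exp(ℓ/A2 + log ℓ) = X^(ε/8) ℓ`. Total `<= 2C ℓ X^(ε/4+ε/8) <= X^ε` for `X` large.
-/

namespace Pool.Agent.H43.PG

open Finset Pool.Agent.H43.TP

private theorem pp_cont {q : ℕ} (χ : DirichletCharacter ℂ q) (D D' : ℕ) :
    Continuous (fun t : ℝ => pp χ D D' t) := by
  unfold pp
  refine continuous_finset_sum _ fun p hp => ?_
  have hp0 : (p : ℂ) ≠ 0 := by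
    have := ((mem_filter.1 hp).2).ne_zero
    exact_mod_cast this
  refine continuous_const.mul ?_
  exact Continuous.const_cpow (by fun_prop) (Or.inl hp0)

/-- Chebyshev -/
private theorem cheb {q : ℕ} (χ : DirichletCharacter ℂ q) (D D' L : ℕ) (X β B : ℝ) (hX : 0 ≤ X)
    (hβ : 0 < β) (hB : ∫ t in (-X)..X, ‖pp χ D D' t‖ ^ (2 * L) ≤ B) :
    MeasureTheory.volume {t : ℝ | |t| ≤ X ∧ β < ‖pp χ D D' t‖} ≤
      ENNReal.ofReal (B / β ^ (2 * L)) := by
  have hc : Continuous (fun t : ℝ => ‖pp χ D D' t‖ ^ (2 * L)) := (pp_cont χ D D').norm.pow _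
  set μ := MeasureTheory.volume.restrict (Set.Icc (-X) X) with hμ
  have hint : MeasureTheory.Integrable (fun t : ℝ => ‖pp χ D D' t‖ ^ (2 * L)) μ :=
    (hc.continuousOn.integrableOn_Icc)
  have h1 := MeasureTheory.mul_meas_ge_le_integral_of_nonneg
    (Filter.Eventually.of_forall fun t => by positivity) hint (β ^ (2 * L))
  have h2 : ∫ t in (-X)..X, ‖pp χ D D' t‖ ^ (2 * L) = ∫ t, ‖pp χ D D' t‖ ^ (2 * L) ∂μ := by
    rw [intervalIntegral.integral_of_le (by linarith), hμ,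
      MeasureTheory.integral_Icc_eq_integral_Ioc]
  rw [← h2] at h1
  have hb : 0 < β ^ (2 * L) := pow_pos hβ _
  have h3 : μ.real {t : ℝ | β ^ (2 * L) ≤ ‖pp χ D D' t‖ ^ (2 * L)} ≤ B / β ^ (2 * L) := by
    rw [le_div_iff₀ hb, mul_comm]
    exact h1.trans hB
  have hmeas : MeasurableSet (Set.Icc (-X) X) := measurableSet_Icc
  have h4 : MeasureTheory.volume {t : ℝ | |t| ≤ X ∧ β < ‖pp χ D D' t‖} ≤
      μ {t : ℝ | β ^ (2 * L) ≤ ‖pp χ D D' t‖ ^ (2 * L)} := by
    rw [hμ, MeasureTheory.Measure.restrict_apply' hmeas]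
    refine MeasureTheory.measure_mono fun t ht => ?_
    obtain ⟨h5, h6⟩ := ht
    exact ⟨pow_le_pow_left₀ hβ.le h6.le _, abs_le.1 h5⟩
  refine h4.trans ?_
  have hfin : μ {t : ℝ | β ^ (2 * L) ≤ ‖pp χ D D' t‖ ^ (2 * L)} ≠ ⊤ := by
    refine ne_top_of_le_ne_top ?_ (MeasureTheory.measure_mono (Set.subset_univ _))
    rw [hμ, MeasureTheory.Measure.restrict_apply_univ, Real.volume_Icc]
    exact ENNReal.ofReal_ne_top
  rw [← ENNReal.ofReal_toReal hfin]
  exact ENNReal.ofReal_le_ofReal h3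

theorem bst (ε : ℝ) (hε : 0 < ε) (hε1 : ε ≤ 1) : ∃ α A2 X0 : ℝ, 0 < α ∧ 0 < A2 ∧ 10 ≤ X0 ∧
    ∀ X : ℝ, X0 ≤ X → ∀ (q : ℕ) (χ : DirichletCharacter ℂ q) (D D' : ℕ),
    (Real.log X) ^ A2 ≤ D → (D : ℝ) ≤ X → D' ≤ 2 * D →
    MeasureTheory.volume {t : ℝ | |t| ≤ X ∧ (D : ℝ) ^ (-α) < ‖pp χ D D' t‖} ≤
      ENNReal.ofReal (X ^ ε) := by
  obtain ⟨C, hC, hm⟩ := mom
  have hlo := (isLittleO_log_rpow_atTop (show (0 : ℝ) < ε / 2 by linarith)).bound
    (show (0 : ℝ) < 1 / (2 * C) by positivity)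
  obtain ⟨X1, hX1⟩ := Filter.eventually_atTop.1 hlo
  refine ⟨ε / 16, 8 / ε, max X1 (max 10 (Real.exp (Real.exp 2))), by positivity, by positivity,
    (le_max_left _ _).trans (le_max_right _ _), ?_⟩
  intro X hX q χ D D' hDl hDu hD'
  have hXX1 : X1 ≤ X := (le_max_left _ _).trans hX
  have hX10 : (10 : ℝ) ≤ X := ((le_max_left _ _).trans (le_max_right _ _)).trans hX
  have hXe : Real.exp (Real.exp 2) ≤ X := ((le_max_right _ _).trans (le_max_right _ _)).trans hX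
  have hX0 : (0 : ℝ) < X := by linarith
  set w := Real.log X with hw
  have hw1 : Real.exp 2 ≤ w := (Real.le_log_iff_exp_le hX0).2 hXe
  have hw2 : (3 : ℝ) ≤ w := by
    have := Real.add_one_le_exp (2 : ℝ)
    linarith
  have hw0 : (0 : ℝ) < w := by linarith
  have hlw : (2 : ℝ) ≤ Real.log w := (Real.le_log_iff_exp_le hw0).2 hw1
  have hA : (8 : ℝ) ≤ 8 / ε := by
    rw [le_div_iff₀ hε]
    linarith
  have hDpos : (0 : ℝ) < D := lt_of_lt_of_le (by positivity) hDl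
  have hlD1 : 8 / ε * Real.log w ≤ Real.log D := by
    rw [← Real.log_rpow hw0]
    exact Real.log_le_log (by positivity) hDl
  have hlD2 : Real.log D ≤ w := by
    rw [hw]
    exact Real.log_le_log hDpos hDu
  have hlD0 : 16 ≤ Real.log D := by nlinarith
  have hD1 : 1 ≤ D := by exact_mod_cast hDpos
  set L := ⌈w / Real.log D⌉₊ with hL
  have hlDp : 0 < Real.log D := by linarith
  have hL1 : w ≤ L * Real.log D := by
    have := Nat.le_ceil (w / Real.log D)
    rwa [div_le_iff₀ hlDp] at this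
  have hL2 : (L : ℝ) * Real.log D ≤ w + Real.log D := by
    have h1 := (Nat.ceil_lt_add_one (show 0 ≤ w / Real.log D by positivity)).le
    have h2 := mul_le_mul_of_nonneg_right h1 hlDp.le
    rw [add_mul, div_mul_cancel₀ _ hlDp.ne', one_mul] at h2
    exact h2
  have hL3 : (L : ℝ) * Real.log w ≤ ε / 8 * w + Real.log w := by
    have h1 := (Nat.ceil_lt_add_one (show 0 ≤ w / Real.log D by positivity)).le
    have h3 : w / Real.log D * Real.log w ≤ ε / 8 * w := by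
      rw [div_mul_eq_mul_div, div_le_iff₀ hlDp]
      have h4 : Real.log w ≤ ε / 8 * Real.log D := by
        have h5 : ε / 8 * (8 / ε * Real.log w) = Real.log w := by field_simp
        nlinarith
      nlinarith
    have h2 := mul_le_mul_of_nonneg_right h1 (show 0 ≤ Real.log w by linarith)
    rw [add_mul, one_mul] at h2
    linarith
  have hL4 : 2 * (L : ℝ) ≤ w := by
    have h1 := (Nat.ceil_lt_add_one (show 0 ≤ w / Real.log D by positivity)).le
    have h2 : w / Real.log D ≤ w / 16 := div_le_div_of_nonneg_left hw0.le (by norm_num) hlD0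
    have h3 : (L : ℝ) ≤ w / 16 + 1 := by linarith
    linarith
  have hDL : X ≤ (D : ℝ) ^ L := by
    rw [← Real.exp_log hX0, ← Real.rpow_natCast, Real.rpow_def_of_pos hDpos]
    refine Real.exp_le_exp.2 ?_
    rw [mul_comm]
    exact hL1
  have hDL0 : (0 : ℝ) < (D : ℝ) ^ L := by positivity
  have h1 := hm q χ D D' L X hD1 hD' (by linarith)
  have h2 : C * (X + (2 * (D : ℝ)) ^ L) * (L.factorial : ℝ) / (D : ℝ) ^ L ≤
      2 * C * (w ^ L) := by
    rw [div_le_iff₀ hDL0]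
    have h3 : (L.factorial : ℝ) ≤ (L : ℝ) ^ L := by exact_mod_cast Nat.factorial_le_pow L
    have h4 : X + (2 * (D : ℝ)) ^ L ≤ 2 * 2 ^ L * (D : ℝ) ^ L := by
      rw [mul_pow]
      have h5 : (1 : ℝ) ≤ 2 ^ L := one_le_pow₀ (by norm_num)
      nlinarith
    calc C * (X + (2 * (D : ℝ)) ^ L) * (L.factorial : ℝ)
        ≤ C * (2 * 2 ^ L * (D : ℝ) ^ L) * (L : ℝ) ^ L := by gcongr
      _ = 2 * C * (2 * (L : ℝ)) ^ L * (D : ℝ) ^ L := by rw [mul_pow]; ring
      _ ≤ 2 * C * w ^ L * (D : ℝ) ^ L := by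
          gcongr
  have h5 := cheb χ D D' L X ((D : ℝ) ^ (-(ε / 16))) _ hX0.le (by positivity) (h1.trans h2)
  refine h5.trans (ENNReal.ofReal_le_ofReal ?_)
  have h6 : ((D : ℝ) ^ (-(ε / 16))) ^ (2 * L) = Real.exp (-(ε / 8 * (L * Real.log D))) := by
    rw [← Real.rpow_natCast, ← Real.rpow_mul hDpos.le, Real.rpow_def_of_pos hDpos]
    congr 1
    push_cast
    ring
  have h7 : w ^ L ≤ Real.exp (ε / 8 * w) * w := by
    rw [← Real.rpow_natCast, Real.rpow_def_of_pos hw0]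
    calc Real.exp (Real.log w * L) ≤ Real.exp (ε / 8 * w + Real.log w) := by
          refine Real.exp_le_exp.2 ?_
          rw [mul_comm]
          exact hL3
      _ = _ := by rw [Real.exp_add, Real.exp_log hw0]
  rw [h6, div_eq_mul_inv, ← Real.exp_neg, neg_neg]
  have h8 : ε / 8 * (L * Real.log D) ≤ 3 / 8 * ε * w := by
    have h9 : (L : ℝ) * Real.log D ≤ 2 * w := by linarith
    nlinarith [mul_le_mul_of_nonneg_left h9 hε.le, mul_pos hε hw0]
  have h10 : 2 * C * w ≤ Real.exp (ε / 2 * w) := by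
    have h11 := hX1 X hXX1
    rw [Real.norm_of_nonneg (by rw [← hw]; exact hw0.le), Real.norm_of_nonneg (by positivity),
      ← hw, Real.rpow_def_of_pos hX0, ← hw, one_div, ← div_eq_inv_mul,
      le_div_iff₀ (by positivity)] at h11
    calc 2 * C * w = w * (2 * C) := by ring
      _ ≤ Real.exp (w * (ε / 2)) := h11
      _ = _ := by rw [mul_comm w]
  calc 2 * C * w ^ L * Real.exp (ε / 8 * (L * Real.log D))
      ≤ 2 * C * (Real.exp (ε / 8 * w) * w) * Real.exp (3 / 8 * ε * w) := by gcongr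
    _ = (2 * C * w) * Real.exp (ε / 2 * w) := by
        rw [show ε / 2 * w = ε / 8 * w + 3 / 8 * ε * w by ring, Real.exp_add]
        ring
    _ ≤ Real.exp (ε / 2 * w) * Real.exp (ε / 2 * w) := by gcongr
    _ = X ^ ε := by
        rw [← Real.exp_add, Real.rpow_def_of_pos hX0, ← hw]
        congr 1
        ring

end Pool.Agent.H43.PG
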