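import Mathlib

/-!
# (E), Abel summation and counting (H43/PG)
-/

namespace Pool.Agent.H43.PG

open Finset

private theorem eab_id (h v : ℕ → ℝ) (n : ℕ) :
    ∑ k ∈ Icc 1 (n + 1), h k * v k = (∑ k ∈ Icc 1 (n + 1), h k) * v (n + 1) +
      ∑ k ∈ Icc 1 n, (∑ j ∈ Icc 1 k, h j) * (v k - v (k + 1)) := by
  induction n with
  | zero => simp
  | succ n ih =>
    rw [Finset.sum_Icc_succ_top (by omega : 1 ≤ n + 1 + 1), ih,
      Finset.sum_Icc_succ_top (by omega : 1 ≤ n + 1) (fun k => (∑ j ∈ Icc 1 k, h j) * (v k - v (k + 1))),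
      Finset.sum_Icc_succ_top (by omega : 1 ≤ n + 1 + 1) (fun k => h k)]
    ring

/-- a sum with bounded partial sums against an antitone weight -/
theorem eab (h v : ℕ → ℝ) (B : ℝ) (X : ℕ) (hB : ∀ Y : ℕ, Y ≤ X → |∑ k ∈ Icc 1 Y, h k| ≤ B)
    (hv : ∀ k : ℕ, 1 ≤ k → k + 1 ≤ X → v (k + 1) ≤ v k) (h0 : ∀ k : ℕ, 1 ≤ k → k ≤ X → 0 ≤ v k)
    (h1 : ∀ k : ℕ, 1 ≤ k → k ≤ X → v k ≤ 1) : |∑ k ∈ Icc 1 X, h k * v k| ≤ B := by
  have hB0 : 0 ≤ B := le_trans (abs_nonneg _) (hB 0 (Nat.zero_le _))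
  rcases X with _ | n
  · simpa using hB0
  rw [eab_id]
  have e1 : |(∑ k ∈ Icc 1 (n + 1), h k) * v (n + 1)| ≤ B * v (n + 1) := by
    rw [abs_mul, abs_of_nonneg (h0 (n + 1) (by omega) le_rfl)]
    exact mul_le_mul_of_nonneg_right (hB _ le_rfl) (h0 (n + 1) (by omega) le_rfl)
  have e2 : |∑ k ∈ Icc 1 n, (∑ j ∈ Icc 1 k, h j) * (v k - v (k + 1))| ≤
      ∑ k ∈ Icc 1 n, B * (v k - v (k + 1)) := by
    refine le_trans (Finset.abs_sum_le_sum_abs _ _) (Finset.sum_le_sum fun k hk => ?_)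
    rw [Finset.mem_Icc] at hk
    have h3 : 0 ≤ v k - v (k + 1) := by
      have := hv k hk.1 (by omega)
      linarith
    rw [abs_mul, abs_of_nonneg h3]
    exact mul_le_mul_of_nonneg_right (hB _ (by omega)) h3
  have e3 : ∀ n : ℕ, ∑ k ∈ Icc 1 n, B * (v k - v (k + 1)) = B * (v 1 - v (n + 1)) := by
    intro n
    induction n with
    | zero => simp
    | succ n ih => rw [Finset.sum_Icc_succ_top (by omega : 1 ≤ n + 1), ih]; ring
  rw [e3] at e2
  have e4 := h1 1 le_rfl (by omega)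
  calc _ ≤ B * v (n + 1) + B * (v 1 - v (n + 1)) := le_trans (abs_add_le _ _) (add_le_add e1 e2)
    _ = B * v 1 := by ring
    _ ≤ B * 1 := mul_le_mul_of_nonneg_left e4 hB0
    _ = B := mul_one _

/-- numbers of an arithmetic progression -/
theorem ecn1 (q a Y : ℕ) (hq : 1 ≤ q) :
    |(((Icc 1 Y).filter (fun k => q ∣ a + k)).card : ℝ) - (Y : ℝ) / q| ≤ 1 := by
  have hE : ((Icc 1 Y).filter (fun k => q ∣ a + k)).card = (a + Y) / q - a / q := by
    have h1 : ((Icc 1 Y).filter (fun k => q ∣ a + k)).card = ((Ioc a (a + Y)).filter (fun n => q ∣ n)).card := by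
      refine Finset.card_bij (fun k _ => a + k) ?_ ?_ ?_
      · intro k hk
        simp only [Finset.mem_filter, Finset.mem_Icc, Finset.mem_Ioc] at hk ⊢
        exact ⟨by omega, hk.2⟩
      · intro k _ k' _ h
        simpa using h
      · intro n hn
        simp only [Finset.mem_filter, Finset.mem_Ioc] at hn
        refine ⟨n - a, ?_, by omega⟩
        simp only [Finset.mem_filter, Finset.mem_Icc]
        exact ⟨by omega, by rw [show a + (n - a) = n by omega]; exact hn.2⟩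
    rw [h1]
    have h2 : ((Ioc 0 (a + Y)).filter (fun n => q ∣ n)).card = ((Ioc 0 a).filter (fun n => q ∣ n)).card +
        ((Ioc a (a + Y)).filter (fun n => q ∣ n)).card := by
      rw [← Finset.card_union_of_disjoint]
      · rw [← Finset.filter_union, Finset.Ioc_union_Ioc_eq_Ioc (Nat.zero_le _) (by omega)]
      · rw [Finset.disjoint_left]
        intro n hn hn'
        simp only [Finset.mem_filter, Finset.mem_Ioc] at hn hn'
        omega
    rw [Nat.Ioc_filter_dvd_card_eq_div, Nat.Ioc_filter_dvd_card_eq_div] at h2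
    omega
  rw [hE]
  have hq' : (0 : ℝ) < q := by exact_mod_cast hq
  have hle : a / q ≤ (a + Y) / q := Nat.div_le_div_right (by omega)
  rw [Nat.cast_sub hle]
  have b1 := Nat.div_add_mod (a + Y) q
  have b2 := Nat.div_add_mod a q
  have b3 := Nat.mod_lt (a + Y) (by omega : 0 < q)
  have b4 := Nat.mod_lt a (by omega : 0 < q)
  have c1 : (q : ℝ) * (((a + Y) / q : ℕ) : ℝ) + (((a + Y) % q : ℕ) : ℝ) = a + Y := by exact_mod_cast b1
  have c2 : (q : ℝ) * ((a / q : ℕ) : ℝ) + ((a % q : ℕ) : ℝ) = a := by exact_mod_cast b2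
  have c3 : (((a + Y) % q : ℕ) : ℝ) < q := by exact_mod_cast b3
  have c4 : ((a % q : ℕ) : ℝ) < q := by exact_mod_cast b4
  have c5 : (0 : ℝ) ≤ (((a + Y) % q : ℕ) : ℝ) := Nat.cast_nonneg _
  have c6 : (0 : ℝ) ≤ ((a % q : ℕ) : ℝ) := Nat.cast_nonneg _
  have key : (((a + Y) / q : ℕ) : ℝ) - ((a / q : ℕ) : ℝ) - (Y : ℝ) / q =
      (((a % q : ℕ) : ℝ) - (((a + Y) % q : ℕ) : ℝ)) / q := by
    field_simp
    linarith
  rw [key, abs_div, abs_of_pos hq', div_le_one hq', abs_le]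
  constructor <;> linarith

/-- two coprime progressions -/
theorem ecn2 (q r a b Y : ℕ) (hq : 1 ≤ q) (hr : 1 ≤ r) (hqr : Nat.Coprime q r) :
    |(((Icc 1 Y).filter (fun k => q ∣ a + k ∧ r ∣ b + k)).card : ℝ) - (Y : ℝ) / (q * r)| ≤ 1 := by
  obtain ⟨c, hc1, hc2⟩ := Nat.chineseRemainder hqr a b
  have hf : (Icc 1 Y).filter (fun k => q ∣ a + k ∧ r ∣ b + k) = (Icc 1 Y).filter (fun k => q * r ∣ c + k) := by
    refine Finset.filter_congr fun k _ => ?_
    have e1 : q ∣ a + k ↔ q ∣ c + k := by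
      have := (Nat.ModEq.add_right k hc1)
      exact (Nat.ModEq.dvd_iff this (dvd_refl q)).symm
    have e2 : r ∣ b + k ↔ r ∣ c + k := by
      have := (Nat.ModEq.add_right k hc2)
      exact (Nat.ModEq.dvd_iff this (dvd_refl r)).symm
    rw [e1, e2]
    constructor
    · rintro ⟨h1, h2⟩
      exact Nat.Coprime.mul_dvd_of_dvd_of_dvd hqr h1 h2
    · intro h
      exact ⟨dvd_trans (dvd_mul_right _ _) h, dvd_trans (dvd_mul_left _ _) h⟩
  rw [hf]
  have := ecn1 (q * r) c Y (Nat.mul_pos hq hr)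
  push_cast at this
  exact this

end Pool.Agent.H43.PG
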