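import Pool.Agent.H43.PG.Epr

/-!
# (E), second moment for a fixed modulus `d` (H43/PG)
-/

namespace Pool.Agent.H43.PG

open Finset

/-- `1/log(n/p)` -/
noncomputable def ev (p n : ℕ) : ℝ := 1 / Real.log ((n : ℝ) / p)

private theorem ev_bd (p n : ℕ) (hp : 1 ≤ p) (hn : 3 * p ≤ n) : 0 ≤ ev p n ∧ ev p n ≤ 1 ∧
    1 ≤ Real.log ((n : ℝ) / p) := by
  have hp0 : (0 : ℝ) < p := by exact_mod_cast hp
  have h3 : (3 : ℝ) * p ≤ n := by exact_mod_cast hn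
  have h1 : 1 ≤ Real.log ((n : ℝ) / p) := by
    rw [Real.le_log_iff_exp_le (by
      have : (0 : ℝ) < n := by linarith
      positivity)]
    have h4 : (3 : ℝ) ≤ (n : ℝ) / p := (le_div_iff₀ hp0).mpr h3
    linarith [Real.exp_one_lt_d9]
  unfold ev
  refine ⟨by positivity, ?_, h1⟩
  rw [div_le_one (by linarith)]
  exact h1

private theorem ev_anti (p n n' : ℕ) (hp : 1 ≤ p) (hn : 3 * p ≤ n) (h : n ≤ n') : ev p n' ≤ ev p n := by
  have h1 := (ev_bd p n hp hn).2.2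
  have hp0 : (0 : ℝ) < p := by exact_mod_cast hp
  have h3 : (3 : ℝ) * p ≤ n := by exact_mod_cast hn
  have hn0 : (0 : ℝ) < n := by linarith
  have h' : (n : ℝ) ≤ n' := by exact_mod_cast h
  unfold ev
  refine one_div_le_one_div_of_le (by linarith) (Real.log_le_log (by positivity) ?_)
  exact div_le_div_of_nonneg_right h' hp0.le

private theorem pf_card (n : ℕ) (hn : 1 ≤ n) : (n.primeFactors.card : ℝ) ≤ 2 * Real.log n := by
  have h1 : 2 ^ n.primeFactors.card ≤ n := by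
    calc 2 ^ n.primeFactors.card ≤ ∏ p ∈ n.primeFactors, p := by
          apply Finset.pow_card_le_prod
          intro p hp
          exact (Nat.prime_of_mem_primeFactors hp).two_le
      _ ≤ n := Nat.le_of_dvd hn (Nat.prod_primeFactors_dvd n)
  have h2 : Real.log ((2 : ℝ) ^ n.primeFactors.card) ≤ Real.log n := by
    apply Real.log_le_log (by positivity)
    exact_mod_cast h1
  rw [Real.log_pow] at h2
  have h3 := Real.log_two_gt_d9
  have h4 : (0 : ℝ) ≤ n.primeFactors.card := by positivity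
  nlinarith

private theorem dv_card (S : Finset ℕ) (hS : ∀ p ∈ S, p.Prime) (m m' B : ℕ) (hne : m ≠ m') (hm : m ≤ B)
    (hm' : m' ≤ B) :
    ((S.filter (fun p : ℕ => (p : ℤ) ∣ ((m ^ 3 : ℕ) : ℤ) - ((m' ^ 3 : ℕ) : ℤ))).card : ℝ) ≤ 6 * Real.log B := by
  set N : ℕ := (((m ^ 3 : ℕ) : ℤ) - ((m' ^ 3 : ℕ) : ℤ)).natAbs with hN
  have hN0 : 1 ≤ N := by
    rw [hN, Nat.one_le_iff_ne_zero, Int.natAbs_ne_zero, sub_ne_zero]
    intro h
    have h' : m ^ 3 = m' ^ 3 := by exact_mod_cast h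
    exact hne (Nat.pow_left_injective (by norm_num : 3 ≠ 0) h')
  have hNB : N ≤ B ^ 3 := by
    have h1 : m ^ 3 ≤ B ^ 3 := Nat.pow_le_pow_left hm 3
    have h2 : m' ^ 3 ≤ B ^ 3 := Nat.pow_le_pow_left hm' 3
    omega
  have hsub : S.filter (fun p : ℕ => (p : ℤ) ∣ ((m ^ 3 : ℕ) : ℤ) - ((m' ^ 3 : ℕ) : ℤ)) ⊆ N.primeFactors := by
    intro p hp
    rw [Finset.mem_filter] at hp
    rw [Nat.mem_primeFactors]
    refine ⟨hS p hp.1, ?_, by omega⟩
    rw [hN]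
    exact Int.natCast_dvd.1 hp.2
  have h1 : ((S.filter (fun p : ℕ => (p : ℤ) ∣ ((m ^ 3 : ℕ) : ℤ) - ((m' ^ 3 : ℕ) : ℤ))).card : ℝ) ≤
      (N.primeFactors.card : ℝ) := by exact_mod_cast Finset.card_le_card hsub
  refine le_trans h1 (le_trans (pf_card N hN0) ?_)
  have h2 : Real.log N ≤ Real.log ((B : ℝ) ^ 3) := by
    apply Real.log_le_log (by exact_mod_cast hN0)
    exact_mod_cast hNB
  rw [Real.log_pow] at h2
  push_cast at h2
  linarith

/-- the inner sum -/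
noncomputable def es (P P2 M M' d k : ℕ) : ℝ :=
  ∑ m ∈ Ioc M M', ∑ p ∈ (Ioc P P2).filter Nat.Prime, ef d p (m ^ 3 + k) * ev p (m ^ 3 + k)

theorem edv (P P2 M M' d X : ℕ) (hd : 1 ≤ d) (hdP : d ≤ P) (hP2 : P2 ≤ 2 * P) (hP2X : P2 ≤ X) (hM : 1 ≤ M)
    (hM' : M' ≤ 2 * M + 1) (hPM : 3 * P2 ≤ M ^ 3) :
    ∑ k ∈ Icc 1 X, (es P P2 M M' d k) ^ 2 ≤
      16 * (M : ℝ) ^ 2 * (P : ℝ) ^ 2 + 4 * (M : ℝ) * X +
        (M : ℝ) ^ 2 * X * (20 + 48 * Real.log (2 * M + 1)) / P := by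
  set PP := (Ioc P P2).filter Nat.Prime with hPP
  set S := (Ioc M M') ×ˢ PP with hS
  have hP1 : 1 ≤ P := le_trans hd hdP
  have hP0 : (0 : ℝ) < P := by exact_mod_cast hP1
  have hM0 : (0 : ℝ) < M := by exact_mod_cast hM
  have hX0 : (0 : ℝ) ≤ X := Nat.cast_nonneg X
  have hPPm : ∀ p ∈ PP, p.Prime ∧ P < p ∧ p ≤ P2 := by
    intro p hp
    rw [hPP, Finset.mem_filter, Finset.mem_Ioc] at hp
    exact ⟨hp.2, hp.1.1, hp.1.2⟩
  -- expand
  have hexp : ∀ k, (es P P2 M M' d k) ^ 2 = ∑ i ∈ S, ∑ j ∈ S,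
      (ef d i.2 (i.1 ^ 3 + k) * ev i.2 (i.1 ^ 3 + k)) * (ef d j.2 (j.1 ^ 3 + k) * ev j.2 (j.1 ^ 3 + k)) := by
    intro k
    have : es P P2 M M' d k = ∑ i ∈ S, ef d i.2 (i.1 ^ 3 + k) * ev i.2 (i.1 ^ 3 + k) := by
      unfold es
      rw [hS, Finset.sum_product]
    rw [this, sq, Finset.sum_mul_sum]
  have hswap : ∑ k ∈ Icc 1 X, (es P P2 M M' d k) ^ 2 = ∑ i ∈ S, ∑ j ∈ S, ∑ k ∈ Icc 1 X,
      (ef d i.2 (i.1 ^ 3 + k) * ev i.2 (i.1 ^ 3 + k)) * (ef d j.2 (j.1 ^ 3 + k) * ev j.2 (j.1 ^ 3 + k)) := by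
    rw [Finset.sum_congr rfl (fun k _ => hexp k), Finset.sum_comm]
    refine Finset.sum_congr rfl fun i _ => ?_
    rw [Finset.sum_comm]
  rw [hswap]
  -- termwise bounds
  have hterm : ∀ i ∈ S, ∀ j ∈ S, ∑ k ∈ Icc 1 X,
      (ef d i.2 (i.1 ^ 3 + k) * ev i.2 (i.1 ^ 3 + k)) * (ef d j.2 (j.1 ^ 3 + k) * ev j.2 (j.1 ^ 3 + k)) ≤
      4 + (if i.2 = j.2 then ((if (i.2 : ℤ) ∣ ((i.1 ^ 3 : ℕ) : ℤ) - ((j.1 ^ 3 : ℕ) : ℤ) then 2 * (X : ℝ) / P else 0) +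
        5 * (X : ℝ) / (P : ℝ) ^ 2) else 0) := by
    rintro ⟨m, p⟩ hi ⟨m', r⟩ hj
    rw [hS, Finset.mem_product] at hi hj
    obtain ⟨hm, hp⟩ := hi
    obtain ⟨hm', hr⟩ := hj
    simp only at hm hp hm' hr ⊢
    rw [Finset.mem_Ioc] at hm hm'
    obtain ⟨hpp, hpP, hpP2⟩ := hPPm p hp
    obtain ⟨hrp, hrP, hrP2⟩ := hPPm r hr
    have g1 : M ^ 3 ≤ m ^ 3 := Nat.pow_le_pow_left (by omega) 3
    have g2 : M ^ 3 ≤ m' ^ 3 := Nat.pow_le_pow_left (by omega) 3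
    have w1 : ∀ k, 3 * p ≤ m ^ 3 + k := fun k => by omega
    have w2 : ∀ k, 3 * r ≤ m' ^ 3 + k := fun k => by omega
    by_cases hpr : p = r
    · subst hpr
      simp only [if_true]
      have h1 : ∑ k ∈ Icc 1 X, (ef d p (m ^ 3 + k) * ev p (m ^ 3 + k)) * (ef d p (m' ^ 3 + k) * ev p (m' ^ 3 + k)) ≤
          ∑ k ∈ Icc 1 X, |ef d p (m ^ 3 + k)| * |ef d p (m' ^ 3 + k)| := by
        refine Finset.sum_le_sum fun k _ => ?_
        obtain ⟨a1, a2, -⟩ := ev_bd p (m ^ 3 + k) hpp.one_lt.le (w1 k)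
        obtain ⟨b1, b2, -⟩ := ev_bd p (m' ^ 3 + k) hpp.one_lt.le (w2 k)
        refine le_trans (le_abs_self _) ?_
        rw [abs_mul, abs_mul, abs_mul, abs_of_nonneg a1, abs_of_nonneg b1]
        refine mul_le_mul ?_ ?_ (by positivity) (abs_nonneg _)
        · calc _ ≤ |ef d p (m ^ 3 + k)| * 1 := mul_le_mul_of_nonneg_left a2 (abs_nonneg _)
            _ = _ := mul_one _
        · calc _ ≤ |ef d p (m' ^ 3 + k)| * 1 := mul_le_mul_of_nonneg_left b2 (abs_nonneg _)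
            _ = _ := mul_one _
      refine le_trans h1 (le_trans (epd d p (m ^ 3) (m' ^ 3) X hpp (by omega)) ?_)
      have hpR : (P : ℝ) ≤ p := by exact_mod_cast hpP.le
      have q1 : 5 * (X : ℝ) / (p : ℝ) ^ 2 ≤ 5 * (X : ℝ) / (P : ℝ) ^ 2 := by
        apply div_le_div_of_nonneg_left (by positivity) (by positivity)
        exact pow_le_pow_left₀ hP0.le hpR 2
      have q2 : (if (p : ℤ) ∣ ((m ^ 3 : ℕ) : ℤ) - ((m' ^ 3 : ℕ) : ℤ) then 2 * (X : ℝ) / p else 0) ≤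
          (if (p : ℤ) ∣ ((m ^ 3 : ℕ) : ℤ) - ((m' ^ 3 : ℕ) : ℤ) then 2 * (X : ℝ) / P else 0) := by
        split_ifs
        · exact div_le_div_of_nonneg_left (by positivity) hP0 hpR
        · exact le_rfl
      linarith
    · rw [if_neg hpr, add_zero]
      have h1 : ∑ k ∈ Icc 1 X, (ef d p (m ^ 3 + k) * ev p (m ^ 3 + k)) * (ef d r (m' ^ 3 + k) * ev r (m' ^ 3 + k)) =
          ∑ k ∈ Icc 1 X, (ef d p (m ^ 3 + k) * ef d r (m' ^ 3 + k)) * (ev p (m ^ 3 + k) * ev r (m' ^ 3 + k)) :=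
        Finset.sum_congr rfl fun k _ => by ring
      rw [h1]
      refine le_trans (le_abs_self _) (eab _ _ 4 X ?_ ?_ ?_ ?_)
      · intro Y _
        refine epr d p r (m ^ 3) (m' ^ 3) Y hd hpp hrp hpr ?_ ?_
        · rw [Nat.coprime_comm, Nat.Prime.coprime_iff_not_dvd hpp]
          exact Nat.not_dvd_of_pos_of_lt hd (by omega)
        · rw [Nat.coprime_comm, Nat.Prime.coprime_iff_not_dvd hrp]
          exact Nat.not_dvd_of_pos_of_lt hd (by omega)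
      · intro k _ _
        exact mul_le_mul (ev_anti p _ _ hpp.one_lt.le (w1 k) (by omega))
          (ev_anti r _ _ hrp.one_lt.le (w2 k) (by omega)) (ev_bd r _ hrp.one_lt.le (w2 (k + 1))).1
          (ev_bd p _ hpp.one_lt.le (w1 k)).1
      · intro k _ _
        exact mul_nonneg (ev_bd p _ hpp.one_lt.le (w1 k)).1 (ev_bd r _ hrp.one_lt.le (w2 k)).1
      · intro k _ _
        calc ev p (m ^ 3 + k) * ev r (m' ^ 3 + k) ≤ 1 * 1 :=
              mul_le_mul (ev_bd p _ hpp.one_lt.le (w1 k)).2.1 (ev_bd r _ hrp.one_lt.le (w2 k)).2.1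
                (ev_bd r _ hrp.one_lt.le (w2 k)).1 zero_le_one
          _ = 1 := by norm_num
  refine le_trans (Finset.sum_le_sum fun i hi => Finset.sum_le_sum fun j hj => hterm i hi j hj) ?_
  -- cardinalities
  have hcm : ((Ioc M M').card : ℝ) ≤ 2 * M := by
    rw [Nat.card_Ioc]
    have : M' - M ≤ 2 * M := by omega
    exact_mod_cast this
  have hcp : (PP.card : ℝ) ≤ P := by
    have h1 : PP.card ≤ (Ioc P P2).card := Finset.card_filter_le _ _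
    rw [Nat.card_Ioc] at h1
    have : PP.card ≤ P := by omega
    exact_mod_cast this
  have hcS : (S.card : ℝ) ≤ 2 * M * P := by
    rw [hS, Finset.card_product]
    push_cast
    exact mul_le_mul hcm hcp (Nat.cast_nonneg _) (by positivity)
  have hA : ∑ i ∈ S, ∑ _j ∈ S, (4 : ℝ) ≤ 16 * (M : ℝ) ^ 2 * (P : ℝ) ^ 2 := by
    rw [Finset.sum_const, Finset.sum_const, nsmul_eq_mul, nsmul_eq_mul]
    have : (S.card : ℝ) * S.card ≤ (2 * M * P) * (2 * M * P) :=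
      mul_le_mul hcS hcS (Nat.cast_nonneg _) (by positivity)
    nlinarith
  have hlog0 : 0 ≤ Real.log (2 * (M : ℝ) + 1) := Real.log_nonneg (by linarith)
  have hB : ∑ i ∈ S, ∑ j ∈ S, (if i.2 = j.2 then
      ((if (i.2 : ℤ) ∣ ((i.1 ^ 3 : ℕ) : ℤ) - ((j.1 ^ 3 : ℕ) : ℤ) then 2 * (X : ℝ) / P else 0) +
        5 * (X : ℝ) / (P : ℝ) ^ 2) else 0) ≤
      4 * (M : ℝ) * X + (M : ℝ) ^ 2 * X * (20 + 48 * Real.log (2 * M + 1)) / P := by
    have e1 : ∑ i ∈ S, ∑ j ∈ S, (if i.2 = j.2 then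
        ((if (i.2 : ℤ) ∣ ((i.1 ^ 3 : ℕ) : ℤ) - ((j.1 ^ 3 : ℕ) : ℤ) then 2 * (X : ℝ) / P else 0) +
          5 * (X : ℝ) / (P : ℝ) ^ 2) else 0) =
        ∑ m ∈ Ioc M M', ∑ m' ∈ Ioc M M', ∑ p ∈ PP,
          ((if (p : ℤ) ∣ ((m ^ 3 : ℕ) : ℤ) - ((m' ^ 3 : ℕ) : ℤ) then 2 * (X : ℝ) / P else 0) +
            5 * (X : ℝ) / (P : ℝ) ^ 2) := by
      rw [hS, Finset.sum_product]
      refine Finset.sum_congr rfl fun m _ => ?_
      simp only [Finset.sum_product]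
      rw [Finset.sum_comm]
      refine Finset.sum_congr rfl fun m' _ => ?_
      refine Finset.sum_congr rfl fun p hp => ?_
      rw [Finset.sum_ite_eq PP p, if_pos hp]
    rw [e1]
    have e2 : ∀ m ∈ Ioc M M', ∀ m' ∈ Ioc M M', ∑ p ∈ PP,
        ((if (p : ℤ) ∣ ((m ^ 3 : ℕ) : ℤ) - ((m' ^ 3 : ℕ) : ℤ) then 2 * (X : ℝ) / P else 0) +
          5 * (X : ℝ) / (P : ℝ) ^ 2) ≤
        (if m = m' then 2 * (X : ℝ) else 0) + (12 * Real.log (2 * M + 1) * X / P + 5 * (X : ℝ) / P) := by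
      intro m hm m' hm'
      rw [Finset.mem_Ioc] at hm hm'
      rw [Finset.sum_add_distrib, Finset.sum_const, nsmul_eq_mul]
      have f1 : (PP.card : ℝ) * (5 * (X : ℝ) / (P : ℝ) ^ 2) ≤ 5 * (X : ℝ) / P := by
        calc (PP.card : ℝ) * (5 * (X : ℝ) / (P : ℝ) ^ 2) ≤ P * (5 * (X : ℝ) / (P : ℝ) ^ 2) :=
              mul_le_mul_of_nonneg_right hcp (by positivity)
          _ = _ := by field_simp
      have f2 : ∑ p ∈ PP, (if (p : ℤ) ∣ ((m ^ 3 : ℕ) : ℤ) - ((m' ^ 3 : ℕ) : ℤ) then 2 * (X : ℝ) / P else 0) =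
          ((PP.filter (fun p : ℕ => (p : ℤ) ∣ ((m ^ 3 : ℕ) : ℤ) - ((m' ^ 3 : ℕ) : ℤ))).card : ℝ) * (2 * (X : ℝ) / P) := by
        rw [Finset.sum_ite, Finset.sum_const_zero, add_zero, Finset.sum_const, nsmul_eq_mul]
      rw [f2]
      by_cases hmm : m = m'
      · rw [if_pos hmm]
        have f3 : ((PP.filter (fun p : ℕ => (p : ℤ) ∣ ((m ^ 3 : ℕ) : ℤ) - ((m' ^ 3 : ℕ) : ℤ))).card : ℝ) ≤ P :=
          le_trans (by exact_mod_cast Finset.card_filter_le _ _) hcp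
        have f4 : ((PP.filter (fun p : ℕ => (p : ℤ) ∣ ((m ^ 3 : ℕ) : ℤ) - ((m' ^ 3 : ℕ) : ℤ))).card : ℝ) *
            (2 * (X : ℝ) / P) ≤ 2 * X := by
          calc _ ≤ (P : ℝ) * (2 * (X : ℝ) / P) := mul_le_mul_of_nonneg_right f3 (by positivity)
            _ = _ := by field_simp
        have f5 : 0 ≤ 12 * Real.log (2 * (M : ℝ) + 1) * X / P := by positivity
        linarith
      · rw [if_neg hmm, zero_add]
        have f3 := dv_card PP (fun p hp => (hPPm p hp).1) m m' (2 * M + 1) hmm (by omega) (by omega)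
        push_cast at f3
        have f4 : ((PP.filter (fun p : ℕ => (p : ℤ) ∣ ((m ^ 3 : ℕ) : ℤ) - ((m' ^ 3 : ℕ) : ℤ))).card : ℝ) *
            (2 * (X : ℝ) / P) ≤ 12 * Real.log (2 * (M : ℝ) + 1) * X / P := by
          calc _ ≤ (6 * Real.log (2 * (M : ℝ) + 1)) * (2 * (X : ℝ) / P) :=
                mul_le_mul_of_nonneg_right (by push_cast; exact f3) (by positivity)
            _ = _ := by ring
        linarith
    refine le_trans (Finset.sum_le_sum fun m hm => Finset.sum_le_sum fun m' hm' => e2 m hm m' hm') ?_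
    have e3 : ∑ m ∈ Ioc M M', ∑ m' ∈ Ioc M M',
        ((if m = m' then 2 * (X : ℝ) else 0) + (12 * Real.log (2 * M + 1) * X / P + 5 * (X : ℝ) / P)) =
        (Ioc M M').card * (2 * (X : ℝ)) +
          (Ioc M M').card * ((Ioc M M').card * (12 * Real.log (2 * M + 1) * X / P + 5 * (X : ℝ) / P)) := by
      have : ∀ m ∈ Ioc M M', ∑ m' ∈ Ioc M M',
          ((if m = m' then 2 * (X : ℝ) else 0) + (12 * Real.log (2 * M + 1) * X / P + 5 * (X : ℝ) / P)) =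
          2 * (X : ℝ) + (Ioc M M').card * (12 * Real.log (2 * M + 1) * X / P + 5 * (X : ℝ) / P) := by
        intro m hm
        rw [Finset.sum_add_distrib, Finset.sum_ite_eq (Ioc M M') m, if_pos hm, Finset.sum_const, nsmul_eq_mul]
      rw [Finset.sum_congr rfl this, Finset.sum_const, nsmul_eq_mul]
      ring
    rw [e3]
    have g1 : ((Ioc M M').card : ℝ) * (2 * (X : ℝ)) ≤ 4 * (M : ℝ) * X := by
      calc _ ≤ (2 * (M : ℝ)) * (2 * (X : ℝ)) := mul_le_mul_of_nonneg_right hcm (by positivity)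
        _ = _ := by ring
    have g2 : ((Ioc M M').card : ℝ) * ((Ioc M M').card * (12 * Real.log (2 * M + 1) * X / P + 5 * (X : ℝ) / P)) ≤
        (M : ℝ) ^ 2 * X * (20 + 48 * Real.log (2 * M + 1)) / P := by
      have h0 : 0 ≤ 12 * Real.log (2 * (M : ℝ) + 1) * X / P + 5 * (X : ℝ) / P := by positivity
      have h1 : ((Ioc M M').card : ℝ) * (Ioc M M').card ≤ (2 * M) * (2 * M) :=
        mul_le_mul hcm hcm (Nat.cast_nonneg _) (by positivity)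
      calc _ = (((Ioc M M').card : ℝ) * (Ioc M M').card) * (12 * Real.log (2 * M + 1) * X / P + 5 * (X : ℝ) / P) := by
            ring
        _ ≤ ((2 * M) * (2 * M)) * (12 * Real.log (2 * M + 1) * X / P + 5 * (X : ℝ) / P) :=
            mul_le_mul_of_nonneg_right h1 h0
        _ = _ := by
            field_simp
            ring
    linarith
  have hsplit : ∀ i ∈ S, ∑ j ∈ S, ((4 : ℝ) + (if i.2 = j.2 then
      ((if (i.2 : ℤ) ∣ ((i.1 ^ 3 : ℕ) : ℤ) - ((j.1 ^ 3 : ℕ) : ℤ) then 2 * (X : ℝ) / P else 0) +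
        5 * (X : ℝ) / (P : ℝ) ^ 2) else 0)) = ∑ _j ∈ S, (4 : ℝ) + ∑ j ∈ S, (if i.2 = j.2 then
      ((if (i.2 : ℤ) ∣ ((i.1 ^ 3 : ℕ) : ℤ) - ((j.1 ^ 3 : ℕ) : ℤ) then 2 * (X : ℝ) / P else 0) +
        5 * (X : ℝ) / (P : ℝ) ^ 2) else 0) := fun i _ => Finset.sum_add_distrib
  rw [Finset.sum_congr rfl hsplit, Finset.sum_add_distrib]
  linarith

end Pool.Agent.H43.PG
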