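import Pool.Agent.H43.PG.Edv
import Pool.Agent.H43.PG.Defs
import Pool.Agent.H43.HY.Defs

/-!
# (E): the mean square of `lq Σ_p (1_(p|n) - 1/p)/log(n/p)`, `n = m^3+k` (H43/PG)

PROOF. `lq` is a combination of at most `Q^2` indicators `1_(d|n)`, `d <= Q`, with coefficients `<= Q`; Cauchy-Schwarz and
`edv` for every `d`. `edc`: `ae` is the sum of `az Q (n/p)` over `p | n` plus the function of `(E)`.
-/

namespace Pool.Agent.H43.PG

open Finset

/-- `Σ_p (1_(p|n) - 1/p)/log(n/p)` times the local model -/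
noncomputable def ed (P P2 Q n : ℕ) : ℝ :=
  TP.lq Q n * ∑ p ∈ (Ioc P P2).filter Nat.Prime, (ei p n - 1 / (p : ℝ)) / Real.log ((n : ℝ) / p)

private noncomputable def ec (r d : ℕ) : ℝ :=
  ((ArithmeticFunction.moebius r : ℤ) : ℝ) / (r.totient : ℝ) * ((d : ℝ) * ((ArithmeticFunction.moebius (r / d) : ℤ) : ℝ))

private theorem lq_eq (Q n : ℕ) : TP.lq Q n = ∑ r ∈ Icc 1 Q, ∑ d ∈ r.divisors, ec r d * ei d n := by
  unfold TP.lq
  refine Finset.sum_congr rfl fun r _ => ?_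
  have h1 : (TP.crd r n : ℝ) = ∑ d ∈ r.divisors, ((d : ℝ) * ((ArithmeticFunction.moebius (r / d) : ℤ) : ℝ)) * ei d n := by
    unfold TP.crd
    rw [Finset.sum_filter]
    push_cast
    refine Finset.sum_congr rfl fun d _ => ?_
    unfold ei
    split_ifs <;> simp
  rw [h1, Finset.mul_sum]
  refine Finset.sum_congr rfl fun d _ => ?_
  unfold ec
  ring

private theorem ec_le (Q r d : ℕ) (hr : r ∈ Icc 1 Q) (hd : d ∈ r.divisors) : ec r d ^ 2 ≤ (Q : ℝ) ^ 2 := by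
  rw [Finset.mem_Icc] at hr
  have hdr : d ≤ r := Nat.divisor_le hd
  have h1 : |((ArithmeticFunction.moebius r : ℤ) : ℝ)| ≤ 1 := by
    exact_mod_cast ArithmeticFunction.abs_moebius_le_one
  have h2 : |((ArithmeticFunction.moebius (r / d) : ℤ) : ℝ)| ≤ 1 := by
    exact_mod_cast ArithmeticFunction.abs_moebius_le_one
  have h3 : (1 : ℝ) ≤ (r.totient : ℝ) := by exact_mod_cast Nat.totient_pos.2 hr.1
  have h4 : (d : ℝ) ≤ Q := by exact_mod_cast hdr.trans hr.2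
  have h5 : |ec r d| ≤ Q := by
    unfold ec
    rw [abs_mul, abs_div, abs_mul, abs_of_nonneg (by linarith : (0 : ℝ) ≤ (r.totient : ℝ)),
      abs_of_nonneg (Nat.cast_nonneg d : (0 : ℝ) ≤ (d : ℝ))]
    have h6 : |((ArithmeticFunction.moebius r : ℤ) : ℝ)| / (r.totient : ℝ) ≤ 1 := by
      rw [div_le_one (by linarith)]
      linarith
    have h7 : (d : ℝ) * |((ArithmeticFunction.moebius (r / d) : ℤ) : ℝ)| ≤ Q := by
      calc (d : ℝ) * |((ArithmeticFunction.moebius (r / d) : ℤ) : ℝ)| ≤ d * 1 :=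
            mul_le_mul_of_nonneg_left h2 (Nat.cast_nonneg _)
        _ ≤ Q := by rw [mul_one]; exact h4
    calc _ ≤ 1 * (Q : ℝ) := mul_le_mul h6 h7 (by positivity) zero_le_one
      _ = Q := one_mul _
  rw [← sq_abs]
  exact pow_le_pow_left₀ (abs_nonneg _) h5 2

private theorem ed_sum (P P2 Q M M' k : ℕ) : ∑ m ∈ Ioc M M', ed P P2 Q (m ^ 3 + k) =
    ∑ r ∈ Icc 1 Q, ∑ d ∈ r.divisors, ec r d * es P P2 M M' d k := by
  have h1 : ∀ m ∈ Ioc M M', ed P P2 Q (m ^ 3 + k) = ∑ r ∈ Icc 1 Q, ∑ d ∈ r.divisors, ec r d *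
      ∑ p ∈ (Ioc P P2).filter Nat.Prime, ef d p (m ^ 3 + k) * ev p (m ^ 3 + k) := by
    intro m _
    unfold ed
    rw [lq_eq, Finset.sum_mul]
    refine Finset.sum_congr rfl fun r _ => ?_
    rw [Finset.sum_mul]
    refine Finset.sum_congr rfl fun d _ => ?_
    rw [mul_assoc, Finset.mul_sum, Finset.mul_sum, Finset.mul_sum]
    refine Finset.sum_congr rfl fun p _ => ?_
    unfold ef ev
    ring
  rw [Finset.sum_congr rfl h1, Finset.sum_comm]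
  refine Finset.sum_congr rfl fun r _ => ?_
  rw [Finset.sum_comm]
  refine Finset.sum_congr rfl fun d _ => ?_
  rw [← Finset.mul_sum]
  rfl

/-- (E) with explicit bounds -/
theorem ems (P P2 M M' Q X : ℕ) (hQP : Q ≤ P) (hP2 : P2 ≤ 2 * P) (hP2X : P2 ≤ X) (hM : 1 ≤ M)
    (hM' : M' ≤ 2 * M + 1) (hPM : 3 * P2 ≤ M ^ 3) :
    ∑ k ∈ Icc 1 X, (∑ m ∈ Ioc M M', ed P P2 Q (m ^ 3 + k)) ^ 2 ≤
      (Q : ℝ) ^ 6 * (16 * (M : ℝ) ^ 2 * (P : ℝ) ^ 2 + 4 * (M : ℝ) * X +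
        (M : ℝ) ^ 2 * X * (20 + 48 * Real.log (2 * M + 1)) / P) := by
  set B : ℝ := 16 * (M : ℝ) ^ 2 * (P : ℝ) ^ 2 + 4 * (M : ℝ) * X +
        (M : ℝ) ^ 2 * X * (20 + 48 * Real.log (2 * M + 1)) / P with hB
  have hM1 : (1 : ℝ) ≤ M := by exact_mod_cast hM
  have hlog0 : 0 ≤ Real.log (2 * (M : ℝ) + 1) := Real.log_nonneg (by linarith)
  have hB0 : 0 ≤ B := by positivity
  set T := (Icc 1 Q).sigma (fun r => r.divisors) with hT
  have hcT : (T.card : ℝ) ≤ (Q : ℝ) ^ 2 := by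
    have : T.card ≤ Q * Q := by
      rw [hT, Finset.card_sigma]
      calc ∑ r ∈ Icc 1 Q, r.divisors.card ≤ ∑ _r ∈ Icc 1 Q, Q := by
            refine Finset.sum_le_sum fun r hr => ?_
            rw [Finset.mem_Icc] at hr
            exact (Nat.card_divisors_le_self r).trans hr.2
        _ = Q * Q := by rw [Finset.sum_const, Nat.card_Icc]; simp
    rw [sq]
    exact_mod_cast this
  have h1 : ∀ k, (∑ m ∈ Ioc M M', ed P P2 Q (m ^ 3 + k)) ^ 2 ≤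
      (Q : ℝ) ^ 4 * ∑ i ∈ T, (es P P2 M M' i.2 k) ^ 2 := by
    intro k
    rw [ed_sum]
    have e1 : ∑ r ∈ Icc 1 Q, ∑ d ∈ r.divisors, ec r d * es P P2 M M' d k =
        ∑ i ∈ T, ec i.1 i.2 * es P P2 M M' i.2 k := by rw [hT, Finset.sum_sigma]
    rw [e1]
    refine le_trans (Finset.sum_mul_sq_le_sq_mul_sq _ _ _) ?_
    have e2 : ∑ i ∈ T, ec i.1 i.2 ^ 2 ≤ (Q : ℝ) ^ 4 := by
      calc ∑ i ∈ T, ec i.1 i.2 ^ 2 ≤ ∑ _i ∈ T, (Q : ℝ) ^ 2 := by
            refine Finset.sum_le_sum fun i hi => ?_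
            rw [hT, Finset.mem_sigma] at hi
            exact ec_le Q i.1 i.2 hi.1 hi.2
        _ = T.card * (Q : ℝ) ^ 2 := by rw [Finset.sum_const, nsmul_eq_mul]
        _ ≤ (Q : ℝ) ^ 2 * (Q : ℝ) ^ 2 := mul_le_mul_of_nonneg_right hcT (by positivity)
        _ = (Q : ℝ) ^ 4 := by ring
    exact mul_le_mul_of_nonneg_right e2 (Finset.sum_nonneg fun _ _ => sq_nonneg _)
  calc ∑ k ∈ Icc 1 X, (∑ m ∈ Ioc M M', ed P P2 Q (m ^ 3 + k)) ^ 2
      ≤ ∑ k ∈ Icc 1 X, (Q : ℝ) ^ 4 * ∑ i ∈ T, (es P P2 M M' i.2 k) ^ 2 := Finset.sum_le_sum fun k _ => h1 k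
    _ = (Q : ℝ) ^ 4 * ∑ i ∈ T, ∑ k ∈ Icc 1 X, (es P P2 M M' i.2 k) ^ 2 := by
        rw [← Finset.mul_sum, Finset.sum_comm]
    _ ≤ (Q : ℝ) ^ 4 * ∑ _i ∈ T, B := by
        refine mul_le_mul_of_nonneg_left (Finset.sum_le_sum fun i hi => ?_) (by positivity)
        rw [hT, Finset.mem_sigma, Finset.mem_Icc] at hi
        have hd1 : 1 ≤ i.2 := Nat.pos_of_mem_divisors hi.2
        have hdr : i.2 ≤ i.1 := Nat.divisor_le hi.2
        exact edv P P2 M M' i.2 X hd1 (by omega) hP2 hP2X hM hM' hPM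
    _ = (Q : ℝ) ^ 4 * (T.card * B) := by rw [Finset.sum_const, nsmul_eq_mul]
    _ ≤ (Q : ℝ) ^ 4 * ((Q : ℝ) ^ 2 * B) :=
        mul_le_mul_of_nonneg_left (mul_le_mul_of_nonneg_right hcT hB0) (by positivity)
    _ = (Q : ℝ) ^ 6 * B := by ring

/-- (E) -/
theorem emn (A : ℝ) (hA : 0 < A) (k0 : ℕ) : ∃ A2 : ℝ, 0 < A2 ∧ ∃ X0 : ℕ, ∀ X : ℕ, X0 ≤ X →
    ∀ Q M M' P P2 : ℕ, (Q : ℝ) ≤ (Real.log X) ^ (25 * k0) → M' ≤ 2 * M + 1 → P ≤ P2 → P2 ≤ 2 * P →
    (Real.log X) ^ A2 ≤ (P : ℝ) → P2 ^ 5 ≤ M → (M : ℝ) ^ 2 ≤ X * P →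
    ∑ k ∈ Icc 1 X, (∑ m ∈ Ioc M M', ed P P2 Q (m ^ 3 + k)) ^ 2 ≤
      X * (M : ℝ) ^ 2 * (Real.log X) ^ (-A) := by
  refine ⟨A + 150 * k0 + 2, by positivity, ?_⟩
  have hlim : Filter.Tendsto (fun X : ℕ => Real.log X) Filter.atTop Filter.atTop :=
    Real.tendsto_log_atTop.comp tendsto_natCast_atTop_atTop
  obtain ⟨X0, hX0⟩ := Filter.eventually_atTop.1 (hlim.eventually_ge_atTop 1000)
  refine ⟨max X0 1000, fun X hX Q M M' P P2 hQ hM' hPP2 hP2 hP hPM hMX => ?_⟩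
  have hL : 1000 ≤ Real.log X := hX0 X (le_trans (le_max_left _ _) hX)
  set l := Real.log X with hl
  have hXr : (0 : ℝ) < X := by
    have : 1000 ≤ X := le_trans (le_max_right _ _) hX
    exact_mod_cast (by omega : 0 < X)
  have hl0 : (0 : ℝ) < l := by linarith
  have hl1 : (1 : ℝ) ≤ l := by linarith
  -- P is large
  have hsplit : l ^ (A + 150 * (k0 : ℝ) + 2) = l ^ A * l ^ (150 * k0) * l ^ 2 := by
    rw [Real.rpow_add hl0, Real.rpow_add hl0]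
    congr 1
    · congr 1
      rw [← Real.rpow_natCast]
      push_cast
      ring_nf
    · exact_mod_cast Real.rpow_natCast l 2
  have hlA : 1 ≤ l ^ A := Real.one_le_rpow hl1 hA.le
  have hl150 : 1 ≤ l ^ (150 * k0) := one_le_pow₀ hl1
  have hQ6 : (Q : ℝ) ^ 6 ≤ l ^ (150 * k0) := by
    calc (Q : ℝ) ^ 6 ≤ (l ^ (25 * k0)) ^ 6 := pow_le_pow_left₀ (Nat.cast_nonneg _) hQ 6
      _ = l ^ (150 * k0) := by rw [← pow_mul]; ring_nf
  rw [hsplit] at hP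
  have hPR : (1000000 : ℝ) ≤ P := by
    have : (1 : ℝ) * 1 * 1000 ^ 2 ≤ l ^ A * l ^ (150 * k0) * l ^ 2 := by
      have h2 : (1000 : ℝ) ^ 2 ≤ l ^ 2 := pow_le_pow_left₀ (by norm_num) hL 2
      exact mul_le_mul (mul_le_mul hlA hl150 zero_le_one (by positivity)) h2 (by norm_num) (by positivity)
    linarith
  have hP0 : (0 : ℝ) < P := by linarith
  have hPN : 1000000 ≤ P := by exact_mod_cast hPR
  have hQP : Q ≤ P := by
    have h1 : (Q : ℝ) ≤ P := by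
      have h2 : l ^ (25 * k0) ≤ l ^ (150 * k0) := pow_le_pow_right₀ hl1 (by omega)
      have h3 : l ^ (150 * k0) ≤ l ^ A * l ^ (150 * k0) * l ^ 2 := by
        have : 1 * l ^ (150 * k0) * 1 ≤ l ^ A * l ^ (150 * k0) * l ^ 2 :=
          mul_le_mul (mul_le_mul_of_nonneg_right hlA (by positivity)) (one_le_pow₀ hl1) zero_le_one (by positivity)
        linarith
      linarith
    exact_mod_cast h1
  have hP2P : P ^ 5 ≤ M := le_trans (Nat.pow_le_pow_left hPP2 5) hPM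
  have hPMR : (P : ℝ) ^ 5 ≤ M := by exact_mod_cast hP2P
  have hPMle : (P : ℝ) ≤ M := by
    have : (P : ℝ) ^ 1 ≤ (P : ℝ) ^ 5 := pow_le_pow_right₀ (by linarith) (by norm_num)
    linarith
  have hM0 : (0 : ℝ) < M := by linarith
  have hM1 : 1 ≤ M := by
    have : (1 : ℝ) ≤ M := by linarith
    exact_mod_cast this
  -- X is at least P^9 and at least M
  have hX9 : (P : ℝ) ^ 9 ≤ X := by
    have h1 : (P : ℝ) ^ 10 ≤ X * P := by
      calc (P : ℝ) ^ 10 = ((P : ℝ) ^ 5) ^ 2 := by ring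
        _ ≤ (M : ℝ) ^ 2 := pow_le_pow_left₀ (by positivity) hPMR 2
        _ ≤ X * P := hMX
    have h2 : (P : ℝ) ^ 10 = (P : ℝ) ^ 9 * P := by ring
    rw [h2] at h1
    exact le_of_mul_le_mul_right h1 hP0
  have hMleX : (M : ℝ) ≤ X := by
    have h1 : (M : ℝ) * M ≤ X * M := by
      calc (M : ℝ) * M = (M : ℝ) ^ 2 := by ring
        _ ≤ X * P := hMX
        _ ≤ X * M := mul_le_mul_of_nonneg_left hPMle hXr.le
    exact le_of_mul_le_mul_right h1 hM0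
  have hP2le : (P2 : ℝ) ≤ X := by
    have h1 : (P2 : ℝ) ≤ 2 * P := by exact_mod_cast hP2
    have h2 : (P : ℝ) ^ 2 ≤ (P : ℝ) ^ 9 := pow_le_pow_right₀ (by linarith) (by norm_num)
    nlinarith
  have hP2X : P2 ≤ X := by exact_mod_cast hP2le
  have h3P : 3 * P2 ≤ M ^ 3 := by
    have h1 : (3 : ℝ) * P2 ≤ (M : ℝ) ^ 3 := by
      have e1 : (P2 : ℝ) ≤ 2 * P := by exact_mod_cast hP2
      have e2 : (M : ℝ) ^ 2 ≤ (M : ℝ) ^ 3 := pow_le_pow_right₀ (by linarith) (by norm_num)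
      nlinarith
    exact_mod_cast h1
  refine le_trans (ems P P2 M M' Q X hQP hP2 hP2X hM1 hM' h3P) ?_
  -- numerics
  have hlog : Real.log (2 * (M : ℝ) + 1) ≤ 2 * l := by
    have h1 : Real.log (2 * (M : ℝ) + 1) ≤ Real.log ((X : ℝ) ^ 2) := by
      apply Real.log_le_log (by linarith)
      have hX3 : (3 : ℝ) ≤ X := by linarith
      nlinarith
    rw [Real.log_pow] at h1
    push_cast at h1
    exact h1
  have hlog0 : 0 ≤ Real.log (2 * (M : ℝ) + 1) := Real.log_nonneg (by linarith)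
  set W := l ^ A * l ^ (150 * k0) with hW
  have hW1 : 1 ≤ W := by
    calc (1 : ℝ) = 1 * 1 := by norm_num
      _ ≤ _ := mul_le_mul hlA hl150 zero_le_one (by positivity)
  have hWP : W * l ^ 2 ≤ P := hP
  have hWP' : W ≤ P := by
    have : W * 1 ≤ W * l ^ 2 := mul_le_mul_of_nonneg_left (one_le_pow₀ hl1) (by linarith)
    linarith
  have hlA0 : 0 < l ^ A := by positivity
  rw [Real.rpow_neg hl0.le, ← div_eq_mul_inv, le_div_iff₀ hlA0]
  have hQW : (Q : ℝ) ^ 6 * l ^ A ≤ W := by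
    rw [hW, mul_comm (l ^ A)]
    exact mul_le_mul_of_nonneg_right hQ6 hlA0.le
  have t1 : W * (16 * (M : ℝ) ^ 2 * (P : ℝ) ^ 2) ≤ (1 / 4) * (X * (M : ℝ) ^ 2) := by
    have h1 : W * (64 * (P : ℝ) ^ 2) ≤ X := by
      calc W * (64 * (P : ℝ) ^ 2) ≤ P * (P * (P : ℝ) ^ 2) := by
            refine mul_le_mul hWP' ?_ (by positivity) hP0.le
            exact mul_le_mul_of_nonneg_right (by linarith) (by positivity)
        _ = (P : ℝ) ^ 4 := by ring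
        _ ≤ (P : ℝ) ^ 9 := pow_le_pow_right₀ (by linarith) (by norm_num)
        _ ≤ X := hX9
    have h2 : (W * (64 * (P : ℝ) ^ 2)) * (M : ℝ) ^ 2 ≤ X * (M : ℝ) ^ 2 :=
      mul_le_mul_of_nonneg_right h1 (by positivity)
    nlinarith
  have t2 : W * (4 * (M : ℝ) * X) ≤ (1 / 4) * (X * (M : ℝ) ^ 2) := by
    have h1 : W * 16 ≤ M := by
      have : (P : ℝ) ^ 2 ≤ (P : ℝ) ^ 5 := pow_le_pow_right₀ (by linarith) (by norm_num)
      nlinarith
    have h2 : (W * 16) * (M * X) ≤ M * (M * X) := mul_le_mul_of_nonneg_right h1 (by positivity)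
    nlinarith
  have t3 : W * ((M : ℝ) ^ 2 * X * (20 + 48 * Real.log (2 * M + 1)) / P) ≤ (1 / 4) * (X * (M : ℝ) ^ 2) := by
    have h1 : W * (20 + 48 * Real.log (2 * (M : ℝ) + 1)) ≤ (1 / 4) * P := by
      have h2 : 20 + 48 * Real.log (2 * (M : ℝ) + 1) ≤ (1 / 4) * l ^ 2 := by nlinarith
      calc W * (20 + 48 * Real.log (2 * (M : ℝ) + 1)) ≤ W * ((1 / 4) * l ^ 2) :=
            mul_le_mul_of_nonneg_left h2 (by linarith)
        _ = (1 / 4) * (W * l ^ 2) := by ring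
        _ ≤ (1 / 4) * P := by linarith
    have h3 : W * ((M : ℝ) ^ 2 * X * (20 + 48 * Real.log (2 * M + 1)) / P) =
        ((M : ℝ) ^ 2 * X) * ((W * (20 + 48 * Real.log (2 * (M : ℝ) + 1))) / P) := by ring
    rw [h3]
    have h4 : (W * (20 + 48 * Real.log (2 * (M : ℝ) + 1))) / P ≤ 1 / 4 := by
      rw [div_le_iff₀ hP0]
      exact h1
    calc ((M : ℝ) ^ 2 * X) * ((W * (20 + 48 * Real.log (2 * (M : ℝ) + 1))) / P) ≤ ((M : ℝ) ^ 2 * X) * (1 / 4) :=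
          mul_le_mul_of_nonneg_left h4 (by positivity)
      _ = _ := by ring
  have hB0 : 0 ≤ 16 * (M : ℝ) ^ 2 * (P : ℝ) ^ 2 + 4 * (M : ℝ) * X +
      (M : ℝ) ^ 2 * X * (20 + 48 * Real.log (2 * M + 1)) / P := by positivity
  calc (Q : ℝ) ^ 6 * (16 * (M : ℝ) ^ 2 * (P : ℝ) ^ 2 + 4 * (M : ℝ) * X +
        (M : ℝ) ^ 2 * X * (20 + 48 * Real.log (2 * M + 1)) / P) * l ^ A
      = ((Q : ℝ) ^ 6 * l ^ A) * (16 * (M : ℝ) ^ 2 * (P : ℝ) ^ 2 + 4 * (M : ℝ) * X +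
        (M : ℝ) ^ 2 * X * (20 + 48 * Real.log (2 * M + 1)) / P) := by ring
    _ ≤ W * (16 * (M : ℝ) ^ 2 * (P : ℝ) ^ 2 + 4 * (M : ℝ) * X +
        (M : ℝ) ^ 2 * X * (20 + 48 * Real.log (2 * M + 1)) / P) := mul_le_mul_of_nonneg_right hQW hB0
    _ = W * (16 * (M : ℝ) ^ 2 * (P : ℝ) ^ 2) + W * (4 * (M : ℝ) * X) +
        W * ((M : ℝ) ^ 2 * X * (20 + 48 * Real.log (2 * M + 1)) / P) := by ring
    _ ≤ (1 / 4) * (X * (M : ℝ) ^ 2) + (1 / 4) * (X * (M : ℝ) ^ 2) + (1 / 4) * (X * (M : ℝ) ^ 2) := by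
        linarith
    _ ≤ X * (M : ℝ) ^ 2 := by
        have : 0 ≤ (X : ℝ) * (M : ℝ) ^ 2 := by positivity
        linarith

/-- `ae` is the sum of `az Q (n/p)` over `p | n` plus the function of (E) -/
theorem edc (P P2 Q n : ℕ) (hQ : Q ≤ P) : ae P P2 Q n =
    (∑ p ∈ (Ioc P P2).filter (fun p => p.Prime ∧ p ∣ n), HY.az Q (n / p)) + ed P P2 Q n := by
  have hlq : ∀ p, P < p → p.Prime → p ∣ n → TP.lq Q (n / p) = TP.lq Q n := by
    intro p hPp hp hpn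
    unfold TP.lq
    refine Finset.sum_congr rfl fun r hr => ?_
    rw [Finset.mem_Icc] at hr
    congr 2
    unfold TP.crd
    congr 1
    refine Finset.filter_congr fun d hd => ?_
    have hdr : d ≤ r := Nat.divisor_le hd
    have hd0 : 1 ≤ d := Nat.pos_of_mem_divisors hd
    have hcop : Nat.Coprime d p := by
      rw [Nat.coprime_comm, Nat.Prime.coprime_iff_not_dvd hp]
      exact Nat.not_dvd_of_pos_of_lt hd0 (by omega)
    constructor
    · intro h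
      exact dvd_trans h (Nat.div_dvd_of_dvd hpn)
    · intro h
      have h1 : d ∣ (n / p) * p := by rwa [Nat.div_mul_cancel hpn]
      exact Nat.Coprime.dvd_of_dvd_mul_right hcop h1
  unfold ae ed
  have h1 : TQ.ue P P2 n = ∑ p ∈ (Ioc P P2).filter (fun p => p.Prime ∧ p ∣ n), HY.pr (n / p) := by
    unfold TQ.ue HY.pr
    rw [Finset.sum_ite, Finset.sum_const_zero, add_zero, Finset.sum_const, nsmul_eq_mul, mul_one,
      Finset.filter_filter]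
    congr 2
    refine Finset.filter_congr fun p _ => ?_
    tauto
  have h2 : ∑ p ∈ (Ioc P P2).filter (fun p => p.Prime ∧ p ∣ n), HY.az Q (n / p) =
      TQ.ue P P2 n - TP.lq Q n * ∑ p ∈ (Ioc P P2).filter Nat.Prime, ei p n / Real.log ((n : ℝ) / p) := by
    rw [h1]
    unfold HY.az
    rw [Finset.sum_sub_distrib]
    congr 1
    rw [Finset.mul_sum]
    have h3 : ∑ p ∈ (Ioc P P2).filter Nat.Prime, TP.lq Q n * (ei p n / Real.log ((n : ℝ) / p)) =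
        ∑ p ∈ (Ioc P P2).filter Nat.Prime, if p ∣ n then TP.lq Q n * (1 / Real.log ((n : ℝ) / p)) else 0 := by
      refine Finset.sum_congr rfl fun p _ => ?_
      unfold ei
      split_ifs <;> simp
    rw [h3, ← Finset.sum_filter, Finset.filter_filter]
    refine Finset.sum_congr rfl fun p hp => ?_
    rw [Finset.mem_filter, Finset.mem_Ioc] at hp
    obtain ⟨⟨hPp, _⟩, hpp, hpn⟩ := hp
    rw [hlq p hPp hpp hpn]
    unfold HY.il
    rw [Nat.cast_div hpn (by exact_mod_cast hpp.pos.ne')]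
    ring
  rw [h2]
  have h4 : ∑ p ∈ (Ioc P P2).filter Nat.Prime, (ei p n - 1 / (p : ℝ)) / Real.log ((n : ℝ) / p) =
      ∑ p ∈ (Ioc P P2).filter Nat.Prime, ei p n / Real.log ((n : ℝ) / p) - TQ.lam P P2 n := by
    unfold TQ.lam
    rw [← Finset.sum_sub_distrib]
    refine Finset.sum_congr rfl fun p _ => ?_
    rw [sub_div, div_div]
  rw [h4]
  ring

end Pool.Agent.H43.PG
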