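import Pool.Agent.H43.PG.Eab

/-!
# (E), correlations for two different primes, and for one prime (H43/PG)
-/

namespace Pool.Agent.H43.PG

open Finset

/-- `1` if `q | n`, else `0` -/
noncomputable def ei (q n : ℕ) : ℝ := if q ∣ n then 1 else 0

/-- `1_(d|n) (1_(p|n) - 1/p)` -/
noncomputable def ef (d p n : ℕ) : ℝ := ei d n * (ei p n - 1 / (p : ℝ))

theorem ei_nonneg (q n : ℕ) : 0 ≤ ei q n := by unfold ei; split_ifs <;> norm_num

theorem ei_le (q n : ℕ) : ei q n ≤ 1 := by unfold ei; split_ifs <;> norm_num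

private theorem sum_ei (q a Y : ℕ) : ∑ k ∈ Icc 1 Y, ei q (a + k) =
    (((Icc 1 Y).filter (fun k => q ∣ a + k)).card : ℝ) := by
  unfold ei
  rw [Finset.sum_ite, Finset.sum_const_zero, add_zero, Finset.sum_const, nsmul_eq_mul, mul_one]

private theorem sum_ei2 (q r a b Y : ℕ) : ∑ k ∈ Icc 1 Y, ei q (a + k) * ei r (b + k) =
    (((Icc 1 Y).filter (fun k => q ∣ a + k ∧ r ∣ b + k)).card : ℝ) := by
  have h : ∀ k ∈ Icc 1 Y, ei q (a + k) * ei r (b + k) = if (q ∣ a + k ∧ r ∣ b + k) then (1 : ℝ) else 0 := by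
    intro k _
    unfold ei
    by_cases h1 : q ∣ a + k <;> by_cases h2 : r ∣ b + k <;> simp [h1, h2]
  rw [Finset.sum_congr rfl h, Finset.sum_ite, Finset.sum_const_zero, add_zero, Finset.sum_const, nsmul_eq_mul,
    mul_one]

/-- two different primes: partial sums of the correlation are bounded by 4 -/
theorem epr (d p r a b Y : ℕ) (hd : 1 ≤ d) (hp : p.Prime) (hr : r.Prime) (hne : p ≠ r)
    (hdp : Nat.Coprime d p) (hdr : Nat.Coprime d r) :
    |∑ k ∈ Icc 1 Y, ef d p (a + k) * ef d r (b + k)| ≤ 4 := by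
  by_cases hex : ∃ k0, d ∣ a + k0 ∧ d ∣ b + k0
  swap
  · have hz : ∀ k ∈ Icc 1 Y, ef d p (a + k) * ef d r (b + k) = 0 := by
      intro k _
      unfold ef ei
      by_cases h1 : d ∣ a + k
      · by_cases h2 : d ∣ b + k
        · exact absurd ⟨k, h1, h2⟩ hex
        · simp [h2]
      · simp [h1]
    rw [Finset.sum_eq_zero hz]
    norm_num
  obtain ⟨k0, h1, h2⟩ := hex
  have hiff : ∀ k, d ∣ a + k ↔ d ∣ b + k := by
    intro k
    have e1 : ((d : ℤ) ∣ (a : ℤ) + k0) := by exact_mod_cast h1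
    have e2 : ((d : ℤ) ∣ (b : ℤ) + k0) := by exact_mod_cast h2
    have e3 : (d : ℤ) ∣ (a : ℤ) - b := by
      have := dvd_sub e1 e2
      rwa [show (a : ℤ) + k0 - (b + k0) = a - b by ring] at this
    constructor
    · intro h
      have h' : ((d : ℤ) ∣ (a : ℤ) + k) := by exact_mod_cast h
      have := dvd_sub h' e3
      rw [show (a : ℤ) + k - (a - b) = b + k by ring] at this
      exact_mod_cast this
    · intro h
      have h' : ((d : ℤ) ∣ (b : ℤ) + k) := by exact_mod_cast h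
      have := dvd_add h' e3
      rw [show (b : ℤ) + k + (a - b) = a + k by ring] at this
      exact_mod_cast this
  have hp0 : (0 : ℝ) < p := by exact_mod_cast hp.pos
  have hr0 : (0 : ℝ) < r := by exact_mod_cast hr.pos
  have hd0 : (0 : ℝ) < d := by exact_mod_cast hd
  have hprod : ∀ n, ei d n * ei p n = ei (d * p) n := by
    intro n
    unfold ei
    by_cases u1 : d ∣ n <;> by_cases u2 : p ∣ n
    · simp [u1, u2, Nat.Coprime.mul_dvd_of_dvd_of_dvd hdp u1 u2]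
    · have : ¬ d * p ∣ n := fun h => u2 (dvd_trans (dvd_mul_left _ _) h)
      simp [u2, this]
    · have : ¬ d * p ∣ n := fun h => u1 (dvd_trans (dvd_mul_right _ _) h)
      simp [u1, this]
    · have : ¬ d * p ∣ n := fun h => u1 (dvd_trans (dvd_mul_right _ _) h)
      simp [u1, this]
  have hexp : ∀ k ∈ Icc 1 Y, ef d p (a + k) * ef d r (b + k) =
      ei (d * p) (a + k) * ei r (b + k) - 1 / (r : ℝ) * ei (d * p) (a + k) -
        1 / (p : ℝ) * (ei d (a + k) * ei r (b + k)) + 1 / ((p : ℝ) * r) * ei d (a + k) := by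
    intro k _
    have e1 : ei d (b + k) = ei d (a + k) := by
      unfold ei
      by_cases h : d ∣ a + k
      · simp [h, (hiff k).1 h]
      · have : ¬ d ∣ b + k := fun h' => h ((hiff k).2 h')
        simp [h, this]
    have e2 : ei d (a + k) * ei d (a + k) = ei d (a + k) := by unfold ei; split_ifs <;> norm_num
    unfold ef
    rw [e1, ← hprod]
    have e3 : ei d (a + k) * (ei p (a + k) - 1 / (p : ℝ)) * (ei d (a + k) * (ei r (b + k) - 1 / (r : ℝ))) =
        (ei d (a + k) * ei d (a + k)) * ((ei p (a + k) - 1 / (p : ℝ)) * (ei r (b + k) - 1 / (r : ℝ))) := by ring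
    rw [e3, e2]
    field_simp
    ring
  rw [Finset.sum_congr rfl hexp, Finset.sum_add_distrib, Finset.sum_sub_distrib, Finset.sum_sub_distrib,
    ← Finset.mul_sum, ← Finset.mul_sum, ← Finset.mul_sum, sum_ei2, sum_ei, sum_ei2, sum_ei]
  have c1 := ecn2 (d * p) r a b Y (Nat.mul_pos hd hp.pos) hr.one_lt.le
    (Nat.Coprime.mul_left hdr ((Nat.coprime_primes hp hr).2 hne))
  have c2 := ecn1 (d * p) a Y (Nat.mul_pos hd hp.pos)
  have c3 := ecn2 d r a b Y hd hr.one_lt.le hdr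
  have c4 := ecn1 d a Y hd
  set N1 := (((Icc 1 Y).filter (fun k => d * p ∣ a + k ∧ r ∣ b + k)).card : ℝ) with hN1
  set N2 := (((Icc 1 Y).filter (fun k => d * p ∣ a + k)).card : ℝ) with hN2
  set N3 := (((Icc 1 Y).filter (fun k => d ∣ a + k ∧ r ∣ b + k)).card : ℝ) with hN3
  set N4 := (((Icc 1 Y).filter (fun k => d ∣ a + k)).card : ℝ) with hN4
  push_cast at c1 c2
  have key : N1 - 1 / (r : ℝ) * N2 - 1 / (p : ℝ) * N3 + 1 / ((p : ℝ) * r) * N4 =
      (N1 - (Y : ℝ) / (d * p * r)) - 1 / (r : ℝ) * (N2 - (Y : ℝ) / (d * p)) -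
        1 / (p : ℝ) * (N3 - (Y : ℝ) / (d * r)) + 1 / ((p : ℝ) * r) * (N4 - (Y : ℝ) / d) := by
    field_simp
    ring
  rw [key]
  have hp1 : (1 : ℝ) ≤ p := by exact_mod_cast hp.one_lt.le
  have hr1 : (1 : ℝ) ≤ r := by exact_mod_cast hr.one_lt.le
  have i1 : 1 / (r : ℝ) ≤ 1 := by rw [div_le_one hr0]; exact hr1
  have i2 : 1 / (p : ℝ) ≤ 1 := by rw [div_le_one hp0]; exact hp1
  have i3 : 1 / ((p : ℝ) * r) ≤ 1 := by
    rw [div_le_one (by positivity)]
    nlinarith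
  have j : ∀ c x : ℝ, 0 ≤ c → c ≤ 1 → |x| ≤ 1 → |c * x| ≤ 1 := by
    intro c x hc hc1 hx
    rw [abs_mul, abs_of_nonneg hc]
    calc c * |x| ≤ 1 * 1 := mul_le_mul hc1 hx (abs_nonneg _) zero_le_one
      _ = 1 := by norm_num
  have j2 := j _ _ (by positivity : 0 ≤ 1 / (r : ℝ)) i1 c2
  have j3 := j _ _ (by positivity : 0 ≤ 1 / (p : ℝ)) i2 c3
  have j4 := j _ _ (by positivity : 0 ≤ 1 / ((p : ℝ) * r)) i3 c4
  rw [abs_le] at c1 j2 j3 j4 ⊢
  constructor <;> linarith [c1.1, c1.2, j2.1, j2.2, j3.1, j3.2, j4.1, j4.2]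

/-- one prime -/
theorem epd (d p a b X : ℕ) (hp : p.Prime) (hpX : p ≤ X) :
    ∑ k ∈ Icc 1 X, |ef d p (a + k)| * |ef d p (b + k)| ≤
      (if (p : ℤ) ∣ (a : ℤ) - b then 2 * (X : ℝ) / p else 0) + 5 * (X : ℝ) / (p : ℝ) ^ 2 := by
  have hp0 : (0 : ℝ) < p := by exact_mod_cast hp.pos
  have hp1 : (1 : ℝ) ≤ p := by exact_mod_cast hp.one_lt.le
  have hb : ∀ n, |ef d p n| ≤ ei p n + 1 / (p : ℝ) := by
    intro n
    unfold ef
    rw [abs_mul, abs_of_nonneg (ei_nonneg d n)]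
    have h1 : |ei p n - 1 / (p : ℝ)| ≤ ei p n + 1 / (p : ℝ) := by
      refine le_trans (abs_sub _ _) ?_
      rw [abs_of_nonneg (ei_nonneg p n), abs_of_nonneg (by positivity : 0 ≤ 1 / (p : ℝ))]
    calc ei d n * |ei p n - 1 / (p : ℝ)| ≤ 1 * |ei p n - 1 / (p : ℝ)| :=
          mul_le_mul_of_nonneg_right (ei_le d n) (abs_nonneg _)
      _ ≤ _ := by rw [one_mul]; exact h1
  have h1 : ∑ k ∈ Icc 1 X, |ef d p (a + k)| * |ef d p (b + k)| ≤
      ∑ k ∈ Icc 1 X, (ei p (a + k) * ei p (b + k) + 1 / (p : ℝ) * ei p (a + k) + 1 / (p : ℝ) * ei p (b + k) +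
        1 / (p : ℝ) ^ 2) := by
    refine Finset.sum_le_sum fun k _ => ?_
    have := mul_le_mul (hb (a + k)) (hb (b + k)) (abs_nonneg _)
      (add_nonneg (ei_nonneg _ _) (by positivity : 0 ≤ 1 / (p : ℝ)))
    refine le_trans this (le_of_eq ?_)
    field_simp
    ring
  refine le_trans h1 ?_
  rw [Finset.sum_add_distrib, Finset.sum_add_distrib, Finset.sum_add_distrib, ← Finset.mul_sum, ← Finset.mul_sum,
    sum_ei, sum_ei, Finset.sum_const, Nat.card_Icc, Nat.add_sub_cancel, nsmul_eq_mul]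
  have c1 := ecn1 p a X hp.one_lt.le
  have c2 := ecn1 p b X hp.one_lt.le
  rw [abs_le] at c1 c2
  have hX : (p : ℝ) ≤ X := by exact_mod_cast hpX
  have hXp : 1 ≤ (X : ℝ) / p := by rw [le_div_iff₀ hp0]; linarith
  have u1 : (((Icc 1 X).filter (fun k => p ∣ a + k)).card : ℝ) ≤ 2 * ((X : ℝ) / p) := by linarith [c1.2]
  have u2 : (((Icc 1 X).filter (fun k => p ∣ b + k)).card : ℝ) ≤ 2 * ((X : ℝ) / p) := by linarith [c2.2]
  have u3 : ∑ k ∈ Icc 1 X, ei p (a + k) * ei p (b + k) ≤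
      if (p : ℤ) ∣ (a : ℤ) - b then 2 * (X : ℝ) / p else 0 := by
    split_ifs with h
    · calc ∑ k ∈ Icc 1 X, ei p (a + k) * ei p (b + k) ≤ ∑ k ∈ Icc 1 X, ei p (a + k) := by
            refine Finset.sum_le_sum fun k _ => ?_
            calc ei p (a + k) * ei p (b + k) ≤ ei p (a + k) * 1 :=
                  mul_le_mul_of_nonneg_left (ei_le _ _) (ei_nonneg _ _)
              _ = _ := mul_one _
        _ = _ := sum_ei _ _ _
        _ ≤ 2 * ((X : ℝ) / p) := u1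
        _ = 2 * (X : ℝ) / p := by ring
    · refine le_of_eq (Finset.sum_eq_zero fun k _ => ?_)
      unfold ei
      by_cases e1 : p ∣ a + k
      · by_cases e2 : p ∣ b + k
        · exfalso
          apply h
          have f1 : ((p : ℤ) ∣ (a : ℤ) + k) := by exact_mod_cast e1
          have f2 : ((p : ℤ) ∣ (b : ℤ) + k) := by exact_mod_cast e2
          have := dvd_sub f1 f2
          rwa [show (a : ℤ) + k - (b + k) = a - b by ring] at this
        · simp [e2]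
      · simp [e1]
  have v1 : 1 / (p : ℝ) * (((Icc 1 X).filter (fun k => p ∣ a + k)).card : ℝ) ≤ 2 * (X : ℝ) / (p : ℝ) ^ 2 := by
    calc _ ≤ 1 / (p : ℝ) * (2 * ((X : ℝ) / p)) := mul_le_mul_of_nonneg_left u1 (by positivity)
      _ = _ := by field_simp
  have v2 : 1 / (p : ℝ) * (((Icc 1 X).filter (fun k => p ∣ b + k)).card : ℝ) ≤ 2 * (X : ℝ) / (p : ℝ) ^ 2 := by
    calc _ ≤ 1 / (p : ℝ) * (2 * ((X : ℝ) / p)) := mul_le_mul_of_nonneg_left u2 (by positivity)
      _ = _ := by field_simp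
  have v3 : (X : ℝ) * (1 / (p : ℝ) ^ 2) = (X : ℝ) / (p : ℝ) ^ 2 := by ring
  have v4 : 5 * (X : ℝ) / (p : ℝ) ^ 2 = 2 * (X : ℝ) / (p : ℝ) ^ 2 + 2 * (X : ℝ) / (p : ℝ) ^ 2 + (X : ℝ) / (p : ℝ) ^ 2 := by
    ring
  rw [v3, v4]
  linarith

end Pool.Agent.H43.PG
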