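import Pool.Agent.H43.TQ.Low
import Pool.Agent.H43.TQ.Lam
import Pool.Agent.H43.PG.St
import Pool.Agent.H43.PG.Kp1

/-!
# Fi2: The theorem, given `LC`

PROOF. As `TQ/Fin2.lean` (copy). `ℓ = log X`. `ms2` with `A' = 3B + 40`, `B' = B + 1`, `Z = ⌈X ℓ^(-B-1)⌉₊`, `y = ⌊ℓ^C⌋`, `V(k) = Σ_m lam(m^3+k)`. For `k ∈ (Z,X]`, `n = m^3+k > Z > P2^2` (`P2^5 <= M`, and
`P2^5 M^3 <= X^2` gives `P2^20 <= X^2`, `P2 <= X^(1/10)`): `ue P P2 n ∈ {0,1}` and it is `1` iff `E2 P P2 n` (as `f2_ue`: two different primes `p, p'` of `(P,P2]` with `n/p`, `n/p'` prime would give `n = p p' <= P2^2`), so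
`Σ_m ue(m^3+k) = cE P P2 M k`. `V(k) >= M kap/log(2X^2) >= M c/(4ℓ^2)` (`TQ.lam_low`, `kp1`; `m^3+k <= M^3 + X <= 2X^2` since `M^3 <= X^2`). `S y k >= ℓ^(-1)` (`TQ.low`). If `k ∈ (Z,X]` and
`ℓ^(-B) S V < |cE - S V|` then `(cE - S V)^2 > ℓ^(-2B) ℓ^(-2) c^2 M^2/(16 ℓ^4)`; by `ms2` the number of these `k` is `<= X M^2 ℓ^(-3B-40) * 16 c^(-2) ℓ^(2B+6)/M^2 <= X ℓ^(-B-1)`. The `k <= Z`: at most
`X ℓ^(-B-1) + 1`. Total `<= X ℓ^(-B)` for `X` large.
-/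

namespace Pool.Agent.H43.PG

open Finset

private theorem f2_ue (P P2 n : ℕ) (hn : P2 * P2 < n) :
    (open Classical in TQ.ue P P2 n = if E2 P P2 n then 1 else 0) := by
  classical
  unfold TQ.ue
  split_ifs with hE
  · obtain ⟨p1, p2, hp1, hp2, e1, e2, rfl⟩ := hE
    have hmem : p1 ∈ (Ioc P P2).filter (fun p => p.Prime ∧ p ∣ p1 * p2 ∧ (p1 * p2 / p).Prime) := by
      rw [mem_filter, mem_Ioc]
      refine ⟨⟨e1, e2⟩, hp1, dvd_mul_right _ _, ?_⟩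
      rw [Nat.mul_div_cancel_left _ hp1.pos]
      exact hp2
    have hcard : ((Ioc P P2).filter (fun p => p.Prime ∧ p ∣ p1 * p2 ∧
        (p1 * p2 / p).Prime)).card = 1 := by
      rw [card_eq_one]
      refine ⟨p1, ?_⟩
      ext q
      rw [mem_singleton]
      constructor
      · intro hq
        rw [mem_filter, mem_Ioc] at hq
        obtain ⟨⟨hq1, hq2⟩, hqp, hqd, -⟩ := hq
        rw [mem_filter, mem_Ioc] at hmem
        by_contra hne
        rcases (hqp.dvd_mul).1 hqd with h | h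
        · exact hne ((Nat.prime_dvd_prime_iff_eq hqp hp1).1 h)
        · have h3 := (Nat.prime_dvd_prime_iff_eq hqp hp2).1 h
          have h4 : p1 * p2 ≤ P2 * P2 := by
            rw [← h3]
            exact Nat.mul_le_mul hmem.1.2 hq2
          omega
      · rintro rfl
        exact hmem
    rw [hcard]
    norm_num
  · have hcard : ((Ioc P P2).filter (fun p => p.Prime ∧ p ∣ n ∧ (n / p).Prime)).card = 0 := by
      rw [card_eq_zero, filter_eq_empty_iff]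
      rintro p hp ⟨hp1, hp2, hp3⟩
      rw [mem_Ioc] at hp
      exact hE ⟨p, n / p, hp1, hp3, hp.1, hp.2, (Nat.mul_div_cancel' hp2).symm⟩
    rw [hcard]
    norm_num

private theorem f2_sum (P P2 M k : ℕ) (hk : P2 * P2 < k) :
    ∑ m ∈ Icc 1 M, TQ.ue P P2 (m ^ 3 + k) = (cE P P2 M k : ℝ) := by
  classical
  unfold cE
  rw [card_filter]
  push_cast
  refine sum_congr rfl fun m _ => ?_
  rw [f2_ue P P2 (m ^ 3 + k) (by omega)]

/-- the conditions which hold for large `X` -/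
private theorem f2_large (B C c : ℝ) (a : ℕ) (hc : 0 < c) :
    ∃ X0 : ℕ, ∀ X : ℕ, X0 ≤ X → 18 ≤ Real.log X ∧
      3 * (Real.log X) ^ ((4 * a : ℕ) + B + 1) ≤ X ∧
      (C * Real.log (Real.log X)) ^ 5 ≤ c * Real.log X := by
  have h1 : ∀ᶠ x : ℝ in Filter.atTop, 18 ≤ Real.log x :=
    Real.tendsto_log_atTop.eventually_ge_atTop 18
  have h2 : ∀ᶠ x : ℝ in Filter.atTop, 3 * (Real.log x) ^ ((4 * a : ℕ) + B + 1) ≤ x := by
    have h := (isLittleO_log_rpow_rpow_atTop ((4 * a : ℕ) + B + 1) one_pos).def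
      (show (0 : ℝ) < 1 / 3 by norm_num)
    filter_upwards [h, Filter.eventually_ge_atTop 1] with x hx hx1
    have h3 : 0 ≤ Real.log x := Real.log_nonneg hx1
    rw [Real.rpow_one, Real.norm_of_nonneg (Real.rpow_nonneg h3 _),
      Real.norm_of_nonneg (by linarith)] at hx
    linarith
  have h3 : ∀ᶠ x : ℝ in Filter.atTop, (C * Real.log (Real.log x)) ^ 5 ≤ c * Real.log x := by
    have h4 : ∀ᶠ u : ℝ in Filter.atTop, (C * Real.log u) ^ 5 ≤ c * u := by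
      have h := (Real.isLittleO_pow_log_id_atTop (n := 5)).def
        (show (0 : ℝ) < c / (|C| ^ 5 + 1) by positivity)
      filter_upwards [h, Filter.eventually_ge_atTop 1] with u hu hu1
      have h5 : 0 ≤ Real.log u := Real.log_nonneg hu1
      rw [Real.norm_of_nonneg (pow_nonneg h5 _), id, Real.norm_of_nonneg (by linarith)] at hu
      have h6 : (C * Real.log u) ^ 5 ≤ |C| ^ 5 * Real.log u ^ 5 := by
        rw [mul_pow]
        apply mul_le_mul_of_nonneg_right _ (pow_nonneg h5 _)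
        rw [← abs_pow]
        exact le_abs_self _
      have h7 : |C| ^ 5 * Real.log u ^ 5 ≤ |C| ^ 5 * (c / (|C| ^ 5 + 1) * u) :=
        mul_le_mul_of_nonneg_left hu (by positivity)
      have h8 : |C| ^ 5 * (c / (|C| ^ 5 + 1) * u) ≤ c * u := by
        have h9 : |C| ^ 5 * (c / (|C| ^ 5 + 1)) ≤ c := by
          rw [mul_div_assoc', div_le_iff₀ (by positivity)]
          nlinarith [pow_nonneg (abs_nonneg C) 5]
        calc |C| ^ 5 * (c / (|C| ^ 5 + 1) * u) = (|C| ^ 5 * (c / (|C| ^ 5 + 1))) * u := by ring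
          _ ≤ c * u := mul_le_mul_of_nonneg_right h9 (by linarith)
      linarith
    exact Real.tendsto_log_atTop.eventually h4
  obtain ⟨x0, hx0⟩ := Filter.eventually_atTop.1 (h1.and (h2.and h3))
  refine ⟨⌈x0⌉₊, fun X hX => ?_⟩
  exact hx0 X ((Nat.le_ceil x0).trans (by exact_mod_cast hX))

theorem fi2 (hms0 : MsS) (ε B : ℝ) (hε : 0 < ε) (hB : 0 < B) :
    ∃ A C0 : ℝ, 0 < A ∧ 0 < C0 ∧ ∀ C : ℝ, C0 ≤ C → ∃ X0 : ℕ, ∀ X : ℕ, X0 ≤ X → ∀ M P1 P2 : ℕ,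
    (Real.log X) ^ C ≤ M → (Real.log X) ^ A ≤ P1 → 2 * P1 ≤ P2 →
    (M : ℝ) ^ 2 * (Real.log X) ^ A ≤ X * P1 → (P2 : ℝ) ^ 5 * (M : ℝ) ^ ε ≤ M →
    (P2 : ℝ) ^ 5 * (M : ℝ) ^ (3 + ε) ≤ (X : ℝ) ^ 2 →
    ((((Icc 1 X).filter (fun k => (Real.log X) ^ (-B) * (HL.S ⌊(Real.log X) ^ C⌋₊ k *
        ∑ m ∈ Icc 1 M, TQ.lam P1 P2 (m ^ 3 + k)) <
      |(cE P1 P2 M k : ℝ) - HL.S ⌊(Real.log X) ^ C⌋₊ k *
        ∑ m ∈ Icc 1 M, TQ.lam P1 P2 (m ^ 3 + k)|)).card : ℕ) : ℝ) ≤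
      X * (Real.log X) ^ (-B) := by
  classical
  obtain ⟨c, hc, hlow⟩ := TQ.low
  obtain ⟨c1, hc1, hkp⟩ := kp1
  obtain ⟨A2, C0, hA2, hC0, hms⟩ := hms0 (3 * B + 40) ε (B + 1) (by linarith) hε (by linarith)
  refine ⟨max A2 1, max C0 1, by positivity, by positivity, fun C hC => ?_⟩
  obtain ⟨X1, hX1⟩ := hms C ((le_max_left _ _).trans hC)
  have hC1 : 1 ≤ C := (le_max_right _ _).trans hC
  obtain ⟨X2, hX2⟩ := f2_large (2 * B + 2) C c 0 hc
  obtain ⟨X3, hX3⟩ : ∃ X3 : ℕ, ∀ X : ℕ, X3 ≤ X → 9 / c1 ^ 2 ≤ Real.log X := by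
    obtain ⟨x0, hx0⟩ := Filter.eventually_atTop.1
      (Real.tendsto_log_atTop.eventually_ge_atTop (9 / c1 ^ 2))
    exact ⟨⌈x0⌉₊, fun X hX => hx0 X ((Nat.le_ceil x0).trans (by exact_mod_cast hX))⟩
  refine ⟨max (max X1 X2) X3, fun X hX M P P2 hM hP hPP hMP hP2M hP2X => ?_⟩
  have hXX1 : X1 ≤ X := (le_max_left _ _).trans ((le_max_left _ _).trans hX)
  have hXX2 : X2 ≤ X := (le_max_right _ _).trans ((le_max_left _ _).trans hX)
  have hXX3 : X3 ≤ X := (le_max_right _ _).trans hX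
  obtain ⟨hl18, hl4, hl5⟩ := hX2 X hXX2
  have hlc1 := hX3 X hXX3
  set l := Real.log X with hl
  have hl0 : 0 < l := by linarith
  have hl1 : 1 ≤ l := by linarith
  have hX0 : (0 : ℝ) < X := by
    rcases Nat.eq_zero_or_pos X with h | h
    · exfalso
      rw [h, Nat.cast_zero, Real.log_zero] at hl
      linarith
    · exact_mod_cast h
  have hX1' : (1 : ℝ) ≤ X := by
    have : 0 < X := by exact_mod_cast hX0
    exact_mod_cast this
  -- `M > 0`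
  have hlC : l ≤ l ^ C := by
    conv_lhs => rw [← Real.rpow_one l]
    exact Real.rpow_le_rpow_of_exponent_le hl1 hC1
  have hM1 : (1 : ℝ) ≤ M := by linarith
  have hM0 : (0 : ℝ) < M := by linarith
  -- `P`
  have hPl : l ≤ P := by
    refine le_trans ?_ hP
    conv_lhs => rw [← Real.rpow_one l]
    exact Real.rpow_le_rpow_of_exponent_le hl1 (le_max_right _ _)
  have hPl2 : l ^ A2 ≤ P :=
    (Real.rpow_le_rpow_of_exponent_le hl1 (le_max_left _ _)).trans hP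
  have hMP2 : (M : ℝ) ^ 2 * l ^ A2 ≤ X * P :=
    (mul_le_mul_of_nonneg_left (Real.rpow_le_rpow_of_exponent_le hl1 (le_max_left _ _))
      (by positivity)).trans hMP
  have hP2N : 2 ≤ P := by
    have : (2 : ℝ) ≤ P := by linarith
    exact_mod_cast this
  have hP2P : P ≤ P2 := by omega
  have hP21 : (1 : ℝ) ≤ P2 := by
    have : 1 ≤ P2 := by omega
    exact_mod_cast this
  have hMe : (1 : ℝ) ≤ (M : ℝ) ^ ε := Real.one_le_rpow hM1 hε.le
  have hP5M : (P2 : ℝ) ^ 5 ≤ M := by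
    refine le_trans ?_ hP2M
    exact le_mul_of_one_le_right (by positivity) hMe
  have hM3e : (M : ℝ) ^ 3 ≤ (M : ℝ) ^ (3 + ε) := by
    rw [← Real.rpow_natCast]
    refine Real.rpow_le_rpow_of_exponent_le hM1 ?_
    push_cast
    linarith
  have hP5M3 : (P2 : ℝ) ^ 5 * (M : ℝ) ^ 3 ≤ (X : ℝ) ^ 2 :=
    (mul_le_mul_of_nonneg_left hM3e (by positivity)).trans hP2X
  have hM3X : (M : ℝ) ^ 3 ≤ (X : ℝ) ^ 2 := by
    refine le_trans ?_ hP5M3
    exact le_mul_of_one_le_left (by positivity) (one_le_pow₀ hP21)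
  have hP20 : (P2 : ℝ) ^ 20 ≤ (X : ℝ) ^ 2 := by
    calc (P2 : ℝ) ^ 20 = (P2 : ℝ) ^ 5 * ((P2 : ℝ) ^ 5) ^ 3 := by ring
      _ ≤ (P2 : ℝ) ^ 5 * (M : ℝ) ^ 3 :=
          mul_le_mul_of_nonneg_left (pow_le_pow_left₀ (by positivity) hP5M 3) (by positivity)
      _ ≤ _ := hP5M3
  have hP10 : (P2 : ℝ) ^ 10 ≤ X := by
    refine le_of_sq_le_sq ?_ hX0.le
    calc ((P2 : ℝ) ^ 10) ^ 2 = (P2 : ℝ) ^ 20 := by ring
      _ ≤ _ := hP20
  have hP4X : (P2 : ℝ) ^ 4 ≤ X := (pow_le_pow_right₀ hP21 (by norm_num)).trans hP10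
  have hP2Xle : (P2 : ℝ) ≤ X := by
    calc (P2 : ℝ) = (P2 : ℝ) ^ 1 := (pow_one _).symm
      _ ≤ (P2 : ℝ) ^ 10 := pow_le_pow_right₀ hP21 (by norm_num)
      _ ≤ X := hP10
  -- `3 P2^2 l^(B+1) ≤ X`
  have hXl0 : 3 * (P2 : ℝ) ^ 2 * l ^ (B + 1) ≤ X := by
    refine le_of_sq_le_sq ?_ hX0.le
    have h1 : (l ^ (B + 1)) ^ 2 * l = l ^ (((4 * 0 : ℕ) : ℝ) + (2 * B + 2) + 1) := by
      rw [← Real.rpow_natCast, ← Real.rpow_mul hl0.le]
      conv_lhs => rw [← Real.rpow_one l, ← Real.rpow_mul hl0.le, one_mul, ← Real.rpow_add hl0]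
      congr 1
      push_cast
      ring
    have h2 : 9 * (l ^ (B + 1)) ^ 2 ≤ X := by
      have h3 : 0 ≤ (l ^ (B + 1)) ^ 2 := by positivity
      have h4 : 3 * ((l ^ (B + 1)) ^ 2 * l) ≤ X := by
        rw [h1]
        exact hl4
      nlinarith
    have h5 : ∀ w : ℝ, (3 * (P2 : ℝ) ^ 2 * w) ^ 2 = (9 * w ^ 2) * (P2 : ℝ) ^ 4 := fun w => by ring
    rw [h5]
    calc (9 * (l ^ (B + 1)) ^ 2) * (P2 : ℝ) ^ 4 ≤ (X : ℝ) * (X : ℝ) :=
          mul_le_mul h2 hP4X (by positivity) hX0.le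
      _ = (X : ℝ) ^ 2 := by ring
  have hXl : 3 * (P2 : ℝ) ^ 2 ≤ X * l ^ (-(B + 1)) := by
    have h2 : (0 : ℝ) < l ^ (-(B + 1)) := Real.rpow_pos_of_pos hl0 _
    have h3 : l ^ (B + 1) * l ^ (-(B + 1)) = 1 := by
      rw [← Real.rpow_add hl0, add_neg_cancel, Real.rpow_zero]
    calc 3 * (P2 : ℝ) ^ 2 = 3 * (P2 : ℝ) ^ 2 * (l ^ (B + 1) * l ^ (-(B + 1))) := by
          rw [h3, mul_one]
      _ = (3 * (P2 : ℝ) ^ 2 * l ^ (B + 1)) * l ^ (-(B + 1)) := by ring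
      _ ≤ X * l ^ (-(B + 1)) := mul_le_mul_of_nonneg_right hXl0 h2.le
  have hP22 : (P2 : ℝ) ≤ (P2 : ℝ) ^ 2 := by
    calc (P2 : ℝ) = (P2 : ℝ) ^ 1 := (pow_one _).symm
      _ ≤ (P2 : ℝ) ^ 2 := pow_le_pow_right₀ hP21 (by norm_num)
  obtain ⟨Z, hZ⟩ : ∃ Z : ℕ, Z = ⌈(X : ℝ) * l ^ (-(B + 1))⌉₊ := ⟨_, rfl⟩
  have hZ1 : (X : ℝ) * l ^ (-(B + 1)) ≤ Z := by
    rw [hZ]
    exact Nat.le_ceil _
  have hZ2 : (Z : ℝ) ≤ X * l ^ (-(B + 1)) + 1 := by
    rw [hZ]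
    exact (Nat.ceil_lt_add_one (by positivity)).le
  have hms' := hX1 X hXX1 M Z P P2 hM hPl2 hP2P hMP2 hP2M hP2X hZ1
  have hZP : P2 * P2 ≤ Z := by
    have : ((P2 * P2 : ℕ) : ℝ) ≤ Z := by
      push_cast
      nlinarith
    exact_mod_cast this
  have hZ3 : 3 * P2 ≤ Z := by
    have : ((3 * P2 : ℕ) : ℝ) ≤ Z := by
      push_cast
      linarith
    exact_mod_cast this
  -- lower bounds
  set y := ⌊l ^ C⌋₊ with hy
  have hy3 : 3 ≤ y := by
    rw [hy]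
    refine Nat.le_floor ?_
    push_cast
    linarith
  have hS : ∀ k, l⁻¹ ≤ HL.S y k := by
    intro k
    refine le_trans ?_ (hlow y k hy3)
    have hy0 : (3 : ℝ) ≤ y := by exact_mod_cast hy3
    have hlogy : 0 < Real.log y := Real.log_pos (by linarith)
    have h1 : Real.log y ≤ C * Real.log l := by
      rw [← Real.log_rpow hl0]
      exact Real.log_le_log (by linarith) (Nat.floor_le (by positivity))
    have h2 : (Real.log y) ^ (5 : ℕ) ≤ c * l :=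
      (pow_le_pow_left₀ hlogy.le h1 5).trans hl5
    rw [show (-(5 : ℝ)) = -((5 : ℕ) : ℝ) by norm_num, Real.rpow_neg hlogy.le, Real.rpow_natCast,
      ← div_eq_mul_inv, le_div_iff₀ (by positivity), inv_mul_le_iff₀ hl0, mul_comm l c]
    exact h2
  have hkap2 : c1 / l ≤ TP.kap P P2 := by
    refine le_trans ?_ (hkp P P2 hP2N hPP)
    have h1 : (2 : ℝ) ≤ P := by exact_mod_cast hP2N
    have h2 : 0 < Real.log P := Real.log_pos (by linarith)
    refine div_le_div_of_nonneg_left hc1.le h2 ?_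
    have h3 : (P : ℝ) ≤ P2 := by exact_mod_cast hP2P
    exact Real.log_le_log (by linarith) (h3.trans hP2Xle)
  have hV : ∀ k, Z < k → k ≤ X → M * (c1 / (3 * l ^ 2)) ≤
      ∑ m ∈ Icc 1 M, TQ.lam P P2 (m ^ 3 + k) := by
    intro k hk1 hk2
    have h1 : ∀ m ∈ Icc 1 M, c1 / (3 * l ^ 2) ≤ TQ.lam P P2 (m ^ 3 + k) := by
      intro m hm
      rw [mem_Icc] at hm
      refine le_trans ?_ (TQ.lam_low P P2 (m ^ 3 + k) (by omega))
      have hkX : (k : ℝ) ≤ X := by exact_mod_cast hk2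
      have hmM : (m : ℝ) ≤ M := by exact_mod_cast hm.2
      have h2' : ((m ^ 3 + k : ℕ) : ℝ) ≤ 2 * (X : ℝ) ^ 2 := by
        push_cast
        have e1 : (m : ℝ) ^ 3 ≤ (X : ℝ) ^ 2 := (pow_le_pow_left₀ (by positivity) hmM 3).trans hM3X
        have e2 : (X : ℝ) ≤ (X : ℝ) ^ 2 := by nlinarith
        linarith
      have h3 : 2 ≤ m ^ 3 + k := by
        have h4 : 1 ≤ m ^ 3 := Nat.one_le_pow _ _ hm.1
        omega
      have h3' : (2 : ℝ) ≤ ((m ^ 3 + k : ℕ) : ℝ) := by exact_mod_cast h3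
      have h5 : Real.log ((m ^ 3 + k : ℕ) : ℝ) ≤ 3 * l := by
        calc Real.log ((m ^ 3 + k : ℕ) : ℝ) ≤ Real.log (2 * (X : ℝ) ^ 2) :=
              Real.log_le_log (by linarith) h2'
          _ = Real.log 2 + 2 * l := by
              rw [Real.log_mul (by norm_num) (by positivity), Real.log_pow]
              push_cast
              ring
          _ ≤ 3 * l := by
              have := Real.log_two_lt_d9
              linarith
      have h6 : 0 < Real.log ((m ^ 3 + k : ℕ) : ℝ) := Real.log_pos (by linarith)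
      calc c1 / (3 * l ^ 2) = (c1 / l) / (3 * l) := by
            field_simp
        _ ≤ (c1 / l) / Real.log ((m ^ 3 + k : ℕ) : ℝ) :=
            div_le_div_of_nonneg_left (by positivity) h6 h5
        _ ≤ TP.kap P P2 / Real.log ((m ^ 3 + k : ℕ) : ℝ) :=
            div_le_div_of_nonneg_right hkap2 h6.le
    have h2 := card_nsmul_le_sum (Icc 1 M) (fun m => TQ.lam P P2 (m ^ 3 + k)) (c1 / (3 * l ^ 2)) h1
    rw [Nat.card_Icc, nsmul_eq_mul, Nat.add_sub_cancel] at h2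
    exact h2
  -- the bad `k`
  obtain ⟨bad, hbad⟩ : ∃ bad : Finset ℕ, bad = (Icc 1 X).filter (fun k => l ^ (-B) * (HL.S y k *
        ∑ m ∈ Icc 1 M, TQ.lam P P2 (m ^ 3 + k)) <
      |(cE P P2 M k : ℝ) - HL.S y k * ∑ m ∈ Icc 1 M, TQ.lam P P2 (m ^ 3 + k)|) := ⟨_, rfl⟩
  rw [← hbad]
  have hsplit : bad ⊆ Icc 1 Z ∪ bad.filter (fun k => Z < k) := by
    intro k hk
    rw [mem_union]
    by_cases h : Z < k
    · exact Or.inr (mem_filter.2 ⟨hk, h⟩)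
    · left
      rw [hbad, mem_filter, mem_Icc] at hk
      rw [mem_Icc]
      omega
  have hcard1 : bad.card ≤ Z + (bad.filter (fun k => Z < k)).card := by
    calc bad.card ≤ (Icc 1 Z ∪ bad.filter (fun k => Z < k)).card := card_le_card hsplit
      _ ≤ (Icc 1 Z).card + (bad.filter (fun k => Z < k)).card := card_union_le _ _
      _ = Z + (bad.filter (fun k => Z < k)).card := by rw [Nat.card_Icc, Nat.add_sub_cancel]
  have hlB2 : (0 : ℝ) < l ^ (-B) := Real.rpow_pos_of_pos hl0 _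
  have hbig : ∀ k ∈ bad.filter (fun k => Z < k),
      (l ^ (-B) * (l⁻¹ * (M * (c1 / (3 * l ^ 2))))) ^ 2 ≤
      (∑ m ∈ Icc 1 M, TQ.ue P P2 (m ^ 3 + k) - HL.S y k *
        ∑ m ∈ Icc 1 M, TQ.lam P P2 (m ^ 3 + k)) ^ 2 := by
    intro k hk
    rw [mem_filter, hbad, mem_filter, mem_Icc] at hk
    obtain ⟨⟨⟨hk1, hk2⟩, hk3⟩, hk4⟩ := hk
    have h1 : ∑ m ∈ Icc 1 M, TQ.ue P P2 (m ^ 3 + k) = (cE P P2 M k : ℝ) :=
      f2_sum P P2 M k (lt_of_le_of_lt hZP hk4)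
    rw [h1]
    rw [← sq_abs ((cE P P2 M k : ℝ) - _)]
    refine pow_le_pow_left₀ (by positivity) ?_ 2
    refine le_trans ?_ hk3.le
    refine mul_le_mul_of_nonneg_left ?_ hlB2.le
    exact mul_le_mul (hS k) (hV k hk4 hk2) (by positivity) ((inv_pos.2 hl0).le.trans (hS k))
  have hsum : ((bad.filter (fun k => Z < k)).card : ℝ) *
      (l ^ (-B) * (l⁻¹ * (M * (c1 / (3 * l ^ 2))))) ^ 2 ≤
      X * (M : ℝ) ^ 2 * l ^ (-(3 * B + 40)) := by
    have h1 := card_nsmul_le_sum (bad.filter (fun k => Z < k)) _ _ hbig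
    rw [nsmul_eq_mul] at h1
    refine h1.trans (le_trans ?_ hms')
    refine sum_le_sum_of_subset_of_nonneg ?_ fun k _ _ => sq_nonneg _
    intro k hk
    rw [mem_filter, hbad, mem_filter, mem_Icc] at hk
    rw [mem_Ioc]
    exact ⟨hk.2, hk.1.1.2⟩
  -- conclusion
  have hl2B : (l ^ (-B)) ^ 2 = l ^ (-(2 * B)) := by
    rw [← Real.rpow_natCast, ← Real.rpow_mul hl0.le]
    congr 1
    push_cast
    ring
  have hexp : l ^ (-(3 * B + 40)) = l ^ (-(2 * B)) * (l ^ (-(B + 1)) * l ^ (-(39 : ℝ))) := by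
    rw [← Real.rpow_add hl0, ← Real.rpow_add hl0]
    congr 1
    ring
  have h39 : l ^ (-(39 : ℝ)) = (l ^ 39)⁻¹ := by
    rw [Real.rpow_neg hl0.le]
    congr 1
    exact_mod_cast Real.rpow_natCast l 39
  have hcard2 : ((bad.filter (fun k => Z < k)).card : ℝ) ≤ X * l ^ (-(B + 1)) := by
    have e1 : (l ^ (-B) * (l⁻¹ * (M * (c1 / (3 * l ^ 2))))) ^ 2 =
        l ^ (-(2 * B)) * ((M : ℝ) ^ 2 * (c1 ^ 2 / (9 * l ^ 6))) := by
      rw [mul_pow, hl2B]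
      congr 1
      field_simp
      norm_num
    rw [e1, hexp, h39] at hsum
    have hpos : 0 < l ^ (-(2 * B)) * (M : ℝ) ^ 2 := by positivity
    have h2 : ((bad.filter (fun k => Z < k)).card : ℝ) * (c1 ^ 2 / (9 * l ^ 6)) ≤
        X * (l ^ (-(B + 1)) * (l ^ 39)⁻¹) := by
      refine le_of_mul_le_mul_left ?_ hpos
      calc l ^ (-(2 * B)) * (M : ℝ) ^ 2 *
            (((bad.filter (fun k => Z < k)).card : ℝ) * (c1 ^ 2 / (9 * l ^ 6))) =
          ((bad.filter (fun k => Z < k)).card : ℝ) *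
            (l ^ (-(2 * B)) * ((M : ℝ) ^ 2 * (c1 ^ 2 / (9 * l ^ 6)))) := by ring
        _ ≤ _ := hsum
        _ = _ := by ring
    have h3 : ((bad.filter (fun k => Z < k)).card : ℝ) ≤
        X * (l ^ (-(B + 1)) * (l ^ 39)⁻¹) * (9 / c1 ^ 2 * l ^ 6) := by
      have h4 : (0 : ℝ) < 9 / c1 ^ 2 * l ^ 6 := by positivity
      have h5 := mul_le_mul_of_nonneg_right h2 h4.le
      have h6 : ((bad.filter (fun k => Z < k)).card : ℝ) * (c1 ^ 2 / (9 * l ^ 6)) *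
          (9 / c1 ^ 2 * l ^ 6) = ((bad.filter (fun k => Z < k)).card : ℝ) := by
        field_simp
      rwa [h6] at h5
    refine h3.trans ?_
    have h4 : (l ^ 39)⁻¹ * (9 / c1 ^ 2 * l ^ 6) ≤ 1 := by
      rw [inv_mul_le_iff₀ (by positivity), mul_one]
      calc 9 / c1 ^ 2 * l ^ 6 ≤ l * l ^ 6 := mul_le_mul_of_nonneg_right hlc1 (by positivity)
        _ = l ^ 7 := by ring
        _ ≤ l ^ 39 := pow_le_pow_right₀ hl1 (by norm_num)
    calc X * (l ^ (-(B + 1)) * (l ^ 39)⁻¹) * (9 / c1 ^ 2 * l ^ 6) =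
        X * l ^ (-(B + 1)) * ((l ^ 39)⁻¹ * (9 / c1 ^ 2 * l ^ 6)) := by ring
      _ ≤ X * l ^ (-(B + 1)) * 1 := mul_le_mul_of_nonneg_left h4 (by positivity)
      _ = X * l ^ (-(B + 1)) := mul_one _
  have hcard3 : (bad.card : ℝ) ≤ Z + ((bad.filter (fun k => Z < k)).card : ℝ) := by
    exact_mod_cast hcard1
  have hone : (1 : ℝ) ≤ X * l ^ (-(B + 1)) := by nlinarith
  have hfin : 18 * (X * l ^ (-(B + 1))) ≤ X * l ^ (-B) := by
    have h1 : l ^ (-B) = l * l ^ (-(B + 1)) := by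
      conv_rhs => rw [← Real.rpow_one l, ← Real.rpow_mul hl0.le, one_mul, ← Real.rpow_add hl0]
      congr 1
      ring
    rw [h1]
    calc 18 * (X * l ^ (-(B + 1))) ≤ l * (X * l ^ (-(B + 1))) :=
          mul_le_mul_of_nonneg_right hl18 (by positivity)
      _ = X * (l * l ^ (-(B + 1))) := by ring
  linarith

end Pool.Agent.H43.PG
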