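import Pool.Agent.H43.TP.Mw
import Pool.Agent.H43.PG.Defs
import Pool.Agent.H43.PG.Tu1
import Pool.Agent.H43.TQ.Lam
import Pool.Agent.H43.HY.Fz

/-!
# [H43 PG FZ1] Windows of `ae`

PROOF. As `HY/Fz.lean` and `TQ/Fa2.lean`. `ℓ = log X`. `tu1` with `(B, A+2)`. For `n ∈ (X,2X]`: `Σ_{m∈window, m%q=c} ae P P2 Q m = (Σ ue - 1[(c,q)=1] lam(n) H/φ(q))
- lam(n) (Σ lq - 1[(c,q)=1] H/φ(q)) - Σ (lam m - lam n) lq Q m`. Second: `<= ℓ * 2Q^2` (`TP.mw`; `0 <= lam <= kap <= 1 + log P2 <= ℓ`: `TQ.lam_nonneg, lam_le, kap_le`, `3 P2 <= X < n`).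
Third: `|lam m - lam n| <= kap (m-n)/n <= ℓ H/X` (`TQ.lam_lip`, `lam_anti`), `|lq| <= Q` (`HY.fz_lq`), at most `H` terms: `<= ℓ H^2 Q/X <= H ℓ^(1+B-A1)`. Squares (`<= 3(..)`), at most `X+1`
values of `n`: `3X H^2 ℓ^(-A-2) + 3(X+1) 4 ℓ^2 Q^4 + 3(X+1) H^2 ℓ^(2+2B-2A1) <= X H^2 ℓ^(-A)`, if `A1 >= B + A/2 + 3` and `C1 >= 2B + A/2 + 3` (`H >= P2 ℓ^C1 >= ℓ^C1`).
(`(a+b+c)^2 <= 3a^2+3b^2+3c^2`.)
-/

namespace Pool.Agent.H43.PG

open Finset Pool.Agent.H43.TQ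

theorem fz1_win (X κ : ℝ) (P P2 Q q c n H : ℕ) (hX : 10 ≤ X) (hn : X < n) (hP2 : 3 * P2 ≤ n)
    (hκ : TP.kap P P2 ≤ κ) (hq : 1 ≤ q) (hqQ : q ≤ Q) (hc : c < q) :
    (∑ m ∈ (Ioc n (n + H)).filter (fun m => m % q = c), ae P P2 Q m) ^ 2 ≤
      3 * (∑ m ∈ (Ioc n (n + H)).filter (fun m => m % q = c), ue P P2 m -
        (if Nat.Coprime c q then lam P P2 n * H / q.totient else 0)) ^ 2 +
        12 * (κ ^ 2 * (Q : ℝ) ^ 4) +
        3 * ((H : ℝ) * (κ * ((H : ℝ) / X) * Q)) ^ 2 := by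
  have hX0 : (0 : ℝ) < X := by linarith
  have hn0 : (0 : ℝ) < n := by linarith
  have hκ0 : 0 ≤ κ := by
    refine le_trans ?_ hκ
    unfold TP.kap
    exact Finset.sum_nonneg fun p _ => by positivity
  obtain ⟨W, hW⟩ : ∃ W : Finset ℕ, W = (Ioc n (n + H)).filter (fun m => m % q = c) := ⟨_, rfl⟩
  have hcard : (W.card : ℝ) ≤ H := by
    have h1 : W.card ≤ H := by
      rw [hW]
      refine (card_filter_le _ _).trans ?_
      rw [Nat.card_Ioc]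
      omega
    exact_mod_cast h1
  have hmw := TP.mw Q q c n H hq hqQ hc
  rw [← hW] at hmw ⊢
  obtain ⟨T, hT⟩ : ∃ T : ℝ, T = ∑ m ∈ W, (lam P P2 m - lam P P2 n) * TP.lq Q m := ⟨_, rfl⟩
  have hTb : |T| ≤ (H : ℝ) * (κ * ((H : ℝ) / X) * Q) := by
    rw [hT]
    refine (abs_sum_le_sum_abs _ _).trans ?_
    have h1 : ∀ m ∈ W, |(lam P P2 m - lam P P2 n) * TP.lq Q m| ≤ κ * ((H : ℝ) / X) * Q := by
      intro m hm
      rw [hW, mem_filter, mem_Ioc] at hm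
      rw [abs_mul]
      refine mul_le_mul ?_ (HY.fz_lq Q m) (abs_nonneg _) (by positivity)
      have h2 := lam_anti P P2 n m hP2 hm.1.1.le
      have h3 := lam_lip P P2 n m hP2 hm.1.1.le
      rw [abs_sub_comm, abs_of_nonneg (by linarith)]
      refine h3.trans ?_
      have h4 : (n : ℝ) ≤ m := by exact_mod_cast hm.1.1.le
      have h5 : (m : ℝ) - n ≤ H := by
        have h6 : (m : ℝ) ≤ n + H := by exact_mod_cast hm.1.2
        linarith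
      have h6 : ((m : ℝ) - n) / n ≤ (H : ℝ) / X :=
        div_le_div₀ (by positivity) h5 hX0 hn.le
      exact mul_le_mul hκ h6 (div_nonneg (by linarith) hn0.le) hκ0
    refine (sum_le_sum h1).trans ?_
    rw [sum_const, nsmul_eq_mul]
    exact mul_le_mul_of_nonneg_right hcard (by positivity)
  obtain ⟨D, hD⟩ : ∃ D : ℝ, D = (if Nat.Coprime c q then (H : ℝ) / q.totient else 0) := ⟨_, rfl⟩
  have hD2 : (if Nat.Coprime c q then lam P P2 n * H / q.totient else 0) = lam P P2 n * D := by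
    rw [hD]
    split_ifs
    · ring
    · ring
  obtain ⟨R, hR⟩ : ∃ R : ℝ, R = ∑ m ∈ W, ue P P2 m := ⟨_, rfl⟩
  obtain ⟨L, hL⟩ : ∃ L : ℝ, L = ∑ m ∈ W, TP.lq Q m := ⟨_, rfl⟩
  have hsplit : ∑ m ∈ W, ae P P2 Q m =
      (R - lam P P2 n * D) - lam P P2 n * (L - D) - T := by
    rw [hR, hL, hT]
    have h1 : ∀ m ∈ W, ae P P2 Q m = ue P P2 m - lam P P2 n * TP.lq Q m -
        (lam P P2 m - lam P P2 n) * TP.lq Q m := by
      intro m _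
      unfold ae
      ring
    rw [sum_congr rfl h1, sum_sub_distrib, sum_sub_distrib, ← mul_sum]
    ring
  rw [← hD, ← hL] at hmw
  rw [hD2, ← hR, hsplit]
  have hl0 := lam_nonneg P P2 n hP2
  have hl1 := (lam_le P P2 n hP2).trans hκ
  have hb : |lam P P2 n * (L - D)| ≤ κ * (2 * (Q : ℝ) ^ 2) := by
    rw [abs_mul, abs_of_nonneg hl0]
    exact mul_le_mul hl1 hmw (abs_nonneg _) hκ0
  have hb2 : (lam P P2 n * (L - D)) ^ 2 ≤ 4 * (κ ^ 2 * (Q : ℝ) ^ 4) := by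
    have h1 := pow_le_pow_left₀ (abs_nonneg _) hb 2
    rw [sq_abs] at h1
    refine h1.trans (le_of_eq ?_)
    ring
  have hc2 : T ^ 2 ≤ ((H : ℝ) * (κ * ((H : ℝ) / X) * Q)) ^ 2 := by
    have h1 := pow_le_pow_left₀ (abs_nonneg _) hTb 2
    rwa [sq_abs] at h1
  obtain ⟨a, ha⟩ : ∃ a : ℝ, a = R - lam P P2 n * D := ⟨_, rfl⟩
  obtain ⟨b, hb'⟩ : ∃ b : ℝ, b = lam P P2 n * (L - D) := ⟨_, rfl⟩
  rw [← hb'] at hb2 ⊢
  rw [← ha]
  nlinarith [sq_nonneg (a + b), sq_nonneg (a + T), sq_nonneg (b - T)]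

theorem fz1 (B A : ℝ) (hB : 0 < B) (hA : 0 < A) :
    ∃ A2 C1 A1 X0 : ℝ, 0 < A2 ∧ 0 < C1 ∧ 0 < A1 ∧ 10 ≤ X0 ∧ ∀ X : ℝ, X0 ≤ X →
    ∀ Q q c : ℕ, (Q : ℝ) ≤ (Real.log X) ^ B → 1 ≤ q → q ≤ Q → c < q → ∀ P P2 H : ℕ,
    (Real.log X) ^ A2 ≤ P → P ≤ P2 → (P2 : ℝ) ≤ X ^ ((1 : ℝ) / 13) →
    P2 * (Real.log X) ^ C1 ≤ H → (H : ℝ) ≤ X * (Real.log X) ^ (-A1) →
    ∑ n ∈ Ioc ⌊X⌋₊ ⌊2 * X⌋₊,
      (∑ m ∈ (Ioc n (n + H)).filter (fun m => m % q = c), ae P P2 Q m) ^ 2 ≤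
      X * (H : ℝ) ^ 2 * (Real.log X) ^ (-A) := by
  obtain ⟨A2, C1', A1', X0', hA2, hC1', hA1', hX0', htu⟩ := tu1 B (A + 2) hB (by linarith)
  have hlog : ∀ᶠ X : ℝ in Filter.atTop, (3 : ℝ) ≤ Real.log X :=
    Real.tendsto_log_atTop.eventually_ge_atTop 3
  obtain ⟨X1, hX1⟩ := Filter.eventually_atTop.1 hlog
  refine ⟨A2, C1' + (2 * B + A / 2 + 4), A1' + (B + A / 2 + 3), max X0' X1, hA2, by linarith,
    by linarith, hX0'.trans (le_max_left _ _), ?_⟩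
  intro X hX Q q c hQ hq hqQ hc P P2 H hP hPP hP2 hH1 hH2
  have hXX0 : X0' ≤ X := (le_max_left _ _).trans hX
  have hl3 := hX1 X ((le_max_right _ _).trans hX)
  have hX10 : 10 ≤ X := hX0'.trans hXX0
  have hXp : (0 : ℝ) < X := by linarith
  have hkap : TP.kap P P2 ≤ Real.log X := by
    refine (kap_le P P2).trans ?_
    have h1 : Real.log P2 ≤ 1 / 13 * Real.log X := by
      rcases Nat.eq_zero_or_pos P2 with h0 | h0
      · rw [h0]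
        simp
        linarith
      · have h2 := Real.log_le_log (by exact_mod_cast h0) hP2
        rwa [Real.log_rpow hXp] at h2
    linarith
  have h3P2 : 3 * (P2 : ℝ) ≤ X := by
    have h1 : X ^ ((1 : ℝ) / 13) ≤ X ^ ((1 : ℝ) / 2) :=
      Real.rpow_le_rpow_of_exponent_le (by linarith) (by norm_num)
    rw [← Real.sqrt_eq_rpow] at h1
    have h2 : 3 ≤ Real.sqrt X := by
      rw [show (3 : ℝ) = Real.sqrt 9 by
        rw [show (9 : ℝ) = 3 ^ 2 by norm_num, Real.sqrt_sq (by norm_num)]]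
      exact Real.sqrt_le_sqrt (by linarith)
    have h3 := Real.mul_self_sqrt hXp.le
    nlinarith
  obtain ⟨l, hl⟩ : ∃ l : ℝ, l = Real.log X := ⟨_, rfl⟩
  have htu' := htu X hXX0 q c hq (by
    rw [← hl] at hQ ⊢
    refine le_trans ?_ hQ
    exact_mod_cast hqQ) hc P P2 H hP hPP hP2
  rw [← hl] at hQ hP hH1 hH2 hl3 hkap htu' ⊢
  have hlp : (0 : ℝ) < l := by linarith
  have hl1 : (1 : ℝ) ≤ l := by linarith
  have hH2' : (H : ℝ) ≤ X * l ^ (-A1') := by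
    refine hH2.trans (mul_le_mul_of_nonneg_left ?_ hXp.le)
    exact Real.rpow_le_rpow_of_exponent_le hl1 (by linarith)
  have hH1' : (P2 : ℝ) * l ^ C1' ≤ H := by
    refine le_trans (mul_le_mul_of_nonneg_left ?_ (Nat.cast_nonneg _)) hH1
    exact Real.rpow_le_rpow_of_exponent_le hl1 (by linarith)
  have hmain := htu' hH1' hH2'
  have hQ0 : (0 : ℝ) ≤ Q := Nat.cast_nonneg _
  have hH0 : (0 : ℝ) ≤ H := Nat.cast_nonneg _
  have hP21 : (1 : ℝ) ≤ P2 := by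
    have h1 : (P : ℝ) ≤ P2 := by exact_mod_cast hPP
    exact ((Real.one_le_rpow hl1 hA2.le).trans hP).trans h1
  -- the sum of the pointwise bounds
  have hpt : ∀ n ∈ Ioc ⌊X⌋₊ ⌊2 * X⌋₊,
      (∑ m ∈ (Ioc n (n + H)).filter (fun m => m % q = c), ae P P2 Q m) ^ 2 ≤
      3 * (∑ m ∈ (Ioc n (n + H)).filter (fun m => m % q = c), ue P P2 m -
        (if Nat.Coprime c q then lam P P2 n * H / q.totient else 0)) ^ 2 +
        (12 * (l ^ 2 * (Q : ℝ) ^ 4) + 3 * ((H : ℝ) * (l * ((H : ℝ) / X) * Q)) ^ 2) := by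
    intro n hn
    rw [mem_Ioc] at hn
    have hnX := (Nat.floor_lt hXp.le).1 hn.1
    have h0 : 3 * P2 ≤ n := by
      have h2 : 3 * (P2 : ℝ) ≤ n := h3P2.trans hnX.le
      exact_mod_cast h2
    have h1 := fz1_win X l P P2 Q q c n H hX10 hnX h0 hkap hq hqQ hc
    linarith
  refine (sum_le_sum hpt).trans ?_
  rw [sum_add_distrib, ← mul_sum, sum_const, nsmul_eq_mul, Nat.card_Ioc]
  have hcard : ((⌊2 * X⌋₊ - ⌊X⌋₊ : ℕ) : ℝ) ≤ 2 * X := by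
    have h1 : ((⌊2 * X⌋₊ - ⌊X⌋₊ : ℕ) : ℝ) ≤ (⌊2 * X⌋₊ : ℝ) := by
      exact_mod_cast Nat.sub_le _ _
    exact h1.trans (Nat.floor_le (by linarith))
  -- first term
  obtain ⟨LA, hLA⟩ : ∃ LA : ℝ, LA = l ^ (-A) := ⟨_, rfl⟩
  have hLAp : 0 < LA := by rw [hLA]; positivity
  have hA2' : l ^ (-(A + 2)) = LA * (l ^ 2)⁻¹ := by
    rw [hLA, show -(A + 2) = -A + -2 by ring, Real.rpow_add hlp]
    congr 1
    rw [Real.rpow_neg hlp.le]
    norm_num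
  have hl2 : (l ^ 2)⁻¹ ≤ 1 / 9 := by
    rw [inv_le_comm₀ (by positivity) (by norm_num)]
    norm_num
    nlinarith
  have hfirst : 3 * (X * (H : ℝ) ^ 2 * l ^ (-(A + 2))) ≤ X * (H : ℝ) ^ 2 * LA * (1 / 3) := by
    rw [hA2']
    have h1 := mul_le_mul_of_nonneg_left hl2 (by positivity : 0 ≤ 3 * (X * (H : ℝ) ^ 2 * LA))
    linarith
  -- second term
  have hQ4 : (Q : ℝ) ^ 4 ≤ l ^ (4 * B) := by
    have h1 := pow_le_pow_left₀ hQ0 hQ 4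
    refine h1.trans (le_of_eq ?_)
    rw [← Real.rpow_natCast, ← Real.rpow_mul hlp.le]
    congr 1
    push_cast
    ring
  have hHsq : l ^ (4 * B + A + 8) ≤ (H : ℝ) ^ 2 := by
    have h1 : l ^ (2 * B + A / 2 + 4) ≤ H := by
      refine le_trans ?_ hH1
      have h2 : l ^ (2 * B + A / 2 + 4) ≤ l ^ (C1' + (2 * B + A / 2 + 4)) :=
        Real.rpow_le_rpow_of_exponent_le hl1 (by linarith)
      have h3 : 0 ≤ l ^ (C1' + (2 * B + A / 2 + 4)) := by positivity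
      nlinarith
    have h2 := pow_le_pow_left₀ (by positivity) h1 2
    refine le_trans (le_of_eq ?_) h2
    rw [← Real.rpow_natCast, ← Real.rpow_mul hlp.le]
    congr 1
    push_cast
    ring
  have hsecond : 24 * (l ^ 2 * (Q : ℝ) ^ 4) ≤ (H : ℝ) ^ 2 * LA * (1 / 3) := by
    have h1 : l ^ (4 * B + A + 8) * LA = l ^ (4 * B) * l ^ 8 := by
      rw [hLA, ← Real.rpow_natCast l 8, ← Real.rpow_add hlp, ← Real.rpow_add hlp]
      congr 1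
      push_cast
      ring
    have h2 : 72 * (l ^ 2 * l ^ (4 * B)) ≤ (H : ℝ) ^ 2 * LA := by
      refine le_trans ?_ (mul_le_mul_of_nonneg_right hHsq hLAp.le)
      rw [h1]
      have h3 : (72 : ℝ) ≤ l ^ 6 := by
        calc (72 : ℝ) ≤ 3 ^ 6 := by norm_num
          _ ≤ l ^ 6 := pow_le_pow_left₀ (by norm_num) hl3 6
      have h4 : 0 ≤ l ^ 2 * l ^ (4 * B) := by positivity
      calc 72 * (l ^ 2 * l ^ (4 * B)) ≤ l ^ 6 * (l ^ 2 * l ^ (4 * B)) :=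
            mul_le_mul_of_nonneg_right h3 h4
        _ = l ^ (4 * B) * l ^ 8 := by ring
    have h3 : l ^ 2 * (Q : ℝ) ^ 4 ≤ l ^ 2 * l ^ (4 * B) :=
      mul_le_mul_of_nonneg_left hQ4 (by positivity)
    linarith
  -- third term
  have hthird : 6 * ((H : ℝ) * (l * ((H : ℝ) / X) * Q)) ^ 2 ≤ (H : ℝ) ^ 2 * LA * (1 / 3) := by
    have h1 : (H : ℝ) / X ≤ l ^ (-(A1' + (B + A / 2 + 3))) := by
      rw [div_le_iff₀ hXp]
      linarith
    have h2 : l * ((H : ℝ) / X) * Q ≤ l ^ (-(A / 2 + 2)) := by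
      calc l * ((H : ℝ) / X) * Q ≤ l * l ^ (-(A1' + (B + A / 2 + 3))) * l ^ B :=
            mul_le_mul (mul_le_mul_of_nonneg_left h1 hlp.le) hQ hQ0 (by positivity)
        _ = l ^ (-A1' - (A / 2 + 2)) := by
            nth_rewrite 1 [← Real.rpow_one l]
            rw [← Real.rpow_add hlp, ← Real.rpow_add hlp]
            congr 1
            ring
        _ ≤ l ^ (-(A / 2 + 2)) := Real.rpow_le_rpow_of_exponent_le hl1 (by linarith)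
    have h3 : (l * ((H : ℝ) / X) * Q) ^ 2 ≤ LA * (l ^ 4)⁻¹ := by
      have h4 := pow_le_pow_left₀ (by positivity) h2 2
      refine h4.trans (le_of_eq ?_)
      rw [hLA, ← Real.rpow_natCast, ← Real.rpow_mul hlp.le]
      have h5 : -(A / 2 + 2) * ((2 : ℕ) : ℝ) = -A + -4 := by
        push_cast
        ring
      rw [h5, Real.rpow_add hlp]
      congr 1
      rw [Real.rpow_neg hlp.le]
      norm_num
    have h4 : (l ^ 4)⁻¹ ≤ 1 / 18 := by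
      rw [inv_le_comm₀ (by positivity) (by norm_num)]
      norm_num
      nlinarith [sq_nonneg (l ^ 2 - 9), mul_self_nonneg (l - 3)]
    have h5 : (l * ((H : ℝ) / X) * Q) ^ 2 ≤ LA * (1 / 18) :=
      h3.trans (mul_le_mul_of_nonneg_left h4 hLAp.le)
    have h6 := mul_le_mul_of_nonneg_left h5 (by positivity : 0 ≤ 6 * (H : ℝ) ^ 2)
    have h7 : 6 * ((H : ℝ) * (l * ((H : ℝ) / X) * Q)) ^ 2 =
        6 * (H : ℝ) ^ 2 * (l * ((H : ℝ) / X) * Q) ^ 2 := by ring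
    rw [h7]
    linarith
  have hrest : ((⌊2 * X⌋₊ - ⌊X⌋₊ : ℕ) : ℝ) * (12 * (l ^ 2 * (Q : ℝ) ^ 4) +
      3 * ((H : ℝ) * (l * ((H : ℝ) / X) * Q)) ^ 2) ≤ X * ((H : ℝ) ^ 2 * LA * (2 / 3)) := by
    calc ((⌊2 * X⌋₊ - ⌊X⌋₊ : ℕ) : ℝ) * (12 * (l ^ 2 * (Q : ℝ) ^ 4) +
          3 * ((H : ℝ) * (l * ((H : ℝ) / X) * Q)) ^ 2)
        ≤ 2 * X * (12 * (l ^ 2 * (Q : ℝ) ^ 4) +
          3 * ((H : ℝ) * (l * ((H : ℝ) / X) * Q)) ^ 2) :=
          mul_le_mul_of_nonneg_right hcard (by positivity)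
      _ = X * (24 * (l ^ 2 * (Q : ℝ) ^ 4) +
          6 * ((H : ℝ) * (l * ((H : ℝ) / X) * Q)) ^ 2) := by ring
      _ ≤ X * ((H : ℝ) ^ 2 * LA * (2 / 3)) :=
          mul_le_mul_of_nonneg_left (by linarith) hXp.le
  rw [← hLA]
  linarith

end Pool.Agent.H43.PG
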