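import Pool.Agent.H43.HY.Lgv
import Pool.Agent.H43.PG.Fz1

/-!
# [H43 PG LV1] The windows of all blocks

PROOF. Copy `HY/Lgv.lean` with `fz1` in place of `fz` and `ae P P2 Q` in place of `az Q` (`lgv_exch`, `lgv_ovl`, `lgv_sep` can be used or copied). CHANGES: `fz1` with `(B+1, A+2)` at `N = 2^i M^3/2`, `i = 0..5`,
`ℓ/2 <= log N <= 2ℓ` (`N <= 16 M^3`, `M^2 <= X`): `(log N)^A2' <= (2ℓ)^A2' <= ℓ^(A2'+1) <= P`, `P2 <= M^(1/5)`, so `P2 <= (M^3/2)^(1/13) <= N^(1/13)` for `X` large; `P2 (log N)^C1' <= P2 ℓ^(C1'+1) <= h`.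
In the cut off windows `|ae P P2 Q n| <= 2 + kap Q <= 2 ℓ Q` (`TQ.ue_le`, `lam_le`, `kap_le`, `HY.fz_lq`; `n > b^3 >= M^3 >= 3 P2`), in total `<= card bs * 2h * (2ℓQh)^2 <= M^3 h^2 ℓ^(2+2B-A1)`:
`A1 >= 2B + A + 5` and `A1 >= A1' + 1`.
-/

namespace Pool.Agent.H43.PG

open Finset

/-- sum of `ae` over a full window in a residue class -/
private noncomputable def lv1F (P P2 Q q c h x : ℕ) : ℝ :=
  ∑ n ∈ (Ioc x (x + h)).filter (fun n => n % q = c), ae P P2 Q n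

/-- sum of `ae` over a window which is cut off -/
private noncomputable def lv1G (P P2 Q q c h X b x : ℕ) : ℝ :=
  ∑ n ∈ (Ioc (x - h) x).filter (fun n => b ^ 3 < n ∧ n ≤ b ^ 3 + 2 * X ∧ n % q = c), ae P P2 Q n

private theorem lv1_good (P P2 Q q c h X b x : ℕ) (h1 : b ^ 3 + h ≤ x) (h2 : x ≤ b ^ 3 + 2 * X) :
    lv1G P P2 Q q c h X b x = lv1F P P2 Q q c h (x - h) := by
  unfold lv1G lv1F
  have h3 : x - h + h = x := by omega
  rw [h3]
  refine sum_congr ?_ fun _ _ => rfl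
  ext n
  simp only [mem_filter, mem_Ioc]
  omega

private theorem lv1_ae (P P2 Q n : ℕ) (l : ℝ) (hQ : 1 ≤ Q) (hl : 2 ≤ l)
    (hP : 1 + Real.log P2 ≤ l) (hn : 3 * P2 ≤ n) : |ae P P2 Q n| ≤ 2 * l * Q := by
  have h1 := TQ.ue_le P P2 n
  have h1' : 0 ≤ TQ.ue P P2 n := by
    unfold TQ.ue
    positivity
  have h2 := TQ.lam_nonneg P P2 n hn
  have h3 : TQ.lam P P2 n ≤ l := (TQ.lam_le P P2 n hn).trans ((TQ.kap_le P P2).trans hP)
  have h4 := HY.fz_lq Q n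
  have hQ' : (1 : ℝ) ≤ Q := by exact_mod_cast hQ
  unfold ae
  calc |TQ.ue P P2 n - TQ.lam P P2 n * TP.lq Q n|
      ≤ |TQ.ue P P2 n| + |TQ.lam P P2 n * TP.lq Q n| := abs_sub _ _
    _ ≤ 2 + l * Q := by
        rw [abs_mul, abs_of_nonneg h1', abs_of_nonneg h2]
        exact add_le_add h1 (mul_le_mul h3 h4 (abs_nonneg _) (by linarith))
    _ ≤ 2 * l * Q := by nlinarith

private theorem lv1_bad (P P2 Q q c h X b x : ℕ) (K : ℝ) (hK : 0 ≤ K)
    (hae : ∀ n, b ^ 3 < n → |ae P P2 Q n| ≤ K) :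
    lv1G P P2 Q q c h X b x ^ 2 ≤ K ^ 2 * (h : ℝ) ^ 2 := by
  have h1 : |lv1G P P2 Q q c h X b x| ≤ K * h := by
    unfold lv1G
    refine (abs_sum_le_sum_abs _ _).trans ?_
    have h2 : ∀ n ∈ (Ioc (x - h) x).filter
        (fun n => b ^ 3 < n ∧ n ≤ b ^ 3 + 2 * X ∧ n % q = c), |ae P P2 Q n| ≤ K := by
      intro n hn
      rw [mem_filter] at hn
      exact hae n hn.2.1
    refine (sum_le_card_nsmul _ _ _ h2).trans ?_
    rw [nsmul_eq_mul]
    have h4 : ((Ioc (x - h) x).filter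
        (fun n => b ^ 3 < n ∧ n ≤ b ^ 3 + 2 * X ∧ n % q = c)).card ≤ h := by
      refine (card_filter_le _ _).trans ?_
      rw [Nat.card_Ioc]
      omega
    have h5 : ((((Ioc (x - h) x).filter
        (fun n => b ^ 3 < n ∧ n ≤ b ^ 3 + 2 * X ∧ n % q = c)).card : ℕ) : ℝ) ≤ h := by
      exact_mod_cast h4
    nlinarith
  have h6 : lv1G P P2 Q q c h X b x ^ 2 ≤ (K * h) ^ 2 := by
    rw [← sq_abs]
    exact pow_le_pow_left₀ (abs_nonneg _) h1 2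
  calc _ ≤ _ := h6
    _ = _ := by ring

private theorem lv1_one (P P2 Q q c h X b : ℕ) (K : ℝ) (hK : 0 ≤ K)
    (hae : ∀ n, b ^ 3 < n → |ae P P2 Q n| ≤ K) :
    ∑ x ∈ Icc (b ^ 3 + 1) (b ^ 3 + 2 * X + h), lv1G P P2 Q q c h X b x ^ 2 ≤
      ∑ x ∈ Icc (b ^ 3) (b ^ 3 + 2 * X), lv1F P P2 Q q c h x ^ 2 +
        2 * K ^ 2 * (h : ℝ) ^ 3 := by
  rw [← sum_filter_add_sum_filter_not _ (fun x => b ^ 3 + h ≤ x ∧ x ≤ b ^ 3 + 2 * X)]
  apply add_le_add
  · have h1 : ∑ x ∈ (Icc (b ^ 3 + 1) (b ^ 3 + 2 * X + h)).filter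
        (fun x => b ^ 3 + h ≤ x ∧ x ≤ b ^ 3 + 2 * X), lv1G P P2 Q q c h X b x ^ 2 =
        ∑ x ∈ ((Icc (b ^ 3 + 1) (b ^ 3 + 2 * X + h)).filter
        (fun x => b ^ 3 + h ≤ x ∧ x ≤ b ^ 3 + 2 * X)).image (fun x => x - h),
          lv1F P P2 Q q c h x ^ 2 := by
      rw [sum_image]
      · refine sum_congr rfl fun x hx => ?_
        rw [mem_filter] at hx
        rw [lv1_good P P2 Q q c h X b x hx.2.1 hx.2.2]
      · intro x hx y hy hxy
        have hx' := (mem_filter.1 (mem_coe.1 hx)).2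
        have hy' := (mem_filter.1 (mem_coe.1 hy)).2
        simp only at hxy
        omega
    rw [h1]
    refine sum_le_sum_of_subset_of_nonneg ?_ fun _ _ _ => sq_nonneg _
    intro y hy
    rw [mem_image] at hy
    obtain ⟨x, hx, rfl⟩ := hy
    rw [mem_filter] at hx
    rw [mem_Icc]
    omega
  · have h2 : ∀ x ∈ (Icc (b ^ 3 + 1) (b ^ 3 + 2 * X + h)).filter
        (fun x => ¬ (b ^ 3 + h ≤ x ∧ x ≤ b ^ 3 + 2 * X)),
        lv1G P P2 Q q c h X b x ^ 2 ≤ K ^ 2 * (h : ℝ) ^ 2 :=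
      fun x _ => lv1_bad P P2 Q q c h X b x K hK hae
    refine (sum_le_card_nsmul _ _ _ h2).trans ?_
    rw [nsmul_eq_mul]
    have h3 : ((Icc (b ^ 3 + 1) (b ^ 3 + 2 * X + h)).filter
        (fun x => ¬ (b ^ 3 + h ≤ x ∧ x ≤ b ^ 3 + 2 * X))).card ≤ 2 * h := by
      have h4 : (Icc (b ^ 3 + 1) (b ^ 3 + 2 * X + h)).filter
          (fun x => ¬ (b ^ 3 + h ≤ x ∧ x ≤ b ^ 3 + 2 * X)) ⊆
          Ico (b ^ 3) (b ^ 3 + h) ∪ Ioc (b ^ 3 + 2 * X) (b ^ 3 + 2 * X + h) := by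
        intro x hx
        rw [mem_filter, mem_Icc] at hx
        rw [mem_union, mem_Ico, mem_Ioc]
        omega
      refine (card_le_card h4).trans ((card_union_le _ _).trans ?_)
      rw [Nat.card_Ico, Nat.card_Ioc]
      omega
    have h5 : ((((Icc (b ^ 3 + 1) (b ^ 3 + 2 * X + h)).filter
        (fun x => ¬ (b ^ 3 + h ≤ x ∧ x ≤ b ^ 3 + 2 * X))).card : ℕ) : ℝ) ≤ 2 * h := by
      exact_mod_cast h3
    calc _ ≤ (2 * h) * (K ^ 2 * (h : ℝ) ^ 2) :=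
          mul_le_mul_of_nonneg_right h5 (by positivity)
      _ = _ := by ring

/-- separated sets are small -/
private theorem lv1_sep (s : Finset ℕ) (L D : ℕ) (hL : 1 ≤ L)
    (hsep : ∀ b ∈ s, ∀ b' ∈ s, b < b' → b + L ≤ b')
    (hD : ∀ b ∈ s, ∀ b' ∈ s, b ≤ b' → b' ≤ b + D) : s.card * L ≤ D + L := by
  rcases s.eq_empty_or_nonempty with rfl | hs
  · simp
  have hm := s.min'_mem hs
  have h1 : s.card ≤ (range (D / L + 1)).card := by
    refine card_le_card_of_injOn (fun b => (b - s.min' hs) / L) ?_ ?_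
    · intro b hb
      have hb' := mem_coe.1 hb
      have h2 := hD _ hm b hb' (s.min'_le b hb')
      rw [mem_coe, mem_range, Nat.lt_succ_iff]
      exact Nat.div_le_div_right (by omega)
    · have key : ∀ b ∈ s, ∀ b' ∈ s, b < b' →
          (b - s.min' hs) / L ≠ (b' - s.min' hs) / L := by
        intro b hb b' hb' hlt h3
        have h4 := hsep b hb b' hb' hlt
        have h5 := s.min'_le b hb
        have h6 : (b - s.min' hs) / L + 1 ≤ (b' - s.min' hs) / L := by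
          rw [← Nat.add_div_right _ (by omega)]
          exact Nat.div_le_div_right (by omega)
        omega
      intro b hb b' hb' h3
      rcases lt_trichotomy b b' with h | h | h
      · exact absurd h3 (key b hb b' hb' h)
      · exact h
      · exact absurd h3.symm (key b' hb' b hb h)
  rw [card_range] at h1
  calc s.card * L ≤ (D / L + 1) * L := Nat.mul_le_mul_right _ h1
    _ = D / L * L + L := by ring
    _ ≤ D + L := Nat.add_le_add_right (Nat.div_mul_le_self D L) L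

/-- dyadic decomposition -/
private theorem lv1_dya (N : ℝ) (hN : 0 ≤ N) (f : ℕ → ℝ) (k : ℕ) :
    ∑ x ∈ Ioc ⌊N⌋₊ ⌊2 ^ k * N⌋₊, f x =
      ∑ i ∈ range k, ∑ x ∈ Ioc ⌊2 ^ i * N⌋₊ ⌊2 * (2 ^ i * N)⌋₊, f x := by
  induction k with
  | zero => simp
  | succ k ih =>
    rw [sum_range_succ, ← ih]
    have h1 : ⌊N⌋₊ ≤ ⌊2 ^ k * N⌋₊ := by
      apply Nat.floor_le_floor
      have : (1 : ℝ) ≤ 2 ^ k := one_le_pow₀ (by norm_num)
      nlinarith
    have h2 : ⌊2 ^ k * N⌋₊ ≤ ⌊2 * (2 ^ k * N)⌋₊ := by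
      apply Nat.floor_le_floor
      have : (0 : ℝ) ≤ 2 ^ k * N := by positivity
      linarith
    have h3 : (2 : ℝ) ^ (k + 1) * N = 2 * (2 ^ k * N) := by ring
    rw [h3]
    exact (sum_Ioc_consecutive f h1 h2).symm

/-- the logarithms -/
private theorem lv1_log (X M N : ℝ) (hX : 0 < X) (hM : 1 ≤ M) (h1 : X ≤ 8 * M ^ 3)
    (h2 : M ^ 2 ≤ X) (h3 : M ^ 3 / 2 ≤ N) (h4 : N ≤ 16 * M ^ 3)
    (h5 : 2 * Real.log 16 ≤ Real.log X) :
    Real.log X / 2 ≤ Real.log N ∧ Real.log N ≤ 2 * Real.log X := by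
  have hM0 : 0 < M := by linarith
  have hN : 0 < N := lt_of_lt_of_le (by positivity) h3
  constructor
  · have h6 : X / 16 ≤ N := by linarith
    have h7 := Real.log_le_log (by positivity) h6
    rw [Real.log_div hX.ne' (by norm_num)] at h7
    linarith
  · have h7 := Real.log_le_log hN h4
    rw [Real.log_mul (by norm_num) (by positivity), Real.log_pow] at h7
    have h8 := Real.log_le_log (by positivity) h2
    rw [Real.log_pow] at h8
    push_cast at h7 h8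
    linarith

theorem lv1 (B A : ℝ) (hB : 0 < B) (hA : 0 < A) :
    ∃ A2 C1 A1 : ℝ, 0 < A2 ∧ 0 < C1 ∧ 0 < A1 ∧ ∃ X0 : ℕ, 10 ≤ X0 ∧ ∀ X : ℕ, X0 ≤ X →
    ∀ M L : ℕ, X ≤ 8 * M ^ 3 → M ^ 2 ≤ X →
    X ≤ 64 * M ^ 2 * L → 4 * L ≤ M → ∀ bs : Finset ℕ, (∀ b ∈ bs, M ≤ b ∧ b ≤ 2 * M) →
    (∀ b ∈ bs, ∀ b' ∈ bs, b < b' → b + L ≤ b') →
    ∀ Q q c : ℕ, (Q : ℝ) ≤ (Real.log X) ^ B → 1 ≤ q → q ≤ Q → c < q → ∀ P P2 h : ℕ,
    (Real.log X) ^ A2 ≤ P → P ≤ P2 → P2 ^ 5 ≤ M → P2 * (Real.log X) ^ C1 ≤ h →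
    (h : ℝ) ≤ (L : ℝ) ^ 3 * (Real.log X) ^ (-A1) →
    ∑ b ∈ bs, ∑ x ∈ Icc (b ^ 3 + 1) (b ^ 3 + 2 * X + h),
      (∑ n ∈ (Ioc (x - h) x).filter (fun n => b ^ 3 < n ∧ n ≤ b ^ 3 + 2 * X ∧ n % q = c),
        ae P P2 Q n) ^ 2 ≤ (M : ℝ) ^ 3 * (h : ℝ) ^ 2 * (Real.log X) ^ (-A) := by
  obtain ⟨A2', C1', A1', X0', hA2', hC1', hA1', hX0', hfz⟩ :=
    fz1 (B + 1) (A + 2) (by linarith) (by linarith)
  have hKpos : ∀ K : ℝ, ∀ᶠ X : ℕ in Filter.atTop, K ≤ Real.log X := fun K =>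
    (Real.tendsto_log_atTop.comp tendsto_natCast_atTop_atTop).eventually_ge_atTop K
  have hX16 : ∀ᶠ X : ℕ in Filter.atTop, 16 * X0' ≤ (X : ℝ) :=
    tendsto_natCast_atTop_atTop.eventually_ge_atTop (16 * X0')
  obtain ⟨X0, hX0⟩ := Filter.eventually_atTop.1 ((hKpos (2 * Real.log 16 + 2 ^ (B + 1) +
    2 ^ A1' + 2772 * 2 ^ (A + 2) + 2 + 2 ^ A2' + 2 ^ C1')).and hX16)
  refine ⟨A2' + 1, C1' + 1, A1' + 1 + 2 * B + A + 3, by positivity, by positivity, by positivity,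
    max X0 10, le_max_right _ _, ?_⟩
  intro X hX M L hX8 hMX hXL hLM bs hbs hsep Q q c hQ hq hqQ hc P P2 h hP1 hP2 hP5 hh1 hh2
  obtain ⟨hlog, hX16'⟩ := hX0 X ((le_max_left _ _).trans hX)
  have hX10 : 10 ≤ X := (le_max_right _ _).trans hX
  set l : ℝ := Real.log X with hl
  have hp1 : (0 : ℝ) < 2 ^ (B + 1) := by positivity
  have hp2 : (0 : ℝ) < 2 ^ A1' := by positivity
  have hp3 : (0 : ℝ) < 2 ^ (A + 2) := by positivity
  have hp4 : (0 : ℝ) < Real.log 16 := Real.log_pos (by norm_num)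
  have hp5 : (0 : ℝ) < 2 ^ A2' := by positivity
  have hp6 : (0 : ℝ) < 2 ^ C1' := by positivity
  have hl2 : 2 ≤ l := by linarith
  have hl0 : 0 < l := by linarith
  have hL1 : 1 ≤ L := by
    rcases Nat.eq_zero_or_pos L with h0 | h0
    · rw [h0] at hXL
      omega
    · exact h0
  have hM4 : 4 ≤ M := by omega
  have hQ1 : 1 ≤ Q := hq.trans hqQ
  have hMR : (4 : ℝ) ≤ M := by exact_mod_cast hM4
  have hM0 : (0 : ℝ) < M := by linarith
  have hLR : (1 : ℝ) ≤ L := by exact_mod_cast hL1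
  have hQR : (1 : ℝ) ≤ Q := by exact_mod_cast hQ1
  have hXR : (10 : ℝ) ≤ X := by exact_mod_cast hX10
  have hX8R : (X : ℝ) ≤ 8 * (M : ℝ) ^ 3 := by exact_mod_cast hX8
  have hMXR : (M : ℝ) ^ 2 ≤ X := by exact_mod_cast hMX
  have hLMR : 4 * (L : ℝ) ≤ M := by exact_mod_cast hLM
  -- the numbers `P2`
  have hP2M : P2 ≤ M := by
    rcases Nat.eq_zero_or_pos P2 with h0 | h0
    · omega
    · exact (Nat.le_self_pow (by norm_num) P2).trans hP5
  have hP2l : 1 + Real.log P2 ≤ l := by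
    have h1 : Real.log P2 ≤ Real.log M := by
      rcases Nat.eq_zero_or_pos P2 with h0 | h0
      · rw [h0, Nat.cast_zero, Real.log_zero]
        exact Real.log_nonneg (by linarith)
      · exact Real.log_le_log (by exact_mod_cast h0) (by exact_mod_cast hP2M)
    have h2 : 2 * Real.log M ≤ l := by
      have h3 := Real.log_le_log (by positivity) hMXR
      rw [Real.log_pow] at h3
      push_cast at h3
      exact h3
    linarith
  have hP13 : (P2 : ℝ) ^ 13 ≤ (M : ℝ) ^ 3 / 2 := by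
    have h15 : (P2 : ℝ) ^ 15 ≤ (M : ℝ) ^ 3 := by
      have h1 : ((P2 : ℝ) ^ 5) ^ 3 ≤ (M : ℝ) ^ 3 :=
        pow_le_pow_left₀ (by positivity) (by exact_mod_cast hP5) 3
      calc (P2 : ℝ) ^ 15 = ((P2 : ℝ) ^ 5) ^ 3 := by ring
        _ ≤ _ := h1
    rcases Nat.lt_or_ge P2 2 with h0 | h0
    · have h1 : (P2 : ℝ) ≤ 1 := by exact_mod_cast (by omega : P2 ≤ 1)
      have h2 : (P2 : ℝ) ^ 13 ≤ 1 := pow_le_one₀ (by positivity) h1
      have h3 : (4 : ℝ) ^ 3 ≤ (M : ℝ) ^ 3 := pow_le_pow_left₀ (by norm_num) hMR 3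
      linarith
    · have h1 : (2 : ℝ) ≤ P2 := by exact_mod_cast h0
      have h2 : (2 : ℝ) * (P2 : ℝ) ^ 13 ≤ (P2 : ℝ) ^ 15 := by
        have h3 : (P2 : ℝ) ^ 15 = (P2 : ℝ) ^ 2 * (P2 : ℝ) ^ 13 := by ring
        rw [h3]
        have h4 : (0 : ℝ) ≤ (P2 : ℝ) ^ 13 := by positivity
        have h5 : (2 : ℝ) ≤ (P2 : ℝ) ^ 2 := by nlinarith
        exact mul_le_mul_of_nonneg_right h5 h4
      linarith
  have hae : ∀ b ∈ bs, ∀ n, b ^ 3 < n → |ae P P2 Q n| ≤ 2 * l * Q := by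
    intro b hb n hn
    refine lv1_ae P P2 Q n l hQ1 hl2 hP2l ?_
    have h1 := (hbs b hb).1
    have h2 : M ^ 3 ≤ b ^ 3 := Nat.pow_le_pow_left h1 3
    have h3 : M ^ 3 = M * M ^ 2 := by ring
    have h4 : 4 ^ 2 ≤ M ^ 2 := Nat.pow_le_pow_left hM4 2
    have h5 : M * 4 ^ 2 ≤ M * M ^ 2 := Nat.mul_le_mul_left _ h4
    omega
  -- step 1
  have s1 : ∑ b ∈ bs, ∑ x ∈ Icc (b ^ 3 + 1) (b ^ 3 + 2 * X + h), lv1G P P2 Q q c h X b x ^ 2 ≤
      44 * ∑ x ∈ Icc (M ^ 3) (32 * M ^ 3), lv1F P P2 Q q c h x ^ 2 +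
        bs.card * (2 * (2 * l * Q) ^ 2 * (h : ℝ) ^ 3) := by
    have h1 := sum_le_sum fun b (hb : b ∈ bs) =>
      lv1_one P P2 Q q c h X b (2 * l * Q) (by positivity) (hae b hb)
    rw [sum_add_distrib, sum_const, nsmul_eq_mul] at h1
    have h2 := HY.lgv_exch bs M L X hL1 (by omega) hXL hX8 hbs hsep
      (fun x => lv1F P P2 Q q c h x ^ 2) (fun x => sq_nonneg _)
    exact h1.trans (by linarith)
  -- step 2: the number of blocks
  have s2 : (bs.card : ℝ) * (h : ℝ) ≤ (M : ℝ) ^ 3 / 8 * l ^ (-(A1' + 1 + 2 * B + A + 3)) := by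
    have h1 : bs.card * L ≤ M + L := lv1_sep bs L M hL1 hsep (by
      intro b hb b' hb' _
      have := (hbs b hb).1
      have := (hbs b' hb').2
      omega)
    have h2 : (bs.card : ℝ) * L ≤ 2 * M := by
      have h3 : (bs.card : ℝ) * L ≤ M + L := by exact_mod_cast h1
      linarith
    have hl' : 0 < l ^ (-(A1' + 1 + 2 * B + A + 3)) := Real.rpow_pos_of_pos hl0 _
    calc (bs.card : ℝ) * (h : ℝ)
        ≤ bs.card * ((L : ℝ) ^ 3 * l ^ (-(A1' + 1 + 2 * B + A + 3))) :=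
          mul_le_mul_of_nonneg_left hh2 (by positivity)
      _ = (bs.card * L) * ((L : ℝ) ^ 2 * l ^ (-(A1' + 1 + 2 * B + A + 3))) := by ring
      _ ≤ (2 * M) * ((L : ℝ) ^ 2 * l ^ (-(A1' + 1 + 2 * B + A + 3))) :=
          mul_le_mul_of_nonneg_right h2 (by positivity)
      _ ≤ (2 * M) * (((M : ℝ) / 4) ^ 2 * l ^ (-(A1' + 1 + 2 * B + A + 3))) := by
          have h5 : (L : ℝ) ^ 2 ≤ ((M : ℝ) / 4) ^ 2 :=
            pow_le_pow_left₀ (by positivity) (by linarith) 2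
          exact mul_le_mul_of_nonneg_left (mul_le_mul_of_nonneg_right h5 hl'.le) (by positivity)
      _ = _ := by ring
  -- step 3: the dyadic ranges
  have s3 : ∀ i ∈ range 6, ∑ x ∈ Ioc ⌊2 ^ i * ((M : ℝ) ^ 3 / 2)⌋₊
      ⌊2 * (2 ^ i * ((M : ℝ) ^ 3 / 2))⌋₊, lv1F P P2 Q q c h x ^ 2 ≤
      (2 ^ i * ((M : ℝ) ^ 3 / 2)) * (h : ℝ) ^ 2 * (l / 2) ^ (-(A + 2)) := by
    intro i hi
    have hi5 : i ≤ 5 := by
      have := mem_range.1 hi
      omega
    set N : ℝ := 2 ^ i * ((M : ℝ) ^ 3 / 2) with hN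
    have hi1 : (1 : ℝ) ≤ 2 ^ i := one_le_pow₀ (by norm_num)
    have hi2 : (2 : ℝ) ^ i ≤ 2 ^ 5 := pow_le_pow_right₀ (by norm_num) hi5
    have hM3 : (0 : ℝ) < (M : ℝ) ^ 3 := by positivity
    have hN1 : (M : ℝ) ^ 3 / 2 ≤ N := by
      rw [hN]
      nlinarith
    have hN2 : N ≤ 16 * (M : ℝ) ^ 3 := by
      rw [hN]
      nlinarith
    have hN0 : 0 < N := by positivity
    obtain ⟨hlN1, hlN2⟩ := lv1_log X M N (by linarith) (by linarith) hX8R hMXR hN1 hN2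
      (by linarith)
    have hlN0 : 0 < Real.log N := by linarith
    have hpw : ∀ a : ℝ, 0 < a → 2 ^ a ≤ l → (Real.log N) ^ a ≤ l ^ (a + 1) := by
      intro a ha h2a
      calc (Real.log N) ^ a ≤ (2 * l) ^ a := Real.rpow_le_rpow hlN0.le hlN2 ha.le
        _ = 2 ^ a * l ^ a := Real.mul_rpow (by norm_num) hl0.le
        _ ≤ l * l ^ a := mul_le_mul_of_nonneg_right h2a (Real.rpow_nonneg hl0.le _)
        _ = l ^ (a + 1) := by rw [Real.rpow_add hl0, Real.rpow_one, mul_comm]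
    have c1 : X0' ≤ N := by linarith
    have c2 : (Q : ℝ) ≤ (Real.log N) ^ (B + 1) := by
      calc (Q : ℝ) ≤ l ^ B := hQ
        _ ≤ (l / 2) ^ (B + 1) := by
            rw [Real.div_rpow hl0.le (by norm_num), Real.rpow_add hl0, Real.rpow_one,
              le_div_iff₀ hp1]
            exact mul_le_mul_of_nonneg_left (by linarith) (Real.rpow_nonneg hl0.le _)
        _ ≤ _ := Real.rpow_le_rpow (by positivity) hlN1 (by linarith)
    have c3 : (Real.log N) ^ A2' ≤ P := (hpw A2' hA2' (by linarith)).trans hP1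
    have c3' : (P2 : ℝ) ≤ N ^ ((1 : ℝ) / 13) := by
      have h1 : ((P2 : ℝ) ^ 13) ^ ((1 : ℝ) / 13) ≤ N ^ ((1 : ℝ) / 13) :=
        Real.rpow_le_rpow (by positivity) (hP13.trans hN1) (by norm_num)
      have h2 : ((P2 : ℝ) ^ 13) ^ ((1 : ℝ) / 13) = P2 := by
        rw [← Real.rpow_natCast (P2 : ℝ) 13, ← Real.rpow_mul (by positivity)]
        norm_num
      rw [h2] at h1
      exact h1
    have c3'' : P2 * (Real.log N) ^ C1' ≤ h :=
      (mul_le_mul_of_nonneg_left (hpw C1' hC1' (by linarith)) (by positivity)).trans hh1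
    have c4 : (h : ℝ) ≤ N * (Real.log N) ^ (-A1') := by
      have h1 : l ^ (-(A1' + 1 + 2 * B + A + 3)) ≤ l ^ (-(A1' + 1)) :=
        Real.rpow_le_rpow_of_exponent_le (by linarith) (by linarith)
      have h2 : l ^ (-(A1' + 1)) ≤ (2 * l) ^ (-A1') := by
        rw [Real.mul_rpow (by norm_num) hl0.le, Real.rpow_neg (by norm_num : (0 : ℝ) ≤ 2),
          neg_add, Real.rpow_add hl0, Real.rpow_neg_one, mul_comm]
        refine mul_le_mul_of_nonneg_right ?_ (Real.rpow_nonneg hl0.le _)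
        exact inv_anti₀ hp2 (by linarith)
      have h3 : (2 * l) ^ (-A1') ≤ (Real.log N) ^ (-A1') := by
        rw [Real.rpow_neg (by positivity), Real.rpow_neg hlN0.le]
        exact inv_anti₀ (Real.rpow_pos_of_pos hlN0 _) (Real.rpow_le_rpow hlN0.le hlN2 hA1'.le)
      have h4 : (L : ℝ) ^ 3 ≤ N := by
        have h5 : (L : ℝ) ^ 3 ≤ ((M : ℝ) / 4) ^ 3 :=
          pow_le_pow_left₀ (by positivity) (by linarith) 3
        calc (L : ℝ) ^ 3 ≤ ((M : ℝ) / 4) ^ 3 := h5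
          _ = (M : ℝ) ^ 3 / 64 := by ring
          _ ≤ N := by linarith
      calc (h : ℝ) ≤ (L : ℝ) ^ 3 * l ^ (-(A1' + 1 + 2 * B + A + 3)) := hh2
        _ ≤ N * (Real.log N) ^ (-A1') :=
            mul_le_mul h4 (h1.trans (h2.trans h3)) (Real.rpow_nonneg hl0.le _) hN0.le
    have h6 := hfz N c1 Q q c c2 hq hqQ hc P P2 h c3 hP2 c3' c3'' c4
    refine le_trans h6 ?_
    refine mul_le_mul_of_nonneg_left ?_ (by positivity)
    rw [Real.rpow_neg hlN0.le, Real.rpow_neg (by positivity)]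
    exact inv_anti₀ (Real.rpow_pos_of_pos (by positivity) _)
      (Real.rpow_le_rpow (by positivity) hlN1 (by linarith))
  have s4 : ∑ x ∈ Icc (M ^ 3) (32 * M ^ 3), lv1F P P2 Q q c h x ^ 2 ≤
      63 * ((M : ℝ) ^ 3 / 2) * (h : ℝ) ^ 2 * (l / 2) ^ (-(A + 2)) := by
    have h1 : Icc (M ^ 3) (32 * M ^ 3) ⊆ Ioc ⌊(M : ℝ) ^ 3 / 2⌋₊ ⌊2 ^ 6 * ((M : ℝ) ^ 3 / 2)⌋₊ := by
      intro x hx
      rw [mem_Icc] at hx
      rw [mem_Ioc]
      constructor
      · rw [Nat.floor_lt (by positivity)]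
        have h2 : (M : ℝ) ^ 3 ≤ x := by exact_mod_cast hx.1
        have h3 : (0 : ℝ) < (M : ℝ) ^ 3 := by positivity
        linarith
      · apply Nat.le_floor
        have h2 : (x : ℝ) ≤ 32 * (M : ℝ) ^ 3 := by exact_mod_cast hx.2
        linarith
    refine (sum_le_sum_of_subset_of_nonneg h1 fun _ _ _ => sq_nonneg _).trans ?_
    rw [lv1_dya _ (by positivity)]
    refine (sum_le_sum s3).trans ?_
    rw [← sum_mul, ← sum_mul, ← sum_mul]
    have h2 : ∑ i ∈ range 6, (2 : ℝ) ^ i = 63 := by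
      simp only [sum_range_succ, sum_range_zero]
      norm_num
    rw [h2]
  -- conclusion
  have e1 : (l / 2) ^ (-(A + 2)) = 2 ^ (A + 2) * (l ^ (-A) * (l ^ 2)⁻¹) := by
    rw [Real.div_rpow hl0.le (by norm_num), Real.rpow_neg (by norm_num : (0 : ℝ) ≤ 2), neg_add,
      Real.rpow_add hl0, Real.rpow_neg hl0.le 2]
    have : l ^ (2 : ℝ) = l ^ 2 := by
      rw [← Real.rpow_natCast]
      norm_num
    rw [this]
    field_simp
  have e2 : 44 * (63 * ((M : ℝ) ^ 3 / 2) * (h : ℝ) ^ 2 * (l / 2) ^ (-(A + 2))) ≤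
      (M : ℝ) ^ 3 * (h : ℝ) ^ 2 * l ^ (-A) / 2 := by
    rw [e1]
    have h1 : 2772 * 2 ^ (A + 2) ≤ l ^ 2 := by nlinarith
    have h2 : 2772 * 2 ^ (A + 2) * (l ^ 2)⁻¹ ≤ 1 := by
      rw [← div_eq_mul_inv, div_le_one (by positivity)]
      exact h1
    calc _ = ((M : ℝ) ^ 3 * (h : ℝ) ^ 2 * l ^ (-A) / 2) *
          (2772 * 2 ^ (A + 2) * (l ^ 2)⁻¹) := by ring
      _ ≤ ((M : ℝ) ^ 3 * (h : ℝ) ^ 2 * l ^ (-A) / 2) * 1 := by
          refine mul_le_mul_of_nonneg_left h2 ?_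
          have := Real.rpow_nonneg hl0.le (-A)
          positivity
      _ = _ := mul_one _
  have e3 : bs.card * (2 * (2 * l * Q) ^ 2 * (h : ℝ) ^ 3) ≤
      (M : ℝ) ^ 3 * (h : ℝ) ^ 2 * l ^ (-A) / 2 := by
    have h1 : (Q : ℝ) ^ 2 ≤ l ^ (2 * B) := by
      calc (Q : ℝ) ^ 2 ≤ (l ^ B) ^ 2 := pow_le_pow_left₀ (by positivity) hQ 2
        _ = l ^ (2 * B) := by
            rw [← Real.rpow_natCast (l ^ B) 2, ← Real.rpow_mul hl0.le]
            congr 1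
            push_cast
            ring
    have h2 : l ^ 2 * (Q : ℝ) ^ 2 ≤ l ^ (2 * B + 2) := by
      have h3 : l ^ (2 * B + 2) = l ^ 2 * l ^ (2 * B) := by
        rw [Real.rpow_add hl0, mul_comm]
        congr 1
        rw [← Real.rpow_natCast]
        norm_num
      rw [h3]
      exact mul_le_mul_of_nonneg_left h1 (by positivity)
    calc bs.card * (2 * (2 * l * Q) ^ 2 * (h : ℝ) ^ 3)
        = (bs.card * (h : ℝ)) * (8 * (l ^ 2 * (Q : ℝ) ^ 2) * (h : ℝ) ^ 2) := by ring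
      _ ≤ ((M : ℝ) ^ 3 / 8 * l ^ (-(A1' + 1 + 2 * B + A + 3))) *
            (8 * l ^ (2 * B + 2) * (h : ℝ) ^ 2) := by
          refine mul_le_mul s2 ?_ (by positivity) ?_
          · exact mul_le_mul_of_nonneg_right
              (mul_le_mul_of_nonneg_left h2 (by norm_num)) (by positivity)
          · have := Real.rpow_nonneg hl0.le (-(A1' + 1 + 2 * B + A + 3))
            positivity
      _ = (M : ℝ) ^ 3 * (h : ℝ) ^ 2 *
            (l ^ (-(A1' + 1 + 2 * B + A + 3)) * l ^ (2 * B + 2)) := by ring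
      _ = (M : ℝ) ^ 3 * (h : ℝ) ^ 2 * l ^ (-(A1' + 1) + (-A) + (-1)) := by
          rw [← Real.rpow_add hl0]
          congr 2
          ring
      _ ≤ (M : ℝ) ^ 3 * (h : ℝ) ^ 2 * (l ^ (-A) * 2⁻¹) := by
          refine mul_le_mul_of_nonneg_left ?_ (by positivity)
          calc l ^ (-(A1' + 1) + (-A) + (-1)) ≤ l ^ (-A + (-1)) :=
                Real.rpow_le_rpow_of_exponent_le (by linarith) (by linarith)
            _ = l ^ (-A) * l⁻¹ := by rw [Real.rpow_add hl0, Real.rpow_neg_one]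
            _ ≤ _ := mul_le_mul_of_nonneg_left (inv_anti₀ (by norm_num) hl2)
                (Real.rpow_nonneg hl0.le _)
      _ = _ := by ring
  have s5 := s1.trans (add_le_add (mul_le_mul_of_nonneg_left s4 (by norm_num)) le_rfl)
  change ∑ b ∈ bs, ∑ x ∈ Icc (b ^ 3 + 1) (b ^ 3 + 2 * X + h), lv1G P P2 Q q c h X b x ^ 2 ≤
    (M : ℝ) ^ 3 * (h : ℝ) ^ 2 * l ^ (-A)
  linarith

end Pool.Agent.H43.PG
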