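import Pool.Agent.H43.HY.Lg
import Pool.Agent.H43.PG.Lv1

/-!
# [H43 PG LG1] Dyadic ranges `(M, M']`, `2M <= M' <= 2M+1`, `8M^3 >= X`, `P2 ℓ^C1 M^6 <= X^3`

PROOF. Copy `HY/Lg.lean` with `lv1` in place of `lgv` and `ae P P2 Q` in place of `az Q`. `ℓ = log X`, `L = ⌊X/(32M^2)⌋₊`. CHANGES: from `ℓ^C1 <= P2 ℓ^C1 <= (X/M^2)^3` (`P2 >= 1`) one has
`X/M^2 >= ℓ^(C1/3)`, so `M^2 <= X`, `L >= X/(64M^2) >= ℓ^(C1/3)/64`, `X <= 64M^2L`, `4L <= M` (as `X <= 8M^3`), `2^24 <= κ^9 L` (`κ = ℓ^(-k0)`) if `C1 >= 27k0 + 6`. `lv1` with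
`(25k0, 150k0 + A + 10)` gives `A2, C1', A1`; `h = ⌊L^3/(6Qℓ^A1)⌋₊`: `L^3 >= X^3/(2^18 M^6) >= P2 ℓ^C1/2^18`, so `h >= P2 ℓ^C1'` if `C1 >= C1' + A1 + 25k0 + 2`. `Σ_{n<=20M^3} |ae n|^2 <= 160M^3
+ 2ℓ^2 (40M^3(1+log Q)^2 + 4Q^4) <= M^3 ℓ^3` (`ue <= 2`, `lam <= kap <= ℓ`; only the `n > M^3` matter, `3P2 <= n`), times `κ^2 = ℓ^(-2k0) <= ℓ^(-A-6)`. The rest is unchanged.
-/

namespace Pool.Agent.H43.PG

open Finset

private theorem lg_shift (f : ℕ → ℝ) (b n : ℕ) :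
    ∑ m ∈ Ioc b (b + n), f m = ∑ i ∈ Icc 1 n, f (b + i) := by
  induction n with
  | zero => simp
  | succ n ih =>
    rw [← add_assoc, sum_Ioc_succ_top (by omega), sum_Icc_succ_top (by omega), ih]
    rfl

/-- the lengths of the blocks, `J' + 1` blocks -/
private def lgLen (M M' L J' j : ℕ) : ℕ := if j < J' then L else M' - (M + J' * L)

private theorem lg_dec (f : ℕ → ℝ) (M M' L J' : ℕ) (h : M + J' * L ≤ M') :
    ∑ m ∈ Ioc M M', f m =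
      ∑ j ∈ range (J' + 1), ∑ i ∈ Icc 1 (lgLen M M' L J' j), f (M + j * L + i) := by
  rw [sum_range_succ]
  have h1 : ∀ K ≤ J', ∑ j ∈ range K, ∑ i ∈ Icc 1 (lgLen M M' L J' j), f (M + j * L + i) =
      ∑ m ∈ Ioc M (M + K * L), f m := by
    intro K hK
    induction K with
    | zero => simp
    | succ K ih =>
      have h2 : lgLen M M' L J' K = L := by
        unfold lgLen
        rw [if_pos (by omega)]
      have h3 : M + (K + 1) * L = M + K * L + L := by ring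
      rw [sum_range_succ, ih (by omega), h2, ← lg_shift f (M + K * L) L, h3]
      exact sum_Ioc_consecutive f (by omega) (by omega)
  have h4 : lgLen M M' L J' J' = M' - (M + J' * L) := by
    unfold lgLen
    rw [if_neg (by omega)]
  rw [h1 J' le_rfl, h4, ← lg_shift f (M + J' * L)]
  have h5 : M + J' * L + (M' - (M + J' * L)) = M' := by omega
  rw [h5]
  exact (sum_Ioc_consecutive f (by omega) h).symm

private theorem lg_cube (b M n L X : ℕ) (hb : b ≤ 2 * M) (hn : n ≤ 2 * L) (hL : 4 * L ≤ M)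
    (hX : 32 * M ^ 2 * L ≤ X) : (b + n) ^ 3 ≤ b ^ 3 + X := by
  have h1 : (b + n) ^ 3 = b ^ 3 + (3 * b ^ 2 * n + 3 * b * n ^ 2 + n ^ 3) := by ring
  have h2 : b ^ 2 ≤ (2 * M) ^ 2 := Nat.pow_le_pow_left hb 2
  have h3 : n ^ 2 ≤ (2 * L) ^ 2 := Nat.pow_le_pow_left hn 2
  have h4 : n ^ 3 ≤ (2 * L) ^ 3 := Nat.pow_le_pow_left hn 3
  have h5 : 3 * b ^ 2 * n ≤ 3 * (2 * M) ^ 2 * (2 * L) :=
    Nat.mul_le_mul (Nat.mul_le_mul_left _ h2) hn
  have h6 : 3 * b * n ^ 2 ≤ 3 * (2 * M) * (2 * L) ^ 2 :=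
    Nat.mul_le_mul (Nat.mul_le_mul_left _ hb) h3
  have h7 : 3 * (2 * M) * (2 * L) ^ 2 ≤ 6 * M ^ 2 * L := by
    have : 3 * (2 * M) * (2 * L) ^ 2 = 6 * M * L * (4 * L) := by ring
    rw [this]
    calc 6 * M * L * (4 * L) ≤ 6 * M * L * M := Nat.mul_le_mul_left _ hL
      _ = 6 * M ^ 2 * L := by ring
  have h8 : (2 * L) ^ 3 ≤ M ^ 2 * L := by
    have h9 : (4 * L) ^ 2 ≤ M ^ 2 := Nat.pow_le_pow_left hL 2
    calc (2 * L) ^ 3 = 8 * L ^ 2 * L := by ring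
      _ ≤ (4 * L) ^ 2 * L := by
          apply Nat.mul_le_mul_right
          nlinarith
      _ ≤ M ^ 2 * L := Nat.mul_le_mul_right _ h9
  have h10 : 3 * (2 * M) ^ 2 * (2 * L) = 24 * M ^ 2 * L := by ring
  rw [h1]
  have h11 : 24 * M ^ 2 * L + 6 * M ^ 2 * L + M ^ 2 * L ≤ 32 * M ^ 2 * L := by nlinarith
  omega

private theorem lg_norm (s : Finset ℕ) (f : ℕ → ℝ) : ‖∑ n ∈ s, (f n : ℂ)‖ ^ 2 = (∑ n ∈ s, f n) ^ 2 := by
  rw [← Complex.ofReal_sum, Complex.norm_real, Real.norm_eq_abs, sq_abs]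

private theorem lg_core (a : ℕ → ℝ) (X M M' L J' Q h : ℕ) (κ E : ℝ) (hL : 1 ≤ L) (hM : 1 ≤ M)
    (hJ1 : M + (J' + 1) * L ≤ M') (hJ2 : M' < M + (J' + 2) * L) (hM' : M' ≤ 2 * M + 1)
    (hLM : 4 * L ≤ M) (hX32 : 32 * M ^ 2 * L ≤ X) (hX64 : X ≤ 64 * M ^ 2 * L)
    (hX8 : X ≤ 8 * M ^ 3) (hκ : 0 < κ) (hκ1 : κ ≤ 1) (hκM : 2 ^ 24 ≤ κ ^ 9 * (L : ℝ))
    (hQ : 2 ^ 64 / κ ^ 24 ≤ (Q : ℝ)) (hQ1 : 1 ≤ Q) (hh : 1 ≤ h) (hhQ : 6 * h * Q ≤ L ^ 3)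
    (hE : ∀ q c : ℕ, 1 ≤ q → q ≤ Q → c < q →
      ∑ b ∈ (range (J' + 1)).image (fun j => M + j * L),
        ∑ x ∈ Icc (b ^ 3 + 1) (b ^ 3 + 2 * X + h),
          (∑ n ∈ (Ioc (x - h) x).filter (fun n => b ^ 3 < n ∧ n ≤ b ^ 3 + 2 * X ∧ n % q = c),
            a n) ^ 2 ≤ E) :
    ∑ k ∈ Icc 1 X, (∑ m ∈ Ioc M M', a (m ^ 3 + k)) ^ 2 ≤
      ((J' + 1 : ℕ) : ℝ) * (κ ^ 2 * (2 * (L : ℝ)) ^ 2 *
        (44 * ∑ n ∈ Icc (M ^ 3) (32 * M ^ 3), (a n) ^ 2) +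
        4 * (2 * (L : ℝ)) ^ 2 * (Q : ℝ) ^ 4 * ((Q : ℝ) ^ 2 * E) / (h : ℝ) ^ 2) := by
  classical
  have e1 : (J' + 1) * L = J' * L + L := by ring
  have e2 : (J' + 2) * L = J' * L + 2 * L := by ring
  have hJ1' : M + J' * L + L ≤ M' := by omega
  have hJ2' : M' < M + J' * L + 2 * L := by omega
  set J := J' + 1 with hJ
  set b : ℕ → ℕ := fun j => M + j * L with hbdef
  set len : ℕ → ℕ := lgLen M M' L J' with hlen
  have hlen1 : ∀ j, L ≤ len j ∧ len j ≤ 2 * L := by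
    intro j
    rw [hlen]
    unfold lgLen
    split_ifs <;> omega
  have hb2 : ∀ j ∈ range J, b j ≤ 2 * M := by
    intro j hj
    have hj' : j ≤ J' := by
      have := mem_range.1 hj
      omega
    have h1 : j * L ≤ J' * L := Nat.mul_le_mul_right _ hj'
    simp only [hbdef]
    omega
  set W : ℕ → ℕ → ℕ → ℝ := fun b q c => ∑ x ∈ Icc (b ^ 3 + 1) (b ^ 3 + 2 * X + h),
    (∑ n ∈ (Ioc (x - h) x).filter (fun n => b ^ 3 < n ∧ n ≤ b ^ 3 + 2 * X ∧ n % q = c),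
      a n) ^ 2 with hW
  have hW0 : ∀ b q c, 0 ≤ W b q c := fun b q c => sum_nonneg fun x _ => sq_nonneg _
  set V : ℕ → ℝ := fun b => ∑ q ∈ Icc 1 Q, ∑ c ∈ range q, W b q c with hV
  have hinj : Set.InjOn b (range J) := by
    intro i _ j _ hij
    simp only [hbdef] at hij
    have h1 : i * L = j * L := by omega
    exact Nat.eq_of_mul_eq_mul_right (by omega) h1
  -- each block
  have hblock : ∀ j ∈ range J, ∑ k ∈ Icc 1 X, (∑ i ∈ Icc 1 (len j), a ((b j + i) ^ 3 + k)) ^ 2 ≤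
      κ ^ 2 * (2 * (L : ℝ)) ^ 2 * ∑ n ∈ Icc ((b j) ^ 3) ((b j) ^ 3 + 2 * X), (a n) ^ 2 +
        4 * (2 * (L : ℝ)) ^ 2 * (Q : ℝ) ^ 4 * V (b j) / (h : ℝ) ^ 2 := by
    intro j hj
    have hl := hlen1 j
    have hlR : (L : ℝ) ≤ (len j : ℝ) := by exact_mod_cast hl.1
    have hlR2 : (len j : ℝ) ≤ 2 * L := by exact_mod_cast hl.2
    have h1 := HY.trb (fun n => ((a n : ℝ) : ℂ)) (b j) (len j) X Q h κ (V (b j))
      (lg_cube (b j) M (len j) L X (hb2 j hj) hl.2 hLM hX32) hκ hκ1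
      (hκM.trans (mul_le_mul_of_nonneg_left hlR (by positivity))) hQ hh
      (hhQ.trans (Nat.pow_le_pow_left hl.1 3)) (by
        intro q c hq hqQ hc
        have h2 : ∑ x ∈ Icc ((b j) ^ 3 + 1) ((b j) ^ 3 + 2 * X + h),
            ‖∑ n ∈ (Ioc (x - h) x).filter
              (fun n => (b j) ^ 3 < n ∧ n ≤ (b j) ^ 3 + 2 * X ∧ n % q = c),
              ((a n : ℝ) : ℂ)‖ ^ 2 = W (b j) q c := by
          refine sum_congr rfl fun x _ => ?_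
          rw [lg_norm]
        rw [h2]
        calc W (b j) q c ≤ ∑ c ∈ range q, W (b j) q c :=
              single_le_sum (fun c _ => hW0 (b j) q c) (mem_range.2 hc)
          _ ≤ V (b j) := single_le_sum (f := fun q => ∑ c ∈ range q, W (b j) q c)
              (fun q _ => sum_nonneg fun c _ => hW0 (b j) q c) (mem_Icc.2 ⟨hq, hqQ⟩))
    have h3 : ∑ k ∈ Icc 1 X, (∑ i ∈ Icc 1 (len j), a ((b j + i) ^ 3 + k)) ^ 2 =
        ∑ k ∈ Icc 1 X, ‖∑ m ∈ Icc 1 (len j), ((a ((b j + m) ^ 3 + k) : ℝ) : ℂ)‖ ^ 2 := by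
      refine sum_congr rfl fun k _ => ?_
      rw [lg_norm]
    rw [h3]
    refine h1.trans ?_
    have h4 : ∑ n ∈ Ioc ((b j) ^ 3) ((b j) ^ 3 + 2 * X), ‖((a n : ℝ) : ℂ)‖ ^ 2 ≤
        ∑ n ∈ Icc ((b j) ^ 3) ((b j) ^ 3 + 2 * X), (a n) ^ 2 := by
      have h5 : ∀ n, ‖((a n : ℝ) : ℂ)‖ ^ 2 = (a n) ^ 2 := by
        intro n
        rw [Complex.norm_real, Real.norm_eq_abs, sq_abs]
      simp only [h5]
      exact sum_le_sum_of_subset_of_nonneg Ioc_subset_Icc_self fun _ _ _ => sq_nonneg _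
    have h6 : (len j : ℝ) ^ 2 ≤ (2 * (L : ℝ)) ^ 2 :=
      pow_le_pow_left₀ (by positivity) hlR2 2
    have hVn : 0 ≤ V (b j) := sum_nonneg fun q _ => sum_nonneg fun c _ => hW0 _ _ _
    apply add_le_add
    · exact mul_le_mul (mul_le_mul_of_nonneg_left h6 (by positivity)) h4
        (sum_nonneg fun n _ => by positivity) (by positivity)
    · apply div_le_div_of_nonneg_right _ (by positivity)
      exact mul_le_mul_of_nonneg_right (mul_le_mul_of_nonneg_right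
        (mul_le_mul_of_nonneg_left h6 (by norm_num)) (by positivity)) hVn
  -- sum over the blocks
  have hsq : ∑ j ∈ range J, ∑ n ∈ Icc ((b j) ^ 3) ((b j) ^ 3 + 2 * X), (a n) ^ 2 ≤
      44 * ∑ n ∈ Icc (M ^ 3) (32 * M ^ 3), (a n) ^ 2 := by
    have h1 : ∑ j ∈ range J, ∑ n ∈ Icc ((b j) ^ 3) ((b j) ^ 3 + 2 * X), (a n) ^ 2 =
        ∑ b ∈ (range J).image b, ∑ n ∈ Icc (b ^ 3) (b ^ 3 + 2 * X), (a n) ^ 2 := by
      rw [sum_image hinj]
    rw [h1]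
    refine HY.lgv_exch _ M L X hL hM hX64 hX8 ?_ ?_ (fun n => (a n) ^ 2) fun _ => sq_nonneg _
    · intro y hy
      rw [mem_image] at hy
      obtain ⟨j, hj, rfl⟩ := hy
      exact ⟨Nat.le_add_right _ _, hb2 j hj⟩
    · intro y hy y' hy' hlt
      rw [mem_image] at hy hy'
      obtain ⟨i, hi, rfl⟩ := hy
      obtain ⟨j, hj, rfl⟩ := hy'
      simp only [hbdef] at hlt ⊢
      have hij : i < j := by
        by_contra hcon
        have : j * L ≤ i * L := Nat.mul_le_mul_right _ (by omega)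
        omega
      have h2 : (i + 1) * L ≤ j * L := Nat.mul_le_mul_right _ hij
      have h3 : (i + 1) * L = i * L + L := by ring
      omega
  have hE0 : 0 ≤ E := by
    refine le_trans ?_ (hE 1 0 le_rfl hQ1 (by norm_num))
    exact sum_nonneg fun b _ => sum_nonneg fun x _ => sq_nonneg _
  have hVs : ∑ j ∈ range J, V (b j) ≤ (Q : ℝ) ^ 2 * E := by
    have h1 : ∑ j ∈ range J, V (b j) = ∑ q ∈ Icc 1 Q, ∑ c ∈ range q,
        ∑ b ∈ (range J).image b, W b q c := by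
      have h2 : ∀ q c, ∑ b ∈ (range J).image b, W b q c = ∑ j ∈ range J, W (b j) q c := by
        intro q c
        rw [sum_image hinj]
      simp only [h2, hV]
      rw [sum_comm]
      refine sum_congr rfl fun q _ => ?_
      rw [sum_comm]
    rw [h1]
    have h3 : ∀ q ∈ Icc 1 Q, ∑ c ∈ range q, ∑ b ∈ (range J).image b, W b q c ≤ Q * E := by
      intro q hq
      rw [mem_Icc] at hq
      have h4 : ∑ c ∈ range q, ∑ b ∈ (range J).image b, W b q c ≤ q * E := by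
        refine (sum_le_card_nsmul _ _ E fun c hc => hE q c hq.1 hq.2 (mem_range.1 hc)).trans ?_
        rw [card_range, nsmul_eq_mul]
      have h5 : (q : ℝ) ≤ Q := by exact_mod_cast hq.2
      exact h4.trans (mul_le_mul_of_nonneg_right h5 hE0)
    refine (sum_le_card_nsmul _ _ _ h3).trans ?_
    rw [Nat.card_Icc, nsmul_eq_mul, Nat.add_sub_cancel]
    apply le_of_eq
    ring
  have hfin : ∑ j ∈ range J, ∑ k ∈ Icc 1 X,
      (∑ i ∈ Icc 1 (len j), a ((b j + i) ^ 3 + k)) ^ 2 ≤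
      κ ^ 2 * (2 * (L : ℝ)) ^ 2 * (44 * ∑ n ∈ Icc (M ^ 3) (32 * M ^ 3), (a n) ^ 2) +
        4 * (2 * (L : ℝ)) ^ 2 * (Q : ℝ) ^ 4 * ((Q : ℝ) ^ 2 * E) / (h : ℝ) ^ 2 := by
    refine (sum_le_sum hblock).trans ?_
    rw [sum_add_distrib, ← mul_sum, ← sum_div, ← mul_sum]
    apply add_le_add
    · exact mul_le_mul_of_nonneg_left hsq (by positivity)
    · apply div_le_div_of_nonneg_right _ (by positivity)
      exact mul_le_mul_of_nonneg_left hVs (by positivity)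
  calc ∑ k ∈ Icc 1 X, (∑ m ∈ Ioc M M', a (m ^ 3 + k)) ^ 2
      = ∑ k ∈ Icc 1 X, (∑ j ∈ range J, ∑ i ∈ Icc 1 (len j), a ((b j + i) ^ 3 + k)) ^ 2 := by
        refine sum_congr rfl fun k _ => ?_
        rw [lg_dec (fun m => a (m ^ 3 + k)) M M' L J' (by omega)]
    _ ≤ ∑ k ∈ Icc 1 X, (J : ℝ) * ∑ j ∈ range J,
          (∑ i ∈ Icc 1 (len j), a ((b j + i) ^ 3 + k)) ^ 2 := by
        refine sum_le_sum fun k _ => ?_
        have h1 := sq_sum_le_card_mul_sum_sq (s := range J)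
          (f := fun j => ∑ i ∈ Icc 1 (len j), a ((b j + i) ^ 3 + k))
        rw [card_range] at h1
        exact h1
    _ = (J : ℝ) * ∑ j ∈ range J, ∑ k ∈ Icc 1 X,
          (∑ i ∈ Icc 1 (len j), a ((b j + i) ^ 3 + k)) ^ 2 := by
        rw [← mul_sum, sum_comm]
    _ ≤ _ := mul_le_mul_of_nonneg_left hfin (by positivity)

private theorem lg_l2 (P P2 Q M : ℕ) (kp : ℝ) (hQ : 1 ≤ Q) (hM : 2 ≤ M) (hP : P2 ≤ M)
    (hk : 1 + Real.log P2 ≤ kp) :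
    ∑ n ∈ Icc (M ^ 3) (32 * M ^ 3), (ae P P2 Q n) ^ 2 ≤
      256 * (M : ℝ) ^ 3 + 2 * kp ^ 2 * (64 * (M : ℝ) ^ 3 * (1 + Real.log Q) ^ 2 +
        4 * (Q : ℝ) ^ 4) := by
  have hM8 : 8 ≤ M ^ 3 := by
    calc 8 = 2 ^ 3 := by norm_num
      _ ≤ M ^ 3 := Nat.pow_le_pow_left hM 3
  have hM3 : 3 * P2 ≤ M ^ 3 := by
    have h1 : 2 ^ 2 ≤ M ^ 2 := Nat.pow_le_pow_left hM 2
    calc 3 * P2 ≤ 2 ^ 2 * M := by omega
      _ ≤ M ^ 2 * M := Nat.mul_le_mul_right _ h1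
      _ = M ^ 3 := by ring
  have h1 : ∀ n ∈ Icc (M ^ 3) (32 * M ^ 3), (ae P P2 Q n) ^ 2 ≤
      8 + 2 * kp ^ 2 * (TP.lq Q n) ^ 2 := by
    intro n hn
    have hn3 : 3 * P2 ≤ n := hM3.trans (mem_Icc.1 hn).1
    have hu0 : 0 ≤ TQ.ue P P2 n := by
      unfold TQ.ue
      positivity
    have hu2 := TQ.ue_le P P2 n
    have hl0 := TQ.lam_nonneg P P2 n hn3
    have hl1 : TQ.lam P P2 n ≤ kp := ((TQ.lam_le P P2 n hn3).trans (TQ.kap_le P P2)).trans hk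
    unfold ae
    have h2 : (TQ.lam P P2 n * TP.lq Q n) ^ 2 ≤ kp ^ 2 * (TP.lq Q n) ^ 2 := by
      rw [mul_pow]
      exact mul_le_mul_of_nonneg_right (pow_le_pow_left₀ hl0 hl1 2) (sq_nonneg _)
    have h3 : (TQ.ue P P2 n) ^ 2 ≤ 4 := by nlinarith
    nlinarith [sq_nonneg (TQ.ue P P2 n + TQ.lam P P2 n * TP.lq Q n)]
  refine (sum_le_sum h1).trans ?_
  have h3 : ∑ n ∈ Icc (M ^ 3) (32 * M ^ 3), (8 + 2 * kp ^ 2 * (TP.lq Q n) ^ 2 : ℝ) ≤
      ∑ n ∈ Icc 1 (32 * M ^ 3), (8 + 2 * kp ^ 2 * (TP.lq Q n) ^ 2 : ℝ) :=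
    sum_le_sum_of_subset_of_nonneg (Icc_subset_Icc_left (by omega)) fun _ _ _ => by positivity
  refine h3.trans ?_
  rw [sum_add_distrib, ← mul_sum, sum_const, Nat.card_Icc, nsmul_eq_mul, Nat.add_sub_cancel]
  have h4 := mul_le_mul_of_nonneg_left (TP.l2m Q (32 * M ^ 3) hQ)
    (show (0 : ℝ) ≤ 2 * kp ^ 2 by positivity)
  push_cast at h4 ⊢
  linarith

private theorem lg_ev (c s : ℝ) (hs : 0 < s) (r : ℝ) :
    ∀ᶠ X : ℕ in Filter.atTop, c * (Real.log X) ^ r ≤ (X : ℝ) ^ s := by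
  have h1 := (isLittleO_log_rpow_rpow_atTop r hs).comp_tendsto tendsto_natCast_atTop_atTop
  have hc : (0 : ℝ) < (|c| + 1)⁻¹ := by positivity
  filter_upwards [h1.bound hc, Filter.eventually_ge_atTop 3] with X hX hX3
  simp only [Function.comp_apply] at hX
  have hX3' : (3 : ℝ) ≤ X := by exact_mod_cast hX3
  have hl : 0 ≤ Real.log X := Real.log_nonneg (by linarith)
  have hlr : 0 ≤ (Real.log X) ^ r := Real.rpow_nonneg hl _
  have hxr : 0 ≤ (X : ℝ) ^ s := by positivity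
  rw [Real.norm_of_nonneg hlr, Real.norm_of_nonneg hxr] at hX
  have h2 : (|c| + 1) * (Real.log X) ^ r ≤ (X : ℝ) ^ s := by
    calc (|c| + 1) * (Real.log X) ^ r ≤ (|c| + 1) * ((|c| + 1)⁻¹ * (X : ℝ) ^ s) :=
          mul_le_mul_of_nonneg_left hX (by positivity)
      _ = _ := by field_simp
  have h3 : c ≤ |c| + 1 := by linarith [le_abs_self c]
  exact (mul_le_mul_of_nonneg_right h3 hlr).trans h2

private theorem lg_ev2 (a b : ℝ) : ∀ᶠ X : ℕ in Filter.atTop,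
    a + b * (Real.log (Real.log X)) ^ 2 ≤ Real.log X / 1000 := by
  have h0 : Filter.Tendsto (fun X : ℕ => Real.log X) Filter.atTop Filter.atTop :=
    Real.tendsto_log_atTop.comp tendsto_natCast_atTop_atTop
  have h1 : ∀ᶠ y : ℝ in Filter.atTop, a + b * (Real.log y) ^ 2 ≤ y / 1000 := by
    have h2 := (Real.isLittleO_pow_log_id_atTop (n := 2)).bound
      (show (0 : ℝ) < (2000 * (|b| + 1))⁻¹ by positivity)
    filter_upwards [h2, Filter.eventually_ge_atTop (2000 * |a| + 1)] with y hy hy1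
    have hy0 : 0 < y := by
      have := abs_nonneg a
      linarith
    rw [id, Real.norm_of_nonneg (sq_nonneg _), Real.norm_of_nonneg hy0.le] at hy
    have h3 : (|b| + 1) * (Real.log y) ^ 2 ≤ y / 2000 := by
      calc (|b| + 1) * (Real.log y) ^ 2 ≤ (|b| + 1) * ((2000 * (|b| + 1))⁻¹ * y) :=
            mul_le_mul_of_nonneg_left hy (by positivity)
        _ = _ := by field_simp
    have h4 : b * (Real.log y) ^ 2 ≤ (|b| + 1) * (Real.log y) ^ 2 :=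
      mul_le_mul_of_nonneg_right (by linarith [le_abs_self b]) (sq_nonneg _)
    have h5 := le_abs_self a
    linarith
  exact h0.eventually h1

theorem lg1 (A : ℝ) (k0 : ℕ) (hA : 0 < A) (hk0 : A / 2 + 3 ≤ k0) :
    ∃ A2 C1 : ℝ, 0 < A2 ∧ 0 < C1 ∧ ∃ X0 : ℕ, ∀ X : ℕ, X0 ≤ X → ∀ Q M M' P P2 : ℕ,
    2 ^ 64 * (Real.log X) ^ (24 * k0) ≤ Q → (Q : ℝ) ≤ (Real.log X) ^ (25 * k0) →
    X ≤ 8 * M ^ 3 → 2 * M ≤ M' → M' ≤ 2 * M + 1 → (Real.log X) ^ A2 ≤ P → P ≤ P2 → P2 ^ 5 ≤ M →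
    P2 * (Real.log X) ^ C1 * (M : ℝ) ^ 6 ≤ (X : ℝ) ^ 3 →
    ∑ k ∈ Icc 1 X, (∑ m ∈ Ioc M M', ae P P2 Q (m ^ 3 + k)) ^ 2 ≤
      X * (M : ℝ) ^ 2 * (Real.log X) ^ (-A) := by
  have hk3 : (3 : ℝ) ≤ k0 := by linarith
  have hk1 : 1 ≤ k0 := by
    have : (1 : ℝ) < k0 := by linarith
    exact_mod_cast this.le
  have hkR : (1 : ℝ) ≤ k0 := by exact_mod_cast hk1
  obtain ⟨A2, C1', A1, hA2, hC1', hA1, X1, hX1, hlv⟩ := lv1 ((25 * k0 : ℕ) : ℝ) (150 * k0 + A + 10)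
    (by positivity) (by positivity)
  have hl2 : ∀ᶠ X : ℕ in Filter.atTop, 2 ^ 15 ≤ Real.log X :=
    (Real.tendsto_log_atTop.comp tendsto_natCast_atTop_atTop).eventually_ge_atTop (2 ^ 15)
  obtain ⟨X0, hX0⟩ := Filter.eventually_atTop.1 ((hl2.and
    (lg_ev 64 1 one_pos ((100 * k0 : ℕ) : ℝ))).and
    (lg_ev2 (67 + 256) (256 * (25 * k0) ^ 2)))
  refine ⟨A2, C1' + A1 + ((27 * k0 + 6 : ℕ) : ℝ), hA2, by positivity, max X0 X1, ?_⟩
  intro X hX Q M M' P P2 hQ1 hQ2 hX8 hM'1 hM'2 hP hPP2 hP5 hPM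
  obtain ⟨⟨hl15, cc⟩, cd⟩ := hX0 X ((le_max_left _ _).trans hX)
  have hXX1 : X1 ≤ X := (le_max_right _ _).trans hX
  have hX10 : 10 ≤ X := hX1.trans hXX1
  set l : ℝ := Real.log X with hldef
  have hl : 2 ≤ l := le_trans (by norm_num) hl15
  have hl0 : 0 < l := by linarith
  have hl1 : 1 ≤ l := by linarith
  rw [Real.rpow_natCast] at cc
  rw [Real.rpow_one] at cc
  have hXR : (10 : ℝ) ≤ X := by exact_mod_cast hX10
  have hX0' : (0 : ℝ) < X := by linarith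
  have hX8R : (X : ℝ) ≤ 8 * (M : ℝ) ^ 3 := by exact_mod_cast hX8
  have hM2 : 2 ≤ M := by
    by_contra hcon
    have h1 : M ≤ 1 := by omega
    have h2 : M ^ 3 ≤ 1 := by
      calc M ^ 3 ≤ 1 ^ 3 := Nat.pow_le_pow_left h1 3
        _ = 1 := by norm_num
    omega
  have hMR : (2 : ℝ) ≤ M := by exact_mod_cast hM2
  have hM0 : (0 : ℝ) < M := by linarith
  have hQR0 : (0 : ℝ) < Q := lt_of_lt_of_le (by positivity) hQ1
  have hQ0 : 1 ≤ Q := by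
    have : 0 < Q := by exact_mod_cast hQR0
    omega
  have hQR : (1 : ℝ) ≤ Q := by exact_mod_cast hQ0
  -- the size of `P2`
  have hPR1 : (1 : ℝ) ≤ P := le_trans (Real.one_le_rpow hl1 hA2.le) hP
  have hPPR : (P : ℝ) ≤ P2 := by exact_mod_cast hPP2
  have hP2R1 : (1 : ℝ) ≤ P2 := hPR1.trans hPPR
  have hP21 : 1 ≤ P2 := by exact_mod_cast hP2R1
  have hP2M : P2 ≤ M := by
    refine le_trans ?_ hP5
    calc P2 = P2 ^ 1 := (pow_one _).symm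
      _ ≤ P2 ^ 5 := Nat.pow_le_pow_right hP21 (by norm_num)
  have hC1e : l ^ (C1' + A1 + ((27 * k0 + 6 : ℕ) : ℝ)) = l ^ C1' * l ^ A1 * l ^ (27 * k0 + 6) := by
    rw [Real.rpow_add hl0, Real.rpow_add hl0, Real.rpow_natCast]
  rw [hC1e] at hPM
  have hlC : 1 ≤ l ^ C1' := Real.one_le_rpow hl1 hC1'.le
  have hlA1 : 1 ≤ l ^ A1 := Real.one_le_rpow hl1 hA1.le
  -- `M ^ 2` is small
  have hX3 : l ^ (27 * k0 + 6) * (M : ℝ) ^ 6 ≤ (X : ℝ) ^ 3 := by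
    refine le_trans ?_ hPM
    apply mul_le_mul_of_nonneg_right _ (by positivity)
    have h1 : 1 ≤ (P2 : ℝ) * (l ^ C1' * l ^ A1) :=
      one_le_mul_of_one_le_of_one_le hP2R1 (one_le_mul_of_one_le_of_one_le hlC hlA1)
    calc l ^ (27 * k0 + 6) = 1 * l ^ (27 * k0 + 6) := (one_mul _).symm
      _ ≤ ((P2 : ℝ) * (l ^ C1' * l ^ A1)) * l ^ (27 * k0 + 6) :=
          mul_le_mul_of_nonneg_right h1 (by positivity)
      _ = _ := by ring
  have hl6 : (2 : ℝ) ^ 90 ≤ l ^ 6 := by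
    calc (2 : ℝ) ^ 90 = (2 ^ 15) ^ 6 := by norm_num
      _ ≤ l ^ 6 := pow_le_pow_left₀ (by norm_num) hl15 6
  have hbig : 2 ^ 30 * l ^ (9 * k0) * (M : ℝ) ^ 2 ≤ X := by
    have h1 : (2 ^ 30 * l ^ (9 * k0) * (M : ℝ) ^ 2) ^ 3 ≤ (X : ℝ) ^ 3 := by
      refine le_trans ?_ hX3
      have h2 : (2 ^ 30 * l ^ (9 * k0) * (M : ℝ) ^ 2) ^ 3 =
          2 ^ 90 * (l ^ (27 * k0) * (M : ℝ) ^ 6) := by
        rw [mul_pow, mul_pow, ← pow_mul, ← pow_mul, ← pow_mul]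
        have h3 : 9 * k0 * 3 = 27 * k0 := by ring
        rw [h3]
        ring
      rw [h2, pow_add]
      calc 2 ^ 90 * (l ^ (27 * k0) * (M : ℝ) ^ 6) ≤ l ^ 6 * (l ^ (27 * k0) * (M : ℝ) ^ 6) :=
            mul_le_mul_of_nonneg_right hl6 (by positivity)
        _ = _ := by ring
    exact le_of_pow_le_pow_left₀ (by norm_num) hX0'.le h1
  have hlk : (1 : ℝ) ≤ l ^ (9 * k0) := one_le_pow₀ hl1
  have hMX : (M : ℝ) ^ 2 ≤ X := by
    refine le_trans ?_ hbig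
    have h1 : (1 : ℝ) ≤ 2 ^ 30 * l ^ (9 * k0) :=
      one_le_mul_of_one_le_of_one_le (by norm_num) hlk
    calc (M : ℝ) ^ 2 = 1 * (M : ℝ) ^ 2 := (one_mul _).symm
      _ ≤ _ := mul_le_mul_of_nonneg_right h1 (by positivity)
  have hMXn : M ^ 2 ≤ X := by exact_mod_cast hMX
  have hr1 : 2 ^ 24 * l ^ (9 * k0) ≤ (X : ℝ) / (64 * (M : ℝ) ^ 2) := by
    rw [le_div_iff₀ (by positivity)]
    calc (2 : ℝ) ^ 24 * l ^ (9 * k0) * (64 * (M : ℝ) ^ 2) = 2 ^ 30 * l ^ (9 * k0) * (M : ℝ) ^ 2 := by ring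
      _ ≤ (X : ℝ) := hbig
  have hr2 : (1 : ℝ) ≤ (X : ℝ) / (64 * (M : ℝ) ^ 2) := by
    refine le_trans ?_ hr1
    linarith
  -- the length of the blocks
  set L : ℕ := ⌊(X : ℝ) / (32 * (M : ℝ) ^ 2)⌋₊ with hLdef
  have hL1 : (L : ℝ) ≤ (X : ℝ) / (32 * (M : ℝ) ^ 2) := Nat.floor_le (by positivity)
  have hL2 : (X : ℝ) / (64 * (M : ℝ) ^ 2) ≤ L := by
    have h1 := Nat.lt_floor_add_one ((X : ℝ) / (32 * (M : ℝ) ^ 2))
    have h2 : (X : ℝ) / (32 * (M : ℝ) ^ 2) = 2 * ((X : ℝ) / (64 * (M : ℝ) ^ 2)) := by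
      field_simp
      norm_num
    rw [← hLdef] at h1
    linarith
  have hLR1 : (1 : ℝ) ≤ L := hr2.trans hL2
  have hLn1 : 1 ≤ L := by exact_mod_cast hLR1
  have hL0 : (0 : ℝ) < L := by linarith
  have hX32R : 32 * (M : ℝ) ^ 2 * L ≤ X := by
    rw [le_div_iff₀ (by positivity)] at hL1
    linarith
  have hX32 : 32 * M ^ 2 * L ≤ X := by exact_mod_cast hX32R
  have hX64R : (X : ℝ) ≤ 64 * (M : ℝ) ^ 2 * L := by
    rw [div_le_iff₀ (by positivity)] at hL2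
    linarith
  have hX64 : X ≤ 64 * M ^ 2 * L := by exact_mod_cast hX64R
  have hLM : 4 * L ≤ M := by
    have h1 : M ^ 2 * (32 * L) ≤ M ^ 2 * (8 * M) := by
      calc M ^ 2 * (32 * L) = 32 * M ^ 2 * L := by ring
        _ ≤ X := hX32
        _ ≤ 8 * M ^ 3 := hX8
        _ = M ^ 2 * (8 * M) := by ring
    have h2 := Nat.le_of_mul_le_mul_left h1 (by positivity)
    omega
  -- the number of the blocks
  obtain ⟨J', hJ'⟩ : ∃ J', (M' - M) / L = J' + 1 := by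
    have h1 : 1 ≤ (M' - M) / L := by
      rw [Nat.le_div_iff_mul_le (by omega)]
      omega
    exact ⟨(M' - M) / L - 1, by omega⟩
  have hJ1 : M + (J' + 1) * L ≤ M' := by
    have h1 := Nat.div_mul_le_self (M' - M) L
    rw [hJ'] at h1
    omega
  have hJ2 : M' < M + (J' + 2) * L := by
    have h1 := Nat.lt_mul_of_div_lt (show (M' - M) / L < J' + 2 by omega)
      (by omega : 0 < L)
    omega
  -- the windows
  have hT0 : 0 < 6 * (Q : ℝ) * l ^ A1 := by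
    have := Real.rpow_pos_of_pos hl0 A1
    positivity
  set T : ℝ := (L : ℝ) ^ 3 / (6 * (Q : ℝ) * l ^ A1) with hT
  set h : ℕ := ⌊T⌋₊ with hh
  have hTp : 0 < T := by positivity
  have hhT : (h : ℝ) ≤ T := Nat.floor_le hTp.le
  have hPC1 : 1 ≤ (P2 : ℝ) * l ^ C1' := one_le_mul_of_one_le_of_one_le hP2R1 hlC
  have hT2 : 2 * ((P2 : ℝ) * l ^ C1') ≤ T := by
    rw [hT, le_div_iff₀ hT0]
    have h1 : (X : ℝ) ^ 3 ≤ 2 ^ 18 * (M : ℝ) ^ 6 * (L : ℝ) ^ 3 := by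
      calc (X : ℝ) ^ 3 ≤ (64 * (M : ℝ) ^ 2 * L) ^ 3 := pow_le_pow_left₀ hX0'.le hX64R 3
        _ = _ := by ring
    have hl2' : (2 : ℝ) ^ 30 ≤ l ^ 2 := by
      calc (2 : ℝ) ^ 30 = (2 ^ 15) ^ 2 := by norm_num
        _ ≤ l ^ 2 := pow_le_pow_left₀ (by norm_num) hl15 2
    have hlq : l ^ (25 * k0) * l ^ 2 ≤ l ^ (27 * k0 + 6) := by
      rw [← pow_add]
      exact pow_le_pow_right₀ hl1 (by omega)
    have h6 : (M : ℝ) ^ 6 * (2 ^ 18 * (2 * ((P2 : ℝ) * l ^ C1') *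
        (6 * (Q : ℝ) * l ^ A1))) ≤ (M : ℝ) ^ 6 * (2 ^ 18 * (L : ℝ) ^ 3) := by
      have hz3 : 0 ≤ (M : ℝ) ^ 6 * ((P2 : ℝ) * l ^ C1' * l ^ A1) := by positivity
      calc (M : ℝ) ^ 6 * (2 ^ 18 * (2 * ((P2 : ℝ) * l ^ C1') * (6 * (Q : ℝ) * l ^ A1)))
          = (M : ℝ) ^ 6 * ((P2 : ℝ) * l ^ C1' * l ^ A1) * (12 * 2 ^ 18 * Q) := by ring
        _ ≤ (M : ℝ) ^ 6 * ((P2 : ℝ) * l ^ C1' * l ^ A1) * (12 * 2 ^ 18 * l ^ (25 * k0)) :=
            mul_le_mul_of_nonneg_left (mul_le_mul_of_nonneg_left hQ2 (by norm_num)) hz3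
        _ ≤ (M : ℝ) ^ 6 * ((P2 : ℝ) * l ^ C1' * l ^ A1) * l ^ (27 * k0 + 6) := by
            refine mul_le_mul_of_nonneg_left (le_trans ?_ hlq) hz3
            have h25 : 0 ≤ l ^ (25 * k0) := by positivity
            nlinarith
        _ = (P2 : ℝ) * (l ^ C1' * l ^ A1 * l ^ (27 * k0 + 6)) * (M : ℝ) ^ 6 := by ring
        _ ≤ (X : ℝ) ^ 3 := hPM
        _ ≤ _ := h1
        _ = _ := by ring
    have h7 := le_of_mul_le_mul_left h6 (by positivity)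
    exact le_of_mul_le_mul_left h7 (by norm_num)
  have hhM : (P2 : ℝ) * l ^ C1' ≤ h := by
    have h1 := Nat.lt_floor_add_one T
    rw [← hh] at h1
    linarith
  have hhR1 : (1 : ℝ) ≤ h := hPC1.trans hhM
  have hh1 : 1 ≤ h := by exact_mod_cast hhR1
  have hhL : (h : ℝ) ≤ (L : ℝ) ^ 3 * l ^ (-A1) := by
    refine hhT.trans ?_
    rw [hT, Real.rpow_neg hl0.le, ← div_eq_mul_inv]
    apply div_le_div_of_nonneg_left (by positivity) (by linarith)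
    nlinarith
  have hhQ : 6 * h * Q ≤ L ^ 3 := by
    have h1 : (6 : ℝ) * h * Q ≤ (L : ℝ) ^ 3 := by
      have h2 : (h : ℝ) * (6 * (Q : ℝ) * l ^ A1) ≤ (L : ℝ) ^ 3 := by
        rw [← le_div_iff₀ hT0]
        exact hhT
      have h3 : (h : ℝ) * (6 * (Q : ℝ)) ≤ (h : ℝ) * (6 * (Q : ℝ)) * l ^ A1 :=
        le_mul_of_one_le_right (by positivity) hlA1
      calc (6 : ℝ) * h * Q = (h : ℝ) * (6 * (Q : ℝ)) := by ring
        _ ≤ _ := h3
        _ = (h : ℝ) * (6 * (Q : ℝ) * l ^ A1) := by ring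
        _ ≤ _ := h2
    exact_mod_cast h1
  -- the core
  have hκ0 : 0 < (l ^ k0)⁻¹ := by positivity
  have hκ1 : (l ^ k0)⁻¹ ≤ 1 := inv_le_one_of_one_le₀ (one_le_pow₀ (by linarith))
  have hcore := lg_core (ae P P2 Q) X M M' L J' Q h ((l ^ k0)⁻¹)
    ((M : ℝ) ^ 3 * (h : ℝ) ^ 2 * l ^ (-(150 * k0 + A + 10 : ℝ)))
    hLn1 (by omega) hJ1 hJ2 hM'2 hLM hX32 hX64 hX8 hκ0 hκ1 (by
      rw [inv_pow, ← pow_mul, mul_comm k0 9, inv_mul_eq_div, le_div_iff₀ (by positivity)]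
      exact hr1.trans hL2) (by
      rw [inv_pow, ← pow_mul, mul_comm k0 24, div_inv_eq_mul]
      exact hQ1) hQ0 hh1 hhQ (by
      intro q c hq hqQ hc
      refine hlv X hXX1 M L hX8 hMXn hX64 hLM _ ?_ ?_ Q q c ?_ hq hqQ hc P P2 h hP hPP2 hP5 hhM hhL
      · intro y hy
        rw [mem_image] at hy
        obtain ⟨j, hj, rfl⟩ := hy
        have hj' : j ≤ J' := by
          have := mem_range.1 hj
          omega
        have h1 : j * L ≤ J' * L := Nat.mul_le_mul_right _ hj'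
        have h2 : (J' + 1) * L = J' * L + L := by ring
        omega
      · intro y hy y' hy' hlt
        rw [mem_image] at hy hy'
        obtain ⟨i, hi, rfl⟩ := hy
        obtain ⟨j, hj, rfl⟩ := hy'
        have hij : i < j := by
          by_contra hcon
          have : j * L ≤ i * L := Nat.mul_le_mul_right _ (by omega)
          omega
        have h2 : (i + 1) * L ≤ j * L := Nat.mul_le_mul_right _ hij
        have h3 : (i + 1) * L = i * L + L := by ring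
        omega
      · rw [Real.rpow_natCast]
        exact hQ2)
  refine hcore.trans ?_
  -- numerics
  have hlP : 1 + Real.log P2 ≤ l := by
    have h1 : Real.log P2 ≤ Real.log M := Real.log_le_log (by linarith) (by exact_mod_cast hP2M)
    have h2 : 2 * Real.log M ≤ l := by
      have h3 := Real.log_le_log (by positivity) hMX
      rw [Real.log_pow] at h3
      push_cast at h3
      exact h3
    linarith
  have hZ : ∑ n ∈ Icc (M ^ 3) (32 * M ^ 3), (ae P P2 Q n) ^ 2 ≤ (M : ℝ) ^ 3 * (l ^ 3 / 1000) := by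
    refine (lg_l2 P P2 Q M l hQ0 hM2 hP2M hlP).trans ?_
    have h1 : Real.log Q ≤ 25 * k0 * Real.log l := by
      have h2 := Real.log_le_log hQR0 hQ2
      rw [Real.log_pow] at h2
      push_cast at h2
      exact h2
    have h3 : 0 ≤ Real.log Q := Real.log_nonneg hQR
    have h4 : (1 + Real.log Q) ^ 2 ≤ 2 + 2 * (25 * k0) ^ 2 * (Real.log l) ^ 2 := by
      have h5 : (Real.log Q) ^ 2 ≤ (25 * k0 * Real.log l) ^ 2 := pow_le_pow_left₀ h3 h1 2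
      nlinarith [sq_nonneg (1 - Real.log Q)]
    have h6 : 8 * (Q : ℝ) ^ 4 ≤ (M : ℝ) ^ 3 := by
      have h7 : (Q : ℝ) ^ 4 ≤ l ^ (100 * k0) := by
        calc (Q : ℝ) ^ 4 ≤ (l ^ (25 * k0)) ^ 4 := pow_le_pow_left₀ hQR0.le hQ2 4
          _ = l ^ (100 * k0) := by
              rw [← pow_mul]
              congr 1
              ring
      linarith
    have hM3 : (0 : ℝ) ≤ (M : ℝ) ^ 3 := by positivity
    have hll : 4 ≤ l ^ 2 := by nlinarith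
    have e1 : 64 * (M : ℝ) ^ 3 * (1 + Real.log Q) ^ 2 ≤
        64 * (M : ℝ) ^ 3 * (2 + 2 * (25 * k0) ^ 2 * (Real.log l) ^ 2) :=
      mul_le_mul_of_nonneg_left h4 (by positivity)
    have e2 : 2 * l ^ 2 * (64 * (M : ℝ) ^ 3 * (1 + Real.log Q) ^ 2 + 4 * (Q : ℝ) ^ 4) ≤
        2 * l ^ 2 * (64 * (M : ℝ) ^ 3 * (2 + 2 * (25 * k0) ^ 2 * (Real.log l) ^ 2) +
          (M : ℝ) ^ 3) :=
      mul_le_mul_of_nonneg_left (add_le_add e1 (by linarith)) (by positivity)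
    have e3 : 256 * (M : ℝ) ^ 3 ≤ 64 * l ^ 2 * (M : ℝ) ^ 3 :=
      mul_le_mul_of_nonneg_right (by linarith) hM3
    calc 256 * (M : ℝ) ^ 3 + 2 * l ^ 2 * (64 * (M : ℝ) ^ 3 * (1 + Real.log Q) ^ 2 +
          4 * (Q : ℝ) ^ 4)
        ≤ 64 * l ^ 2 * (M : ℝ) ^ 3 + 2 * l ^ 2 * (64 * (M : ℝ) ^ 3 *
            (2 + 2 * (25 * k0) ^ 2 * (Real.log l) ^ 2) + (M : ℝ) ^ 3) := add_le_add e3 e2
      _ = (l ^ 2 * (M : ℝ) ^ 3) * (66 + 256 + 256 * (25 * k0) ^ 2 * (Real.log l) ^ 2) := by ring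
      _ ≤ (l ^ 2 * (M : ℝ) ^ 3) * (l / 1000) :=
          mul_le_mul_of_nonneg_left (by linarith) (by positivity)
      _ = _ := by ring
  have hJL : ((J' + 1 : ℕ) : ℝ) * L ≤ 2 * M := by
    have h1 : (J' + 1) * L ≤ 2 * M := by omega
    exact_mod_cast h1
  have hQ6 : (Q : ℝ) ^ 6 ≤ l ^ (150 * k0) := by
    calc (Q : ℝ) ^ 6 ≤ (l ^ (25 * k0)) ^ 6 := pow_le_pow_left₀ hQR0.le hQ2 6
      _ = l ^ (150 * k0) := by
          rw [← pow_mul]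
          congr 1
          ring
  have hlA : 0 < l ^ (-A) := Real.rpow_pos_of_pos hl0 _
  have n1 : ((l ^ k0)⁻¹) ^ 2 * l ^ 3 ≤ l ^ (-A) := by
    have h1 : ((l ^ k0)⁻¹) ^ 2 * l ^ 3 = l ^ (3 - 2 * (k0 : ℝ)) := by
      rw [inv_pow, ← pow_mul, ← Real.rpow_natCast, ← Real.rpow_neg hl0.le,
        ← Real.rpow_natCast l 3, ← Real.rpow_add hl0]
      congr 1
      push_cast
      ring
    rw [h1]
    exact Real.rpow_le_rpow_of_exponent_le (by linarith) (by linarith)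
  have n2 : (Q : ℝ) ^ 6 * l ^ (-(150 * k0 + A + 10 : ℝ)) ≤ l ^ (-A) / 2 := by
    have h1 : l ^ (-(150 * k0 + A + 10 : ℝ)) = (l ^ (150 * k0))⁻¹ * (l ^ (-A) * (l ^ 10)⁻¹) := by
      have h2 : -(150 * k0 + A + 10 : ℝ) = -((150 * k0 : ℕ) : ℝ) + (-A + -((10 : ℕ) : ℝ)) := by
        push_cast
        ring
      rw [h2, Real.rpow_add hl0, Real.rpow_add hl0, Real.rpow_neg hl0.le, Real.rpow_neg hl0.le
        ((10 : ℕ) : ℝ), Real.rpow_natCast, Real.rpow_natCast]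
    have h3 : (l ^ 10)⁻¹ ≤ 1 / 2 := by
      rw [inv_eq_one_div]
      apply div_le_div_of_nonneg_left (by norm_num) (by norm_num)
      calc (2 : ℝ) = 2 ^ 1 := by norm_num
        _ ≤ 2 ^ 10 := by norm_num
        _ ≤ l ^ 10 := pow_le_pow_left₀ (by norm_num) hl 10
    rw [h1]
    calc (Q : ℝ) ^ 6 * ((l ^ (150 * k0))⁻¹ * (l ^ (-A) * (l ^ 10)⁻¹))
        ≤ l ^ (150 * k0) * ((l ^ (150 * k0))⁻¹ * (l ^ (-A) * (l ^ 10)⁻¹)) :=
          mul_le_mul_of_nonneg_right hQ6 (by positivity)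
      _ = l ^ (-A) * (l ^ 10)⁻¹ := by
          have : l ^ (150 * k0) ≠ 0 := by positivity
          field_simp
      _ ≤ l ^ (-A) * (1 / 2) := mul_le_mul_of_nonneg_left h3 hlA.le
      _ = _ := by ring
  have hh0 : (h : ℝ) ≠ 0 := by positivity
  have hM3 : (0 : ℝ) ≤ (M : ℝ) ^ 3 := by positivity
  calc ((J' + 1 : ℕ) : ℝ) * (((l ^ k0)⁻¹) ^ 2 * (2 * (L : ℝ)) ^ 2 *
        (44 * ∑ n ∈ Icc (M ^ 3) (32 * M ^ 3), (ae P P2 Q n) ^ 2) +
        4 * (2 * (L : ℝ)) ^ 2 * (Q : ℝ) ^ 4 * ((Q : ℝ) ^ 2 *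
          ((M : ℝ) ^ 3 * (h : ℝ) ^ 2 * l ^ (-(150 * k0 + A + 10 : ℝ)))) / (h : ℝ) ^ 2)
      = (((J' + 1 : ℕ) : ℝ) * L) * L * (176 * (((l ^ k0)⁻¹) ^ 2 *
          ∑ n ∈ Icc (M ^ 3) (32 * M ^ 3), (ae P P2 Q n) ^ 2) +
          16 * ((M : ℝ) ^ 3 * ((Q : ℝ) ^ 6 * l ^ (-(150 * k0 + A + 10 : ℝ))))) := by
        field_simp
        ring
    _ ≤ (2 * M) * L * (176 * (((l ^ k0)⁻¹) ^ 2 * ((M : ℝ) ^ 3 * (l ^ 3 / 1000))) +
          16 * ((M : ℝ) ^ 3 * (l ^ (-A) / 2))) := by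
        have hS0 : 0 ≤ ∑ n ∈ Icc (M ^ 3) (32 * M ^ 3), (ae P P2 Q n) ^ 2 :=
          sum_nonneg fun _ _ => sq_nonneg _
        have hp : 0 ≤ l ^ (-(150 * k0 + A + 10 : ℝ)) := Real.rpow_nonneg hl0.le _
        refine mul_le_mul (mul_le_mul_of_nonneg_right hJL hL0.le) ?_ (by positivity)
          (by positivity)
        apply add_le_add
        · exact mul_le_mul_of_nonneg_left (mul_le_mul_of_nonneg_left hZ (by positivity))
            (by norm_num)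
        · exact mul_le_mul_of_nonneg_left (mul_le_mul_of_nonneg_left n2 hM3) (by norm_num)
    _ = (2 * M) * L * (M : ℝ) ^ 3 * (176 / 1000 * (((l ^ k0)⁻¹) ^ 2 * l ^ 3) + 8 * l ^ (-A)) := by
        ring
    _ ≤ (2 * M) * L * (M : ℝ) ^ 3 * (16 * l ^ (-A)) := by
        refine mul_le_mul_of_nonneg_left ?_ (by positivity)
        linarith
    _ = (32 * (M : ℝ) ^ 2 * L) * (M : ℝ) ^ 2 * l ^ (-A) := by ring
    _ ≤ (X : ℝ) * (M : ℝ) ^ 2 * l ^ (-A) :=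
        mul_le_mul_of_nonneg_right (mul_le_mul_of_nonneg_right hX32R (by positivity)) hlA.le

end Pool.Agent.H43.PG
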